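import Mathlib

/-! # Non-solubility from R2 and R3 (MP_d857f1_al) -/

namespace Pool.Agent.ABA

open Subgroup

/-- malnormality of `A` -/
def R2 {H : Type*} [Group H] (A : Subgroup H) : Prop :=
  ∀ h x, x ∈ A → h * x * h⁻¹ ∈ A → x ≠ 1 → h ∈ A

/-- no product of three nontrivial rotations with distinct centres is trivial -/
def R3 {H : Type*} [Group H] (A : Subgroup H) : Prop :=
  ∀ h₁ h₂ h₃ x₁ x₂ x₃ : H, x₁ ∈ A → x₂ ∈ A → x₃ ∈ A → x₁ ≠ 1 → x₂ ≠ 1 → x₃ ≠ 1 →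
    h₁⁻¹ * h₂ ∉ A → h₂⁻¹ * h₃ ∉ A → h₁⁻¹ * h₃ ∉ A →
    h₁ * x₁ * h₁⁻¹ * (h₂ * x₂ * h₂⁻¹) * (h₃ * x₃ * h₃⁻¹) ≠ 1

theorem exists_abelian_normal (G : Type*) [Group G] [Nontrivial G] (hs : Group.IsSolvable G) :
    ∃ N : Subgroup G, N.Normal ∧ N ≠ ⊥ ∧ ∀ x ∈ N, ∀ y ∈ N, x * y = y * x := by
  classical
  obtain ⟨hex⟩ := hs
  set n := Nat.find hex with hn
  have hn1 : derivedSeries G n = ⊥ := Nat.find_spec hex
  have hn0 : n ≠ 0 := by
    intro h0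
    rw [h0, derivedSeries_zero] at hn1
    exact top_ne_bot hn1
  obtain ⟨m, hm⟩ := Nat.exists_eq_succ_of_ne_zero hn0
  refine ⟨derivedSeries G m, derivedSeries_normal G m, ?_, ?_⟩
  · intro hb
    exact Nat.find_min hex (by omega) hb
  · intro x hx y hy
    have : (x * y * x⁻¹ * y⁻¹ : G) ∈ derivedSeries G (m + 1) := by
      rw [derivedSeries_succ]
      exact Subgroup.commutator_mem_commutator hx hy
    rw [← Nat.succ_eq_add_one, ← hm, hn1, Subgroup.mem_bot] at this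
    calc x * y = (x * y * x⁻¹ * y⁻¹) * (y * x) := by group
      _ = y * x := by rw [this, one_mul]

theorem no_abelian_normal {H : Type*} [Group H] {A : Subgroup H}
    (h2 : R2 A) (h3 : R3 A) (hA : A ≠ ⊥) (hAt : A ≠ ⊤)
    (hsq : ∀ x ∈ A, x * x = 1 → x = 1) {N : Subgroup H} (hN : N.Normal) (hNb : N ≠ ⊥)
    (hc : ∀ x ∈ N, ∀ y ∈ N, x * y = y * x) : False := by
  obtain ⟨a, haA, ha1⟩ : ∃ a ∈ A, a ≠ 1 := by
    by_contra hcon
    push Not at hcon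
    exact hA ((Subgroup.eq_bot_iff_forall _).2 hcon)
  obtain ⟨n, hnN, hn1⟩ : ∃ a ∈ N, a ≠ 1 := by
    by_contra hcon
    push Not at hcon
    exact hNb ((Subgroup.eq_bot_iff_forall _).2 hcon)
  -- N ∩ A = 1
  have hNA : ∀ x ∈ N, x ∈ A → x = 1 := by
    intro x hxN hxA
    by_contra hx1
    apply hAt
    rw [Subgroup.eq_top_iff']
    intro h
    have hcN : h * x * h⁻¹ ∈ N := hN.conj_mem x hxN h
    have hcomm := hc x hxN _ hcN
    -- (h x h⁻¹) x (h x h⁻¹)⁻¹ = x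
    have h4 : (h * x * h⁻¹) * x * (h * x * h⁻¹)⁻¹ = x := by
      rw [← hcomm]; group
    have h5 : h * x * h⁻¹ ∈ A := h2 _ x hxA (by rw [h4]; exact hxA) hx1
    exact h2 h x hxA h5 hx1
  have hnA : n ∉ A := fun h => hn1 (hNA n hnN h)
  -- commuting relation
  have hconj : a * n * a⁻¹ ∈ N := hN.conj_mem n hnN a
  have hcm := hc n hnN _ hconj
  have ha2 : a * a ≠ 1 := fun h => ha1 (hsq a haA h)
  -- y = n a n⁻¹, z = n² a n⁻²
  have key : (n * a * n⁻¹) * ((n * n) * a⁻¹ * (n * n)⁻¹) * (n * a * n⁻¹) = a := by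
    have : n * (a * n * a⁻¹) = (a * n * a⁻¹) * n := hcm
    calc (n * a * n⁻¹) * ((n * n) * a⁻¹ * (n * n)⁻¹) * (n * a * n⁻¹)
        = (n * (a * n * a⁻¹)) * n⁻¹ * (a * n⁻¹) := by group
      _ = ((a * n * a⁻¹) * n) * n⁻¹ * (a * n⁻¹) := by rw [this]
      _ = a := by group
  have key2 : (n * a * n⁻¹ * (n * n)) * a⁻¹ * (n * a * n⁻¹ * (n * n))⁻¹ * (n * (a * a) * n⁻¹)
      = a := by
    refine Eq.trans ?_ key
    group
  by_cases hdeg : (n * a * n⁻¹ * (n * n)) ∈ A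
  · -- degenerate
    have h6 : n * (a * a) * n⁻¹ ∈ A := by
      have e : n * (a * a) * n⁻¹ =
          ((n * a * n⁻¹ * (n * n)) * a⁻¹ * (n * a * n⁻¹ * (n * n))⁻¹)⁻¹ * a := by
        rw [eq_inv_mul_iff_mul_eq]
        exact key2
      rw [e]
      exact A.mul_mem (A.inv_mem (A.mul_mem (A.mul_mem hdeg (A.inv_mem haA)) (A.inv_mem hdeg))) haA
    exact hnA (h2 n (a * a) (A.mul_mem haA haA) h6 ha2)
  · -- three rotations
    refine h3 (n * a * n⁻¹ * (n * n)) n 1 a⁻¹ (a * a) a⁻¹ (A.inv_mem haA) (A.mul_mem haA haA)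
      (A.inv_mem haA) (inv_ne_one.2 ha1) ha2 (inv_ne_one.2 ha1) ?_ ?_ ?_ ?_
    · have e : (n * a * n⁻¹ * (n * n))⁻¹ * n = n⁻¹ * a⁻¹ := by group
      rw [e]
      intro h
      apply hnA
      have := A.mul_mem h haA
      have h7 : n⁻¹ ∈ A := by simpa using this
      simpa using A.inv_mem h7
    · intro h
      apply hnA
      have h7 : n⁻¹ ∈ A := by simpa using h
      simpa using A.inv_mem h7
    · intro h
      apply hdeg
      have h7 : (n * a * n⁻¹ * (n * n))⁻¹ ∈ A := by simpa using h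
      exact (A.inv_mem_iff).1 h7
    · rw [key2]; group

theorem not_solvable {H : Type*} [Group H] {A : Subgroup H}
    (h2 : R2 A) (h3 : R3 A) (hA : A ≠ ⊥) (hAt : A ≠ ⊤)
    (hsq : ∀ x ∈ A, x * x = 1 → x = 1) : ¬ Group.IsSolvable H := by
  intro hs
  haveI : Nontrivial H := by
    obtain ⟨a, -, ha⟩ := (Subgroup.ne_bot_iff_exists_ne_one.1 hA).imp fun x hx => (⟨x.2, hx⟩ : _ ∧ _)
    exact ⟨⟨a, 1, fun h => ha (by ext; simpa using h)⟩⟩
  obtain ⟨N, hN, hNb, hc⟩ := exists_abelian_normal H hs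
  exact no_abelian_normal h2 h3 hA hAt hsq hN hNb hc

end Pool.Agent.ABA
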