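import Mathlib
import Pool.Agent.Helper89_ABA.NonSol

/-! # The geometric class (MP_d857f1_al)

`Geo A B` collects the purely group theoretic properties of a group `H` with two subgroups `A`, `B`
which are inherited by the construction. It is used for `H = G` (a quotient of the free group),
for `H = P` (infinite exponents) and for `H = P_Λ`. -/

namespace Pool.Agent.ABA

/-- `h` lies in the set `A B A` -/
def IsABA {H : Type*} [Group H] (A B : Subgroup H) (h : H) : Prop :=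
  ∃ x ∈ A, ∃ y ∈ B, ∃ z ∈ A, h = x * y * z

/-- E6: no alternating relation of length six between `A` and `h A h⁻¹` -/
def E6 {H : Type*} [Group H] (A : Subgroup H) (h : H) : Prop :=
  ∀ x₁ ∈ A, ∀ y₁ ∈ A, ∀ x₂ ∈ A, ∀ y₂ ∈ A, ∀ x₃ ∈ A, ∀ y₃ ∈ A,
    x₁ ≠ 1 → y₁ ≠ 1 → x₂ ≠ 1 → y₂ ≠ 1 → x₃ ≠ 1 → y₃ ≠ 1 →
    x₁ * (h * y₁ * h⁻¹) * x₂ * (h * y₂ * h⁻¹) * x₃ * (h * y₃ * h⁻¹) ≠ 1

/-- the geometric class -/
structure Geo {H : Type*} [Group H] (A B : Subgroup H) : Prop where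
  /-- AB: `A ∩ B = 1` -/
  ab : ∀ x ∈ A, x ∈ B → x = 1
  /-- R2: `A` is malnormal -/
  aa : R2 A
  /-- R2: `B` is malnormal -/
  bb : R2 B
  /-- R2: no conjugate of `A` meets `B` -/
  ab' : ∀ h : H, ∀ x ∈ A, h * x * h⁻¹ ∈ B → x = 1
  /-- E1: girth at least six -/
  e1 : ∀ x ∈ A, ∀ y ∈ B, ∀ x' ∈ A, ∀ y' ∈ B, x ≠ 1 → y ≠ 1 → x' ≠ 1 → y' ≠ 1 →
    x * y * x' * y' ≠ 1
  /-- R3: no product of three rotations with distinct centres is trivial -/
  r3 : R3 A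
  /-- T2: no involution -/
  t2 : ∀ h : H, h * h = 1 → h = 1
  /-- E6 for all pairs of points which are not collinear -/
  e6 : ∀ h : H, ¬ IsABA A B h → E6 A h
  /-- EL: the product of two conjugate rotations, one of them in `A`, is not in `B` -/
  el : ∀ k : H, ∀ s ∈ A, ∀ t ∈ B, s ≠ 1 → t ≠ 1 → k * s * k⁻¹ * s ≠ t

end Pool.Agent.ABA
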