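import Mathlib

/-! # Far geometry I: linear isoperimetry mod 2 and the area lemma (MP_d857f1_al) -/

namespace Pool.Agent.ABA.Far

open SimpleGraph
open scoped Classical

variable {V : Type*} {G : SimpleGraph V}

/-- edge indicator: the edge crosses level `r` of `f` and its lower end satisfies `T` -/
noncomputable def chi (f : V → ℤ) (T : V → Prop) (r : ℤ) : Sym2 V → ZMod 2 :=
  Sym2.lift ⟨fun a b => if (f a = r ∧ f b = r + 1 ∧ T a) ∨ (f b = r ∧ f a = r + 1 ∧ T b)
    then 1 else 0, fun a b => by simp only [or_comm]⟩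

theorem chi_mk (f : V → ℤ) (T : V → Prop) (r : ℤ) (a b : V) :
    chi f T r s(a, b) = if (f a = r ∧ f b = r + 1 ∧ T a) ∨ (f b = r ∧ f a = r + 1 ∧ T b)
      then 1 else 0 := by
  rfl

/-- the crossing number of a list of edges -/
noncomputable def cr (f : V → ℤ) (T : V → Prop) (r : ℤ) (l : List (Sym2 V)) : ZMod 2 :=
  (l.map (chi f T r)).sum

theorem cr_append (f : V → ℤ) (T : V → Prop) (r : ℤ) (l l' : List (Sym2 V)) :
    cr f T r (l ++ l') = cr f T r l + cr f T r l' := by
  simp [cr]

theorem cr_cons (f : V → ℤ) (T : V → Prop) (r : ℤ) (e : Sym2 V) (l : List (Sym2 V)) :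
    cr f T r (e :: l) = chi f T r e + cr f T r l := by
  simp [cr]

theorem cr_reverse (f : V → ℤ) (T : V → Prop) (r : ℤ) (l : List (Sym2 V)) :
    cr f T r l.reverse = cr f T r l := by
  simp only [cr, List.map_reverse, List.sum_reverse]

theorem sum_even {α : Type*} [DecidableEq α] (χ : α → ZMod 2) (l : List α)
    (h : ∀ e, Even (l.count e)) : (l.map χ).sum = 0 := by
  rw [Finset.sum_list_map_count]
  apply Finset.sum_eq_zero
  intro e _
  obtain ⟨k, hk⟩ := h e
  rw [hk, ← two_mul, mul_smul, two_smul]
  exact CharTwo.add_self_eq_zero (R := ZMod 2) _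

/-- `f` changes by at most one along edges -/
def Lip (G : SimpleGraph V) (f : V → ℤ) : Prop := ∀ a b, G.Adj a b → |f a - f b| ≤ 1

/-- a closed walk crosses every level an even number of times -/
theorem cr_true {f : V → ℤ} (hf : Lip G f) (r : ℤ) {T : V → Prop} {u v : V} (p : G.Walk u v)
    (hT : ∀ w ∈ p.support, T w) :
    cr f T r p.edges = (if f u ≤ r then 1 else 0) + (if f v ≤ r then 1 else 0) := by
  induction p with
  | nil =>
    simp only [Walk.edges_nil, cr, List.map_nil, List.sum_nil]
    exact (CharTwo.add_self_eq_zero (R := ZMod 2) _).symm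
  | @cons a b c hab q ih =>
    rw [Walk.edges_cons, cr_cons, chi_mk]
    have hTa : T a := hT a (by simp)
    have hTb : T b := hT b (by simp)
    have ih' := ih (fun w hw => hT w (by simp [hw]))
    rw [ih']
    have h1 := abs_le.1 (hf a b hab)
    simp only [hTa, hTb, and_true]
    by_cases ha : f a ≤ r <;> by_cases hb : f b ≤ r <;> simp only [ha, hb, if_true, if_false]
    · rw [if_neg (by omega), zero_add]
    · rw [if_pos (by omega)]; ring
    · rw [if_pos (by omega), ← add_assoc, CharTwo.add_self_eq_zero (R := ZMod 2)]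
    · rw [if_neg (by omega), zero_add]

theorem cr_zero {f : V → ℤ} (r : ℤ) {T : V → Prop} {u v : V} (p : G.Walk u v)
    (hT : ∀ w ∈ p.support, f w = r → ¬ T w) : cr f T r p.edges = 0 := by
  induction p with
  | nil => simp [cr]
  | @cons a b c hab q ih =>
    rw [Walk.edges_cons, cr_cons, chi_mk, ih (fun w hw => hT w (by simp [hw])), add_zero, if_neg]
    rintro (⟨h1, h2, h3⟩ | ⟨h1, h2, h3⟩)
    · exact hT a (by simp) h1 h3
    · exact hT b (by simp) h1 h3

theorem desc_le {f : V → ℤ} {u v : V} (p : G.Walk u v)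
    (hd : ∀ d ∈ p.darts, f d.fst = f d.snd + 1) : f v ≤ f u := by
  induction p with
  | nil => exact le_rfl
  | @cons x y z hxy q' ih2 =>
    have := hd ⟨(x, y), hxy⟩ (by simp)
    simp only at this
    have h2 := ih2 (fun d hd'' => hd d (by simp [hd'']))
    omega

/-- along a descending walk there is exactly one crossing -/
theorem cr_desc {f : V → ℤ} (r : ℤ) {T : V → Prop} {P : Prop} {u v : V} (p : G.Walk u v)
    (hd : ∀ d ∈ p.darts, f d.fst = f d.snd + 1) (hT : ∀ w ∈ p.support, f w = r → (T w ↔ P))
    :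
    cr f T r p.edges = if f v ≤ r ∧ r < f u ∧ P then 1 else 0 := by
  induction p with
  | nil =>
    rw [if_neg (by rintro ⟨h1, h2, -⟩; omega)]
    simp [cr]
  | @cons a b c hab q ih =>
    rw [Walk.edges_cons, cr_cons, chi_mk]
    have hd' : ∀ d ∈ q.darts, f d.fst = f d.snd + 1 := fun d hd'' => hd d (by simp [hd''])
    have h0 : f a = f b + 1 := hd ⟨(a, b), hab⟩ (by simp)
    have ih' := ih hd' (fun w hw => hT w (by simp [hw]))
    rw [ih']
    have hcb : f c ≤ f b := desc_le q hd'
    have hTb := hT b (by simp)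
    by_cases hP : P
    · simp only [hP, and_true]
      by_cases hr : f b = r
      · have hTb' : T b := (hTb hr).2 hP
        rw [if_pos (Or.inr ⟨hr, by omega, hTb'⟩), if_neg (by omega), if_pos (by omega), add_zero]
      · rw [if_neg (by rintro (h | h) <;> omega), zero_add]
        congr 1
        apply propext
        constructor <;> intro h <;> omega
    · simp only [hP, and_false, if_false, add_zero]
      rw [if_neg]
      rintro (⟨h1, h2, -⟩ | ⟨h1, -, h3⟩)
      · omega
      · exact hP ((hTb h1).1 h3)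

/-- linear isoperimetry mod 2: every closed walk is a mod 2 sum of few short closed walks -/
def LI (G : SimpleGraph V) (K ρ : ℕ) : Prop :=
  ∀ (v : V) (p : G.Walk v v), ∃ cs : List (Σ u : V, G.Walk u u),
    cs.length ≤ K * p.length ∧ (∀ c ∈ cs, c.2.length ≤ ρ) ∧
    ∀ e : Sym2 V,
      Even ((p.edges ++ (cs.map fun c => c.2.edges).flatten).count e)

theorem cr_flatten (f : V → ℤ) (T : V → Prop) (r : ℤ) (cs : List (Σ u : V, G.Walk u u)) :
    cr f T r (cs.map fun c => c.2.edges).flatten = (cs.map fun c => cr f T r c.2.edges).sum := by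
  induction cs with
  | nil => simp [cr]
  | cons c cs ih => simp [cr_append, ih]

theorem lip_support {f : V → ℤ} (hf : Lip G f) {u v w : V} (p : G.Walk u v) (hw : w ∈ p.support) :
    |f u - f w| ≤ p.length := by
  induction p with
  | nil =>
    simp only [Walk.support_nil, List.mem_singleton] at hw
    subst hw; simp
  | @cons a b c hab q ih =>
    rw [Walk.support_cons, List.mem_cons] at hw
    rcases hw with rfl | hw
    · simp
      positivity
    · have h1 := ih hw
      have h2 := hf a b hab
      rw [Walk.length_cons]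
      push_cast
      rw [abs_le] at *
      constructor <;> omega

/-- The area lemma: the set of pairs `(r,t)` with odd crossing number is small. -/
theorem area {K ρ : ℕ} (hLI : LI G K ρ) {f g : V → ℤ} (hf : Lip G f) (hg : Lip G g)
    {v : V} (p : G.Walk v v) (S : Finset (ℤ × ℤ))
    (hS : ∀ q ∈ S, cr f (fun w => g w ≤ q.2) q.1 p.edges ≠ 0) :
    S.card ≤ K * p.length * (2 * ρ + 1) ^ 2 := by
  obtain ⟨cs, hlen, hρ, heven⟩ := hLI v p
  let box : (Σ u : V, G.Walk u u) → Finset (ℤ × ℤ) := fun c =>
    Finset.Icc (f c.1 - ρ) (f c.1 + ρ) ×ˢ Finset.Icc (g c.1 - ρ) (g c.1 + ρ)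
  have hbox : ∀ c, (box c).card = (2 * ρ + 1) ^ 2 := by
    intro c
    simp only [box, Finset.card_product, Int.card_Icc]
    have h1 : (f c.fst + (ρ:ℤ) + 1 - (f c.fst - ρ)).toNat = 2 * ρ + 1 := by omega
    have h2 : (g c.fst + (ρ:ℤ) + 1 - (g c.fst - ρ)).toNat = 2 * ρ + 1 := by omega
    rw [h1, h2, sq]
  have hsub : S ⊆ cs.toFinset.biUnion box := by
    intro q hq
    have h0 : cr f (fun w => g w ≤ q.2) q.1
        (p.edges ++ (cs.map fun c => c.2.edges).flatten) = 0 :=
      sum_even _ _ heven
    rw [cr_append, cr_flatten] at h0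
    have h1 : (cs.map fun c => cr f (fun w => g w ≤ q.2) q.1 c.2.edges).sum ≠ 0 := by
      intro h2
      rw [h2, add_zero] at h0
      exact hS q hq h0
    have h3 : ∃ c ∈ cs, cr f (fun w => g w ≤ q.2) q.1 c.2.edges ≠ 0 := by
      by_contra hcon
      push Not at hcon
      apply h1
      apply List.sum_eq_zero
      intro x hx
      obtain ⟨c, hc, rfl⟩ := List.mem_map.1 hx
      exact hcon c hc
    obtain ⟨c, hc, hcr⟩ := h3
    simp only [Finset.mem_biUnion, List.mem_toFinset]
    refine ⟨c, hc, ?_⟩
    have hcl := hρ c hc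
    have hfs : ∀ w ∈ c.2.support, |f c.1 - f w| ≤ ρ := fun w hw =>
      (lip_support hf c.2 hw).trans (by exact_mod_cast hcl)
    have hgs : ∀ w ∈ c.2.support, |g c.1 - g w| ≤ ρ := fun w hw =>
      (lip_support hg c.2 hw).trans (by exact_mod_cast hcl)
    simp only [box, Finset.mem_product, Finset.mem_Icc]
    by_contra hcon
    apply hcr
    by_cases hr : f c.1 - ρ ≤ q.1 ∧ q.1 ≤ f c.1 + ρ
    · by_cases ht : q.2 < g c.1 - ρ
      · apply cr_zero
        intro w hw _ hgw
        have := abs_le.1 (hgs w hw)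
        omega
      · have ht' : g c.1 + ρ < q.2 := by
          by_contra h5
          exact hcon ⟨hr, by omega, by omega⟩
        rw [cr_true hf]
        · exact CharTwo.add_self_eq_zero (R := ZMod 2) _
        · intro w hw
          have := abs_le.1 (hgs w hw)
          omega
    · apply cr_zero
      intro w hw hfw
      exfalso
      apply hr
      have := abs_le.1 (hfs w hw)
      constructor <;> omega
  calc S.card ≤ (cs.toFinset.biUnion box).card := Finset.card_le_card hsub
    _ ≤ ∑ c ∈ cs.toFinset, (box c).card := Finset.card_biUnion_le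
    _ = cs.toFinset.card * (2 * ρ + 1) ^ 2 := by simp [hbox]
    _ ≤ cs.length * (2 * ρ + 1) ^ 2 := by
        gcongr; exact List.toFinset_card_le cs
    _ ≤ K * p.length * (2 * ρ + 1) ^ 2 := by gcongr

end Pool.Agent.ABA.Far
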