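import Mathlib
import Pool.Agent.Helper89_ABA.FarArea

/-! # Far geometry II: bottleneck lemma and four point inequality (MP_d857f1_al) -/

namespace Pool.Agent.ABA.Far

open SimpleGraph
open scoped Classical

variable {V : Type*} {G : SimpleGraph V}

theorem geo_darts (hc : G.Connected) {u v : V} (p : G.Walk u v) (hp : p.length = G.dist u v) :
    ∀ d ∈ p.darts, (G.dist v d.fst : ℤ) = G.dist v d.snd + 1 := by
  induction p with
  | nil => simp
  | @cons a b c hab q ih =>
    have h1 : G.dist b c ≤ q.length := dist_le q
    have h2 : G.dist a c ≤ G.dist a b + G.dist b c := hc.dist_triangle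
    have h3 : G.dist a b ≤ 1 := by
      have := dist_le (Walk.cons hab (Walk.nil : G.Walk b b)); simpa using this
    rw [Walk.length_cons] at hp
    intro d hd
    rw [Walk.darts_cons, List.mem_cons] at hd
    rcases hd with rfl | hd
    · simp only
      rw [dist_comm (v := a), dist_comm (v := b)]
      omega
    · exact ih (by omega) d hd

theorem geo_support (hc : G.Connected) {u v w : V} (p : G.Walk u v) (hp : p.length = G.dist u v)
    (hw : w ∈ p.support) : G.dist u w + G.dist w v = G.dist u v := by
  have h1 := dist_le (p.takeUntil w hw)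
  have h2 := dist_le (p.dropUntil w hw)
  have h3 : (p.takeUntil w hw).length + (p.dropUntil w hw).length = p.length := by
    rw [← Walk.length_append, Walk.take_spec]
  have h4 : G.dist u v ≤ G.dist u w + G.dist w v := hc.dist_triangle
  omega

theorem lip_dist (hc : G.Connected) (m : V) : Lip G (fun w => (G.dist m w : ℤ)) := by
  intro a b hab
  have h1 : G.dist m a ≤ G.dist m b + G.dist b a := hc.dist_triangle
  have h2 : G.dist m b ≤ G.dist m a + G.dist a b := hc.dist_triangle
  have h3 : G.dist a b ≤ 1 := by
    have := dist_le (Walk.cons hab (Walk.nil : G.Walk b b)); simpa using this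
  rw [dist_comm (u := b)] at h1
  rw [abs_le]
  constructor <;> (simp only; omega)

/-- The bottleneck lemma: a point `m` of a geodesic `[x,y]` is close to every walk from `x`
to `y`. -/
theorem bottleneck (hc : G.Connected) {K ρ : ℕ} (hLI : LI G K ρ) {x m y : V}
    (hm : G.dist x m + G.dist m y = G.dist x y) (τ : G.Walk x y) (h : ℕ)
    (hh : ∀ w ∈ τ.support, h ≤ G.dist m w) :
    h * (h - 1) ≤ K * (G.dist x y + τ.length) * (2 * ρ + 1) ^ 2 := by
  obtain ⟨σ₁, hσ₁⟩ := hc.exists_walk_length_eq_dist x m
  obtain ⟨σ₂, hσ₂⟩ := hc.exists_walk_length_eq_dist m y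
  set a : ℤ := (G.dist x m : ℤ) with ha
  set f : V → ℤ := fun w => (G.dist m w : ℤ) with hf
  set g : V → ℤ := fun w => (G.dist x w : ℤ) with hg
  let S : Finset (ℤ × ℤ) := ((Finset.range h).sigma (fun r => Finset.range (2 * r))).image
    (fun q => ((q.1 : ℤ), a - q.1 + q.2))
  have hScard : S.card = h * (h - 1) := by
    rw [Finset.card_image_of_injective, Finset.card_sigma]
    · simp only [Finset.card_range]
      rw [← Finset.mul_sum, mul_comm, Finset.sum_range_id_mul_two]
    · rintro ⟨r, j⟩ ⟨r', j'⟩ hq
      simp only [Prod.mk.injEq] at hq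
      obtain ⟨h1, h2⟩ := hq
      have h1' : r = r' := by exact_mod_cast h1
      subst h1'
      have h2' : j = j' := by omega
      subst h2'
      rfl
  have hxh : h ≤ G.dist m x := hh x (by simp)
  have hyh : h ≤ G.dist m y := hh y (by simp)
  have key := area hLI (lip_dist hc m) (lip_dist hc x) (σ₁.append (σ₂.append τ.reverse)) S ?_
  · rw [hScard] at key
    have hl : (σ₁.append (σ₂.append τ.reverse)).length = G.dist x y + τ.length := by
      simp only [Walk.length_append, Walk.length_reverse]
      omega
    rw [hl] at key
    exact key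
  · intro q hq
    simp only [S, Finset.mem_image, Finset.mem_sigma, Finset.mem_range] at hq
    obtain ⟨⟨r, j⟩, ⟨hr, hj⟩, rfl⟩ := hq
    simp only at hr hj ⊢
    rw [Walk.edges_append, Walk.edges_append, cr_append, cr_append]
    have c1 : cr f (fun w => g w ≤ a - r + j) r σ₁.edges = 1 := by
      rw [cr_desc (P := True)]
      · rw [if_pos]
        refine ⟨?_, ?_, trivial⟩
        · simp only [hf, dist_self]; omega
        · simp only [hf]; omega
      · exact geo_darts hc σ₁ hσ₁
      · intro w hw hfw
        have h1 := geo_support hc σ₁ hσ₁ hw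
        simp only [hf] at hfw
        rw [dist_comm] at hfw
        simp only [hg, iff_true]
        omega
    have c2 : cr f (fun w => g w ≤ a - r + j) r σ₂.edges = 0 := by
      rw [← cr_reverse, ← Walk.edges_reverse, cr_desc (P := False)]
      · simp
      · have hr' : σ₂.reverse.length = G.dist y m := by
          rw [Walk.length_reverse, hσ₂, dist_comm]
        exact geo_darts hc σ₂.reverse hr'
      · intro w hw hfw
        have hw' : w ∈ σ₂.support := by simpa using hw
        have h1 := geo_support hc σ₂ hσ₂ hw'
        have h2 : G.dist x y ≤ G.dist x w + G.dist w y := hc.dist_triangle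
        simp only [hf] at hfw
        simp only [hg, iff_false, not_le]
        omega
    have c3 : cr f (fun w => g w ≤ a - r + j) r τ.reverse.edges = 0 := by
      apply cr_zero
      intro w hw hfw
      have hw' : w ∈ τ.support := by simpa using hw
      have := hh w hw'
      simp only [hf] at hfw
      omega
    change cr f (fun w => g w ≤ a - r + j) r σ₁.edges + (cr f (fun w => g w ≤ a - r + j) r σ₂.edges
      + cr f (fun w => g w ≤ a - r + j) r τ.reverse.edges) ≠ 0
    rw [c1, c2, c3]
    decide

end Pool.Agent.ABA.Far
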