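import Mathlib
import Pool.Agent.Helper89_ABA.FarSlim

/-! # Far geometry III: the four point inequality (MP_d857f1_al) -/

namespace Pool.Agent.ABA.Far

open SimpleGraph
open scoped Classical

variable {V : Type*} {G : SimpleGraph V}

theorem exists_vertex (hc : G.Connected) (x y : V) (i : ℕ) (hi : i ≤ G.dist x y) :
    ∃ m, G.dist x m = i ∧ G.dist m y = G.dist x y - i := by
  obtain ⟨p, hp⟩ := hc.exists_walk_length_eq_dist x y
  refine ⟨p.getVert i, ?_, ?_⟩
  · have h1 := dist_le (p.take i)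
    have h2 := dist_le (p.drop i)
    have h3 : G.dist x y ≤ G.dist x (p.getVert i) + G.dist (p.getVert i) y := hc.dist_triangle
    rw [Walk.take_length] at h1
    rw [Walk.drop_length] at h2
    omega
  · have h1 := dist_le (p.take i)
    have h2 := dist_le (p.drop i)
    have h3 : G.dist x y ≤ G.dist x (p.getVert i) + G.dist (p.getVert i) y := hc.dist_triangle
    rw [Walk.take_length] at h1
    rw [Walk.drop_length] at h2
    omega

/-- a discrete switching argument -/
theorem switch (n : ℕ) (P Q : ℕ → Prop) (h0 : P 0) (hn : Q n) (h : ∀ i ≤ n, P i ∨ Q i) :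
    ∃ i ≤ n, P i ∧ (Q i ∨ (i + 1 ≤ n ∧ Q (i + 1))) := by
  by_contra hcon
  push Not at hcon
  have key : ∀ i ≤ n, P i ∧ ¬ Q i := by
    intro i
    induction i with
    | zero =>
      intro _
      exact ⟨h0, (hcon 0 (Nat.zero_le n) h0).1⟩
    | succ i ih =>
      intro hi
      have h1 := ih (by omega)
      have h2 := (hcon i (by omega) h1.1).2 hi
      have h3 := (h (i + 1) hi).resolve_right h2
      exact ⟨h3, h2⟩
  exact (key n le_rfl).2 hn

/-- the four point condition with error `E` for points at mutual distance at most `N` -/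
def FP {V : Type*} (d : V → V → ℕ) (N E : ℕ) : Prop :=
  ∀ x y z w : V, d x y ≤ N → d x z ≤ N → d x w ≤ N → d y z ≤ N → d y w ≤ N → d z w ≤ N →
    d x z + d y w ≤ max (d x y + d z w) (d x w + d y z) + E

/-- a point of a geodesic `[x,z]` is close to one of the sides `[x,y]`, `[y,z]` -/
theorem near_side (hc : G.Connected) {K ρ N h : ℕ} (hLI : LI G K ρ)
    (hh : K * (3 * N) * (2 * ρ + 1) ^ 2 < h * (h - 1)) {x y z m : V}
    (hxy : G.dist x y ≤ N) (hyz : G.dist y z ≤ N) (hxz : G.dist x z ≤ N)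
    (hm : G.dist x m + G.dist m z = G.dist x z) :
    (∃ p, G.dist x p + G.dist p y = G.dist x y ∧ G.dist m p ≤ h) ∨
    (∃ p, G.dist y p + G.dist p z = G.dist y z ∧ G.dist m p ≤ h) := by
  by_contra hcon
  push Not at hcon
  obtain ⟨h1, h2⟩ := hcon
  obtain ⟨p, hp⟩ := hc.exists_walk_length_eq_dist x y
  obtain ⟨q, hq⟩ := hc.exists_walk_length_eq_dist y z
  have key := bottleneck hc hLI hm (p.append q) h ?_
  · have h3 : K * (G.dist x z + (p.append q).length) * (2 * ρ + 1) ^ 2
        ≤ K * (3 * N) * (2 * ρ + 1) ^ 2 := by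
      gcongr
      rw [Walk.length_append]
      omega
    omega
  · intro w hw
    rw [Walk.mem_support_append_iff] at hw
    rcases hw with hw | hw
    · exact (h1 w (geo_support hc p hp hw)).le
    · exact (h2 w (geo_support hc q hq hw)).le

theorem fp_of_LI (hc : G.Connected) {K ρ N h : ℕ} (hLI : LI G K ρ)
    (hh : K * (3 * N) * (2 * ρ + 1) ^ 2 < h * (h - 1)) : FP G.dist N (4 * h + 2) := by
  intro x y z w hxy hxz hxw hyz hyw hzw
  -- choose vertices on a geodesic from x to z
  obtain ⟨σ, hσ⟩ := hc.exists_walk_length_eq_dist x z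
  have hgeo : ∀ i ≤ G.dist x z, G.dist x (σ.getVert i) + G.dist (σ.getVert i) z = G.dist x z := by
    intro i hi
    have h1 := dist_le (σ.take i)
    have h2 := dist_le (σ.drop i)
    have h3 : G.dist x z ≤ G.dist x (σ.getVert i) + G.dist (σ.getVert i) z := hc.dist_triangle
    rw [Walk.take_length] at h1
    rw [Walk.drop_length] at h2
    omega
  have hsw := switch (G.dist x z)
    (fun i => ∃ p, G.dist x p + G.dist p y = G.dist x y ∧ G.dist (σ.getVert i) p ≤ h)
    (fun i => ∃ p, G.dist y p + G.dist p z = G.dist y z ∧ G.dist (σ.getVert i) p ≤ h)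
    ⟨x, by simp, by simp⟩ ⟨z, by simp, by rw [← hσ, Walk.getVert_length]; simp⟩
    (fun i hi => near_side hc hLI hh hxy hyz hxz (hgeo i hi))
  obtain ⟨i, hi, ⟨p, hp, hpm⟩, hq⟩ := hsw
  set m := σ.getVert i with hmdef
  have hm := hgeo i hi
  rw [← hmdef] at hm
  have hq' : ∃ q, G.dist y q + G.dist q z = G.dist y z ∧ G.dist m q ≤ h + 1 := by
    rcases hq with ⟨q, h1, h2⟩ | ⟨hi1, q, h1, h2⟩
    · exact ⟨q, h1, by omega⟩
    · refine ⟨q, h1, ?_⟩
      have hadj : G.Adj m (σ.getVert (i + 1)) := by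
        apply Walk.adj_getVert_succ
        omega
      have h3 : G.dist m q ≤ G.dist m (σ.getVert (i + 1)) + G.dist (σ.getVert (i + 1)) q :=
        hc.dist_triangle
      have h4 : G.dist m (σ.getVert (i + 1)) ≤ 1 := by
        have := dist_le (Walk.cons hadj (Walk.nil : G.Walk _ _)); simpa using this
      omega
  obtain ⟨q, hq1, hq2⟩ := hq'
  have t := fun a b c : V => (hc.dist_triangle (u := a) (v := b) (w := c))
  have sy := fun a b : V => (dist_comm (G := G) (u := a) (v := b))
  have a1 := t x p m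
  have a2 := t m p y
  have a3 := sy p m
  have a4 := t y q m
  have a5 := t m q z
  have a6 := sy q m
  have a7 := sy y m
  have a8 := t y m w
  rcases near_side hc hLI hh hxw (by rw [dist_comm]; exact hzw) hxz hm with ⟨r, hr1, hr2⟩ | ⟨r, hr1, hr2⟩
  · have b1 := t x r m
    have b2 := t m r w
    have b3 := sy r m
    have : G.dist x z + G.dist y w ≤ G.dist x w + G.dist y z + (4 * h + 2) := by omega
    omega
  · have b1 := t m r z
    have b2 := t m r w
    have b3 := sy r m
    have b4 := sy w r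
    have b5 := sy w z
    have : G.dist x z + G.dist y w ≤ G.dist x y + G.dist z w + (4 * h + 2) := by omega
    omega

/-- the error of the four point condition is sublinear -/
theorem fp_sublinear (K ρ c M : ℕ) : ∃ D₀ : ℕ, ∀ D ≥ D₀, ∃ E, M * E ≤ D ∧
    ∀ (V : Type*) (G : SimpleGraph V), G.Connected → LI G K ρ → FP G.dist (c * D) E := by
  -- take h with M * (4 * h + 2) ≤ D < ...
  set Q := K * (3 * c) * (2 * ρ + 1) ^ 2 with hQ
  -- h := (D / (6 M + 6)), want Q * D < h * (h-1)
  refine ⟨(6 * M + 6) * ((6 * M + 6) * 2 * (Q + 1) + 3), ?_⟩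
  intro D hD
  set h := D / (6 * M + 6) with hh
  have hpos : 0 < 6 * M + 6 := by omega
  have h1 : (6 * M + 6) * 2 * (Q + 1) + 3 ≤ h := by
    rw [hh, Nat.le_div_iff_mul_le hpos]
    rw [mul_comm]; exact hD
  have h2 : (6 * M + 6) * h ≤ D := by
    rw [hh]; exact Nat.mul_div_le D _
  have h3 : D < (6 * M + 6) * (h + 1) := by
    rw [hh]; exact Nat.lt_mul_div_succ D hpos
  refine ⟨4 * h + 2, ?_, ?_⟩
  · have : 1 ≤ h := by omega
    nlinarith
  · intro V G hc hLI
    apply fp_of_LI hc hLI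
    have h4 : K * (3 * (c * D)) * (2 * ρ + 1) ^ 2 = Q * D := by rw [hQ]; ring
    rw [h4]
    have h5 : Q * D ≤ Q * ((6 * M + 6) * (h + 1)) := Nat.mul_le_mul_left _ h3.le
    obtain ⟨k, hk⟩ : ∃ k, h = k + 1 := ⟨h - 1, by omega⟩
    rw [hk] at h1 h5 ⊢
    simp only [Nat.add_sub_cancel]
    have h6 : Q * ((6 * M + 6) * (k + 1 + 1)) ≤ ((6 * M + 6) * 2 * (Q + 1)) * k := by
      have : k + 1 + 1 ≤ 2 * k := by omega
      calc Q * ((6 * M + 6) * (k + 1 + 1)) ≤ Q * ((6 * M + 6) * (2 * k)) := by gcongr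
        _ = ((6 * M + 6) * 2 * Q) * k := by ring
        _ ≤ ((6 * M + 6) * 2 * (Q + 1)) * k := by gcongr; omega
    have h7 : ((6 * M + 6) * 2 * (Q + 1)) * k ≤ (k + 1) * k := by
      gcongr
      omega
    have h8 : ((6 * M + 6) * 2 * (Q + 1)) * k < (k + 1) * k := by
      apply Nat.mul_lt_mul_of_pos_right
      · omega
      · omega
    omega

end Pool.Agent.ABA.Far
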