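import Mathlib
import Pool.Agent.Helper89_ABA.Defs
import Pool.Agent.Helper89_ABA.FarFour

/-! # Far geometry IV: group metrics (MP_d857f1_al) -/

namespace Pool.Agent.ABA.Far

open SimpleGraph

variable {H : Type*} [Group H]

/-- a left invariant geodesic metric with values in the natural numbers -/
structure Met (d : H → H → ℕ) : Prop where
  self : ∀ x, d x x = 0
  symm : ∀ x y, d x y = d y x
  tri : ∀ x y z, d x z ≤ d x y + d y z
  inv : ∀ g x y, d (g * x) (g * y) = d x y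
  mid : ∀ x y i, i ≤ d x y → ∃ m, d x m = i ∧ d m y = d x y - i

/-- right translation by elements of `A` moves every point by at most one -/
def Step (d : H → H → ℕ) (A : Subgroup H) : Prop := ∀ x, ∀ a ∈ A, d x (x * a) ≤ 1

/-- CONJ: conjugators of elements of `A` may be taken linearly short -/
def ConjBd (d : H → H → ℕ) (A : Subgroup H) (C : ℕ) : Prop :=
  ∀ y : H, ∀ a ∈ A, a ≠ 1 → ∃ y' : H, d 1 y' ≤ C * (d 1 (y⁻¹ * a * y) + 1) ∧
    y'⁻¹ * a * y' = y⁻¹ * a * y

/-- sublinear four point errors -/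
def Sub (d : H → H → ℕ) (M D₁ : ℕ) : Prop := ∀ D ≥ D₁, ∃ E, M * E ≤ D ∧ FP d (20 * D) E

variable {d : H → H → ℕ} {A B : Subgroup H} {C D₀ D₁ : ℕ}

theorem Met.one_inv (hd : Met d) (x : H) : d 1 x⁻¹ = d 1 x := by
  have := hd.inv x 1 x⁻¹
  rw [mul_one, mul_inv_cancel] at this
  rw [← this, hd.symm]

theorem Met.to_one (hd : Met d) (x y : H) : d x y = d 1 (x⁻¹ * y) := by
  have := hd.inv x⁻¹ x y
  rw [inv_mul_cancel] at this
  exact this.symm

theorem Met.one_mul (hd : Met d) (x y : H) : d 1 (x * y) ≤ d 1 x + d 1 y := by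
  have h1 := hd.tri 1 x (x * y)
  have h2 := hd.inv x 1 y
  rw [mul_one] at h2
  omega

theorem Step.one (hs : Step d A) {a : H} (ha : a ∈ A) : d 1 a ≤ 1 := by
  have := hs 1 a ha
  rwa [_root_.one_mul] at this

/-- S6 -/
theorem r2_of_far (hd : Met d) (hs : Step d A) (hcomm : ∀ x ∈ A, ∀ y ∈ A, x * y = y * x)
    (hC : ConjBd d A C) (hD₁ : 100 * (C + 1) ≤ D₁) (hD₀ : D₁ ≤ D₀)
    (hsub : Sub d (100 * (C + 1)) D₁)
    (hb : ∀ h, d 1 h ≤ D₀ → ∀ x ∈ A, h * x * h⁻¹ ∈ A → x ≠ 1 → h ∈ A) : R2 A := by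
  intro h x hx hxh hx1
  -- reduce to commuting elements
  have hcom : h * x = x * h := by
    obtain ⟨y, hy1, hy2⟩ := hC h⁻¹ x hx hx1
    rw [inv_inv] at hy1 hy2
    have h1 := hs.one hxh
    have h2 : y⁻¹ ∈ A := by
      apply hb y⁻¹ _ x hx _ hx1
      · rw [hd.one_inv]
        have h3 : C * (d 1 (h * x * h⁻¹) + 1) ≤ C * 2 := Nat.mul_le_mul_left _ (by omega)
        omega
      · rw [inv_inv, hy2]; exact hxh
    have h4 : y ∈ A := by simpa using A.inv_mem h2
    have h5 : y⁻¹ * x * y = x := by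
      rw [mul_assoc, hcomm x hx y h4]; group
    rw [h5] at hy2
    rw [eq_mul_inv_iff_mul_eq] at hy2
    exact hy2.symm
  have key : ∀ n, ∀ h : H, d 1 h = n → h * x = x * h → h ∈ A := by
    intro n
    induction n using Nat.strong_induction_on with
    | _ n ih =>
      intro h hn hcom
      by_cases hnD : n ≤ D₀
      · apply hb h (by omega) x hx _ hx1
        rw [hcom]; simpa using hx
      push Not at hnD
      obtain ⟨E, hE1, hE2⟩ := hsub n (by omega)
      obtain ⟨m, hm1, hm2⟩ := hd.mid 1 h (n / 2) (by omega)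
      have hCE : 100 * (C * E) + 100 * E ≤ n := by
        have : 100 * (C + 1) * E = 100 * (C * E) + 100 * E := by ring
        omega
      have e1 : d m (x * m) ≤ 1 + E := by
        have a1 := hs.one hx
        have a2 := hd.inv x 1 m
        have a3 := hd.tri 1 (x * 1) (x * m)
        rw [mul_one] at a2 a3
        have a4 := hd.inv x m h
        have a5 := hd.tri (x * m) (x * h) h
        have a6 : d (x * h) h ≤ 1 := by
          rw [hd.symm, ← hcom]; exact hs h x hx
        have a7 := hd.symm m 1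
        have a8 := hd.tri m 1 (x * m)
        have a9 := hE2 m 1 (x * m) h (by omega) (by omega) (by omega) (by omega) (by omega)
          (by omega)
        omega
      obtain ⟨u, hu1, hu2⟩ := hC m x hx hx1
      have e2 : d 1 (m⁻¹ * x * m) = d m (x * m) := by
        rw [hd.to_one m]; congr 1; group
      have e3 : d 1 u ≤ C * E + 2 * C := by
        rw [e2] at hu1
        have : C * (d m (x * m) + 1) ≤ C * (E + 2) := Nat.mul_le_mul_left _ (by omega)
        have : C * (E + 2) = C * E + 2 * C := by ring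
        omega
      have hz : (u * m⁻¹) * x = x * (u * m⁻¹) := by
        have h1 : x * u = u * (m⁻¹ * x * m) := by rw [← hu2]; group
        calc (u * m⁻¹) * x = u * (m⁻¹ * x * m) * m⁻¹ := by group
          _ = x * u * m⁻¹ := by rw [h1]
          _ = x * (u * m⁻¹) := by group
      have hzh : (u * m⁻¹ * h) * x = x * (u * m⁻¹ * h) := by
        rw [mul_assoc (u * m⁻¹) h x, hcom, ← mul_assoc, hz]
        group
      have l1 : d 1 (u * m⁻¹) < n := by
        have b1 := hd.one_mul u m⁻¹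
        rw [hd.one_inv] at b1
        omega
      have l2 : d 1 (u * m⁻¹ * h) < n := by
        have b1 := hd.one_mul u (m⁻¹ * h)
        have b2 := hd.to_one m h
        rw [← mul_assoc] at b1
        omega
      have z1 := ih _ l1 _ rfl hz
      have z2 := ih _ l2 _ rfl hzh
      have := A.mul_mem (A.inv_mem z1) z2
      rwa [inv_mul_cancel_left] at this
  exact key _ h rfl hcom

/-- S7 -/
theorem ld (hd : Met d) (hR : R2 A) (hC : ConjBd d A C) {m x : H} (hx : x ∈ A) (hx1 : x ≠ 1) :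
    ∃ a ∈ A, d m a ≤ C * (d m (x * m) + 1) := by
  obtain ⟨u, hu1, hu2⟩ := hC m x hx hx1
  have hz : (u * m⁻¹) * x * (u * m⁻¹)⁻¹ = x := by
    calc (u * m⁻¹) * x * (u * m⁻¹)⁻¹ = u * (m⁻¹ * x * m) * u⁻¹ := by group
      _ = u * (u⁻¹ * x * u) * u⁻¹ := by rw [hu2]
      _ = x := by group
  have h1 : u * m⁻¹ ∈ A := hR _ x hx (by rw [hz]; exact hx) hx1
  refine ⟨(u * m⁻¹)⁻¹, A.inv_mem h1, ?_⟩
  have e2 : d 1 (m⁻¹ * x * m) = d m (x * m) := by
    rw [hd.to_one m]; congr 1; group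
  rw [e2] at hu1
  have e3 : d m (u * m⁻¹)⁻¹ = d 1 u := by
    have := hd.inv (u * m⁻¹) m (u * m⁻¹)⁻¹
    rw [← this, mul_inv_cancel, inv_mul_cancel_right, hd.symm]
  omega

/-- S8 for the coset `A` -/
theorem rot (hd : Met d) (hs : Step d A) (hcomm : ∀ x ∈ A, ∀ y ∈ A, x * y = y * x)
    (hR : R2 A) (hC : ConjBd d A C) {D E : ℕ} (hFP : FP d (20 * D) E) (hD : 1 ≤ D)
    {p v x : H} (hv : v ∈ A) (hx : x ∈ A) (hx1 : x ≠ 1) (hn : d p v ≤ D)
    (hmin : ∀ a ∈ A, d p v ≤ d p a) :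
    2 * d p v ≤ d p (x * p) + 2 * (C * (2 * E + 3)) + 1 := by
  by_cases hcase : 2 * d p v ≤ d p (x * p)
  · omega
  push Not at hcase
  set n := d p v with hndef
  set δ := d p (x * p) with hδ
  set t := (2 * n - δ) / 2 with ht
  have htn : t ≤ n := by omega
  have hvp : d v p = n := hd.symm v p
  obtain ⟨m, hm1, hm2⟩ := hd.mid v p t (by omega)
  have a0 : d v (x * v) ≤ 1 := by
    rw [hcomm x hx v hv]; exact hs v x hx
  have a1 : d (x * v) (x * p) = d v p := hd.inv x v p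
  have a2 := hd.tri v (x * v) (x * p)
  have a3 : d (x * m) (x * p) = d m p := hd.inv x m p
  have a4 : d (x * v) (x * m) = d v m := hd.inv x v m
  have a5 := hd.tri v (x * v) (x * m)
  have a6 := hd.symm m v
  have a7 := hd.symm (x * p) p
  have a8 := hd.tri m p (x * p)
  have a9 := hd.tri m v (x * m)
  -- lower bound for d v (x p)
  have b1 : n ≤ d v (x * p) := by
    have h1 := hmin (x⁻¹ * v) (A.mul_mem (A.inv_mem hx) hv)
    have h2 := hd.inv x p (x⁻¹ * v)
    rw [mul_inv_cancel_left] at h2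
    have h3 := hd.symm v (x * p)
    omega
  have f1 := hFP m v (x * p) p (by omega) (by omega) (by omega) (by omega) (by omega) (by omega)
  have c1 : d m (x * p) ≤ n - t + 1 + E := by omega
  have f2 := hFP m v (x * m) (x * p) (by omega) (by omega) (by omega) (by omega) (by omega)
    (by omega)
  have c2 : d m (x * m) ≤ 2 + 2 * E := by omega
  obtain ⟨a, ha, hma⟩ := ld hd hR hC (m := m) hx hx1
  have c3 : C * (d m (x * m) + 1) ≤ C * (2 * E + 3) := Nat.mul_le_mul_left _ (by omega)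
  have c4 := hmin a ha
  have c5 := hd.tri p m a
  have c6 := hd.symm p m
  omega

/-- existence of a nearest point -/
theorem exists_min (A : Subgroup H) (f : H → ℕ) : ∃ a ∈ A, ∀ b ∈ A, f a ≤ f b := by
  classical
  have hex : ∃ n, ∃ a ∈ A, f a = n := ⟨f 1, 1, A.one_mem, rfl⟩
  obtain ⟨a, ha, hn⟩ := Nat.find_spec hex
  refine ⟨a, ha, fun b hb => ?_⟩
  rw [hn]
  exact Nat.find_min' hex ⟨b, hb, rfl⟩

/-- S8 for an arbitrary coset -/
theorem rot' (hd : Met d) (hs : Step d A) (hcomm : ∀ x ∈ A, ∀ y ∈ A, x * y = y * x)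
    (hR : R2 A) (hC : ConjBd d A C) {D E : ℕ} (hFP : FP d (20 * D) E) (hD : 1 ≤ D)
    {p u x : H} (hx : x ∈ A) (hx1 : x ≠ 1) {n : ℕ} (hnD : ∃ a ∈ A, d p (u * a) ≤ D)
    (hmin : ∀ a ∈ A, n ≤ d p (u * a)) :
    2 * n ≤ d p (u * x * u⁻¹ * p) + 2 * (C * (2 * E + 3)) + 1 := by
  obtain ⟨v, hv, hvmin⟩ := exists_min A (fun a => d (u⁻¹ * p) a)
  have hu : ∀ a, d (u⁻¹ * p) a = d p (u * a) := by
    intro a
    rw [← hd.inv u (u⁻¹ * p) a, mul_inv_cancel_left]
  have h1 : d (u⁻¹ * p) v ≤ D := by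
    obtain ⟨a, ha, hda⟩ := hnD
    have := hvmin a ha
    rw [hu a] at this
    omega
  have h2 := rot hd hs hcomm hR hC hFP hD (p := u⁻¹ * p) hv hx hx1 h1 (fun a ha => hvmin a ha)
  have h3 : d (u⁻¹ * p) (x * (u⁻¹ * p)) = d p (u * x * u⁻¹ * p) := by
    rw [hu]; congr 1; group
  have h4 := hmin v hv
  rw [← hu v] at h4
  omega

end Pool.Agent.ABA.Far
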