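import Mathlib
import Pool.Agent.Helper89_ABA.FarMet

/-! # Far geometry V: the far arguments for T2, E6, R3 (MP_d857f1_al) -/

namespace Pool.Agent.ABA.Far

open SimpleGraph

variable {H : Type*} [Group H]
variable {d : H → H → ℕ} {A B : Subgroup H} {C D₀ D₁ : ℕ}

/-- S12 -/
theorem t2_of_far (hd : Met d) (hD₁ : 100 * (C + 1) ≤ D₁) (hD₀ : D₁ ≤ D₀)
    (hsub : Sub d (100 * (C + 1)) D₁)
    (hb : ∀ h, d 1 h ≤ D₀ → h * h = 1 → h = 1) : ∀ h : H, h * h = 1 → h = 1 := by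
  have key : ∀ n, ∀ h : H, d 1 h = n → h * h = 1 → h = 1 := by
    intro n
    induction n using Nat.strong_induction_on with
    | _ n ih =>
      intro h hn hh
      by_cases hnD : n ≤ D₀
      · exact hb h (by omega) hh
      push Not at hnD
      obtain ⟨E, hE1, hE2⟩ := hsub n (by omega)
      have hCE : 100 * E ≤ n := by
        have : 100 * (C + 1) * E = 100 * (C * E) + 100 * E := by ring
        omega
      obtain ⟨m, hm1, hm2⟩ := hd.mid 1 h (n / 2) (by omega)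
      have a1 := hd.inv h 1 m
      have a2 := hd.inv h m h
      rw [mul_one] at a1
      rw [hh] at a2
      have a3 := hd.symm (h * m) 1
      have a4 := hd.symm h (h * m)
      have a5 := hd.symm m 1
      have a6 := hd.tri m h (h * m)
      have f1 := hE2 1 m h (h * m) (by omega) (by omega) (by omega) (by omega) (by omega) (by omega)
      have a7 := hd.symm m (h * m)
      have e1 : d m (h * m) ≤ 1 + E := by omega
      have e2 : d 1 (m⁻¹ * h * m) = d m (h * m) := by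
        rw [hd.to_one m]; congr 1; group
      have h1 : m⁻¹ * h * m = 1 := by
        apply ih (d 1 (m⁻¹ * h * m)) (by omega) _ rfl
        calc m⁻¹ * h * m * (m⁻¹ * h * m) = m⁻¹ * (h * h) * m := by group
          _ = 1 := by rw [hh]; group
      calc h = m * (m⁻¹ * h * m) * m⁻¹ := by group
        _ = 1 := by rw [h1]; group
  exact fun h => key _ h rfl

/-- minimal representative of a double coset -/
theorem exists_min_double (A : Subgroup H) (f : H → ℕ) (h : H) :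
    ∃ α ∈ A, ∃ β ∈ A, ∀ α' ∈ A, ∀ β' ∈ A, f (α * h * β) ≤ f (α' * h * β') := by
  classical
  have hex : ∃ n, ∃ α ∈ A, ∃ β ∈ A, f (α * h * β) = n := ⟨_, 1, A.one_mem, 1, A.one_mem, rfl⟩
  obtain ⟨α, hα, β, hβ, hn⟩ := Nat.find_spec hex
  refine ⟨α, hα, β, hβ, fun α' hα' β' hβ' => ?_⟩
  rw [hn]
  exact Nat.find_min' hex ⟨α', hα', β', hβ', rfl⟩

/-- S10 -/
theorem e6_of_far (hd : Met d) (hs : Step d A) (hcomm : ∀ x ∈ A, ∀ y ∈ A, x * y = y * x)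
    (hR : R2 A) (hC : ConjBd d A C) (hD₁ : 100 * (C + 1) ≤ D₁) (hD₀ : D₁ ≤ D₀)
    (hsub : Sub d (100 * (C + 1)) D₁)
    (hb : ∀ h, d 1 h ≤ D₀ → ¬ IsABA A B h → E6 A h) : ∀ h : H, ¬ IsABA A B h → E6 A h := by
  intro h hh x₁ hx₁ y₁ hy₁ x₂ hx₂ y₂ hy₂ x₃ hx₃ y₃ hy₃ nx₁ ny₁ nx₂ ny₂ nx₃ ny₃ hrel
  obtain ⟨α, hα, β, hβ, hmin⟩ := exists_min_double A (fun g => d 1 g) h
  set g := α * h * β with hg
  have hconj : ∀ y ∈ A, g * y * g⁻¹ = α * (h * y * h⁻¹) * α⁻¹ := by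
    intro y hy
    calc g * y * g⁻¹ = α * (h * (β * y * β⁻¹) * h⁻¹) * α⁻¹ := by rw [hg]; group
      _ = α * (h * y * h⁻¹) * α⁻¹ := by rw [hcomm β hβ y hy]; group
  have hcx : ∀ x ∈ A, x = α * x * α⁻¹ := by
    intro x hx
    rw [hcomm α hα x hx]; group
  have hrel' : x₁ * (g * y₁ * g⁻¹) * x₂ * (g * y₂ * g⁻¹) * x₃ * (g * y₃ * g⁻¹) = 1 := by
    rw [hconj y₁ hy₁, hconj y₂ hy₂, hconj y₃ hy₃]
    calc _ = x₁ * (α * (h * y₁ * h⁻¹) * α⁻¹) * x₂ * (α * (h * y₂ * h⁻¹) * α⁻¹) * x₃ *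
          (α * (h * y₃ * h⁻¹) * α⁻¹) := rfl
      _ = (α * x₁ * α⁻¹) * (α * (h * y₁ * h⁻¹) * α⁻¹) * (α * x₂ * α⁻¹) *
          (α * (h * y₂ * h⁻¹) * α⁻¹) * (α * x₃ * α⁻¹) * (α * (h * y₃ * h⁻¹) * α⁻¹) := by
          rw [← hcx x₁ hx₁, ← hcx x₂ hx₂, ← hcx x₃ hx₃]
      _ = α * (x₁ * (h * y₁ * h⁻¹) * x₂ * (h * y₂ * h⁻¹) * x₃ * (h * y₃ * h⁻¹)) * α⁻¹ := by
          group
      _ = 1 := by rw [hrel]; group
  have hg' : ¬ IsABA A B g := by
    rintro ⟨x, hx, y, hy, z, hz, hgz⟩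
    apply hh
    refine ⟨α⁻¹ * x, A.mul_mem (A.inv_mem hα) hx, y, hy, z * β⁻¹,
      A.mul_mem hz (A.inv_mem hβ), ?_⟩
    calc h = α⁻¹ * g * β⁻¹ := by rw [hg]; group
      _ = α⁻¹ * x * y * (z * β⁻¹) := by rw [hgz]; group
  have hgmin : ∀ a ∈ A, ∀ b ∈ A, d 1 g ≤ d 1 (a * g * b) := by
    intro a ha b hb
    have := hmin (a * α) (A.mul_mem ha hα) (β * b) (A.mul_mem hβ hb)
    have e : a * α * h * (β * b) = a * g * b := by rw [hg]; group
    rw [e] at this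
    exact this
  clear_value g
  by_cases hnD : d 1 g ≤ D₀
  · exact hb g hnD hg' x₁ hx₁ y₁ hy₁ x₂ hx₂ y₂ hy₂ x₃ hx₃ y₃ hy₃ nx₁ ny₁ nx₂ ny₂ nx₃ ny₃ hrel'
  push Not at hnD
  set n := d 1 g with hn
  obtain ⟨E, hE1, hE2⟩ := hsub n (by omega)
  have hCE : 100 * (C * E) + 100 * E ≤ n := by
    have : 100 * (C + 1) * E = 100 * (C * E) + 100 * E := by ring
    omega
  have hCE3 : C * (2 * E + 3) = 2 * (C * E) + 3 * C := by ring
  -- corners at cosets `gA` seen from 1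
  have cg : ∀ y ∈ A, y ≠ 1 → 2 * n ≤ d 1 (g * y * g⁻¹) + 2 * (C * (2 * E + 3)) + 1 := by
    intro y hy hy1
    have := rot' hd hs hcomm hR hC hE2 (by omega) (p := 1) (u := g) (x := y) hy hy1 (n := n)
      ⟨1, A.one_mem, by rw [mul_one]⟩
      (fun a ha => by have := hgmin 1 A.one_mem a ha; rwa [one_mul] at this)
    rwa [mul_one] at this
  have cA : ∀ x ∈ A, x ≠ 1 → 2 * n ≤ d g (x * g) + 2 * (C * (2 * E + 3)) + 1 := by
    intro x hx hx1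
    have := rot' hd hs hcomm hR hC hE2 (by omega) (p := g) (u := 1) (x := x) hx hx1 (n := n)
      ⟨1, A.one_mem, by rw [mul_one, hd.symm]⟩
      (fun a ha => by
        have h1 := hgmin a⁻¹ (A.inv_mem ha) 1 A.one_mem
        have h2 := hd.inv a⁻¹ a g
        rw [inv_mul_cancel] at h2
        rw [mul_one, h2, hd.symm] at h1
        rwa [one_mul])
    rwa [one_mul, inv_one, mul_one] at this
  -- the polygon
  obtain ⟨P1, hP1⟩ : ∃ P, P = x₁ * g := ⟨_, rfl⟩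
  obtain ⟨P2, hP2⟩ : ∃ P, P = x₁ * g * y₁ * g⁻¹ := ⟨_, rfl⟩
  obtain ⟨P3, hP3⟩ : ∃ P, P = P2 * x₂ * g := ⟨_, rfl⟩
  obtain ⟨P4, hP4⟩ : ∃ P, P = P2 * x₂ * g * y₂ * g⁻¹ := ⟨_, rfl⟩
  have l01 : d 1 P1 ≤ n + 1 := by
    have := hd.one_mul x₁ g
    have := hs.one hx₁
    rw [hP1]
    omega
  have l12 : d P1 P2 ≤ n + 1 := by
    have e : P1⁻¹ * P2 = y₁ * g⁻¹ := by rw [hP1, hP2]; group
    rw [hd.to_one, e]
    have h1 := hd.one_mul y₁ g⁻¹
    have h2 := hs.one hy₁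
    rw [hd.one_inv] at h1
    omega
  have l23 : d P2 P3 ≤ n + 1 := by
    have e : P2⁻¹ * P3 = x₂ * g := by rw [hP3]; group
    rw [hd.to_one, e]
    have h1 := hd.one_mul x₂ g
    have h2 := hs.one hx₂
    omega
  have l34 : d P3 P4 ≤ n + 1 := by
    have e : P3⁻¹ * P4 = y₂ * g⁻¹ := by rw [hP3, hP4]; group
    rw [hd.to_one, e]
    have h1 := hd.one_mul y₂ g⁻¹
    have h2 := hs.one hy₂
    rw [hd.one_inv] at h1
    omega
  have l40 : d 1 P4 ≤ 2 * n + 2 := by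
    have e : P4⁻¹ = x₃ * g * (y₃ * g⁻¹) := by
      rw [inv_eq_iff_mul_eq_one, hP4, hP2]
      rw [← hrel']; group
    rw [← hd.one_inv, e]
    have h1 := hd.one_mul (x₃ * g) (y₃ * g⁻¹)
    have h2 := hd.one_mul x₃ g
    have h3 := hd.one_mul y₃ g⁻¹
    have h4 := hs.one hx₃
    have h5 := hs.one hy₃
    rw [hd.one_inv] at h3
    omega
  have l02 : 2 * n ≤ d 1 P2 + 2 * (C * (2 * E + 3)) + 2 := by
    have h1 := cg y₁ hy₁ ny₁
    have h2 := hd.inv x₁ 1 (g * y₁ * g⁻¹)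
    have e : x₁ * (g * y₁ * g⁻¹) = P2 := by rw [hP2]; group
    rw [e, mul_one] at h2
    have h3 := hd.tri x₁ 1 P2
    have h4 := hs.one hx₁
    have h5 := hd.symm x₁ 1
    omega
  have l13 : 2 * n ≤ d P1 P3 + 2 * (C * (2 * E + 3)) + 2 := by
    have h1 := cA x₂ hx₂ nx₂
    have e : P1⁻¹ * P3 = y₁ * (g⁻¹ * (x₂ * g)) := by rw [hP1, hP3, hP2]; group
    have e2 := hd.to_one P1 P3
    rw [e] at e2
    have e3 := hd.to_one g (x₂ * g)
    have h2 := hd.one_mul y₁⁻¹ (y₁ * (g⁻¹ * (x₂ * g)))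
    rw [inv_mul_cancel_left, hd.one_inv] at h2
    have h4 := hs.one hy₁
    omega
  have l24 : 2 * n ≤ d P2 P4 + 2 * (C * (2 * E + 3)) + 2 := by
    have h1 := cg y₂ hy₂ ny₂
    have e : P2⁻¹ * P4 = x₂ * (g * y₂ * g⁻¹) := by rw [hP4]; group
    have e2 := hd.to_one P2 P4
    rw [e] at e2
    have h2 := hd.one_mul x₂⁻¹ (x₂ * (g * y₂ * g⁻¹))
    rw [inv_mul_cancel_left, hd.one_inv] at h2
    have h4 := hs.one hx₂
    omega
  have t1 := hd.tri P1 P2 P3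
  have t2 := hd.tri 1 P1 P2
  have t3 := hd.tri 1 P2 P3
  have t4 := hd.tri P2 P3 P4
  have s1 := hd.symm P2 P1
  have s2 := hd.symm P3 P2
  have f1 := hE2 1 P1 P2 P3 (by omega) (by omega) (by omega) (by omega) (by omega) (by omega)
  have f2 := hE2 1 P2 P3 P4 (by omega) (by omega) (by omega) (by omega) (by omega) (by omega)
  omega

end Pool.Agent.ABA.Far
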