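import Mathlib
import Pool.Agent.Helper89_ABA.FarThm

/-! # Far geometry VI: the far argument for R3 (MP_d857f1_al) -/

namespace Pool.Agent.ABA.Far

open SimpleGraph

variable {H : Type*} [Group H]
variable {d : H → H → ℕ} {A B : Subgroup H} {C D₀ D₁ : ℕ}

/-- `n` is the distance of the cosets `uA` and `vA` -/
def CD (d : H → H → ℕ) (A : Subgroup H) (u v : H) (n : ℕ) : Prop :=
  (∃ a ∈ A, ∃ b ∈ A, d (u * a) (v * b) = n) ∧ ∀ a ∈ A, ∀ b ∈ A, n ≤ d (u * a) (v * b)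

theorem exists_cd (d : H → H → ℕ) (A : Subgroup H) (u v : H) : ∃ n, CD d A u v n := by
  classical
  have hex : ∃ n, ∃ a ∈ A, ∃ b ∈ A, d (u * a) (v * b) = n :=
    ⟨_, 1, A.one_mem, 1, A.one_mem, rfl⟩
  refine ⟨Nat.find hex, Nat.find_spec hex, fun a ha b hb => ?_⟩
  exact Nat.find_min' hex ⟨a, ha, b, hb, rfl⟩

theorem CD.le (hd : Met d) (hs : Step d A) {u v : H} {n : ℕ} (h : CD d A u v n) :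
    d u v ≤ n + 2 := by
  obtain ⟨⟨a, ha, b, hb, hn⟩, -⟩ := h
  have h1 := hs u a ha
  have h2 := hs v b hb
  have h3 := hd.tri u (u * a) v
  have h4 := hd.tri (u * a) (v * b) v
  have h5 := hd.symm v (v * b)
  omega

theorem CD.symm (hd : Met d) {u v : H} {n : ℕ} (h : CD d A u v n) : CD d A v u n := by
  obtain ⟨⟨a, ha, b, hb, hn⟩, hmin⟩ := h
  refine ⟨⟨b, hb, a, ha, ?_⟩, fun a ha b hb => ?_⟩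
  · rw [hd.symm]; exact hn
  · rw [hd.symm]; exact hmin b hb a ha

/-- a rotation about `uA` moves `p` by almost twice the distance -/
theorem corner (hd : Met d) (hs : Step d A) (hcomm : ∀ x ∈ A, ∀ y ∈ A, x * y = y * x)
    (hR : R2 A) (hC : ConjBd d A C) {D E : ℕ} (hFP : FP d (20 * D) E) (hD : 1 ≤ D)
    {p u x : H} (hx : x ∈ A) (hx1 : x ≠ 1) {n : ℕ} (h : CD d A u p n) (hn : n + 1 ≤ D) :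
    2 * n ≤ d p (u * x * u⁻¹ * p) + 2 * (C * (2 * E + 3)) + 1 ∧
    d p (u * x * u⁻¹ * p) ≤ 2 * n + 5 := by
  constructor
  · apply rot' hd hs hcomm hR hC hFP hD hx hx1
    · obtain ⟨⟨a, ha, b, hb, hn'⟩, -⟩ := h
      refine ⟨a, ha, ?_⟩
      have h1 := hs p b hb
      have h2 := hd.tri p (p * b) (u * a)
      have h3 := hd.symm (p * b) (u * a)
      omega
    · intro a ha
      have := h.2 a ha 1 A.one_mem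
      rw [mul_one, hd.symm] at this
      exact this
  · have h0 := h.le hd hs
    have h1 := hd.tri p u (u * x * u⁻¹ * p)
    have h2 := hd.tri u (u * x) (u * x * u⁻¹ * p)
    have h3 := hs u x hx
    have h4 := hd.inv (u * x * u⁻¹) u p
    rw [inv_mul_cancel_right] at h4
    have h5 := hd.symm p u
    omega

/-- the comparison of two sides of the triangle -/
theorem compare (hd : Met d) (hs : Step d A) (hcomm : ∀ x ∈ A, ∀ y ∈ A, x * y = y * x)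
    (hR : R2 A) (hC : ConjBd d A C) {D E : ℕ} (hFP : FP d (20 * D) E) (hD : 1 ≤ D)
    {h₁ h₂ h₃ x₁ x₂ x₃ : H} (hx₁ : x₁ ∈ A) (hx₂ : x₂ ∈ A) (hx₃ : x₃ ∈ A) (n₁ : x₁ ≠ 1)
    (n₂ : x₂ ≠ 1) {a b : ℕ} (h13 : CD d A h₁ h₃ a) (h23 : CD d A h₂ h₃ b) (ha : a + 1 ≤ D)
    (hb : b + 1 ≤ D)
    (hrel : h₁ * x₁ * h₁⁻¹ * (h₂ * x₂ * h₂⁻¹) * (h₃ * x₃ * h₃⁻¹) = 1) :
    2 * a ≤ 2 * b + 2 * (C * (2 * E + 3)) + 7 ∧ 2 * b ≤ 2 * a + 2 * (C * (2 * E + 3)) + 7 ∧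
    d (h₂ * x₂ * h₂⁻¹ * h₃) (h₁ * x₁⁻¹ * h₁⁻¹ * h₃) ≤ 1 ∧
    2 * b ≤ d h₃ (h₂ * x₂ * h₂⁻¹ * h₃) + 2 * (C * (2 * E + 3)) + 1 := by
  have c1 := corner hd hs hcomm hR hC hFP hD (A.inv_mem hx₁) (inv_ne_one.2 n₁) h13 ha
  have c2 := corner hd hs hcomm hR hC hFP hD hx₂ n₂ h23 hb
  have e1 : d (h₂ * x₂ * h₂⁻¹ * h₃) (h₁ * x₁⁻¹ * h₁⁻¹ * h₃) ≤ 1 := by
    have e : h₁ * x₁⁻¹ * h₁⁻¹ * h₃ = (h₂ * x₂ * h₂⁻¹ * h₃) * x₃ := by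
      have h1 : (h₁ * x₁ * h₁⁻¹)⁻¹ = (h₂ * x₂ * h₂⁻¹) * (h₃ * x₃ * h₃⁻¹) := by
        rw [inv_eq_iff_mul_eq_one, ← mul_assoc]; exact hrel
      calc h₁ * x₁⁻¹ * h₁⁻¹ * h₃ = (h₁ * x₁ * h₁⁻¹)⁻¹ * h₃ := by group
        _ = (h₂ * x₂ * h₂⁻¹) * (h₃ * x₃ * h₃⁻¹) * h₃ := by rw [h1]
        _ = _ := by group
    rw [e]
    exact hs _ _ hx₃
  have t1 := hd.tri h₃ (h₂ * x₂ * h₂⁻¹ * h₃) (h₁ * x₁⁻¹ * h₁⁻¹ * h₃)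
  have t2 := hd.tri h₃ (h₁ * x₁⁻¹ * h₁⁻¹ * h₃) (h₂ * x₂ * h₂⁻¹ * h₃)
  have t3 := hd.symm (h₂ * x₂ * h₂⁻¹ * h₃) (h₁ * x₁⁻¹ * h₁⁻¹ * h₃)
  refine ⟨by omega, by omega, e1, by omega⟩

/-- the far case of R3 -/
theorem r3_far (hd : Met d) (hs : Step d A) (hcomm : ∀ x ∈ A, ∀ y ∈ A, x * y = y * x)
    (hR : R2 A) (hC : ConjBd d A C) (hD₁ : 1000 * (C + 1) ≤ D₁)
    (hsub : Sub d (1000 * (C + 1)) D₁)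
    {h₁ h₂ h₃ x₁ x₂ x₃ : H} (hx₁ : x₁ ∈ A) (hx₂ : x₂ ∈ A) (hx₃ : x₃ ∈ A) (n₁ : x₁ ≠ 1)
    (n₂ : x₂ ≠ 1) (n₃ : x₃ ≠ 1) {a b c : ℕ}
    (h12 : CD d A h₁ h₂ c) (h13 : CD d A h₁ h₃ b) (h23 : CD d A h₂ h₃ a)
    (hbig : D₁ < a + b + c)
    (hrel : h₁ * x₁ * h₁⁻¹ * (h₂ * x₂ * h₂⁻¹) * (h₃ * x₃ * h₃⁻¹) = 1) : False := by
  obtain ⟨E, hE1, hE2⟩ := hsub (a + b + c + 1) (by omega)
  have hCE : 1000 * (C * E) + 1000 * E ≤ a + b + c + 1 := by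
    have : 1000 * (C + 1) * E = 1000 * (C * E) + 1000 * E := by ring
    omega
  have hCE3 : C * (2 * E + 3) = 2 * (C * E) + 3 * C := by ring
  have hrel2 : h₂ * x₂ * h₂⁻¹ * (h₃ * x₃ * h₃⁻¹) * (h₁ * x₁ * h₁⁻¹) = 1 := by
    calc _ = (h₁ * x₁ * h₁⁻¹)⁻¹ * (h₁ * x₁ * h₁⁻¹ * (h₂ * x₂ * h₂⁻¹) * (h₃ * x₃ * h₃⁻¹)) *
        (h₁ * x₁ * h₁⁻¹) := by group
      _ = 1 := by rw [hrel]; group
  obtain ⟨c1, c2, c3, c4⟩ := compare hd hs hcomm hR hC hE2 (by omega) hx₁ hx₂ hx₃ n₁ n₂ h13 h23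
    (by omega) (by omega) hrel
  obtain ⟨c5, c6, -, -⟩ := compare hd hs hcomm hR hC hE2 (by omega) hx₂ hx₃ hx₁ n₂ n₃
    (h12.symm hd) (h13.symm hd) (by omega) (by omega) hrel2
  -- the four points `h₃, h₁, ρ₂ h₃, h₂`
  have l31 : d h₃ h₁ ≤ b + 2 := by rw [hd.symm]; exact h13.le hd hs
  have l32 : d h₃ h₂ ≤ a + 2 := by rw [hd.symm]; exact h23.le hd hs
  have l12 : d h₁ h₂ ≤ c + 2 := h12.le hd hs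
  have l12' : c ≤ d h₁ h₂ := by
    have := h12.2 1 A.one_mem 1 A.one_mem
    rwa [mul_one, mul_one] at this
  have r1 : d h₁ (h₂ * x₂ * h₂⁻¹ * h₃) ≤ b + 4 := by
    have t1 := hd.tri h₁ (h₁ * x₁⁻¹) (h₁ * x₁⁻¹ * h₁⁻¹ * h₃)
    have t2 := hs h₁ x₁⁻¹ (A.inv_mem hx₁)
    have t3 := hd.inv (h₁ * x₁⁻¹ * h₁⁻¹) h₁ h₃
    rw [inv_mul_cancel_right] at t3
    have t4 := hd.symm h₃ h₁
    have t5 := hd.tri h₁ (h₁ * x₁⁻¹ * h₁⁻¹ * h₃) (h₂ * x₂ * h₂⁻¹ * h₃)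
    have t6 := hd.symm (h₂ * x₂ * h₂⁻¹ * h₃) (h₁ * x₁⁻¹ * h₁⁻¹ * h₃)
    omega
  have r2 : d (h₂ * x₂ * h₂⁻¹ * h₃) h₂ ≤ a + 3 := by
    have t1 := hd.tri h₂ (h₂ * x₂) (h₂ * x₂ * h₂⁻¹ * h₃)
    have t2 := hs h₂ x₂ hx₂
    have t3 := hd.inv (h₂ * x₂ * h₂⁻¹) h₂ h₃
    rw [inv_mul_cancel_right] at t3
    have t4 := hd.symm h₃ h₂
    have t5 := hd.symm (h₂ * x₂ * h₂⁻¹ * h₃) h₂
    omega
  have r3 : d h₃ (h₂ * x₂ * h₂⁻¹ * h₃) ≤ 2 * a + 5 := by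
    have t1 := hd.tri h₃ h₂ (h₂ * x₂ * h₂⁻¹ * h₃)
    have t2 := hd.symm (h₂ * x₂ * h₂⁻¹ * h₃) h₂
    omega
  have f := hE2 h₃ h₁ (h₂ * x₂ * h₂⁻¹ * h₃) h₂ (by omega) (by omega) (by omega) (by omega)
    (by omega) (by omega)
  omega

/-- R3 with one centre 1 and the second one close: reduction to a bounded test -/
theorem r3_near (hd : Met d) (hs : Step d A) (hcomm : ∀ x ∈ A, ∀ y ∈ A, x * y = y * x)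
    (hR : R2 A) (hC : ConjBd d A C) (hD₁ : 1000 * (C + 1) ≤ D₁)
    (hD₀ : D₁ + C * (2 * D₁ + 3) ≤ D₀)
    (hb : ∀ h₁ h₂ h₃ x₁ x₂ x₃ : H, d 1 h₁ ≤ D₀ → d 1 h₂ ≤ D₀ → d 1 h₃ ≤ D₀ →
      x₁ ∈ A → x₂ ∈ A → x₃ ∈ A → x₁ ≠ 1 → x₂ ≠ 1 → x₃ ≠ 1 →
      h₁⁻¹ * h₂ ∉ A → h₂⁻¹ * h₃ ∉ A → h₁⁻¹ * h₃ ∉ A →
      h₁ * x₁ * h₁⁻¹ * (h₂ * x₂ * h₂⁻¹) * (h₃ * x₃ * h₃⁻¹) ≠ 1)
    {h₁ h₂ h₃ x₁ x₂ x₃ : H} (hx₁ : x₁ ∈ A) (hx₂ : x₂ ∈ A) (hx₃ : x₃ ∈ A) (n₁ : x₁ ≠ 1)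
    (n₂ : x₂ ≠ 1) (n₃ : x₃ ≠ 1) (m12 : h₁⁻¹ * h₂ ∉ A) (m23 : h₂⁻¹ * h₃ ∉ A)
    (m13 : h₁⁻¹ * h₃ ∉ A) {c : ℕ}
    (h12 : CD d A h₁ h₂ c) (hsmall : c ≤ D₁)
    (hrel : h₁ * x₁ * h₁⁻¹ * (h₂ * x₂ * h₂⁻¹) * (h₃ * x₃ * h₃⁻¹) = 1) : False := by
  obtain ⟨⟨a, ha, b, hb', hab⟩, -⟩ := h12
  -- conjugate everything by `(h₁ a)⁻¹`
  set u := (h₁ * a)⁻¹ * (h₂ * b) with hu
  set v := (h₁ * a)⁻¹ * h₃ with hv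
  have hdu : d 1 u ≤ D₁ := by
    rw [hu, ← hd.to_one]; omega
  have ca : a * x₁ * a⁻¹ = x₁ := by rw [hcomm a ha x₁ hx₁]; group
  have cb : b * x₂ * b⁻¹ = x₂ := by rw [hcomm b hb' x₂ hx₂]; group
  have hrel2 : x₁ * (u * x₂ * u⁻¹) * (v * x₃ * v⁻¹) = 1 := by
    have e1 : u * x₂ * u⁻¹ = (h₁ * a)⁻¹ * (h₂ * x₂ * h₂⁻¹) * (h₁ * a) := by
      calc u * x₂ * u⁻¹ = (h₁ * a)⁻¹ * (h₂ * (b * x₂ * b⁻¹) * h₂⁻¹) * (h₁ * a) := by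
            rw [hu]; group
        _ = _ := by rw [cb]
    have e2 : v * x₃ * v⁻¹ = (h₁ * a)⁻¹ * (h₃ * x₃ * h₃⁻¹) * (h₁ * a) := by
      rw [hv]; group
    have e3 : x₁ = (h₁ * a)⁻¹ * (h₁ * x₁ * h₁⁻¹) * (h₁ * a) := by
      calc x₁ = a⁻¹ * (a * x₁ * a⁻¹) * a := by group
        _ = a⁻¹ * x₁ * a := by rw [ca]
        _ = _ := by group
    rw [e1, e2]
    nth_rw 1 [e3]
    calc _ = (h₁ * a)⁻¹ * (h₁ * x₁ * h₁⁻¹ * (h₂ * x₂ * h₂⁻¹) * (h₃ * x₃ * h₃⁻¹)) *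
        (h₁ * a) := by group
      _ = 1 := by rw [hrel]; group
  -- shorten v
  set w := v * x₃ * v⁻¹ with hw
  have hwinv : w⁻¹ = x₁ * (u * x₂ * u⁻¹) := by
    rw [inv_eq_iff_mul_eq_one, mul_eq_one_iff_inv_eq', inv_eq_iff_mul_eq_one]
    exact hrel2
  have hwl : d 1 w ≤ 2 * D₁ + 2 := by
    rw [← hd.one_inv, hwinv]
    have t1 := hd.one_mul x₁ (u * x₂ * u⁻¹)
    have t2 := hd.one_mul (u * x₂) u⁻¹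
    have t3 := hd.one_mul u x₂
    have t4 := hs.one hx₁
    have t5 := hs.one hx₂
    rw [hd.one_inv] at t2
    omega
  obtain ⟨y, hy1, hy2⟩ := hC v⁻¹ x₃ hx₃ n₃
  rw [inv_inv, ← hw] at hy1 hy2
  have hyl : d 1 y ≤ C * (2 * D₁ + 3) :=
    hy1.trans (Nat.mul_le_mul_left _ (by omega))
  have hyv : y * v ∈ A := by
    apply hR _ x₃ hx₃ _ n₃
    have : y * v * x₃ * (y * v)⁻¹ = x₃ := by
      calc y * v * x₃ * (y * v)⁻¹ = y * w * y⁻¹ := by rw [hw]; group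
        _ = y * (y⁻¹ * x₃ * y) * y⁻¹ := by rw [hy2]
        _ = x₃ := by group
    rw [this]; exact hx₃
  have hone : d 1 (1 : H) ≤ D₀ := by rw [hd.self]; omega
  refine hb 1 u y⁻¹ x₁ x₂ x₃ hone (by omega) ?_ hx₁ hx₂ hx₃ n₁ n₂ n₃ ?_ ?_ ?_ ?_
  · rw [hd.one_inv]; omega
  · intro h
    apply m12
    have : h₁⁻¹ * h₂ = a * (1⁻¹ * u) * b⁻¹ := by rw [hu]; group
    rw [this]
    exact A.mul_mem (A.mul_mem ha h) (A.inv_mem hb')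
  · intro h
    apply m23
    have : h₂⁻¹ * h₃ = b * (u⁻¹ * y⁻¹) * (y * v) := by rw [hu, hv]; group
    rw [this]
    exact A.mul_mem (A.mul_mem hb' h) hyv
  · intro h
    apply m13
    have : h₁⁻¹ * h₃ = a * (1⁻¹ * y⁻¹) * (y * v) := by rw [hv]; group
    rw [this]
    exact A.mul_mem (A.mul_mem ha h) hyv
  · rw [inv_inv, hy2]
    simpa using hrel2

/-- S11 -/
theorem r3_of_far (hd : Met d) (hs : Step d A) (hcomm : ∀ x ∈ A, ∀ y ∈ A, x * y = y * x)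
    (hR : R2 A) (hC : ConjBd d A C) (hD₁ : 1000 * (C + 1) ≤ D₁)
    (hD₀ : D₁ + C * (2 * D₁ + 3) ≤ D₀) (hsub : Sub d (1000 * (C + 1)) D₁)
    (hb : ∀ h₁ h₂ h₃ x₁ x₂ x₃ : H, d 1 h₁ ≤ D₀ → d 1 h₂ ≤ D₀ → d 1 h₃ ≤ D₀ →
      x₁ ∈ A → x₂ ∈ A → x₃ ∈ A → x₁ ≠ 1 → x₂ ≠ 1 → x₃ ≠ 1 →
      h₁⁻¹ * h₂ ∉ A → h₂⁻¹ * h₃ ∉ A → h₁⁻¹ * h₃ ∉ A →
      h₁ * x₁ * h₁⁻¹ * (h₂ * x₂ * h₂⁻¹) * (h₃ * x₃ * h₃⁻¹) ≠ 1) : R3 A := by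
  intro h₁ h₂ h₃ x₁ x₂ x₃ hx₁ hx₂ hx₃ n₁ n₂ n₃ m12 m23 m13 hrel
  obtain ⟨c, hc⟩ := exists_cd d A h₁ h₂
  by_cases hc' : c ≤ D₁
  · exact r3_near hd hs hcomm hR hC hD₁ hD₀ hb hx₁ hx₂ hx₃ n₁ n₂ n₃ m12 m23 m13 hc hc' hrel
  obtain ⟨b, hb2⟩ := exists_cd d A h₁ h₃
  obtain ⟨a, ha2⟩ := exists_cd d A h₂ h₃
  exact r3_far hd hs hcomm hR hC hD₁ hsub hx₁ hx₂ hx₃ n₁ n₂ n₃ hc hb2 ha2 (by omega) hrel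

end Pool.Agent.ABA.Far
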