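import Mathlib
import Pool.Agent.Helper89_ABA.FarR3

/-! # Far geometry VII: the far theorem (MP_d857f1_al)

`far`: for a group with two abelian subgroups `A`, `B` whose Cayley graph satisfies a linear
isoperimetric inequality mod 2 (`LI K ρ`) and whose elements of `A`, `B` have short conjugators
(`ConjBd`), the properties `Geo A B` follow from their restrictions to elements of bounded length,
with a bound depending only on the constants. -/

namespace Pool.Agent.ABA

open SimpleGraph

/-- the Cayley graph of a group with respect to the union of two subgroups -/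
def Cay {H : Type*} [Group H] (A B : Subgroup H) : SimpleGraph H where
  Adj g h := g ≠ h ∧ (g⁻¹ * h ∈ A ∨ g⁻¹ * h ∈ B)
  symm := ⟨by
    rintro g h ⟨h1, h2⟩
    refine ⟨h1.symm, ?_⟩
    have e : h⁻¹ * g = (g⁻¹ * h)⁻¹ := by group
    rw [e]
    exact h2.imp A.inv_mem B.inv_mem⟩
  loopless := ⟨fun g h => h.1 rfl⟩

/-- the syllable length -/
noncomputable def len {H : Type*} [Group H] (A B : Subgroup H) (h : H) : ℕ := (Cay A B).dist 1 h

/-- the properties `Geo` for elements of bounded length -/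
structure GeoB {H : Type*} [Group H] (A B : Subgroup H) (n : ℕ) : Prop where
  ab : ∀ x ∈ A, x ∈ B → x = 1
  aa : ∀ h : H, len A B h ≤ n → ∀ x ∈ A, h * x * h⁻¹ ∈ A → x ≠ 1 → h ∈ A
  bb : ∀ h : H, len A B h ≤ n → ∀ x ∈ B, h * x * h⁻¹ ∈ B → x ≠ 1 → h ∈ B
  ab' : ∀ h : H, len A B h ≤ n → ∀ x ∈ A, h * x * h⁻¹ ∈ B → x = 1
  e1 : ∀ x ∈ A, ∀ y ∈ B, ∀ x' ∈ A, ∀ y' ∈ B, x ≠ 1 → y ≠ 1 → x' ≠ 1 → y' ≠ 1 →
    x * y * x' * y' ≠ 1
  r3 : ∀ h₁ h₂ h₃ x₁ x₂ x₃ : H, len A B h₁ ≤ n → len A B h₂ ≤ n → len A B h₃ ≤ n →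
    x₁ ∈ A → x₂ ∈ A → x₃ ∈ A → x₁ ≠ 1 → x₂ ≠ 1 → x₃ ≠ 1 →
    h₁⁻¹ * h₂ ∉ A → h₂⁻¹ * h₃ ∉ A → h₁⁻¹ * h₃ ∉ A →
    h₁ * x₁ * h₁⁻¹ * (h₂ * x₂ * h₂⁻¹) * (h₃ * x₃ * h₃⁻¹) ≠ 1
  t2 : ∀ h : H, len A B h ≤ n → h * h = 1 → h = 1
  e6 : ∀ h : H, len A B h ≤ n → ¬ IsABA A B h → E6 A h
  el : ∀ k : H, len A B k ≤ n → ∀ s ∈ A, ∀ t ∈ B, s ≠ 1 → t ≠ 1 → k * s * k⁻¹ * s ≠ t

namespace Far

variable {H : Type*} [Group H] {A B : Subgroup H}

/-- left translation as a graph homomorphism -/
def transl (A B : Subgroup H) (g : H) : Cay A B →g Cay A B where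
  toFun x := g * x
  map_rel' := by
    rintro x y ⟨h1, h2⟩
    refine ⟨fun h => h1 (mul_left_cancel h), ?_⟩
    have e : (g * x)⁻¹ * (g * y) = x⁻¹ * y := by group
    rw [e]; exact h2

theorem dist_transl_le (hc : (Cay A B).Connected) (g x y : H) :
    (Cay A B).dist (g * x) (g * y) ≤ (Cay A B).dist x y := by
  obtain ⟨p, hp⟩ := hc.exists_walk_length_eq_dist x y
  rw [← hp]
  have := dist_le (p.map (transl A B g))
  rw [Walk.length_map] at this
  exact this

theorem met_cay (hc : (Cay A B).Connected) : Met (Cay A B).dist where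
  self x := dist_self
  symm x y := dist_comm
  tri x y z := hc.dist_triangle
  inv g x y := by
    apply le_antisymm (dist_transl_le hc g x y)
    have := dist_transl_le hc g⁻¹ (g * x) (g * y)
    rwa [inv_mul_cancel_left, inv_mul_cancel_left] at this
  mid x y i hi := exists_vertex hc x y i hi

theorem step_left (A B : Subgroup H) : Step (Cay A B).dist A := by
  intro x a ha
  by_cases h1 : x = x * a
  · rw [← h1, dist_self]; omega
  · have hadj : (Cay A B).Adj x (x * a) := ⟨h1, Or.inl (by rwa [inv_mul_cancel_left])⟩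
    have := dist_le (Walk.cons hadj (Walk.nil : (Cay A B).Walk _ _)); simpa using this

theorem step_right (A B : Subgroup H) : Step (Cay A B).dist B := by
  intro x a ha
  by_cases h1 : x = x * a
  · rw [← h1, dist_self]; omega
  · have hadj : (Cay A B).Adj x (x * a) := ⟨h1, Or.inr (by rwa [inv_mul_cancel_left])⟩
    have := dist_le (Walk.cons hadj (Walk.nil : (Cay A B).Walk _ _)); simpa using this

theorem Sub.mono {d : H → H → ℕ} {M M' D₁ : ℕ} (h : Sub d M D₁) (hM : M' ≤ M) : Sub d M' D₁ := by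
  intro D hD
  obtain ⟨E, h1, h2⟩ := h D hD
  exact ⟨E, (Nat.mul_le_mul_right _ hM).trans h1, h2⟩

/-- THE FAR THEOREM -/
theorem far (K ρ C : ℕ) : ∃ D₀ : ℕ, ∀ (H : Type*) [Group H] (A B : Subgroup H),
    (Cay A B).Connected → LI (Cay A B) K ρ →
    (∀ x ∈ A, ∀ y ∈ A, x * y = y * x) → (∀ x ∈ B, ∀ y ∈ B, x * y = y * x) →
    ConjBd (Cay A B).dist A C → ConjBd (Cay A B).dist B C →
    GeoB A B D₀ → Geo A B := by
  obtain ⟨D₂, hD₂⟩ := fp_sublinear K ρ 20 (1000 * (C + 1))
  set D₁ := D₂ + 1000 * (C + 1) with hD₁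
  refine ⟨D₁ + C * (2 * D₁ + 3) + C * 3, ?_⟩
  intro H _ A B hc hLI hA hB hCA hCB hb
  have hd := met_cay hc
  have hsA := step_left A B
  have hsB := step_right A B
  have hsub : Sub (Cay A B).dist (1000 * (C + 1)) D₁ := by
    intro D hD
    obtain ⟨E, h1, h2⟩ := hD₂ D (by omega)
    exact ⟨E, h1, h2 H (Cay A B) hc hLI⟩
  have hsub' : Sub (Cay A B).dist (100 * (C + 1)) D₁ := Sub.mono hsub (by omega)
  have hR : R2 A := r2_of_far hd hsA hA hCA (by omega) (by omega) hsub' hb.aa
  exact
    { ab := hb.ab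
      aa := hR
      bb := r2_of_far hd hsB hB hCB (by omega) (by omega) hsub' hb.bb
      ab' := by
        intro h x hx hxB
        by_contra hx1
        obtain ⟨y, hy1, hy2⟩ := hCA h⁻¹ x hx hx1
        rw [inv_inv] at hy1 hy2
        have h1 := hsB.one hxB
        have h3 : C * ((Cay A B).dist 1 (h * x * h⁻¹) + 1) ≤ C * 2 :=
          Nat.mul_le_mul_left _ (by omega)
        apply hx1
        apply hb.ab' y⁻¹ _ x hx
        · rw [inv_inv, hy2]; exact hxB
        · have : len A B y⁻¹ = (Cay A B).dist 1 y := hd.one_inv y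
          rw [this]; omega
      e1 := hb.e1
      r3 := r3_of_far hd hsA hA hR hCA (by omega) (by omega) hsub hb.r3
      t2 := t2_of_far hd (C := C) (by omega) (by omega) hsub' hb.t2
      e6 := e6_of_far hd hsA hA hR hCA (by omega) (by omega) hsub' hb.e6
      el := by
        intro k s hs t ht n₁ n₂ hrel
        obtain ⟨y, hy1, hy2⟩ := hCA k⁻¹ s hs n₁
        rw [inv_inv] at hy1 hy2
        have e : k * s * k⁻¹ = t * s⁻¹ := by rw [← hrel]; group
        have h1 := hsB.one ht
        have h2 := hsA.one (A.inv_mem hs)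
        have h4 := hd.one_mul t s⁻¹
        have h3 : C * ((Cay A B).dist 1 (k * s * k⁻¹) + 1) ≤ C * 3 :=
          Nat.mul_le_mul_left _ (by rw [e]; omega)
        refine hb.el y⁻¹ ?_ s hs t ht n₁ n₂ ?_
        · have : len A B y⁻¹ = (Cay A B).dist 1 y := hd.one_inv y
          rw [this]; omega
        · rw [inv_inv, hy2, e]; group }

/-- a product of at most `n` syllables has length at most `n` -/
theorem len_prod_le (hc : (Cay A B).Connected) (l : List H) (hl : ∀ s ∈ l, s ∈ A ∨ s ∈ B) :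
    len A B l.prod ≤ l.length := by
  induction l with
  | nil => simp [len]
  | cons s l ih =>
    have h1 := ih (fun t ht => hl t (List.mem_cons_of_mem _ ht))
    have h2 := (met_cay hc).one_mul s l.prod
    have h3 : (Cay A B).dist 1 s ≤ 1 := by
      rcases hl s List.mem_cons_self with h | h
      · exact (step_left A B).one h
      · exact (step_right A B).one h
    rw [List.prod_cons, List.length_cons]
    unfold len at *
    omega

theorem walk_word {g h : H} (p : (Cay A B).Walk g h) :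
    ∃ l : List H, l.length = p.length ∧ (∀ s ∈ l, s ∈ A ∨ s ∈ B) ∧ g * l.prod = h := by
  induction p with
  | nil => exact ⟨[], rfl, by simp, by simp⟩
  | @cons a b c hab q ih =>
    obtain ⟨l, h1, h2, h3⟩ := ih
    refine ⟨(a⁻¹ * b) :: l, by simp [h1], ?_, ?_⟩
    · intro s hs
      rcases List.mem_cons.1 hs with rfl | hs
      · exact hab.2
      · exact h2 s hs
    · rw [List.prod_cons, ← mul_assoc, mul_inv_cancel_left, h3]

/-- every element of length at most `n` is a product of at most `n` syllables -/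
theorem exists_word (hc : (Cay A B).Connected) (h : H) :
    ∃ l : List H, l.length = len A B h ∧ (∀ s ∈ l, s ∈ A ∨ s ∈ B) ∧ l.prod = h := by
  obtain ⟨p, hp⟩ := hc.exists_walk_length_eq_dist 1 h
  obtain ⟨l, h1, h2, h3⟩ := walk_word p
  exact ⟨l, by rw [h1, hp]; rfl, h2, by rwa [one_mul] at h3⟩

/-- the Cayley graph is connected if the subgroups generate -/
theorem cay_connected (hgen : A ⊔ B = ⊤) : (Cay A B).Connected := by
  have key : ∀ h : H, (Cay A B).Reachable 1 h := by
    intro h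
    have hh : h ∈ Subgroup.closure ((A : Set H) ∪ B) := by
      rw [Subgroup.closure_union, Subgroup.closure_eq, Subgroup.closure_eq, hgen]
      trivial
    have tr : ∀ g x y : H, (Cay A B).Reachable x y → (Cay A B).Reachable (g * x) (g * y) := by
      intro g x y hxy
      exact hxy.map (transl A B g)
    induction hh using Subgroup.closure_induction with
    | mem x hx =>
      by_cases h1 : (1 : H) = x
      · rw [← h1]
      · have hadj : (Cay A B).Adj 1 x := ⟨h1, by simpa using hx⟩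
        exact hadj.reachable
    | one => exact Reachable.refl 1
    | mul x y _ _ ihx ihy =>
      have := tr x 1 y ihy
      rw [mul_one] at this
      exact ihx.trans this
    | inv x _ ihx =>
      have := tr x⁻¹ 1 x ihx
      rw [mul_one, inv_mul_cancel] at this
      exact this.symm
  haveI : Nonempty H := ⟨1⟩
  exact ⟨fun x y => (key x).symm.trans (key y)⟩

end Far

end Pool.Agent.ABA
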