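import Mathlib
import Pool.Agent.Helper83_ABA.Junk
import Pool.Agent.Helper89_ABA.Far

/-! # Presented groups and the interface statements (MP_d857f1_al) -/

namespace Pool.Agent.ABA

/-- the group presented by a set of words over two copies of `L` -/
abbrev PG (L : Type) [AddCommGroup L] (R : Set (Wd L)) : Type :=
  FP L ⧸ Subgroup.normalClosure (ev (αF L) '' R)

/-- the two one-parameter groups in the presented group -/
def αP (L : Type) [AddCommGroup L] (R : Set (Wd L)) (t : Bool) : Multiplicative L →* PG L R :=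
  (QuotientGroup.mk' (Subgroup.normalClosure (ev (αF L) '' R))).comp (αF L t)

/-- change of labels -/
def wmap {L L' : Type} (f : L → L') (w : Wd L) : Wd L' := w.map (fun s => (s.1, f s.2))

/-- the relators of the group with the new relator `a^x b^y a^z = g` -/
def Rnew {L : Type} [AddCommGroup L] (R : Set (Wd ℤ)) (g : Wd ℤ) (c : ℤ → L) (x y z : L) :
    Set (Wd L) :=
  wmap c '' R ∪ {Tw (wmap c g) x y z}

/-- Every presented group has certificates (COMPLETENESS and SOUNDNESS). -/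
def PresStmt : Prop := ∀ (L : Type) [AddCommGroup L] (R : Set (Wd L)), Pres (αP L R) R

/-- THE `P_Λ` STATEMENT (helper52's theorem for `P`, amalgam lemma, identification of `P_Λ` with the
amalgam). -/
def PLamStmt : Prop :=
  ∀ (R : Set (Wd ℤ)) (g : Wd ℤ) (Λ : Type) [AddCommGroup Λ] (c : ℤ →+ Λ) (x y z : Λ),
    (∀ r ∈ R, (r.map Prod.snd).sum = 0) →
    Geo (αP ℤ R true).range (αP ℤ R false).range →
    ¬ IsABA (αP ℤ R true).range (αP ℤ R false).range (ev (αP ℤ R) g) →
    (∀ (n : ℕ) (t : Λ), n ≠ 0 → n • t = 0 → t = 0) →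
    (∀ i j k : ℤ, c i + j • x + k • z = 0 → i = 0 ∧ j = 0 ∧ k = 0) →
    (∀ i j : ℤ, c i + j • y = 0 → i = 0 ∧ j = 0) →
    Geo (αP Λ (Rnew R g c x y z) true).range (αP Λ (Rnew R g c x y z) false).range

/-- THE LINEAR COUNT (sections 2 and 3 of ABA_part1): a uniform constant for all large exponents. -/
def LFnewStmt : Prop :=
  ∀ (R : Set (Wd ℤ)) (g : Wd ℤ), R.Finite →
    (∀ r ∈ R, (r.map Prod.snd).sum = 0) →
    Geo (αP ℤ R true).range (αP ℤ R false).range →
    ¬ IsABA (αP ℤ R true).range (αP ℤ R false).range (ev (αP ℤ R) g) →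
    LF R → ∃ (K : ℕ) (x₀ : ℤ), ∀ x y z : ℤ, x₀ ≤ x → 4 * x ≤ z → x ≤ |y| →
      x + y + z = (g.map Prod.snd).sum → LFwith K (Rnew R g id x y z)

/-- LI AND SHORT CONJUGATORS from LF. -/
def GeomStmt : Prop :=
  ∀ (K m : ℕ), ∃ K' ρ C : ℕ, ∀ R : Set (Wd ℤ), (∀ r ∈ R, r.length ≤ m) →
    (∀ r ∈ R, (r.map Prod.snd).sum = 0) → LFwith K R →
    Far.LI (Cay (αP ℤ R true).range (αP ℤ R false).range) K' ρ ∧
    Far.ConjBd (Cay (αP ℤ R true).range (αP ℤ R false).range).dist (αP ℤ R true).range C ∧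
    Far.ConjBd (Cay (αP ℤ R true).range (αP ℤ R false).range).dist (αP ℤ R false).range C

end Pool.Agent.ABA
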