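import Mathlib
import Pool.Agent.Helper70_ABA.Words

/-! # The link of a vertex of the complex of `P`: kinds and enumeration (MP_d857f1_al, part B)

Directions at a vertex: `U, V, W` outgoing (`p`) and incoming (`m`), indexed by cosets of `A`;
`C` outgoing and incoming, indexed by cosets of `B`. Every coset of `A` carries a hexagon
`up vp wp um vm wm`; the edges `up (hA) - vm (hgA)`, `um (hA) - cp (hB)`, `cm (hB) - vp (hA)` come
from the triangle `u c v = g`. -/

namespace Pool.Agent.ABA.B

/-- kinds of directions -/
inductive Knd
  | up | vp | wp | um | vm | wm | cp | cm
  deriving DecidableEq, Repr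

namespace Knd

def all : List Knd := [up, vp, wp, um, vm, wm, cp, cm]

theorem mem_all (k : Knd) : k ∈ all := by cases k <;> simp [all]

/-- `true` for the kinds with stabilizer `A` -/
def isH : Knd → Bool
  | cp => false | cm => false | _ => true

/-- neighbours in the hexagon -/
def hex : Knd → Knd → Bool
  | up, vp => true | vp, up => true
  | vp, wp => true | wp, vp => true
  | wp, um => true | um, wp => true
  | um, vm => true | vm, um => true
  | vm, wm => true | wm, vm => true
  | wm, up => true | up, wm => true
  | _, _ => false

/-- corners of the triangles with trivial stabilizer -/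
def tee : Knd → Knd → Bool
  | up, vm => true | vm, up => true
  | um, cp => true | cp, um => true
  | cm, vp => true | vp, cm => true
  | _, _ => false

/-- adjacency of kinds -/
def adj (a b : Knd) : Bool := hex a b || tee a b

/-- 20 times the refined weight -/
def wt : Knd → Knd → ℕ
  | up, vm => 18 | vm, up => 18
  | um, cp => 21 | cp, um => 21 | cm, vp => 21 | vp, cm => 21
  | up, vp => 22 | vp, up => 22 | um, vm => 22 | vm, um => 22
  | _, _ => 19

theorem adj_symm (a b : Knd) : adj a b = adj b a := by cases a <;> cases b <;> rfl
theorem hex_symm (a b : Knd) : hex a b = hex b a := by cases a <;> cases b <;> rfl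
theorem tee_symm (a b : Knd) : tee a b = tee b a := by cases a <;> cases b <;> rfl
theorem wt_symm (a b : Knd) : wt a b = wt b a := by cases a <;> cases b <;> rfl
theorem adj_ne {a b : Knd} (h : adj a b = true) : a ≠ b := by
  rintro rfl; cases a <;> simp [adj, hex, tee] at h

theorem wt_ge (a b : Knd) : 18 ≤ wt a b := by cases a <;> cases b <;> decide
theorem wt_le (a b : Knd) : wt a b ≤ 22 := by cases a <;> cases b <;> decide

/-- the two hexagons -/
def hexs : List (List Knd) := [[up, vp, wp, um, vm, wm], [up, wm, vm, um, wp, vp]]

/-- the words of refined weight less than 6.1 without backtracking in a hexagon, which are not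
hexagons -/
def short : List (List Knd) :=
  [[um, cp], [vp, cm], [up, vm], [up, vm, wm], [up, wm, vm], [up, vm, um, wp, vp],
   [up, vp, wp, um, vm], [um, cp, um, cp], [vp, cm, vp, cm],
   [up, vm, up, vm], [up, vm, wm, up, vm], [up, vm, up, wm, vm],
   [up, vm, up, vm, up, vm], [up, vm, wm, up, vm, wm], [up, wm, vm, up, wm, vm]]

/-- cyclic word contained (up to rotation) in a list -/
def isr (l : List (List Knd)) (w : List Knd) : Bool :=
  (List.range w.length).any (fun i => decide (w.rotate i ∈ l))

/-- backtracking in a hexagon at the beginning of `r` (cyclically) -/
def bk (r : List Knd) : Bool :=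
  match r ++ r with
  | a :: b :: c :: _ => decide (a = c) && hex a b
  | _ => false

def hasbk (w : List Knd) : Bool := (List.range w.length).any (fun i => bk (w.rotate i))

/-- search: `prev` last letter, `acc` weight, `path` the word so far, starting with `first` -/
def chk (first : Knd) : ℕ → Knd → ℕ → List Knd → Bool
  | 0, prev, acc, path => !(adj prev first) || decide (122 ≤ acc + wt prev first) ||
      isr short path || isr hexs path || hasbk path
  | n + 1, prev, acc, path =>
    (!(adj prev first) || decide (122 ≤ acc + wt prev first) || isr short path ||
      isr hexs path || hasbk path) &&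
    all.all (fun b => !(adj prev b) || decide (122 ≤ acc + wt prev b) ||
      chk first n b (acc + wt prev b) (path ++ [b]))

def total (first : Knd) : Knd → List Knd → ℕ
  | prev, [] => wt prev first
  | prev, b :: t => wt prev b + total first b t

def valid (first : Knd) : Knd → List Knd → Prop
  | prev, [] => adj prev first = true
  | prev, b :: t => adj prev b = true ∧ valid first b t

theorem total_ge (first : Knd) : ∀ (t : List Knd) (prev : Knd),
    18 * (t.length + 1) ≤ total first prev t := by
  intro t
  induction t with
  | nil => intro prev; simp only [List.length_nil, total]; have := wt_ge prev first; omega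
  | cons b t ih =>
    intro prev
    have h1 := ih b
    have h2 := wt_ge prev b
    simp only [List.length_cons, total]
    omega

theorem chk_sound (first : Knd) (n : ℕ) : ∀ (prev : Knd) (acc : ℕ) (path t : List Knd),
    chk first n prev acc path = true → t.length ≤ n → valid first prev t →
    acc + total first prev t < 122 →
    (isr short (path ++ t) || isr hexs (path ++ t) || hasbk (path ++ t)) = true := by
  induction n with
  | zero =>
    intro prev acc path t h ht hv hc
    have : t = [] := List.length_eq_zero_iff.1 (by omega)
    subst this
    simp only [chk, Bool.or_eq_true, Bool.not_eq_true', decide_eq_true_eq] at h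
    simp only [valid] at hv
    simp only [total] at hc
    rw [List.append_nil]
    simp only [Bool.or_eq_true]
    rcases h with (((h | h) | h) | h) | h
    · rw [hv] at h; simp at h
    · omega
    · exact Or.inl (Or.inl h)
    · exact Or.inl (Or.inr h)
    · exact Or.inr h
  | succ n ih =>
    intro prev acc path t h ht hv hc
    simp only [chk, Bool.and_eq_true] at h
    obtain ⟨h1, h2⟩ := h
    cases t with
    | nil =>
      simp only [Bool.or_eq_true, Bool.not_eq_true', decide_eq_true_eq] at h1
      simp only [valid] at hv
      simp only [total] at hc
      rw [List.append_nil]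
      simp only [Bool.or_eq_true]
      rcases h1 with (((h | h) | h) | h) | h
      · rw [hv] at h; simp at h
      · omega
      · exact Or.inl (Or.inl h)
      · exact Or.inl (Or.inr h)
      · exact Or.inr h
    | cons b t =>
      simp only [valid] at hv
      simp only [total] at hc
      have h3 := List.all_eq_true.1 h2 b (mem_all b)
      simp only [Bool.or_eq_true, Bool.not_eq_true', decide_eq_true_eq] at h3
      rcases h3 with (h3 | h3) | h3
      · rw [hv.1] at h3; simp at h3
      · omega
      · have := ih b (acc + wt prev b) (path ++ [b]) t h3 (by simpa using ht) hv.2 (by omega)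
        simpa using this

set_option maxRecDepth 100000 in
theorem chk_all : ∀ f ∈ all, chk f 6 f 0 [f] = true := by
  decide +kernel

/-- the enumeration: closed words of weight less than 6.1 -/
theorem enum (a : Knd) (t : List Knd) (hv : valid a a t) (hc : total a a t < 122) :
    (isr short (a :: t) || isr hexs (a :: t) || hasbk (a :: t)) = true := by
  have h1 := total_ge a t a
  exact chk_sound a 6 a 0 [a] t (chk_all a (mem_all a)) (by omega) hv (by omega)

end Knd

end Pool.Agent.ABA.B
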