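import Mathlib
import Pool.Agent.Helper89_ABA.PLink1

/-! # The link of a vertex: short closed walks are impossible (MP_d857f1_al, part B) -/

namespace Pool.Agent.ABA.B

open Knd

variable {G : Type} [Group G]

/-- stabilizer of a direction of given kind -/
def grp (A B : Subgroup G) (k : Knd) : Subgroup G := if k.isH then A else B

/-- group element of a corner -/
def crn (g : G) : Knd → Knd → G
  | up, vm => g
  | vm, up => g⁻¹
  | _, _ => 1

/-- data along a reduced closed walk in the link: kinds, turns, positions -/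
structure LSeq (A B : Subgroup G) (g : G) (n : ℕ) (κ : ℕ → Knd) (x h : ℕ → G) : Prop where
  pos : 0 < n
  perk : ∀ j, κ (j + n) = κ j
  perx : ∀ j, x (j + n) = x j
  perh : ∀ j, h (j + n) = h j
  ok : ∀ j, adj (κ j) (κ (j + 1)) = true
  mem : ∀ j, x j ∈ grp A B (κ j)
  nobk : ∀ j, κ j = κ (j + 2) → hex (κ j) (κ (j + 1)) = false
  fold : ∀ j, κ j = κ (j + 2) → x (j + 1) ≠ 1
  rel : ∀ j, h (j + 1) = h j * (crn g (κ j) (κ (j + 1)) * x (j + 1))

def kseg (κ : ℕ → Knd) : ℕ → ℕ → List Knd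
  | _, 0 => []
  | i, m + 1 => κ i :: kseg κ (i + 1) m

theorem kseg_length (κ : ℕ → Knd) : ∀ (m i : ℕ), (kseg κ i m).length = m := by
  intro m
  induction m with
  | zero => intro i; rfl
  | succ m ih => intro i; simp only [kseg, List.length_cons, ih]

theorem kseg_get (κ : ℕ → Knd) : ∀ (m i j : ℕ) (h : j < (kseg κ i m).length),
    (kseg κ i m)[j] = κ (i + j) := by
  intro m
  induction m with
  | zero => intro i j h; simp [kseg] at h
  | succ m ih =>
    intro i j h
    cases j with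
    | zero => simp [kseg]
    | succ j =>
      simp only [kseg, List.getElem_cons_succ]
      rw [ih]
      congr 1
      omega

theorem kseg_shift (κ : ℕ → Knd) (i : ℕ) : ∀ (m k : ℕ),
    kseg (fun j => κ (j + i)) k m = kseg κ (k + i) m := by
  intro m
  induction m with
  | zero => intro k; rfl
  | succ m ih =>
    intro k
    simp only [kseg]
    rw [ih]
    congr 2
    omega

namespace LSeq

variable {A B : Subgroup G} {g : G} {n : ℕ} {κ : ℕ → Knd} {x h : ℕ → G}

theorem shift (s : LSeq A B g n κ x h) (i : ℕ) :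
    LSeq A B g n (fun j => κ (j + i)) (fun j => x (j + i)) (fun j => h (j + i)) := by
  have e : ∀ (j m : ℕ), j + m + i = j + i + m := fun j m => by omega
  refine ⟨s.pos, ?_, ?_, ?_, ?_, ?_, ?_, ?_, ?_⟩
  · intro j; simp only [e]; exact s.perk _
  · intro j; simp only [e]; exact s.perx _
  · intro j; simp only [e]; exact s.perh _
  · intro j; simp only [e]; exact s.ok _
  · intro j; exact s.mem _
  · intro j; simp only [e]; exact s.nobk _
  · intro j; simp only [e]; exact s.fold _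
  · intro j; simp only [e]; exact s.rel _

def prodr (g : G) (κ : ℕ → Knd) (x : ℕ → G) : ℕ → ℕ → G
  | _, 0 => 1
  | i, m + 1 => crn g (κ i) (κ (i + 1)) * x (i + 1) * prodr g κ x (i + 1) m

theorem h_prodr (s : LSeq A B g n κ x h) : ∀ (m i : ℕ), h (i + m) = h i * prodr g κ x i m := by
  intro m
  induction m with
  | zero => intro i; simp [prodr]
  | succ m ih =>
    intro i
    have h1 : i + (m + 1) = i + 1 + m := by omega
    rw [h1, ih, s.rel]
    simp only [prodr, mul_assoc]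

theorem prodr_one (s : LSeq A B g n κ x h) (i : ℕ) : prodr g κ x i n = 1 := by
  have h1 := s.h_prodr n i
  rw [s.perh] at h1
  exact (mul_eq_left.1 h1.symm)

/-- no short word is read -/
theorem not_short (s : LSeq A B g n κ x h) (hA : ∀ x ∈ A, ∀ y ∈ A, x * y = y * x)
    (hG : Geo A B) (hgB : ¬ IsABA A B g) : kseg κ 1 n ∉ short := by
  intro hs
  have hg : g ∉ A := notA hgB
  have hg' : g⁻¹ ∉ A := fun hh => hg ((Subgroup.inv_mem_iff _).1 hh)
  have hr := s.prodr_one 1
  have hk0 := s.perk 0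
  have hk1 := s.perk 1
  have hk2 := s.perk 2
  have hx1 := s.perx 1
  have m1 := s.mem 1
  have m2 := s.mem 2
  have m3 := s.mem 3
  have m4 := s.mem 4
  have m5 := s.mem 5
  have m6 := s.mem 6
  have f0 := s.fold 0
  have f1 := s.fold 1
  have f2 := s.fold 2
  have f3 := s.fold 3
  have f4 := s.fold 4
  have f5 := s.fold 5
  have hlen : ∀ c : List Knd, kseg κ 1 n = c → n = c.length := by
    intro c hc
    rw [← hc, kseg_length]
  simp only [short, List.mem_cons, List.not_mem_nil, or_false] at hs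
  rcases hs with hs | hs | hs | hs | hs | hs | hs | hs | hs | hs | hs | hs | hs | hs | hs
  all_goals
    have hn := hlen _ hs
    simp only [List.length_cons, List.length_nil, Nat.zero_add, Nat.reduceAdd] at hn
    subst hn
    simp only [kseg, List.cons.injEq, and_true, Nat.reduceAdd] at hs
    simp only [Nat.reduceAdd, zero_add, hs] at hk0 hk1 hk2 hx1 m1 m2 m3 m4 m5 m6 f0 f1 f2 f3 f4 f5
    try simp only [hk1, hk2] at f1
    try simp only [hk1, hk2] at f2
    try simp only [hk1, hk2] at f3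
    try simp only [hk1, hk2] at f4
    try simp only [hk1, hk2] at f5
    simp only [prodr, Nat.reduceAdd, hs, hk1, hx1, crn, mul_one, one_mul] at hr
    try rw [← hk0] at f0
    simp only [reduceCtorEq, true_implies, false_implies, grp, isH, if_true, if_false,
      Bool.false_eq_true] at f0 f1 f2 f3 f4 f5 m1 m2 m3 m4 m5 m6
  · -- um cp
    exact wPPi hG m1 m2 f0 (mul_eq_one_comm.1 hr)
  · exact wPPi hG m1 m2 f0 (mul_eq_one_comm.1 hr)
  · -- up vm
    refine wOOi hG hg m1 m2 f1 ?_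
    calc x 1 * g * (x 2 * g⁻¹) = x 1 * (g * x 2 * (g⁻¹ * x 1)) * (x 1)⁻¹ := by group
      _ = 1 := by rw [hr]; group
  · -- up vm wm
    apply hg
    have : g = (x 2 * (x 3 * x 1))⁻¹ := by
      rw [mul_assoc] at hr
      exact eq_inv_of_mul_eq_one_left hr
    rw [this]
    exact A.inv_mem (A.mul_mem m2 (A.mul_mem m3 m1))
  · -- up wm vm
    apply hg
    have : g = x 1 * x 2 * x 3 := by
      have h1 : x 1 * x 2 * x 3 * g⁻¹ = 1 := by
        calc x 1 * x 2 * x 3 * g⁻¹ = x 1 * (x 2 * (x 3 * (g⁻¹ * x 1))) * (x 1)⁻¹ := by group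
          _ = 1 := by rw [hr]; group
      exact (mul_inv_eq_one.1 h1).symm
    rw [this]
    exact A.mul_mem (A.mul_mem m1 m2) m3
  · -- up vm um wp vp
    apply hg
    have : g = (x 2 * (x 3 * (x 4 * (x 5 * x 1))))⁻¹ := by
      rw [mul_assoc] at hr
      exact eq_inv_of_mul_eq_one_left hr
    rw [this]
    exact A.inv_mem (A.mul_mem m2 (A.mul_mem m3 (A.mul_mem m4 (A.mul_mem m5 m1))))
  · -- up vp wp um vm
    apply hg
    have : g = x 1 * x 2 * x 3 * x 4 * x 5 := by
      have h1 : x 1 * x 2 * x 3 * x 4 * x 5 * g⁻¹ = 1 := by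
        calc x 1 * x 2 * x 3 * x 4 * x 5 * g⁻¹ =
            x 1 * (x 2 * (x 3 * (x 4 * (x 5 * (g⁻¹ * x 1))))) * (x 1)⁻¹ := by group
          _ = 1 := by rw [hr]; group
      exact (mul_inv_eq_one.1 h1).symm
    rw [this]
    exact A.mul_mem (A.mul_mem (A.mul_mem (A.mul_mem m1 m2) m3) m4) m5
  · -- um cp um cp
    refine hG.e1 _ m1 _ m2 _ m3 _ m4 f0 f1 f2 f3 ?_
    calc x 1 * x 2 * x 3 * x 4 = x 1 * (x 2 * (x 3 * (x 4 * x 1))) * (x 1)⁻¹ := by group
      _ = 1 := by rw [hr]; group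
  · refine hG.e1 _ m1 _ m2 _ m3 _ m4 f0 f1 f2 f3 ?_
    calc x 1 * x 2 * x 3 * x 4 = x 1 * (x 2 * (x 3 * (x 4 * x 1))) * (x 1)⁻¹ := by group
      _ = 1 := by rw [hr]; group
  · -- up vm up vm
    refine wOOi2 hG hg m1 m2 m3 m4 f0 f1 f3 ?_
    calc x 1 * g * (x 2 * g⁻¹) * (x 3 * g) * (x 4 * g⁻¹) =
        x 1 * (g * x 2 * (g⁻¹ * x 3 * (g * x 4 * (g⁻¹ * x 1)))) * (x 1)⁻¹ := by group
      _ = 1 := by rw [hr]; group
  · -- up vm wm up vm
    rw [hx1] at f5
    refine wOOOi hG hA hg m1 (A.mul_mem (A.mul_mem m2 m3) m4) m5 f5 f4 ?_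
    calc x 1 * g * (x 2 * x 3 * x 4 * g) * (x 5 * g⁻¹) =
        x 1 * (g * x 2 * (x 3 * (x 4 * (g * x 5 * (g⁻¹ * x 1))))) * (x 1)⁻¹ := by group
      _ = 1 := by rw [hr]; group
  · -- up vm up wm vm
    rw [hx1] at f5
    refine wOOiOi hG hA hg m1 m2 (A.mul_mem (A.mul_mem m3 m4) m5) f5 f1 ?_
    calc x 1 * g * (x 2 * g⁻¹) * (x 3 * x 4 * x 5 * g⁻¹) =
        x 1 * (g * x 2 * (g⁻¹ * x 3 * (x 4 * (x 5 * (g⁻¹ * x 1))))) * (x 1)⁻¹ := by group
      _ = 1 := by rw [hr]; group
  · -- (up vm)^3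
    refine hG.e6 g hgB _ m1 _ m2 _ m3 _ m4 _ m5 _ m6 f0 f1 f2 f3 f4 f5 ?_
    calc x 1 * (g * x 2 * g⁻¹) * x 3 * (g * x 4 * g⁻¹) * x 5 * (g * x 6 * g⁻¹) =
        x 1 * (g * x 2 * (g⁻¹ * x 3 * (g * x 4 * (g⁻¹ * x 5 * (g * x 6 * (g⁻¹ * x 1)))))) *
          (x 1)⁻¹ := by group
      _ = 1 := by rw [hr]; group
  · -- up vm wm up vm wm
    refine wOO hG hg (A.mul_mem (A.mul_mem m2 m3) m4) (A.mul_mem (A.mul_mem m5 m6) m1) ?_
    calc x 2 * x 3 * x 4 * g * (x 5 * x 6 * x 1 * g) =
        g⁻¹ * (g * x 2 * (x 3 * (x 4 * (g * x 5 * (x 6 * x 1))))) * g := by group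
      _ = 1 := by rw [hr]; group
  · -- up wm vm up wm vm
    refine wOO hG hg' (A.mul_mem (A.mul_mem m1 m2) m3) (A.mul_mem (A.mul_mem m4 m5) m6) ?_
    calc x 1 * x 2 * x 3 * g⁻¹ * (x 4 * x 5 * x 6 * g⁻¹) =
        x 1 * (x 2 * (x 3 * (g⁻¹ * x 4 * (x 5 * (x 6 * (g⁻¹ * x 1)))))) * (x 1)⁻¹ := by group
      _ = 1 := by rw [hr]; group

theorem valid_seg (s : LSeq A B g n κ x h) :
    ∀ (m i : ℕ), valid (κ (i + m + 1)) (κ i) (kseg κ (i + 1) m) := by
  intro m
  induction m with
  | zero => intro i; exact s.ok i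
  | succ m ih =>
    intro i
    refine ⟨s.ok i, ?_⟩
    have := ih (i + 1)
    have h1 : i + 1 + m + 1 = i + (m + 1) + 1 := by omega
    rw [h1] at this
    exact this

theorem total_seg (κ : ℕ → Knd) : ∀ (m i : ℕ), total (κ (i + m + 1)) (κ i) (kseg κ (i + 1) m) =
    ∑ j ∈ Finset.range (m + 1), wt (κ (i + j)) (κ (i + j + 1)) := by
  intro m
  induction m with
  | zero => intro i; simp [kseg, total]
  | succ m ih =>
    intro i
    have := ih (i + 1)
    have h1 : i + 1 + m + 1 = i + (m + 1) + 1 := by omega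
    rw [h1] at this
    rw [Finset.sum_range_succ']
    simp only [kseg, total]
    rw [this, add_comm]
    congr 1
    refine Finset.sum_congr rfl (fun j _ => ?_)
    have h2 : i + 1 + j = i + (j + 1) := by omega
    rw [h2]

theorem rot_seg (s : LSeq A B g n κ x h) (i : ℕ) (hi : i < n) :
    (kseg κ 1 n).rotate i = kseg κ (i + 1) n := by
  refine List.ext_getElem ?_ ?_
  · rw [List.length_rotate, kseg_length, kseg_length]
  · intro j h1 h2
    rw [List.getElem_rotate, kseg_get, kseg_get, kseg_length]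
    rw [kseg_length] at h2
    by_cases hj : j + i < n
    · rw [Nat.mod_eq_of_lt hj]
      congr 1; omega
    · have h3 : (j + i) % n = j + i - n := by
        rw [Nat.mod_eq_sub_mod (by omega), Nat.mod_eq_of_lt (by omega)]
      rw [h3, ← s.perk]
      congr 1; omega

theorem bk_seg (s : LSeq A B g n κ x h) (i : ℕ) (hb : bk (kseg κ i n) = true) : False := by
  have h1 := s.nobk i
  have hk := s.perk i
  have hk1 := s.ok i
  match n, s.pos with
  | 1, _ => simp [kseg, bk] at hb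
  | 2, _ =>
    simp only [kseg, bk, List.cons_append, List.nil_append, Bool.and_eq_true,
      decide_eq_true_eq, true_and] at hb
    rw [h1 hk.symm] at hb
    exact absurd hb (by simp)
  | n + 3, _ =>
    simp only [kseg, bk, List.cons_append, Bool.and_eq_true, decide_eq_true_eq] at hb
    have h2 := h1 hb.1
    rw [h2] at hb
    exact absurd hb.2 (by simp)

/-- the refined systole -/
theorem weight (s : LSeq A B g n κ x h) (hA : ∀ x ∈ A, ∀ y ∈ A, x * y = y * x)
    (hG : Geo A B) (hgB : ¬ IsABA A B g) :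
    122 ≤ ∑ j ∈ Finset.range n, wt (κ j) (κ (j + 1)) ∨ isr hexs (kseg κ 1 n) = true := by
  by_contra hcon
  push Not at hcon
  obtain ⟨hc1, hc2⟩ := hcon
  obtain ⟨m, rfl⟩ : ∃ m, n = m + 1 := ⟨n - 1, by have := s.pos; omega⟩
  have h1 := total_seg κ m 1
  have h2 := s.valid_seg m 1
  have h3 : κ (1 + m + 1) = κ 1 := by
    rw [← s.perk 1]; congr 1
  rw [h3] at h1 h2
  have h4 : ∑ j ∈ Finset.range (m + 1), wt (κ (1 + j)) (κ (1 + j + 1)) =
      ∑ j ∈ Finset.range (m + 1), wt (κ j) (κ (j + 1)) := by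
    rw [Finset.sum_range_succ, Finset.sum_range_succ', h3]
    have e1 : κ (1 + m) = κ 0 := by rw [← s.perk 0]; congr 1; omega
    rw [e1]
    congr 1
    refine Finset.sum_congr rfl (fun j _ => ?_)
    have : 1 + j = j + 1 := by omega
    rw [this]
  rw [h4] at h1
  have h5 := enum (κ 1) _ h2 (by rw [h1]; exact hc1)
  have h6 : κ 1 :: kseg κ (1 + 1) m = kseg κ 1 (m + 1) := rfl
  rw [h6] at h5
  simp only [Bool.or_eq_true] at h5
  rcases h5 with (h5 | h5) | h5
  · simp only [isr, kseg_length, List.any_eq_true, List.mem_range, decide_eq_true_eq] at h5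
    obtain ⟨i, hi, hi2⟩ := h5
    rw [s.rot_seg i hi] at hi2
    have h7 := (s.shift i).not_short hA hG hgB
    rw [kseg_shift, add_comm 1 i] at h7
    exact h7 hi2
  · exact hc2 h5
  · simp only [hasbk, kseg_length, List.any_eq_true, List.mem_range] at h5
    obtain ⟨i, hi, hi2⟩ := h5
    rw [s.rot_seg i hi] at hi2
    exact s.bk_seg _ hi2

/-- the systole is at least six -/
theorem six (s : LSeq A B g n κ x h) (hA : ∀ x ∈ A, ∀ y ∈ A, x * y = y * x)
    (hG : Geo A B) (hgB : ¬ IsABA A B g) : 6 ≤ n := by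
  by_contra hcon
  rcases s.weight hA hG hgB with h1 | h1
  · have h2 : ∑ j ∈ Finset.range n, wt (κ j) (κ (j + 1)) ≤ ∑ j ∈ Finset.range n, 22 := by
      apply Finset.sum_le_sum
      intro j _
      exact wt_le _ _
    rw [Finset.sum_const, Finset.card_range, smul_eq_mul] at h2
    omega
  · simp only [isr, kseg_length, List.any_eq_true, List.mem_range, decide_eq_true_eq] at h1
    obtain ⟨i, hi, hi2⟩ := h1
    have h3 : ((kseg κ 1 n).rotate i).length = 6 := by
      simp only [hexs, List.mem_cons, List.not_mem_nil, or_false] at hi2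
      rcases hi2 with h | h <;> rw [h] <;> rfl
    rw [List.length_rotate, kseg_length] at h3
    omega

end LSeq

end Pool.Agent.ABA.B
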