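import Mathlib
import Pool.Agent.Helper52_ABA.LStmts
import Pool.Agent.Helper89_ABA.PLink2

/-! # The link of a vertex: list form (MP_d857f1_al, part B) -/

namespace Pool.Agent.ABA.B

open Knd

variable {G : Type} [Group G]

/-- directions at a vertex -/
def Dir (A B : Subgroup G) : Type := Σ k : Knd, G ⧸ grp A B k

namespace Dir

variable {A B : Subgroup G}

/-- kind of a direction -/
def knd (d : Dir A B) : Knd := d.1

/-- the direction of kind `k` at the coset of `h` -/
def mk (A B : Subgroup G) (k : Knd) (h : G) : Dir A B := ⟨k, (h : G ⧸ grp A B k)⟩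

theorem knd_mk (k : Knd) (h : G) : (mk A B k h).knd = k := rfl

theorem exists_mk (d : Dir A B) : ∃ h, d = mk A B d.knd h := by
  obtain ⟨k, q⟩ := d
  obtain ⟨h, rfl⟩ := QuotientGroup.mk_surjective q
  exact ⟨h, rfl⟩

theorem mk_eq_iff (k : Knd) (h h' : G) : mk A B k h = mk A B k h' ↔ h⁻¹ * h' ∈ grp A B k := by
  rw [← QuotientGroup.eq]
  constructor
  · intro e
    have e' : (⟨k, (h : G ⧸ grp A B k)⟩ : Σ k : Knd, G ⧸ grp A B k) =
      ⟨k, (h' : G ⧸ grp A B k)⟩ := e
    exact eq_of_heq (Sigma.mk.inj e').2
  · intro e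
    unfold mk
    rw [e]

theorem mk_inj {k k' : Knd} {h h' : G} (e : mk A B k h = mk A B k' h') :
    k = k' ∧ h⁻¹ * h' ∈ grp A B k := by
  have h1 : k = k' := congrArg knd e
  subst h1
  exact ⟨rfl, (mk_eq_iff k h h').1 e⟩

end Dir

/-- adjacency in the link -/
def LAdj {A B : Subgroup G} (g : G) (d d' : Dir A B) : Prop :=
  ∃ h : G, adj d.knd d'.knd = true ∧ d = Dir.mk A B d.knd h ∧
    d' = Dir.mk A B d'.knd (h * crn g d.knd d'.knd)

theorem crn_mul (g : G) (a b : Knd) (h : adj a b = true) : crn g a b * crn g b a = 1 := by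
  cases a <;> cases b <;> simp_all [crn, adj, hex, tee]

theorem crn_hex (g : G) (a b : Knd) (h : hex a b = true) : crn g a b = 1 ∧ a.isH = true ∧
    b.isH = true := by
  cases a <;> cases b <;> simp_all [crn, hex, isH]

theorem LAdj.symm {A B : Subgroup G} {g : G} {d d' : Dir A B} (h : LAdj g d d') :
    LAdj g d' d := by
  obtain ⟨x, h1, h2, h3⟩ := h
  refine ⟨x * crn g d.knd d'.knd, by rw [adj_symm]; exact h1, h3, ?_⟩
  rw [mul_assoc, crn_mul g _ _ h1, mul_one]
  exact h2

/-- the sequence of a closed walk -/
theorem exists_lseq {A B : Subgroup G} {g : G} {n : ℕ} (hn : 0 < n) (d : ℕ → Dir A B)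
    (hper : ∀ j, d (j + n) = d j) (hadj : ∀ j, LAdj g (d j) (d (j + 1)))
    (hred : ∀ j, d j ≠ d (j + 2)) : ∃ x h, LSeq A B g n (fun j => (d j).knd) x h := by
  classical
  let sel : Dir A B → Dir A B → G := fun a b => if H : LAdj g a b then H.choose else 1
  have hsel : ∀ a b, LAdj g a b → a = Dir.mk A B a.knd (sel a b) ∧
      b = Dir.mk A B b.knd (sel a b * crn g a.knd b.knd) := by
    intro a b H
    have h1 := H.choose_spec
    have h2 : sel a b = H.choose := dif_pos H
    rw [h2]
    exact ⟨h1.2.1, h1.2.2⟩
  let h : ℕ → G := fun j => sel (d j) (d (j + 1))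
  have hh : ∀ j, h (j + n) = h j := by
    intro j
    have e : j + n + 1 = j + 1 + n := by omega
    simp only [h]
    rw [hper, e, hper]
  have h1 : ∀ j, d j = Dir.mk A B (d j).knd (h j) := fun j => (hsel _ _ (hadj j)).1
  have h2 : ∀ j, d (j + 1) = Dir.mk A B (d (j + 1)).knd
      (h j * crn g (d j).knd (d (j + 1)).knd) := fun j => (hsel _ _ (hadj j)).2
  let x : ℕ → G := fun j => (h (j + n - 1) * crn g (d (j + n - 1)).knd (d (j + n)).knd)⁻¹ *
    h (j + n)
  have hx : ∀ j, x (j + 1) = (h j * crn g (d j).knd (d (j + 1)).knd)⁻¹ * h (j + 1) := by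
    intro j
    have e1 : j + 1 + n - 1 = j + n := by omega
    have e2 : j + 1 + n = j + 1 + n := rfl
    simp only [x]
    rw [e1, hh, hper, hh (j + 1), hper (j + 1)]
  have hxm : ∀ j, x (j + 1) ∈ grp A B (d (j + 1)).knd := by
    intro j
    rw [hx, ← Dir.mk_eq_iff]
    exact (h2 j).symm.trans (h1 (j + 1))
  have hxp : ∀ j, x (j + n) = x j := by
    intro j
    obtain ⟨m, rfl⟩ : ∃ m, n = m + 1 := ⟨n - 1, by omega⟩
    have e1 : j + (m + 1) + (m + 1) - 1 = (j + m) + (m + 1) := by omega
    have e2 : j + (m + 1) - 1 = j + m := by omega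
    simp only [x]
    rw [e1, e2, hh, hper, hh, hper]
  refine ⟨x, h, ⟨hn, fun j => by simp only [hper], hxp, hh, fun j => (hadj j).choose_spec.1,
    ?_, ?_, ?_, ?_⟩⟩
  · intro j
    have := hxm (j + n - 1)
    have e : j + n - 1 + 1 = j + n := by omega
    rw [e, hper, hxp] at this
    exact this
  · intro j hj
    by_contra hcon
    simp only [Bool.not_eq_false] at hcon
    obtain ⟨c1, c2, c3⟩ := crn_hex g _ _ hcon
    have hcon' : hex (d (j + 1)).knd (d (j + 2)).knd = true := by
      rw [hex_symm, ← hj]; exact hcon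
    obtain ⟨c4, -, -⟩ := crn_hex g _ _ hcon'
    apply hred j
    have e1 := h2 (j + 1)
    have e3 := hxm j
    have e4 := hx j
    rw [c1, mul_one] at e4
    rw [e4] at e3
    have e5 : d (j + 1 + 1) = d (j + 2) := rfl
    rw [e5, c4, mul_one, ← hj] at e1
    rw [e1]
    conv_lhs => rw [h1 j]
    rw [Dir.mk_eq_iff]
    unfold grp at e3 ⊢
    rw [c3, if_pos rfl] at e3
    rw [c2, if_pos rfl]
    exact e3
  · intro j hj hx1
    apply hred j
    have e1 := h2 (j + 1)
    rw [hx, inv_mul_eq_one] at hx1
    have e5 : d (j + 1 + 1) = d (j + 2) := rfl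
    rw [e5, ← hx1, ← hj, mul_assoc, crn_mul g _ _ (hadj j).choose_spec.1, mul_one] at e1
    rw [e1]
    exact h1 j
  · intro j
    rw [hx]
    group

/-! ## lists -/

theorem list_seq {A B : Subgroup G} {g : G} (v : List (Dir A B)) (hv : v ≠ [])
    (hc : (v ++ v.take 1).IsChain (LAdj g)) (hr : Red (v ++ v.take 2)) :
    ∃ d : ℕ → Dir A B, (∀ j, d (j + v.length) = d j) ∧ (∀ j, LAdj g (d j) (d (j + 1))) ∧
      (∀ j, d j ≠ d (j + 2)) ∧ (∀ j (hj : j < v.length), d j = v[j]) := by
  have hn : 0 < v.length := List.length_pos_iff.2 hv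
  let d : ℕ → Dir A B := fun j => v[j % v.length]'(Nat.mod_lt _ hn)
  have hd : ∀ j (hj : j < v.length), d j = v[j] := by
    intro j hj
    simp only [d, Nat.mod_eq_of_lt hj]
  have hper : ∀ j, d (j + v.length) = d j := by
    intro j
    simp only [d, Nat.add_mod_right]
  have hper' : ∀ j, d (j % v.length) = d j := by
    intro j
    simp only [d, Nat.mod_mod]
  -- adjacency
  have hadj0 : ∀ j, j < v.length → LAdj g (d j) (d (j + 1)) := by
    intro j hj
    have hl : (v ++ v.take 1).length = v.length + 1 := by
      rw [List.length_append, List.length_take]; omega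
    have h1 := List.isChain_iff_getElem.1 hc j (by omega)
    have e1 : (v ++ v.take 1)[j]'(by omega) = d j := by
      rw [hd j hj, List.getElem_append_left]
    have e2 : (v ++ v.take 1)[j + 1]'(by omega) = d (j + 1) := by
      by_cases hj2 : j + 1 < v.length
      · rw [hd (j + 1) hj2, List.getElem_append_left]
      · have e3 : j + 1 = v.length := by omega
        have e4 : d (j + 1) = v[0] := by
          rw [← hd 0 hn, ← hper 0]; congr 1; omega
        rw [e4, List.getElem_append_right (by omega), List.getElem_take]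
        congr 1
        omega
    rw [e1, e2] at h1
    exact h1
  have hadj : ∀ j, LAdj g (d j) (d (j + 1)) := by
    intro j
    have h1 := hadj0 (j % v.length) (Nat.mod_lt _ hn)
    rw [hper'] at h1
    have h2 : d (j % v.length + 1) = d (j + 1) := by
      rw [← hper' (j + 1), ← hper' (j % v.length + 1)]
      congr 1
      rw [Nat.mod_add_mod]
    rw [h2] at h1
    exact h1
  -- at least two
  have hn2 : 2 ≤ v.length := by
    by_contra hcon
    have h1 : v.length = 1 := by omega
    have h2 := hadj 0
    have h3 : d (0 + 1) = d 0 := by rw [← h1]; exact hper 0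
    rw [h3] at h2
    obtain ⟨_, h4, _⟩ := h2
    exact adj_ne h4 rfl
  have hred0 : ∀ j, j < v.length → d j ≠ d (j + 2) := by
    intro j hj
    have hl : (v ++ v.take 2).length = v.length + 2 := by
      rw [List.length_append, List.length_take]; omega
    have e1 : (v ++ v.take 2)[j]'(by omega) = d j := by
      rw [hd j hj, List.getElem_append_left]
    have e2 : (v ++ v.take 2)[j + 2]'(by omega) = d (j + 2) := by
      by_cases hj2 : j + 2 < v.length
      · rw [hd (j + 2) hj2, List.getElem_append_left]
      · have e4 : d (j + 2) = v[j + 2 - v.length]'(by omega) := by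
          rw [← hd (j + 2 - v.length) (by omega), ← hper (j + 2 - v.length)]
          congr 1; omega
        rw [e4, List.getElem_append_right (by omega), List.getElem_take]
    have h1 := hr ((v ++ v.take 2).take j) ((v ++ v.take 2)[j]'(by omega))
      ((v ++ v.take 2)[j + 1]'(by omega)) ((v ++ v.take 2)[j + 2]'(by omega))
      ((v ++ v.take 2).drop (j + 3)) (by
        rw [← List.drop_eq_getElem_cons, ← List.drop_eq_getElem_cons,
          ← List.drop_eq_getElem_cons, List.take_append_drop])
    rw [e1, e2] at h1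
    exact h1
  have hred : ∀ j, d j ≠ d (j + 2) := by
    intro j
    have h1 := hred0 (j % v.length) (Nat.mod_lt _ hn)
    rw [hper'] at h1
    have h2 : d (j % v.length + 2) = d (j + 2) := by
      rw [← hper' (j + 2), ← hper' (j % v.length + 2)]
      congr 1
      rw [Nat.mod_add_mod]
    rw [h2] at h1
    exact h1
  exact ⟨d, hper, hadj, hred, hd⟩

/-- the refined weight as a real number -/
noncomputable def wR {A B : Subgroup G} (a b : Dir A B) : ℝ := (wt a.knd b.knd : ℝ) / 20

theorem ow_eq_sum {E : Type} (θ : E → E → ℝ) (v : List E) (a : E) (d : ℕ → E)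
    (hd : ∀ j (hj : j < (v ++ [a]).length), (v ++ [a])[j] = d j) :
    ow θ (v ++ [a]) = ∑ j ∈ Finset.range v.length, θ (d j) (d (j + 1)) := by
  induction v generalizing d with
  | nil => simp [ow]
  | cons b v ih =>
    have h1 := ih (fun j => d (j + 1)) (fun j hj => by
      have := hd (j + 1) (by simpa using hj)
      simpa using this)
    have h0 := hd 0 (by simp)
    cases v with
    | nil =>
      have h2 := hd 1 (by simp)
      simp at h0 h2
      simp [ow, h0, h2]
    | cons c v =>
      have h2 := hd 1 (by simp)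
      simp only [List.cons_append, List.getElem_cons_zero] at h0 h2
      simp only [List.getElem_cons_succ, List.getElem_cons_zero] at h2
      rw [List.length_cons, Finset.sum_range_succ', ← h1]
      simp only [List.cons_append, ow, h0, h2]
      ring

theorem cw_eq_sum {E : Type} (θ : E → E → ℝ) (v : List E) (hv : v ≠ []) (d : ℕ → E)
    (hd : ∀ j (hj : j < v.length), d j = v[j]) (hper : d v.length = d 0) :
    cw θ v = ∑ j ∈ Finset.range v.length, θ (d j) (d (j + 1)) := by
  cases v with
  | nil => exact absurd rfl hv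
  | cons a v =>
    have e : (a :: v).take 1 = [a] := by simp
    rw [cw, e]
    apply ow_eq_sum
    intro j hj
    rw [List.length_append, List.length_singleton] at hj
    by_cases hj2 : j < (a :: v).length
    · rw [List.getElem_append_left hj2, hd j hj2]
    · have e1 : j = (a :: v).length := by omega
      subst e1
      rw [List.getElem_append_right (le_refl _), hper, hd 0 (by simp)]
      simp

/-- LINK THEOREM: closed reduced walks. -/
theorem link_closed {A B : Subgroup G} {g : G} (hA : ∀ x ∈ A, ∀ y ∈ A, x * y = y * x)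
    (hG : Geo A B) (hgB : ¬ IsABA A B g) (v : List (Dir A B)) (hv : v ≠ [])
    (hc : (v ++ v.take 1).IsChain (LAdj g)) (hr : Red (v ++ v.take 2)) :
    6 ≤ v.length ∧ ((6.1 : ℝ) ≤ cw wR v ∨ isr hexs (v.map Dir.knd) = true) := by
  obtain ⟨d, hper, hadj, hred, hd⟩ := list_seq v hv hc hr
  obtain ⟨x, h, hs⟩ := exists_lseq (List.length_pos_iff.2 hv) d hper hadj hred
  refine ⟨hs.six hA hG hgB, ?_⟩
  rcases hs.weight hA hG hgB with h1 | h1
  · left
    rw [cw_eq_sum wR v hv d hd (by have := hper 0; rwa [Nat.zero_add] at this)]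
    have h2 : ((122 : ℕ) : ℝ) ≤ ∑ j ∈ Finset.range v.length, (wt (d j).knd (d (j + 1)).knd : ℝ) := by
      exact_mod_cast h1
    simp only [wR]
    rw [← Finset.sum_div]
    rw [le_div_iff₀ (by norm_num)]
    push_cast at h2
    linarith
  · right
    have h2 : kseg (fun j => (d j).knd) 0 v.length = v.map Dir.knd := by
      apply List.ext_getElem
      · rw [kseg_length, List.length_map]
      · intro j hj hj'
        rw [kseg_get, List.getElem_map, Nat.zero_add, hd j (by simpa using hj')]
    have h3 : (kseg (fun j => (d j).knd) 0 v.length).rotate 1 =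
        kseg (fun j => (d j).knd) 1 v.length := by
      refine List.ext_getElem ?_ ?_
      · rw [List.length_rotate, kseg_length, kseg_length]
      · intro j h1 h2
        rw [List.getElem_rotate, kseg_get, kseg_get, kseg_length]
        rw [kseg_length] at h2
        by_cases hj : j + 1 < v.length
        · rw [Nat.mod_eq_of_lt hj]
          congr 2; omega
        · have e3 : j + 1 = v.length := by omega
          rw [e3, Nat.mod_self]
          have e4 : 1 + j = 0 + v.length := by omega
          rw [e4]
          simp only [hper, Nat.add_zero]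
    rw [← h3, h2] at h1
    simp only [isr, List.length_rotate, List.length_map, List.any_eq_true, List.mem_range,
      decide_eq_true_eq] at h1 ⊢
    obtain ⟨i, hi, hi2⟩ := h1
    refine ⟨(1 + i) % v.length, Nat.mod_lt _ (by omega), ?_⟩
    rw [List.rotate_rotate] at hi2
    have e5 : (v.map Dir.knd).rotate ((1 + i) % v.length) = (v.map Dir.knd).rotate (1 + i) := by
      have := List.rotate_mod (v.map Dir.knd) (1 + i)
      rw [List.length_map] at this
      exact this
    rw [e5]
    exact hi2

end Pool.Agent.ABA.B
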