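import Pool.Agent.Helper83_ABA.PX
import Pool.Agent.Helper89_ABA.PLink3

/-! # The links of the triangle graph of `P` (MP_d857f1_al, part B) -/

namespace Pool.Agent.ABA.B

open Knd Pool.Agent.ABA

variable {G : Type} [Group G] {A B : Subgroup G} {g : G}

/-- kind of a direction -/
def kndD : Dr → Knd
  | .U => up | .V => vp | .W => wp | .U' => um | .V' => vm | .W' => wm

/-- kind of a direction -/
def kndC : Bool → Knd
  | true => cp | false => cm

/-- kind of an edge -/
def kndE : XE A B g → Knd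
  | Sum.inl (m, _) => kndD m
  | Sum.inr (s, _) => kndC s

@[simp] theorem kndE_eA (m : Dr) (p : PP A B g) : kndE (eA m p) = kndD m := rfl
@[simp] theorem kndE_eC (s : Bool) (p : PP A B g) : kndE (eC s p) = kndC s := rfl

theorem kndD_isH (m : Dr) : (kndD m).isH = true := by cases m <;> rfl
theorem kndC_isH (s : Bool) : (kndC s).isH = false := by cases s <;> rfl
theorem kndD_inj {m m' : Dr} (h : kndD m = kndD m') : m = m' := by
  cases m <;> cases m' <;> simp_all [kndD]
theorem kndC_inj {m m' : Bool} (h : kndC m = kndC m') : m = m' := by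
  cases m <;> cases m' <;> simp_all [kndC]
theorem kndD_ne_kndC {m : Dr} {s : Bool} : kndD m ≠ kndC s := by
  cases m <;> cases s <;> simp [kndD, kndC]

/-- the edge at `p G` in direction `d` -/
def At (p : PP A B g) (d : Dir A B) (e : XE A B g) : Prop :=
  (∃ m h, d = Dir.mk A B (kndD m) h ∧ e = eA m (p * Pι A B g h)) ∨
  (∃ s h, d = Dir.mk A B (kndC s) h ∧ e = eC s (p * Pι A B g h))

theorem At.knd {p : PP A B g} {d : Dir A B} {e : XE A B g} (h : At p d e) : d.knd = kndE e := by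
  rcases h with ⟨m, h, rfl, rfl⟩ | ⟨m, h, rfl, rfl⟩ <;> rfl

theorem exists_At {p : PP A B g} {e : XE A B g} (h : xsrc e = vx p) : ∃ d, At p d e := by
  revert h
  refine XE.ind (P := fun e => xsrc e = vx p → ∃ d, At p d e) ?_ ?_ e
  · intro m q h
    rw [xsrc_eA] at h
    obtain ⟨y, rfl⟩ := vx_eq.1 h.symm
    exact ⟨_, Or.inl ⟨m, y, rfl, rfl⟩⟩
  · intro m q h
    rw [xsrc_eC] at h
    obtain ⟨y, rfl⟩ := vx_eq.1 h.symm
    exact ⟨_, Or.inr ⟨m, y, rfl, rfl⟩⟩

theorem At.fun_right {p : PP A B g} {d : Dir A B} {e e' : XE A B g} (h : At p d e)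
    (h' : At p d e') : e = e' := by
  rcases h with ⟨m, y, rfl, rfl⟩ | ⟨m, y, rfl, rfl⟩ <;>
  rcases h' with ⟨m', y', h1, rfl⟩ | ⟨m', y', h1, rfl⟩
  · obtain ⟨h2, h3⟩ := Dir.mk_inj h1
    have h4 := kndD_inj h2
    subst h4
    rw [grp, kndD_isH, if_pos rfl] at h3
    rw [eA_eq]
    refine ⟨rfl, _, h3, ?_⟩
    rw [map_mul, map_inv]; group
  · obtain ⟨h2, h3⟩ := Dir.mk_inj h1
    exact absurd h2 kndD_ne_kndC
  · obtain ⟨h2, h3⟩ := Dir.mk_inj h1
    exact absurd h2.symm kndD_ne_kndC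
  · obtain ⟨h2, h3⟩ := Dir.mk_inj h1
    have h4 := kndC_inj h2
    subst h4
    rw [grp, kndC_isH, if_neg (by decide)] at h3
    rw [eC_eq]
    refine ⟨rfl, _, h3, ?_⟩
    rw [map_mul, map_inv]; group

theorem At.fun_left (hι : Function.Injective (Pι A B g)) {p : PP A B g} {d d' : Dir A B}
    {e : XE A B g} (h : At p d e) (h' : At p d' e) : d = d' := by
  rcases h with ⟨m, y, rfl, rfl⟩ | ⟨m, y, rfl, rfl⟩ <;>
  rcases h' with ⟨m', y', rfl, h1⟩ | ⟨m', y', rfl, h1⟩
  · obtain ⟨rfl, a, ha, h2⟩ := eA_eq.1 h1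
    rw [mul_assoc, ← map_mul] at h2
    have h3 := hι (mul_left_cancel h2)
    rw [h3, Dir.mk_eq_iff, grp, kndD_isH, if_pos rfl]
    rw [inv_mul_cancel_left]; exact ha
  · exact absurd h1 eA_ne_eC
  · exact absurd h1.symm eA_ne_eC
  · obtain ⟨rfl, a, ha, h2⟩ := eC_eq.1 h1
    rw [mul_assoc, ← map_mul] at h2
    have h3 := hι (mul_left_cancel h2)
    rw [h3, Dir.mk_eq_iff, grp, kndC_isH, if_neg (by decide)]
    rw [inv_mul_cancel_left]; exact ha

theorem At_eA (p : PP A B g) (m : Dr) (y : G) :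
    At p (Dir.mk A B (kndD m) y) (eA m (p * Pι A B g y)) := Or.inl ⟨m, y, rfl, rfl⟩

theorem At_eC (p : PP A B g) (m : Bool) (y : G) :
    At p (Dir.mk A B (kndC m) y) (eC m (p * Pι A B g y)) := Or.inr ⟨m, y, rfl, rfl⟩

/-- corners are adjacencies -/
theorem At.ladj (hι : Function.Injective (Pι A B g)) {p : PP A B g} {d d' : Dir A B}
    {e e' f : XE A B g} (h : At p d e) (h' : At p d' e') (ht : XT e e' f)
    (hs : xsrc e = vx p) : LAdj g d d' := by
  rcases ht.elim' with ⟨m, q, rfl, rfl, rfl⟩ | ⟨m, q, rfl, rfl, rfl⟩ | ⟨q, rfl, rfl, rfl⟩ |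
    ⟨q, rfl, rfl, rfl⟩ | ⟨q, rfl, rfl, rfl⟩ | ⟨q, rfl, rfl, rfl⟩ | ⟨q, rfl, rfl, rfl⟩ |
    ⟨q, rfl, rfl, rfl⟩
  · rw [xsrc_eA] at hs
    obtain ⟨y, rfl⟩ := vx_eq.1 hs.symm
    have h1 := h.fun_left hι (At_eA p m.nxt y)
    have h2 := h'.fun_left hι (At_eA p m y)
    subst h1; subst h2
    refine ⟨y, ?_, ?_, ?_⟩
    · cases m <;> rfl
    · rfl
    · have : crn g (kndD m.nxt) (kndD m) = 1 := by cases m <;> rfl
      simp only [Dir.knd_mk]
      rw [this, mul_one]
  · rw [xsrc_eA] at hs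
    obtain ⟨y, rfl⟩ := vx_eq.1 hs.symm
    have h1 := h.fun_left hι (At_eA p m y)
    have h2 := h'.fun_left hι (At_eA p m.nxt y)
    subst h1; subst h2
    refine ⟨y, ?_, ?_, ?_⟩
    · cases m <;> rfl
    · rfl
    · have : crn g (kndD m) (kndD m.nxt) = 1 := by cases m <;> rfl
      simp only [Dir.knd_mk]
      rw [this, mul_one]
  · rw [xsrc_eA] at hs
    have hs' : vx p = vx q := by
      rw [← hs]; exact (vx_eq.2 ⟨g, rfl⟩).symm
    obtain ⟨y, rfl⟩ := vx_eq.1 hs'
    have h1 := h.fun_left hι (by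
      have := At_eA p .V' (y * g)
      rwa [map_mul, ← mul_assoc] at this)
    have h2 := h'.fun_left hι (At_eA p .U y)
    subst h1; subst h2
    refine ⟨y * g, rfl, rfl, ?_⟩
    simp only [Dir.knd_mk, kndD, crn]
    rw [mul_inv_cancel_right]
  · rw [xsrc_eA] at hs
    obtain ⟨y, rfl⟩ := vx_eq.1 hs.symm
    have h1 := h.fun_left hι (At_eA p .U y)
    have h2 := h'.fun_left hι (by
      have := At_eA p .V' (y * g)
      rwa [map_mul, ← mul_assoc] at this)
    subst h1; subst h2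
    exact ⟨y, rfl, rfl, rfl⟩
  · rw [xsrc_eC] at hs
    obtain ⟨y, rfl⟩ := vx_eq.1 hs.symm
    have h1 := h.fun_left hι (At_eC p true y)
    have h2 := h'.fun_left hι (At_eA p .U' y)
    subst h1; subst h2
    refine ⟨y, rfl, rfl, ?_⟩
    simp only [Dir.knd_mk, kndD, kndC, crn, mul_one]
  · rw [xsrc_eA] at hs
    obtain ⟨y, rfl⟩ := vx_eq.1 hs.symm
    have h1 := h.fun_left hι (At_eA p .U' y)
    have h2 := h'.fun_left hι (At_eC p true y)
    subst h1; subst h2
    refine ⟨y, rfl, rfl, ?_⟩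
    simp only [Dir.knd_mk, kndD, kndC, crn, mul_one]
  · rw [xsrc_eA] at hs
    obtain ⟨y, rfl⟩ := vx_eq.1 hs.symm
    have h1 := h.fun_left hι (At_eA p .V y)
    have h2 := h'.fun_left hι (At_eC p false y)
    subst h1; subst h2
    refine ⟨y, rfl, rfl, ?_⟩
    simp only [Dir.knd_mk, kndD, kndC, crn, mul_one]
  · rw [xsrc_eC] at hs
    obtain ⟨y, rfl⟩ := vx_eq.1 hs.symm
    have h1 := h.fun_left hι (At_eC p false y)
    have h2 := h'.fun_left hι (At_eA p .V y)
    subst h1; subst h2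
    refine ⟨y, rfl, rfl, ?_⟩
    simp only [Dir.knd_mk, kndD, kndC, crn, mul_one]

/-! ## weights -/

/-- refined weights -/
noncomputable def θR (a b : XE A B g) : ℝ := (wt (kndE a) (kndE b) : ℝ) / 20

/-- kind of the inverse edge -/
def kinv : Knd → Knd
  | up => um | vp => vm | wp => wm | um => up | vm => vp | wm => wp | cp => cm | cm => cp

theorem kndD_inv (m : Dr) : kndD m.inv = kinv (kndD m) := by cases m <;> rfl
theorem kndC_not (m : Bool) : kndC (!m) = kinv (kndC m) := by cases m <;> rfl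

theorem kndE_xinv (e : XE A B g) : kndE (xinv e) = kinv (kndE e) := by
  refine XE.ind (P := fun e => kndE (xinv e) = kinv (kndE e)) ?_ ?_ e
  · intro m p
    rw [xinv_eA, kndE_eA, kndE_eA, kndD_inv]
  · intro m p
    rw [xinv_eC, kndE_eC, kndE_eC, kndC_not]

theorem wt_tri {e e' f : XE A B g} (h : XT e e' f) :
    wt (kndE e) (kndE e') + wt (kinv (kndE e)) (kinv (kndE f)) + wt (kinv (kndE e')) (kndE f) =
      60 := by
  rcases h.elim' with ⟨m, q, rfl, rfl, rfl⟩ | ⟨m, q, rfl, rfl, rfl⟩ | ⟨q, rfl, rfl, rfl⟩ |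
    ⟨q, rfl, rfl, rfl⟩ | ⟨q, rfl, rfl, rfl⟩ | ⟨q, rfl, rfl, rfl⟩ | ⟨q, rfl, rfl, rfl⟩ |
    ⟨q, rfl, rfl, rfl⟩
  · cases m <;> rfl
  · cases m <;> rfl
  all_goals rfl

theorem θR_tri {e e' f : XE A B g} (h : XT e e' f) :
    θR e e' + θR (xinv e) (xinv f) + θR (xinv e') f = 3 := by
  have h1 := wt_tri h
  have h2 : ((wt (kndE e) (kndE e') + wt (kinv (kndE e)) (kinv (kndE f)) +
    wt (kinv (kndE e')) (kndE f) : ℕ) : ℝ) = ((60 : ℕ) : ℝ) := by rw [h1]
  unfold θR
  rw [kndE_xinv, kndE_xinv, kndE_xinv]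
  push_cast at h2
  linarith

variable (hg : ¬ IsABA A B g) (hgeo : Geo A B) (hι : Function.Injective (Pι A B g))

theorem θR_Wt : (XX hg hgeo hι).Wt θR where
  symm := fun a b => by unfold θR; rw [wt_symm]
  tri := fun h => θR_tri h

theorem one_Wt {V E : Type} (S : TG V E) : S.Wt (fun _ _ => (1 : ℝ)) where
  symm := fun a b => rfl
  tri := fun h => by norm_num

/-! ## closed walks -/

theorem cor_src {e e' : XE A B g} (h : (XX hg hgeo hι).Cor e e') : xsrc e = xsrc e' := by
  obtain ⟨c, hc⟩ := h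
  exact ((XX hg hgeo hι).tri_src hc).symm

theorem chain_src {v : List (XE A B g)} {x : XV A B g} (hc : v.IsChain (XX hg hgeo hι).Cor)
    (hx : ∀ e ∈ v.head?, xsrc e = x) : ∀ e ∈ v, xsrc e = x := by
  induction v with
  | nil => simp
  | cons a v ih =>
    have ha : xsrc a = x := hx a (by simp)
    cases v with
    | nil => simpa using ha
    | cons b v =>
      rw [List.isChain_cons_cons] at hc
      have h1 := ih hc.2 (by
        intro e he
        simp only [List.head?_cons, Option.mem_def, Option.some.injEq] at he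
        subst he
        rw [← ha]
        exact (cor_src hg hgeo hι hc.1).symm)
      intro e he
      rcases List.mem_cons.1 he with rfl | he
      · exact ha
      · exact h1 e he

/-- the walk of directions of a walk at a vertex -/
theorem exists_dirs {v : List (XE A B g)} {p : PP A B g} (hs : ∀ e ∈ v, xsrc e = vx p) :
    ∃ F : XE A B g → Dir A B, ∀ e ∈ v, At p (F e) e := by
  classical
  let F : XE A B g → Dir A B := fun e => if h : ∃ d, At p d e then h.choose else Dir.mk A B up 1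
  refine ⟨F, fun e he => ?_⟩
  have h : ∃ d, At p d e := exists_At (hs e he)
  have : F e = h.choose := dif_pos h
  rw [this]
  exact h.choose_spec

theorem map_chain {v : List (XE A B g)} {p : PP A B g} (hs : ∀ e ∈ v, xsrc e = vx p)
    {F : XE A B g → Dir A B} (hF : ∀ e ∈ v, At p (F e) e) (hc : v.IsChain (XX hg hgeo hι).Cor) :
    (v.map F).IsChain (LAdj g) := by
  rw [List.isChain_map]
  rw [List.isChain_iff_getElem] at hc ⊢
  intro i hi
  obtain ⟨c, hc'⟩ := hc i hi
  exact At.ladj hι (hF _ (List.getElem_mem _)) (hF _ (List.getElem_mem _)) hc'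
    (hs _ (List.getElem_mem _))

theorem map_red {v : List (XE A B g)} {p : PP A B g}
    {F : XE A B g → Dir A B} (hF : ∀ e ∈ v, At p (F e) e) (hc : Red v) : Red (v.map F) := by
  intro l a b c r he hac
  rw [List.map_eq_append_iff] at he
  obtain ⟨l', r', rfl, -, he⟩ := he
  rw [List.map_eq_cons_iff] at he
  obtain ⟨a', r'', rfl, ha, he⟩ := he
  rw [List.map_eq_cons_iff] at he
  obtain ⟨b', r''', rfl, hb, he⟩ := he
  rw [List.map_eq_cons_iff] at he
  obtain ⟨c', r'''', rfl, hc', he⟩ := he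
  refine hc l' a' b' c' r'''' rfl ?_
  have h1 := hF a' (by simp)
  have h2 := hF c' (by simp)
  rw [ha, hac, ← hc'] at h1
  exact h1.fun_right h2

theorem take_mem {α : Type} {v : List α} {k : ℕ} {a : α} (h : a ∈ v ++ v.take k) : a ∈ v := by
  rcases List.mem_append.1 h with h | h
  · exact h
  · exact List.mem_of_mem_take h

theorem ow_map {E E' : Type} (θ : E → E → ℝ) (θ' : E' → E' → ℝ) (F : E → E') :
    ∀ (v : List E), (∀ a ∈ v, ∀ b ∈ v, θ' (F a) (F b) = θ a b) → ow θ' (v.map F) = ow θ v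
  | [], _ => rfl
  | [_], _ => rfl
  | a :: b :: l, h => by
    have := ow_map θ θ' F (b :: l) (fun x hx y hy => h x (by simp_all) y (by simp_all))
    simp only [List.map_cons, ow] at this ⊢
    rw [this, h a (by simp) b (by simp)]

/-- LINK THEOREM for the triangle graph of `P` -/
theorem link_X (hA : ∀ x ∈ A, ∀ y ∈ A, x * y = y * x) (v : List (XE A B g)) (hv : v ≠ [])
    (hc : (v ++ v.take 1).IsChain (XX hg hgeo hι).Cor) (hr : Red (v ++ v.take 2)) :
    6 ≤ v.length ∧ ((6.1 : ℝ) ≤ cw θR v ∨ isr hexs (v.map kndE) = true) := by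
  obtain ⟨e0, he0⟩ := List.exists_mem_of_ne_nil v hv
  obtain ⟨a, v', rfl⟩ := List.exists_cons_of_ne_nil hv
  obtain ⟨p, hp⟩ := QuotientGroup.mk_surjective (xsrc a)
  have hs1 : ∀ e ∈ ((a :: v') ++ (a :: v').take 1), xsrc e = vx p :=
    chain_src hg hgeo hι hc (by
      intro e he
      simp only [List.cons_append, List.head?_cons, Option.mem_def, Option.some.injEq] at he
      subst he
      exact hp.symm)
  have hs : ∀ e ∈ a :: v', xsrc e = vx p := fun e he => hs1 e (List.mem_append_left _ he)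
  obtain ⟨F, hF⟩ := exists_dirs hs
  have h1 := link_closed hA hgeo hg ((a :: v').map F) (by simp)
    (by
      have := map_chain hg hgeo hι hs1 (F := F) (fun e he => hF e (take_mem he)) hc
      rw [List.map_append, List.map_take] at this
      exact this)
    (by
      have := map_red (v := (a :: v') ++ (a :: v').take 2) (F := F)
        (fun e he => hF e (take_mem he)) hr
      rw [List.map_append, List.map_take] at this
      exact this)
  have hk : ∀ e ∈ a :: v', (F e).knd = kndE e := fun e he => (hF e he).knd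
  rw [List.length_map] at h1
  refine ⟨h1.1, ?_⟩
  have e1 : cw wR ((a :: v').map F) = cw θR (a :: v') := by
    unfold cw
    rw [← List.map_take, ← List.map_append]
    apply ow_map
    intro x hx y hy
    unfold wR θR
    rw [hk x (take_mem hx), hk y (take_mem hy)]
  have e2 : ((a :: v').map F).map Dir.knd = (a :: v').map kndE := by
    rw [List.map_map]
    apply List.map_congr_left
    intro x hx
    exact hk x hx
  rw [e1, e2] at h1
  exact h1.2

/-! ## hexagons -/

theorem Cor.hex_coset {e e' : XE A B g} (h : (XX hg hgeo hι).Cor e e')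
    (hk : hex (kndE e) (kndE e') = true) : ∃ m m' q, e = eA m q ∧ e' = eA m' q := by
  obtain ⟨f, hf⟩ := h
  rcases XT.elim' hf with ⟨m, q, rfl, rfl, rfl⟩ | ⟨m, q, rfl, rfl, rfl⟩ | ⟨q, rfl, rfl, rfl⟩ |
    ⟨q, rfl, rfl, rfl⟩ | ⟨q, rfl, rfl, rfl⟩ | ⟨q, rfl, rfl, rfl⟩ | ⟨q, rfl, rfl, rfl⟩ |
    ⟨q, rfl, rfl, rfl⟩
  · exact ⟨_, _, q, rfl, rfl⟩
  · exact ⟨_, _, q, rfl, rfl⟩
  all_goals exact absurd hk (by simp [kndD, kndC, hex])

theorem isr_hex_adj {w : List Knd} (h : isr hexs w = true) :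
    w.length = 6 ∧ (∀ k : Knd, k.isH = true → k ∈ w) ∧
    ∀ i (hi : i + 1 < w.length), hex w[i] w[i + 1] = true := by
  have key : ∀ u ∈ hexs, ∀ j < 6, (u.rotate j).length = 6 ∧
      (∀ k ∈ all, k.isH = true → k ∈ u.rotate j) ∧
      ∀ i < 5, ((u.rotate j)[i]?.bind (fun a => (u.rotate j)[i + 1]?.map (fun b => hex a b))) =
        some true := by decide +kernel
  simp only [isr, List.any_eq_true, List.mem_range, decide_eq_true_eq] at h
  obtain ⟨i, hi, hi2⟩ := h
  have hl : (w.rotate i).length = 6 := by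
    have := (key _ hi2 0 (by norm_num)).1
    simpa using this
  rw [List.length_rotate] at hl
  have e : w = (w.rotate i).rotate ((6 - i % 6) % 6) := by
    rw [List.rotate_rotate, ← List.rotate_mod w (i + (6 - i % 6) % 6), hl]
    have : (i + (6 - i % 6) % 6) % 6 = 0 := by omega
    rw [this, List.rotate_zero]
  obtain ⟨k1, k2, k3⟩ := key _ hi2 ((6 - i % 6) % 6) (Nat.mod_lt _ (by norm_num))
  rw [← e] at k1 k2 k3
  refine ⟨k1, fun k hk => k2 k (mem_all k) hk, ?_⟩
  intro j hj
  have h3 := k3 j (by omega)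
  rw [List.getElem?_eq_getElem (by omega), List.getElem?_eq_getElem (by omega)] at h3
  simpa using h3

/-- a closed walk with the kinds of a hexagon is a hexagon -/
theorem hexagon {v : List (XE A B g)} (hc : v.IsChain (XX hg hgeo hι).Cor)
    (h : isr hexs (v.map kndE) = true) :
    v.length = 6 ∧ ∃ q : PP A B g, (∀ e ∈ v, ∃ m, e = eA m q) ∧ ∀ m : Dr, eA m q ∈ v := by
  obtain ⟨h1, h2, h3⟩ := isr_hex_adj h
  rw [List.length_map] at h1
  have h4 : ∀ i (hi : i + 1 < v.length), ∃ m m' q, v[i] = eA m q ∧ v[i + 1] = eA m' q := by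
    intro i hi
    have h5 := h3 i (by rw [List.length_map]; exact hi)
    rw [List.getElem_map, List.getElem_map] at h5
    exact Cor.hex_coset hg hgeo hι (List.isChain_iff_getElem.1 hc i hi) h5
  obtain ⟨m0, -, q, h0, -⟩ := h4 0 (by omega)
  have h6 : ∀ i (hi : i < v.length), ∃ m, v[i] = eA m q := by
    intro i
    induction i with
    | zero => intro hi; exact ⟨m0, h0⟩
    | succ i ih =>
      intro hi
      obtain ⟨m, hm⟩ := ih (by omega)
      obtain ⟨m1, m2, r, e1, e2⟩ := h4 i hi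
      rw [hm] at e1
      obtain ⟨-, a, ha, rfl⟩ := eA_eq.1 e1
      refine ⟨m2, ?_⟩
      rw [e2, eA_eq]
      refine ⟨rfl, a⁻¹, A.inv_mem ha, ?_⟩
      rw [map_inv, mul_inv_cancel_right]
  refine ⟨h1, q, ?_, ?_⟩
  · intro e he
    obtain ⟨i, hi, rfl⟩ := List.getElem_of_mem he
    exact h6 i hi
  · intro m
    have h7 := h2 (kndD m) (kndD_isH m)
    obtain ⟨e, he, he2⟩ := List.mem_map.1 h7
    obtain ⟨i, hi, rfl⟩ := List.getElem_of_mem he
    obtain ⟨m', hm'⟩ := h6 i hi
    rw [hm', kndE_eA] at he2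
    have := kndD_inj he2
    subst this
    rw [← hm']
    exact he

/-- LINK THEOREM, second form: all reduced closed walks except the hexagons have refined weight at
least 6.1 -/
theorem link_X' (hA : ∀ x ∈ A, ∀ y ∈ A, x * y = y * x) (v : List (XE A B g)) (hv : v ≠ [])
    (hc : (v ++ v.take 1).IsChain (XX hg hgeo hι).Cor) (hr : Red (v ++ v.take 2)) :
    6 ≤ v.length ∧ ((6.1 : ℝ) ≤ cw θR v ∨ (v.length = 6 ∧ cw θR v = 6 ∧
      ∃ q : PP A B g, (∀ e ∈ v, ∃ m, e = eA m q) ∧ ∀ m : Dr, eA m q ∈ v)) := by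
  obtain ⟨h1, h2⟩ := link_X hg hgeo hι hA v hv hc hr
  refine ⟨h1, ?_⟩
  rcases h2 with h2 | h2
  · exact Or.inl h2
  · right
    obtain ⟨h3, h4⟩ := hexagon hg hgeo hι (hc.left_of_append) h2
    refine ⟨h3, ?_, h4⟩
    -- weight
    have key : ∀ w : List Knd, isr hexs w = true →
        cw (fun a b => (wt a b : ℝ) / 20) w = 6 := by
      have k0 : ∀ u ∈ hexs, ∀ j < 6, cw (fun a b => (wt a b : ℝ) / 20) (u.rotate j) = 6 := by
        intro u hu j hj
        simp only [hexs, List.mem_cons, List.not_mem_nil, or_false] at hu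
        rcases hu with rfl | rfl <;> interval_cases j <;>
          simp [cw, ow, wt, List.rotate] <;> norm_num
      intro w hw
      have hl := (isr_hex_adj hw).1
      simp only [isr, List.any_eq_true, List.mem_range, decide_eq_true_eq] at hw
      obtain ⟨i, hi, hi2⟩ := hw
      have e : w = (w.rotate i).rotate ((6 - i % 6) % 6) := by
        rw [List.rotate_rotate, ← List.rotate_mod w (i + (6 - i % 6) % 6), hl]
        have : (i + (6 - i % 6) % 6) % 6 = 0 := by omega
        rw [this, List.rotate_zero]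
      rw [e]
      exact k0 _ hi2 _ (Nat.mod_lt _ (by norm_num))
    rw [← key _ h2]
    unfold cw
    rw [← List.map_take, ← List.map_append]
    symm
    apply ow_map
    intro x hx y hy
    rfl

end Pool.Agent.ABA.B
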