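import Pool.Agent.Helper89_ABA.PLink7

/-! # Walks outside a flat: the refined table (MP_d857f1_al, part B) -/

namespace Pool.Agent.ABA.B

open Knd Pool.Agent.ABA

/-- backtracking in a hexagon -/
def hbO : List Knd → Bool
  | a :: b :: c :: l => (decide (a = c) && hex a b) || hbO (b :: c :: l)
  | _ => false

/-- refined outside distances (times 20) -/
def dO : Knd → Knd → ℕ
  | up, um => 118 | um, up => 118 | vm, vp => 118 | vp, vm => 118
  | up, vp => 100 | vp, up => 100 | um, vm => 100 | vm, um => 100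
  | up, vm => 90 | vm, up => 90
  | _, _ => 122

/-- the words to be excluded by algebra -/
def lO : List (List Knd) :=
  [[up, vm, um, cp, um], [um, cp, um, vm, up], [vm, up, vp, cm, vp], [vp, cm, vp, up, vm]]

def okO (k0 k1 : Knd) (path : List Knd) (acc : ℕ) : Bool :=
  hbO path || decide (dO k0 k1 ≤ acc) || decide (k0 = k1) || decide (path ∈ lO) ||
    (decide (acc < 84) && ((decide (k0 = up) && decide (k1 = vm)) ||
      (decide (k0 = vm) && decide (k1 = up))))

/-- last step is a T-corner -/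
def tl : List Knd → Bool
  | [a, b] => tee a b
  | _ :: b :: c :: l => tl (b :: c :: l)
  | _ => false

def chkO (k0 : Knd) : ℕ → Knd → ℕ → List Knd → Bool
  | 0, prev, acc, path => !(tl path) || !prev.isH || okO k0 prev path acc
  | n + 1, prev, acc, path => (!(tl path) || !prev.isH || okO k0 prev path acc) &&
    all.all (fun b => !(adj prev b) || decide (122 ≤ acc + wt prev b) ||
      chkO k0 n b (acc + wt prev b) (path ++ [b]))

theorem chkO_sound (k0 : Knd) (n : ℕ) : ∀ (prev : Knd) (acc : ℕ) (path t : List Knd),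
    chkO k0 n prev acc path = true → t.length ≤ n →
    (prev :: t).IsChain (fun a b => adj a b = true) →
    acc + ow20 (prev :: t) < 122 →
    (!(tl (path ++ t)) || !((prev :: t).getLast (by simp)).isH ||
      okO k0 ((prev :: t).getLast (by simp)) (path ++ t) (acc + ow20 (prev :: t))) = true := by
  induction n with
  | zero =>
    intro prev acc path t h ht hv hc
    have : t = [] := List.length_eq_zero_iff.1 (by omega)
    subst this
    simpa [chkO, ow20] using h
  | succ n ih =>
    intro prev acc path t h ht hv hc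
    simp only [chkO, Bool.and_eq_true] at h
    obtain ⟨h1, h2⟩ := h
    cases t with
    | nil => simpa [ow20] using h1
    | cons b t =>
      rw [List.isChain_cons_cons] at hv
      simp only [ow20] at hc
      have h3 := List.all_eq_true.1 h2 b (mem_all b)
      simp only [Bool.or_eq_true, Bool.not_eq_true', decide_eq_true_eq] at h3
      rcases h3 with (h3 | h3) | h3
      · rw [hv.1] at h3; simp at h3
      · omega
      · have := ih b (acc + wt prev b) (path ++ [b]) t h3 (by simpa using ht) hv.2 (by omega)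
        have e1 : path ++ [b] ++ t = path ++ b :: t := by simp
        have e2 : acc + wt prev b + ow20 (b :: t) = acc + ow20 (prev :: b :: t) := by
          simp only [ow20]; omega
        rw [e1, e2] at this
        rw [List.getLast_cons (by simp)]
        exact this

set_option maxRecDepth 100000 in
theorem chkO_all : ∀ f ∈ all, ∀ b ∈ all, f.isH = true → tee f b = true →
    chkO f 5 b (wt f b) [f, b] = true := by
  decide +kernel

variable {G : Type} [Group G] {A B : Subgroup G} {g : G}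
variable {hg : ¬ IsABA A B g} {hgeo : Geo A B} {hι : Function.Injective (Pι A B g)}

/-- hexagon edges with equal kinds at the ends come back -/
theorem hex_back {x0 x1 x2 : XE A B g} (h1 : (XX hg hgeo hι).Cor x0 x1)
    (h2 : (XX hg hgeo hι).Cor x1 x2) (hk : kndE x0 = kndE x2)
    (hh : hex (kndE x0) (kndE x1) = true) : x0 = x2 := by
  obtain ⟨m, m', r, e1, e2⟩ := Cor.hex_coset hg hgeo hι h1 hh
  have hcon' : hex (kndE x1) (kndE x2) = true := by rw [← hk, hex_symm]; exact hh
  obtain ⟨m2, m3, r', e3, e4⟩ := Cor.hex_coset hg hgeo hι h2 hcon'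
  rw [e1, e4]
  rw [e2] at e3
  obtain ⟨rfl, b, hb, rfl⟩ := eA_eq.1 e3
  rw [eA_eq]
  refine ⟨?_, b, hb, rfl⟩
  rw [e1, e4, kndE_eA, kndE_eA] at hk
  exact kndD_inj hk

theorem hbO_false : ∀ (v : List (XE A B g)), v.IsChain (XX hg hgeo hι).Cor → Red v →
    hbO (v.map kndE) = false
  | [], _, _ => rfl
  | [_], _, _ => rfl
  | [_, _], _, _ => rfl
  | a :: b :: c :: l, hc, hr => by
    have hc' := hc
    rw [List.isChain_cons_cons] at hc
    have ih := hbO_false (b :: c :: l) hc.2 (by
      intro l' x y z r e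
      exact hr (a :: l') x y z r (by rw [e]; rfl))
    simp only [List.map_cons, hbO, Bool.or_eq_false_iff, Bool.and_eq_false_iff,
      decide_eq_false_iff_not] at ih ⊢
    refine ⟨?_, ih⟩
    by_cases hk : kndE a = kndE c
    · right
      by_contra hcon
      simp only [Bool.not_eq_false] at hcon
      exact hr [] a b c l rfl (hex_back hc.1 (List.isChain_cons_cons.1 hc.2).1 hk hcon)
    · exact Or.inl hk

theorem tl_append {w : List Knd} {a b : Knd} : tl (w ++ [a, b]) = tee a b := by
  induction w with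
  | nil => rfl
  | cons x w ih =>
    rcases w with _ | ⟨y, _ | ⟨z, w⟩⟩
    · rfl
    · simpa [tl] using ih
    · simpa [tl] using ih

/-- (a') walks outside a flat between two different letters of the flat -/
theorem walk_out' (hA : ∀ x ∈ A, ∀ y ∈ A, x * y = y * x) {v : List (XE A B g)} {q : PP A B g}
    {m m' : Dr} {f f' : XE A B g} {w w' : List (XE A B g)}
    (hc : v.IsChain (XX hg hgeo hι).Cor) (hr : Red v)
    (hv : v = eA m q :: f :: w) (hv' : v = w' ++ [f', eA m' q])
    (hf : ¬ InF q f) (hf' : ¬ InF q f') (hm : m ≠ m') :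
    ((dO (kndD m) (kndD m') : ℕ) : ℝ) / 20 ≤ ow θR v := by
  rw [ow_eq20]
  by_contra hcon
  rw [not_le] at hcon
  have hlt : ow20 (v.map kndE) < dO (kndD m) (kndD m') := by
    have : ((ow20 (v.map kndE) : ℕ) : ℝ) < ((dO (kndD m) (kndD m') : ℕ) : ℝ) := by linarith
    exact_mod_cast this
  have hle : dO (kndD m) (kndD m') ≤ 122 := by cases m <;> cases m' <;> decide
  have hadj := chain_adj hc
  have hkv : v.map kndE = kndD m :: kndE f :: w.map kndE := by rw [hv]; simp
  have hcor1 : (XX hg hgeo hι).Cor (eA m q) f := by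
    rw [hv, List.isChain_cons_cons] at hc; exact hc.1
  have htee1 := cor_tee hcor1 ⟨m, rfl⟩ hf
  have hcor2 : (XX hg hgeo hι).Cor f' (eA m' q) := by
    rw [hv', List.isChain_append] at hc
    exact (List.isChain_cons_cons.1 hc.2.1).1
  have htee2 := cor_tee (cor_symm' hcor2) ⟨m', rfl⟩ hf'
  rw [kndE_eA] at htee1 htee2
  have hlen := ow20_ge (v.map kndE)
  have hl5 : (w.map kndE).length ≤ 5 := by
    rw [hkv] at hlen hlt
    simp only [List.length_cons] at hlen
    omega
  have hlast : (kndE f :: w.map kndE).getLast (by simp) = kndD m' := by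
    have h1 : (v.map kndE).getLast? = some (kndD m') := by rw [hv']; simp
    rw [hkv, List.getLast?_cons_cons, List.getLast?_eq_getLast_of_ne_nil (by simp)] at h1
    exact Option.some.inj h1
  have hch := hadj
  rw [hkv, List.isChain_cons_cons] at hch
  have hs := chkO_sound (kndD m) 5 (kndE f) (wt (kndD m) (kndE f)) [kndD m, kndE f] (w.map kndE)
    (chkO_all _ (mem_all _) _ (mem_all _) (kndD_isH m) htee1) hl5 hch.2 (by
      rw [hkv] at hlt
      simp only [ow20] at hlt
      omega)
  rw [hlast] at hs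
  have e1 : [kndD m, kndE f] ++ w.map kndE = v.map kndE := by rw [hkv]; rfl
  have e2 : wt (kndD m) (kndE f) + ow20 (kndE f :: w.map kndE) = ow20 (v.map kndE) := by
    rw [hkv]; rfl
  rw [e1, e2] at hs
  have htl : tl (v.map kndE) = true := by
    rw [hv', List.map_append, List.map_cons, List.map_cons, List.map_nil, tl_append, tee_symm]
    exact htee2
  rw [htl, kndD_isH] at hs
  simp only [Bool.not_true, Bool.false_or, okO, hbO_false v hc hr, Bool.or_eq_true,
    decide_eq_true_eq, Bool.and_eq_true] at hs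
  rcases hs with ((hs | hs) | hs) | hs
  · omega
  · exact hm (kndD_inj hs)
  · -- algebra
    have hsrc : ∀ e ∈ v, xsrc e = vx q := chain_src' hc (e := eA m q) (by rw [hv]; simp) rfl
    have noABA : ∀ (x y z : G), x ∈ A → y ∈ B → z ∈ A → g ≠ x * y * z := by
      intro x y z hx hy hz e
      exact hg ⟨x, hx, y, hy, z, hz, e⟩
    -- forms of the corners
    have key : ∀ e0 e1 e2 e3 e4 : XE A B g, (XX hg hgeo hι).Cor e0 e1 →
        (XX hg hgeo hι).Cor e1 e2 → (XX hg hgeo hι).Cor e2 e3 → (XX hg hgeo hι).Cor e3 e4 →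
        xsrc e0 = vx q → InF q e0 → InF q e4 →
        ((kndE e0 = up ∧ kndE e1 = vm ∧ kndE e2 = um ∧ kndE e3 = cp ∧ kndE e4 = um) ∨
        (kndE e0 = vm ∧ kndE e1 = up ∧ kndE e2 = vp ∧ kndE e3 = cm ∧ kndE e4 = vp)) → False := by
      intro e0 e1 e2 e3 e4 c01 c12 c23 c34 s0 hF0 hF4 hk
      have s1 : xsrc e1 = vx q := by rw [← cor_src hg hgeo hι c01]; exact s0
      have s2 : xsrc e2 = vx q := by rw [← cor_src hg hgeo hι c12]; exact s1
      have s3 : xsrc e3 = vx q := by rw [← cor_src hg hgeo hι c23]; exact s2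
      have s4 : xsrc e4 = vx q := by rw [← cor_src hg hgeo hι c34]; exact s3
      -- common: e1 -e2 hexagon, e2 - e3, e3 - e4 T-corners at the same B-coset
      have hBB : ∀ d d' : XE A B g, (XX hg hgeo hι).Cor d d' → xsrc d = vx q →
          ((kndE d = um ∧ kndE d' = cp) ∨ (kndE d = vp ∧ kndE d' = cm)) →
          ∃ y : G, (∃ m, d = eA m (q * Pι A B g y)) ∧ ∃ s, d' = eC s (q * Pι A B g y) := by
        intro d d' hcd hsd hkd
        rcases (cor_iff d d').1 hcd with ⟨m, p, rfl, rfl⟩ | ⟨m, p, rfl, rfl⟩ | ⟨p, rfl, rfl⟩ |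
          ⟨p, rfl, rfl⟩ | ⟨p, rfl, rfl⟩ | ⟨p, rfl, rfl⟩ | ⟨p, rfl, rfl⟩ | ⟨p, rfl, rfl⟩
        · exfalso; revert hkd; cases m <;> simp [kndD, Dr.nxt]
        · exfalso; revert hkd; cases m <;> simp [kndD, Dr.nxt]
        · exfalso; revert hkd; simp [kndD]
        · exfalso; revert hkd; simp [kndD]
        · exfalso; revert hkd; simp [kndD, kndC]
        · rw [xsrc_eA] at hsd
          obtain ⟨y, rfl⟩ := vx_eq.1 hsd.symm
          exact ⟨y, ⟨_, rfl⟩, ⟨_, rfl⟩⟩
        · rw [xsrc_eA] at hsd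
          obtain ⟨y, rfl⟩ := vx_eq.1 hsd.symm
          exact ⟨y, ⟨_, rfl⟩, ⟨_, rfl⟩⟩
        · exfalso; revert hkd; simp [kndD, kndC]
      rcases hk with ⟨k0, k1, k2, k3, k4⟩ | ⟨k0, k1, k2, k3, k4⟩
      · obtain ⟨y, hy0, hy1⟩ := cor_up_vm c01 s0 k0 k1
        obtain ⟨m1, m2, r, h1, h2⟩ := Cor.hex_coset hg hgeo hι c12 (by rw [k1, k2]; rfl)
        obtain ⟨z, ⟨m3, h3⟩, s, h4⟩ := hBB e2 e3 c23 s2 (Or.inl ⟨k2, k3⟩)
        obtain ⟨z', ⟨m5, h5⟩, s', h6⟩ := hBB e4 e3 (cor_symm' c34) s4 (Or.inl ⟨k4, k3⟩)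
        -- y in A, y g ~ z (A), z ~ z' (B), z' in A
        have hyA : y ∈ A := by rw [hy0] at hF0; exact (InF_G' hι).1 hF0
        have hzA : z' ∈ A := by rw [h5] at hF4; exact (InF_G' hι).1 hF4
        have hz1 : (y * g)⁻¹ * z ∈ A := by
          rw [hy1] at h1
          obtain ⟨-, a, ha, rfl⟩ := eA_eq.1 h1
          rw [h2, mul_assoc, ← map_mul] at h3
          obtain ⟨-, h7⟩ := (eA_iff_G hι).1 h3
          have := A.mul_mem ha h7
          have e : a * ((y * g * a)⁻¹ * z) = (y * g)⁻¹ * z := by group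
          rwa [e] at this
        have hz2 : z⁻¹ * z' ∈ B := by
          rw [h4] at h6
          exact ((eC_iff_G hι).1 h6).2
        refine noABA (y⁻¹ * z') (z⁻¹ * z')⁻¹ ((y * g)⁻¹ * z)⁻¹ (A.mul_mem (A.inv_mem hyA) hzA)
          (B.inv_mem hz2) (A.inv_mem hz1) ?_
        group
      · obtain ⟨y, hy0, hy1⟩ := cor_up_vm (cor_symm' c01) s1 k1 k0
        obtain ⟨m1, m2, r, h1, h2⟩ := Cor.hex_coset hg hgeo hι c12 (by rw [k1, k2]; rfl)
        obtain ⟨z, ⟨m3, h3⟩, s, h4⟩ := hBB e2 e3 c23 s2 (Or.inr ⟨k2, k3⟩)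
        obtain ⟨z', ⟨m5, h5⟩, s', h6⟩ := hBB e4 e3 (cor_symm' c34) s4 (Or.inr ⟨k4, k3⟩)
        have hyA : y * g ∈ A := by rw [hy1] at hF0; exact (InF_G' hι).1 hF0
        have hzA : z' ∈ A := by rw [h5] at hF4; exact (InF_G' hι).1 hF4
        have hz1 : y⁻¹ * z ∈ A := by
          rw [hy0] at h1
          obtain ⟨-, a, ha, rfl⟩ := eA_eq.1 h1
          rw [h2, mul_assoc, ← map_mul] at h3
          obtain ⟨-, h7⟩ := (eA_iff_G hι).1 h3
          have := A.mul_mem ha h7
          have e : a * ((y * a)⁻¹ * z) = y⁻¹ * z := by group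
          rwa [e] at this
        have hz2 : z⁻¹ * z' ∈ B := by
          rw [h4] at h6
          exact ((eC_iff_G hι).1 h6).2
        refine noABA (y⁻¹ * z) (z⁻¹ * z') (z'⁻¹ * (y * g)) hz1 hz2
          (A.mul_mem (A.inv_mem hzA) hyA) ?_
        group
    -- the four words
    rcases v with _ | ⟨x0, _ | ⟨x1, _ | ⟨x2, _ | ⟨x3, _ | ⟨x4, _ | ⟨x5, v⟩⟩⟩⟩⟩⟩
    all_goals simp only [lO, List.map_cons, List.map_nil, List.mem_cons, List.cons.injEq,
      List.not_mem_nil, or_false, and_true, reduceCtorEq, false_and, and_false, or_self] at hs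
    have hc0 := hc
    simp only [List.isChain_cons_cons, List.isChain_singleton, and_true] at hc0
    obtain ⟨c01, c12, c23, c34⟩ := hc0
    have hF0 : InF q x0 := by
      rw [(List.cons.inj hv).1]; exact ⟨m, rfl⟩
    have hF4 : InF q x4 := by
      have : ([x0, x1, x2, x3, x4] : List (XE A B g)).getLast? = some (eA m' q) := by
        rw [hv']; simp
      simp only [List.getLast?_cons_cons, List.getLast?_singleton, Option.some.injEq] at this
      rw [this]; exact ⟨m', rfl⟩
    have s0 := hsrc x0 (by simp)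
    have s4 := hsrc x4 (by simp)
    rcases hs with hs | hs | hs | hs
    · exact key x0 x1 x2 x3 x4 c01 c12 c23 c34 s0 hF0 hF4 (Or.inl hs)
    · obtain ⟨k0, k1, k2, k3, k4⟩ := hs
      exact key x4 x3 x2 x1 x0 (cor_symm' c34) (cor_symm' c23) (cor_symm' c12) (cor_symm' c01)
        s4 hF4 hF0 (Or.inl ⟨k4, k3, k2, k1, k0⟩)
    · exact key x0 x1 x2 x3 x4 c01 c12 c23 c34 s0 hF0 hF4 (Or.inr hs)
    · obtain ⟨k0, k1, k2, k3, k4⟩ := hs
      exact key x4 x3 x2 x1 x0 (cor_symm' c34) (cor_symm' c23) (cor_symm' c12) (cor_symm' c01)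
        s4 hF4 hF0 (Or.inr ⟨k4, k3, k2, k1, k0⟩)
  · -- closing by the short arc
    obtain ⟨h1, h2⟩ := hs
    have h3 := walk_out hA hc hr hv hv' hf hf' hm
    rw [ow_eq20] at h3
    have h4 : ((ow20 (v.map kndE) : ℕ) : ℝ) < ((84 : ℕ) : ℝ) := by exact_mod_cast h1
    have h5 : (120 - |pos m - pos m'| : ℤ) = 38 := by
      rcases h2 with ⟨h5, h6⟩ | ⟨h5, h6⟩
      · have j1 : m = .U := kndD_inj (m' := .U) h5
        have j2 : m' = .V' := kndD_inj (m' := .V') h6
        rw [j1, j2]; decide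
      · have j1 : m = .V' := kndD_inj (m' := .V') h5
        have j2 : m' = .U := kndD_inj (m' := .U) h6
        rw [j1, j2]; decide
    have h6 := h3.2
    rw [h5] at h6
    push_cast at h4 h6
    linarith

end Pool.Agent.ABA.B
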