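import Mathlib
import Pool.Agent.Helper89_ABA.NonSol

/-! # The direct limit (MP_d857f1_al) -/

namespace Pool.Agent.ABA

/-- `g` lies in `A B A` modulo `N` -/
def InABA {F : Type*} [Group F] (a b : F) (N : Subgroup F) (g : F) : Prop :=
  ∃ x y z : ℤ, g⁻¹ * (a ^ x * b ^ y * a ^ z) ∈ N

/-- the properties of the marked group `F / N` which survive in the limit -/
structure Good {F : Type*} [Group F] (a b : F) (N : Subgroup F) : Prop where
  inf : ∀ s : ℤ, a ^ s ∈ N → s = 0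
  bA : ∀ s : ℤ, b * a ^ s ∉ N
  r2 : ∀ (h : F) (r s : ℤ), r ≠ 0 → h * a ^ r * h⁻¹ * a ^ s ∈ N → ∃ k : ℤ, h * a ^ k ∈ N
  r3 : ∀ (h₁ h₂ h₃ : F) (s₁ s₂ s₃ : ℤ), s₁ ≠ 0 → s₂ ≠ 0 → s₃ ≠ 0 →
    h₁ * a ^ s₁ * h₁⁻¹ * (h₂ * a ^ s₂ * h₂⁻¹) * (h₃ * a ^ s₃ * h₃⁻¹) ∈ N →
    (∃ k : ℤ, h₁⁻¹ * h₂ * a ^ k ∈ N) ∨ (∃ k : ℤ, h₂⁻¹ * h₃ * a ^ k ∈ N) ∨
      (∃ k : ℤ, h₁⁻¹ * h₃ * a ^ k ∈ N)

theorem exists_chain {F : Type*} [Group F] (a b : F) (C : Subgroup F → Prop)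
    (h0 : ∃ N : Subgroup F, N.Normal ∧ C N)
    (hstep : ∀ N : Subgroup F, N.Normal → C N → ∀ g : F,
      ∃ N' : Subgroup F, N ≤ N' ∧ N'.Normal ∧ C N' ∧ InABA a b N' g) (e : ℕ → F) :
    ∃ N : ℕ → Subgroup F, Monotone N ∧ (∀ k, (N k).Normal) ∧ (∀ k, C (N k)) ∧
      ∀ k, InABA a b (N (k + 1)) (e k) := by
  obtain ⟨N₀, hN₀, hC₀⟩ := h0
  let S : Type _ := {N : Subgroup F // N.Normal ∧ C N}
  choose! f hf1 hf2 hf3 hf4 using hstep
  let g : ℕ → S := fun k => Nat.rec (motive := fun _ => S) ⟨N₀, hN₀, hC₀⟩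
    (fun k s => ⟨f s.1 (e k), hf2 s.1 s.2.1 s.2.2 (e k), hf3 s.1 s.2.1 s.2.2 (e k)⟩) k
  have hg : ∀ k, (g (k + 1)).1 = f (g k).1 (e k) := fun k => rfl
  refine ⟨fun k => (g k).1, monotone_nat_of_le_succ fun k => ?_, fun k => (g k).2.1,
    fun k => (g k).2.2, fun k => ?_⟩
  · rw [hg]; exact hf1 _ (g k).2.1 (g k).2.2 _
  · simp only []
    rw [hg]; exact hf4 _ (g k).2.1 (g k).2.2 _

theorem Good.iSup {F : Type*} [Group F] {a b : F} {N : ℕ → Subgroup F} (hm : Monotone N)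
    (hg : ∀ k, Good a b (N k)) : Good a b (⨆ k, N k) := by
  have hmem : ∀ x : F, x ∈ (⨆ k, N k) ↔ ∃ k, x ∈ N k := fun x =>
    Subgroup.mem_iSup_of_directed hm.directed_le
  constructor
  · intro s hs
    obtain ⟨k, hk⟩ := (hmem _).1 hs
    exact (hg k).inf s hk
  · intro s hs
    obtain ⟨k, hk⟩ := (hmem _).1 hs
    exact (hg k).bA s hk
  · intro h r s hr hs
    obtain ⟨k, hk⟩ := (hmem _).1 hs
    obtain ⟨j, hj⟩ := (hg k).r2 h r s hr hk
    exact ⟨j, (hmem _).2 ⟨k, hj⟩⟩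
  · intro h₁ h₂ h₃ s₁ s₂ s₃ e₁ e₂ e₃ hs
    obtain ⟨k, hk⟩ := (hmem _).1 hs
    rcases (hg k).r3 h₁ h₂ h₃ s₁ s₂ s₃ e₁ e₂ e₃ hk with ⟨j, hj⟩ | ⟨j, hj⟩ | ⟨j, hj⟩
    · exact Or.inl ⟨j, (hmem _).2 ⟨k, hj⟩⟩
    · exact Or.inr (Or.inl ⟨j, (hmem _).2 ⟨k, hj⟩⟩)
    · exact Or.inr (Or.inr ⟨j, (hmem _).2 ⟨k, hj⟩⟩)

theorem Good.main {F : Type} [Group F] {a b : F} {N : Subgroup F} (hN : N.Normal)
    (hg : Good a b N) (hall : ∀ g : F, InABA a b N g) :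
    ∃ (G : Type) (_ : Group G) (A B : Subgroup G), IsCyclic A ∧ IsCyclic B ∧
      (∀ g : G, ∃ x ∈ A, ∃ y ∈ B, ∃ z ∈ A, g = x * y * z) ∧ ¬ Group.IsSolvable G := by
  let π : F →* F ⧸ N := QuotientGroup.mk' N
  have hmk : ∀ x : F, π x = 1 ↔ x ∈ N := fun x => QuotientGroup.eq_one_iff x
  refine ⟨F ⧸ N, inferInstance, Subgroup.zpowers (π a), Subgroup.zpowers (π b), inferInstance,
    inferInstance, ?_, ?_⟩
  · intro g
    obtain ⟨g, rfl⟩ := QuotientGroup.mk'_surjective N g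
    obtain ⟨x, y, z, h⟩ := hall g
    refine ⟨π a ^ x, ⟨x, rfl⟩, π b ^ y, ⟨y, rfl⟩, π a ^ z, ⟨z, rfl⟩, ?_⟩
    rw [← hmk] at h
    simp only [map_mul, map_inv, map_zpow] at h
    exact (inv_mul_eq_one.1 h)
  · have hz : ∀ s : ℤ, π a ^ s = 1 → s = 0 := by
      intro s hs
      exact hg.inf s ((hmk _).1 (by rw [map_zpow]; exact hs))
    have hA : ∀ u : F, π u ∈ Subgroup.zpowers (π a) ↔ ∃ k : ℤ, u * a ^ k ∈ N := by
      intro u
      constructor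
      · rintro ⟨k, hk⟩
        refine ⟨-k, (hmk _).1 ?_⟩
        simp only at hk
        rw [map_mul, map_zpow, ← hk]; group
      · rintro ⟨k, hk⟩
        rw [← hmk, map_mul, map_zpow] at hk
        refine ⟨-k, ?_⟩
        simp only [zpow_neg]
        exact (eq_inv_of_mul_eq_one_left hk).symm
    apply not_solvable (A := Subgroup.zpowers (π a))
    · -- R2
      intro h x hx hc hx1
      obtain ⟨h, rfl⟩ := QuotientGroup.mk'_surjective N h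
      obtain ⟨r, rfl⟩ := hx
      have hr : r ≠ 0 := fun h0 => hx1 (by simp [h0])
      have e : (QuotientGroup.mk' N h * π a ^ r * (QuotientGroup.mk' N h)⁻¹) =
          π (h * a ^ r * h⁻¹) := by
        simp only [map_mul, map_inv, map_zpow]; rfl
      simp only at hc
      rw [e, hA] at hc
      obtain ⟨s, hs⟩ := hc
      exact (hA h).2 (hg.r2 h r s hr hs)
    · -- R3
      intro h₁ h₂ h₃ x₁ x₂ x₃ hx₁ hx₂ hx₃ n₁ n₂ n₃ c₁ c₂ c₃ heq
      obtain ⟨h₁, rfl⟩ := QuotientGroup.mk'_surjective N h₁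
      obtain ⟨h₂, rfl⟩ := QuotientGroup.mk'_surjective N h₂
      obtain ⟨h₃, rfl⟩ := QuotientGroup.mk'_surjective N h₃
      obtain ⟨s₁, rfl⟩ := hx₁
      obtain ⟨s₂, rfl⟩ := hx₂
      obtain ⟨s₃, rfl⟩ := hx₃
      have e₁ : s₁ ≠ 0 := fun h0 => n₁ (by simp [h0])
      have e₂ : s₂ ≠ 0 := fun h0 => n₂ (by simp [h0])
      have e₃ : s₃ ≠ 0 := fun h0 => n₃ (by simp [h0])
      have hm : h₁ * a ^ s₁ * h₁⁻¹ * (h₂ * a ^ s₂ * h₂⁻¹) * (h₃ * a ^ s₃ * h₃⁻¹) ∈ N := by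
        rw [← hmk]
        simp only [map_mul, map_inv, map_zpow]
        exact heq
      have key : ∀ u v : F, (∃ k : ℤ, u⁻¹ * v * a ^ k ∈ N) →
          (QuotientGroup.mk' N u)⁻¹ * QuotientGroup.mk' N v ∈ Subgroup.zpowers (π a) := by
        intro u v hk
        have : (QuotientGroup.mk' N u)⁻¹ * QuotientGroup.mk' N v = π (u⁻¹ * v) := by
          simp only [map_mul, map_inv]; rfl
        rw [this]
        exact (hA _).2 hk
      rcases hg.r3 h₁ h₂ h₃ s₁ s₂ s₃ e₁ e₂ e₃ hm with h | h | h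
      · exact c₁ (key _ _ h)
      · exact c₂ (key _ _ h)
      · exact c₃ (key _ _ h)
    · intro hb
      have : π a ∈ (⊥ : Subgroup (F ⧸ N)) := hb ▸ Subgroup.mem_zpowers (π a)
      have h1 := hz 1 (by simpa using this)
      exact one_ne_zero h1
    · intro ht
      have : π b ∈ Subgroup.zpowers (π a) := ht ▸ Subgroup.mem_top _
      obtain ⟨k, hk⟩ := (hA b).1 this
      exact hg.bA k hk
    · rintro x ⟨k, rfl⟩ hx
      simp only at hx ⊢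
      rw [← zpow_add] at hx
      have := hz _ hx
      have hk : k = 0 := by omega
      simp [hk]

/-- The final assembly: a class of marked groups with the extension property gives a
non-soluble group of the form `A B A` with `A`, `B` cyclic. -/
theorem main_of_class {F : Type} [Group F] [Countable F] (a b : F) (C : Subgroup F → Prop)
    (h0 : ∃ N : Subgroup F, N.Normal ∧ C N) (hgood : ∀ N : Subgroup F, C N → Good a b N)
    (hstep : ∀ N : Subgroup F, N.Normal → C N → ∀ g : F, ¬ InABA a b N g →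
      ∃ N' : Subgroup F, N ≤ N' ∧ N'.Normal ∧ C N' ∧ InABA a b N' g) :
    ∃ (G : Type) (_ : Group G) (A B : Subgroup G), IsCyclic A ∧ IsCyclic B ∧
      (∀ g : G, ∃ x ∈ A, ∃ y ∈ B, ∃ z ∈ A, g = x * y * z) ∧ ¬ Group.IsSolvable G := by
  obtain ⟨e, he⟩ := exists_surjective_nat F
  have hstep' : ∀ N : Subgroup F, N.Normal → C N → ∀ g : F,
      ∃ N' : Subgroup F, N ≤ N' ∧ N'.Normal ∧ C N' ∧ InABA a b N' g := by
    intro N hN hC g
    by_cases hg : InABA a b N g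
    · exact ⟨N, le_rfl, hN, hC, hg⟩
    · exact hstep N hN hC g hg
  obtain ⟨N, hm, hn, hC, hABA⟩ := exists_chain a b C h0 hstep' e
  have hnorm : (⨆ k, N k).Normal := by
    constructor
    intro x hx g
    obtain ⟨k, hk⟩ := (Subgroup.mem_iSup_of_directed hm.directed_le).1 hx
    exact (Subgroup.mem_iSup_of_directed hm.directed_le).2 ⟨k, (hn k).conj_mem x hk g⟩
  refine Good.main hnorm (Good.iSup hm fun k => hgood _ (hC k)) ?_
  intro g
  obtain ⟨k, rfl⟩ := he g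
  obtain ⟨x, y, z, h⟩ := hABA k
  exact ⟨x, y, z, (le_iSup N (k + 1)) h⟩

end Pool.Agent.ABA
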