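import Mathlib
import Pool.Agent.Helper89_ABA.Limit
import Pool.Agent.Helper89_ABA.Defs

/-! # Free products: the base case (MP_d857f1_al) -/

namespace Pool.Agent.ABA

open Monoid.CoprodI

variable {G : Bool → Type*} [∀ i, Group (G i)]

/-- `g` is represented by a reduced word from index `i` to index `j` -/
def PW (g : Monoid.CoprodI G) (i j : Bool) : Prop := ∃ w : NeWord G i j, w.prod = g

theorem PW.ne_one {g : Monoid.CoprodI G} {i j : Bool} (h : PW g i j) : g ≠ 1 := by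
  classical
  obtain ⟨w, rfl⟩ := h
  intro h1
  have : w.toWord = Word.empty := by
    apply (Word.equiv (M := G)).symm.injective
    change w.toWord.prod = Word.prod Word.empty
    rw [Word.prod_empty]; exact h1
  exact w.toList_ne_nil (congrArg Word.toList this)

theorem PW.unique {g : Monoid.CoprodI G} {i j k l : Bool} (h : PW g i j) (h' : PW g k l) :
    i = k ∧ j = l := by
  classical
  obtain ⟨w, hw⟩ := h
  obtain ⟨w', hw'⟩ := h'
  have e : w.toWord = w'.toWord := by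
    apply (Word.equiv (M := G)).symm.injective
    change w.toWord.prod = w'.toWord.prod
    exact hw.trans hw'.symm
  have e2 : w.toList = w'.toList := congrArg Word.toList e
  constructor
  · have := w.toList_head?
    rw [e2, w'.toList_head?] at this
    simpa using (congrArg (Option.map Sigma.fst) this).symm
  · have := w.toList_getLast?
    rw [e2, w'.toList_getLast?] at this
    simpa using (congrArg (Option.map Sigma.fst) this).symm

theorem PW.inv {g : Monoid.CoprodI G} {i j : Bool} (h : PW g i j) : PW g⁻¹ j i := by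
  obtain ⟨w, rfl⟩ := h
  exact ⟨w.inv, NeWord.inv_prod w⟩

theorem PW.mul {g g' : Monoid.CoprodI G} {i j k l : Bool} (h : PW g i j) (hne : j ≠ k)
    (h' : PW g' k l) : PW (g * g') i l := by
  obtain ⟨w, rfl⟩ := h
  obtain ⟨w', rfl⟩ := h'
  exact ⟨NeWord.append w hne w', NeWord.append_prod⟩

theorem PW.of {i : Bool} {x : G i} (hx : x ≠ 1) : PW (Monoid.CoprodI.of x) i i :=
  ⟨NeWord.singleton x hx, NeWord.prod_singleton x hx⟩

theorem exists_PW (g : Monoid.CoprodI G) (hg : g ≠ 1) : ∃ i j, PW g i j := by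
  classical
  have hne : Word.equiv g ≠ Word.empty := by
    intro h
    apply hg
    have := congrArg (Word.equiv (M := G)).symm h
    rw [Equiv.symm_apply_apply] at this
    rw [this]
    exact Word.prod_empty
  obtain ⟨i, j, w, hw⟩ := NeWord.of_word _ hne
  refine ⟨i, j, w, ?_⟩
  have : w.toWord.prod = (Word.equiv (M := G)).symm (Word.equiv g) := by rw [hw]; rfl
  rw [Equiv.symm_apply_apply] at this
  exact this

/-- strip the first letter of index `i` -/
theorem strip_left (i : Bool) (g : Monoid.CoprodI G) :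
    ∃ (x : G i) (t : Monoid.CoprodI G), g = Monoid.CoprodI.of x * t ∧
      (t = 1 ∨ ∃ l, PW t (!i) l) := by
  classical
  set p := Word.equivPair i (Word.equiv g) with hp
  refine ⟨p.head, p.tail.prod, ?_, ?_⟩
  · have h1 : Word.rcons p = Word.equiv g := by
      rw [← Word.equivPair_symm, hp, Equiv.symm_apply_apply]
    have h2 := Word.prod_rcons p
    rw [h1] at h2
    rw [← h2]
    exact ((Word.equiv (M := G)).symm_apply_apply g).symm
  · by_cases ht : p.tail = Word.empty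
    · left; rw [ht]; exact Word.prod_empty
    · right
      obtain ⟨k, l, w, hw⟩ := NeWord.of_word _ ht
      have hk : k ≠ i := by
        rintro rfl
        apply p.fstIdx_ne
        rw [← hw, Word.fstIdx]
        change Option.map Sigma.fst w.toList.head? = some k
        rw [NeWord.toList_head?]; rfl
      have hk' : k = !i := by
        cases k <;> cases i <;> simp_all
      subst hk'
      exact ⟨l, w, by rw [← hw]; rfl⟩

/-- strip the last letter of index `i` -/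
theorem strip_right (i : Bool) (g : Monoid.CoprodI G) {k l : Bool} (hg : PW g k l) (hk : k ≠ i) :
    ∃ (x : G i) (t : Monoid.CoprodI G), g = t * Monoid.CoprodI.of x ∧ PW t k (!i) := by
  obtain ⟨x, t, h1, h2⟩ := strip_left i g⁻¹
  have hgx : g = t⁻¹ * Monoid.CoprodI.of x⁻¹ := by
    rw [map_inv, ← mul_inv_rev, ← h1, inv_inv]
  rcases h2 with rfl | ⟨m, hm⟩
  · exfalso
    rw [inv_one, one_mul] at hgx
    by_cases hx : x⁻¹ = 1
    · rw [hx, map_one] at hgx
      exact hg.ne_one hgx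
    · have := PW.of hx
      rw [← hgx] at this
      exact hk (hg.unique this).1
  · refine ⟨x⁻¹, t⁻¹, hgx, ?_⟩
    by_cases hx : x = 1
    · subst hx
      rw [map_one, one_mul] at h1
      rw [← h1] at hm ⊢
      have := hg.inv.unique hm
      rw [inv_inv, ← this.1]
      exact hg
    · have h3 : PW (Monoid.CoprodI.of x * t) i m :=
        (PW.of hx).mul (by cases i <;> simp) hm
      rw [← h1] at h3
      have h4 := hg.inv.unique h3
      rw [h4.2]
      exact hm.inv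

/-- normal form of a double coset -/
theorem double (i : Bool) (g : Monoid.CoprodI G) :
    (∃ x : G i, g = Monoid.CoprodI.of x) ∨
    ∃ (x y : G i) (t : Monoid.CoprodI G), PW t (!i) (!i) ∧
      g = Monoid.CoprodI.of x * t * Monoid.CoprodI.of y := by
  obtain ⟨x, t, h1, h2⟩ := strip_left i g
  rcases h2 with rfl | ⟨m, hm⟩
  · left; exact ⟨x, by rw [h1, mul_one]⟩
  · right
    obtain ⟨y, s, h3, h4⟩ := strip_right i t hm (by cases i <;> simp)
    exact ⟨x, y, s, h4, by rw [h1, h3, mul_assoc]⟩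

/-- the factor `G i` as a subgroup of the free product -/
def Fac (G : Bool → Type*) [∀ i, Group (G i)] (i : Bool) : Subgroup (Monoid.CoprodI G) :=
  (Monoid.CoprodI.of (M := G) (i := i)).range

theorem PW.of_mem {i : Bool} {x : Monoid.CoprodI G} (hx : x ∈ Fac G i) (h1 : x ≠ 1) :
    PW x i i := by
  obtain ⟨y, rfl⟩ := hx
  exact PW.of (fun h => h1 (by rw [h, map_one]))

theorem notMem_of_PW {i j k : Bool} {x : Monoid.CoprodI G} (h : PW x j k) (hj : j ≠ i ∨ k ≠ i) :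
    x ∉ Fac G i := by
  intro hx
  have := (PW.of_mem hx h.ne_one).unique h
  rcases hj with hj | hj
  · exact hj this.1.symm
  · exact hj this.2.symm

/-- conjugates of a factor start and end with the same letter type -/
theorem conj_PW {i : Bool} (k x : Monoid.CoprodI G) (hx : x ∈ Fac G i) (h1 : x ≠ 1) :
    ∃ j, PW (k * x * k⁻¹) j j := by
  rcases double i k with ⟨y, rfl⟩ | ⟨y, z, t, ht, rfl⟩
  · refine ⟨i, PW.of_mem ((Fac G i).mul_mem ((Fac G i).mul_mem ⟨y, rfl⟩ hx)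
      ((Fac G i).inv_mem ⟨y, rfl⟩)) ?_⟩
    intro h; apply h1
    exact conj_eq_one_iff.1 h
  · have hz : Monoid.CoprodI.of z * x * (Monoid.CoprodI.of z)⁻¹ ∈ Fac G i :=
      (Fac G i).mul_mem ((Fac G i).mul_mem ⟨z, rfl⟩ hx) ((Fac G i).inv_mem ⟨z, rfl⟩)
    have hz1 : Monoid.CoprodI.of z * x * (Monoid.CoprodI.of z)⁻¹ ≠ 1 := fun h =>
      h1 (conj_eq_one_iff.1 h)
    have hne : (!i) ≠ i := by cases i <;> simp
    have h3 : PW (t * (Monoid.CoprodI.of z * x * (Monoid.CoprodI.of z)⁻¹) * t⁻¹) (!i) (!i) :=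
      (ht.mul hne (PW.of_mem hz hz1)).mul hne.symm ht.inv
    have e : Monoid.CoprodI.of y * t * Monoid.CoprodI.of z * x *
        (Monoid.CoprodI.of y * t * Monoid.CoprodI.of z)⁻¹ =
        Monoid.CoprodI.of y * (t * (Monoid.CoprodI.of z * x * (Monoid.CoprodI.of z)⁻¹) * t⁻¹) *
          (Monoid.CoprodI.of y)⁻¹ := by group
    rw [e]
    by_cases hy : y = 1
    · subst hy
      refine ⟨!i, by simpa using h3⟩
    · refine ⟨i, ?_⟩
      have hy' : (Monoid.CoprodI.of y : Monoid.CoprodI G) ≠ 1 := (PW.of hy).ne_one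
      rw [← map_inv]
      exact ((PW.of hy).mul hne.symm h3).mul hne (PW.of (inv_ne_one.2 hy))

theorem Fac_R2 (i : Bool) : R2 (Fac G i) := by
  intro h x hx hc h1
  have hne : (!i) ≠ i := by cases i <;> simp
  rcases double i h with ⟨y, rfl⟩ | ⟨y, z, t, ht, rfl⟩
  · exact ⟨y, rfl⟩
  · exfalso
    have hz : Monoid.CoprodI.of z * x * (Monoid.CoprodI.of z)⁻¹ ∈ Fac G i :=
      (Fac G i).mul_mem ((Fac G i).mul_mem ⟨z, rfl⟩ hx) ((Fac G i).inv_mem ⟨z, rfl⟩)
    have hz1 : Monoid.CoprodI.of z * x * (Monoid.CoprodI.of z)⁻¹ ≠ 1 := fun h =>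
      h1 (conj_eq_one_iff.1 h)
    have h3 : PW (t * (Monoid.CoprodI.of z * x * (Monoid.CoprodI.of z)⁻¹) * t⁻¹) (!i) (!i) :=
      (ht.mul hne (PW.of_mem hz hz1)).mul hne.symm ht.inv
    refine notMem_of_PW h3 (Or.inl hne) ?_
    have e : t * (Monoid.CoprodI.of z * x * (Monoid.CoprodI.of z)⁻¹) * t⁻¹ =
        (Monoid.CoprodI.of y)⁻¹ * (Monoid.CoprodI.of y * t * Monoid.CoprodI.of z * x *
        (Monoid.CoprodI.of y * t * Monoid.CoprodI.of z)⁻¹) * Monoid.CoprodI.of y := by group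
    rw [e]
    exact (Fac G i).mul_mem ((Fac G i).mul_mem ((Fac G i).inv_mem ⟨y, rfl⟩) hc) ⟨y, rfl⟩

theorem Fac_R3 (i : Bool) : R3 (Fac G i) := by
  intro h₁ h₂ h₃ x₁ x₂ x₃ m₁ m₂ m₃ n₁ n₂ n₃ c₁ c₂ c₃ heq
  have hne : (!i) ≠ i := by cases i <;> simp
  rcases double i (h₁⁻¹ * h₂) with ⟨y, hy⟩ | ⟨y, z, t, ht, hyt⟩
  · exact c₁ ⟨y, hy.symm⟩
  · have hz : Monoid.CoprodI.of z * x₂ * (Monoid.CoprodI.of z)⁻¹ ∈ Fac G i :=
      (Fac G i).mul_mem ((Fac G i).mul_mem ⟨z, rfl⟩ m₂) ((Fac G i).inv_mem ⟨z, rfl⟩)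
    have hz1 : Monoid.CoprodI.of z * x₂ * (Monoid.CoprodI.of z)⁻¹ ≠ 1 := fun h =>
      n₂ (conj_eq_one_iff.1 h)
    have hy' : (Monoid.CoprodI.of y)⁻¹ * x₁ * (Monoid.CoprodI.of y) ∈ Fac G i :=
      (Fac G i).mul_mem ((Fac G i).mul_mem ((Fac G i).inv_mem ⟨y, rfl⟩) m₁) ⟨y, rfl⟩
    have hy1 : (Monoid.CoprodI.of y)⁻¹ * x₁ * (Monoid.CoprodI.of y) ≠ 1 := by
      intro h
      apply n₁
      have : x₁ = Monoid.CoprodI.of y * ((Monoid.CoprodI.of y)⁻¹ * x₁ * (Monoid.CoprodI.of y)) *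
        (Monoid.CoprodI.of y)⁻¹ := by group
      rw [this, h]; group
    have h3 : PW ((Monoid.CoprodI.of y)⁻¹ * x₁ * (Monoid.CoprodI.of y) *
        (t * (Monoid.CoprodI.of z * x₂ * (Monoid.CoprodI.of z)⁻¹) * t⁻¹)) i (!i) :=
      (PW.of_mem hy' hy1).mul hne.symm ((ht.mul hne (PW.of_mem hz hz1)).mul hne.symm ht.inv)
    obtain ⟨j, hj⟩ := conj_PW ((Monoid.CoprodI.of y)⁻¹ * (h₁⁻¹ * h₃)) x₃⁻¹
      ((Fac G i).inv_mem m₃) (inv_ne_one.2 n₃)
    have e : (Monoid.CoprodI.of y)⁻¹ * x₁ * (Monoid.CoprodI.of y) *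
        (t * (Monoid.CoprodI.of z * x₂ * (Monoid.CoprodI.of z)⁻¹) * t⁻¹) =
        (Monoid.CoprodI.of y)⁻¹ * (h₁⁻¹ * h₃) * x₃⁻¹ *
          ((Monoid.CoprodI.of y)⁻¹ * (h₁⁻¹ * h₃))⁻¹ := by
      have e1 : (Monoid.CoprodI.of y)⁻¹ * x₁ * (Monoid.CoprodI.of y) *
        (t * (Monoid.CoprodI.of z * x₂ * (Monoid.CoprodI.of z)⁻¹) * t⁻¹) =
        (Monoid.CoprodI.of y)⁻¹ * (x₁ * ((Monoid.CoprodI.of y * t * Monoid.CoprodI.of z) * x₂ *
          (Monoid.CoprodI.of y * t * Monoid.CoprodI.of z)⁻¹)) * Monoid.CoprodI.of y := by group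
      rw [e1, ← hyt]
      have e2 : x₁ * ((h₁⁻¹ * h₂) * x₂ * (h₁⁻¹ * h₂)⁻¹) =
          (h₁⁻¹ * h₃) * x₃⁻¹ * (h₁⁻¹ * h₃)⁻¹ := by
        have e3 : h₁ * x₁ * h₁⁻¹ * (h₂ * x₂ * h₂⁻¹) = (h₃ * x₃ * h₃⁻¹)⁻¹ :=
          eq_inv_of_mul_eq_one_left heq
        calc x₁ * ((h₁⁻¹ * h₂) * x₂ * (h₁⁻¹ * h₂)⁻¹)
            = h₁⁻¹ * (h₁ * x₁ * h₁⁻¹ * (h₂ * x₂ * h₂⁻¹)) * h₁ := by group
          _ = h₁⁻¹ * (h₃ * x₃ * h₃⁻¹)⁻¹ * h₁ := by rw [e3]
          _ = _ := by group
      rw [e2]; group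
    rw [e] at h3
    have := hj.unique h3
    exact hne.symm (this.1.symm.trans this.2)

theorem Fac_E6 (i : Bool) (h : Monoid.CoprodI G) (hh : h ∉ Fac G i) : E6 (Fac G i) h := by
  intro x₁ hx₁ y₁ hy₁ x₂ hx₂ y₂ hy₂ x₃ hx₃ y₃ hy₃ n₁ n₂ n₃ n₄ n₅ n₆ heq
  have hne : (!i) ≠ i := by cases i <;> simp
  rcases double i h with ⟨y, hy⟩ | ⟨y, z, t, ht, hyt⟩
  · exact hh ⟨y, hy.symm⟩
  · have key : ∀ x ∈ Fac G i, x ≠ 1 → ∀ w ∈ Fac G i, w ≠ 1 →
        PW ((Monoid.CoprodI.of y)⁻¹ * (x * (h * w * h⁻¹)) * Monoid.CoprodI.of y) i (!i) := by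
      intro x hx x1 w hw w1
      have hz : Monoid.CoprodI.of z * w * (Monoid.CoprodI.of z)⁻¹ ∈ Fac G i :=
        (Fac G i).mul_mem ((Fac G i).mul_mem ⟨z, rfl⟩ hw) ((Fac G i).inv_mem ⟨z, rfl⟩)
      have hz1 : Monoid.CoprodI.of z * w * (Monoid.CoprodI.of z)⁻¹ ≠ 1 := fun h =>
        w1 (conj_eq_one_iff.1 h)
      have hy' : (Monoid.CoprodI.of y)⁻¹ * x * (Monoid.CoprodI.of y) ∈ Fac G i :=
        (Fac G i).mul_mem ((Fac G i).mul_mem ((Fac G i).inv_mem ⟨y, rfl⟩) hx) ⟨y, rfl⟩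
      have hy1 : (Monoid.CoprodI.of y)⁻¹ * x * (Monoid.CoprodI.of y) ≠ 1 := by
        intro h
        apply x1
        have : x = Monoid.CoprodI.of y * ((Monoid.CoprodI.of y)⁻¹ * x * (Monoid.CoprodI.of y)) *
          (Monoid.CoprodI.of y)⁻¹ := by group
        rw [this, h]; group
      have h3 : PW ((Monoid.CoprodI.of y)⁻¹ * x * (Monoid.CoprodI.of y) *
          (t * (Monoid.CoprodI.of z * w * (Monoid.CoprodI.of z)⁻¹) * t⁻¹)) i (!i) :=
        (PW.of_mem hy' hy1).mul hne.symm ((ht.mul hne (PW.of_mem hz hz1)).mul hne.symm ht.inv)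
      have e : (Monoid.CoprodI.of y)⁻¹ * (x * (h * w * h⁻¹)) * Monoid.CoprodI.of y =
        (Monoid.CoprodI.of y)⁻¹ * x * (Monoid.CoprodI.of y) *
          (t * (Monoid.CoprodI.of z * w * (Monoid.CoprodI.of z)⁻¹) * t⁻¹) := by
        rw [hyt]; group
      rw [e]; exact h3
    have := ((key x₁ hx₁ n₁ y₁ hy₁ n₂).mul hne (key x₂ hx₂ n₃ y₂ hy₂ n₄)).mul hne
      (key x₃ hx₃ n₅ y₃ hy₃ n₆)
    apply this.ne_one
    calc _ = (Monoid.CoprodI.of y)⁻¹ * (x₁ * (h * y₁ * h⁻¹) * x₂ * (h * y₂ * h⁻¹) * x₃ *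
          (h * y₃ * h⁻¹)) * Monoid.CoprodI.of y := by group
      _ = 1 := by rw [heq]; group

theorem Fac_geo (ht2 : ∀ h : Monoid.CoprodI G, h * h = 1 → h = 1)
    (hcomm : ∀ x y : G true, x * y = y * x) :
    Geo (Fac G true) (Fac G false) where
  ab := by
    intro x hx hx'
    by_contra h1
    have := (PW.of_mem hx h1).unique (PW.of_mem hx' h1)
    simp at this
  aa := Fac_R2 true
  bb := Fac_R2 false
  ab' := by
    classical
    intro h x hx hc
    obtain ⟨b, hb⟩ := hc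
    obtain ⟨a, rfl⟩ := hx
    let π : Monoid.CoprodI G →* G false :=
      Monoid.CoprodI.lift (fun i => match i with
        | false => MonoidHom.id _
        | true => 1)
    have h1 : π (Monoid.CoprodI.of b) = b := by simp [π]
    have h2 : π (Monoid.CoprodI.of a) = 1 := by simp [π]
    rw [hb, map_mul, map_mul, h2, mul_one, map_inv, mul_inv_cancel] at h1
    rw [← h1, map_one] at hb
    exact conj_eq_one_iff.1 hb.symm
  e1 := by
    intro x hx y hy x' hx' y' hy' n₁ n₂ n₃ n₄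
    exact ((((PW.of_mem hx n₁).mul (by simp) (PW.of_mem hy n₂)).mul (by simp)
      (PW.of_mem hx' n₃)).mul (by simp) (PW.of_mem hy' n₄)).ne_one
  r3 := Fac_R3 true
  t2 := ht2
  e6 := by
    intro h hh
    refine Fac_E6 true h fun hA => hh ⟨h, hA, 1, one_mem _, 1, one_mem _, by simp⟩
  el := by
    classical
    intro k s hs t ht n₁ n₂ hrel
    obtain ⟨a, rfl⟩ := hs
    obtain ⟨b, rfl⟩ := ht
    let π : Monoid.CoprodI G →* G true :=
      Monoid.CoprodI.lift (fun i => match i with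
        | true => MonoidHom.id _
        | false => 1)
    have h1 : π (Monoid.CoprodI.of a) = a := by simp [π]
    have h2 : π (Monoid.CoprodI.of b) = 1 := by simp [π]
    have h3 := congrArg π hrel
    rw [map_mul, map_mul, map_mul, h1, h2, map_inv, hcomm (π k) a, mul_inv_cancel_right] at h3
    apply n₁
    apply ht2
    rw [← map_mul, h3, map_one]

/-- the free product `ℤ * ℤ`, with factors `A = true`, `B = false` -/
abbrev FZ : Type := Monoid.CoprodI (fun _ : Bool => Multiplicative ℤ)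

theorem FZ_t2 (h : FZ) (hh : h * h = 1) : h = 1 := by
  let φ : FZ →* FreeGroup Bool :=
    Monoid.CoprodI.lift (fun i => zpowersHom (FreeGroup Bool) (FreeGroup.of i))
  let ψ : FreeGroup Bool →* FZ := FreeGroup.lift
    (fun i => Monoid.CoprodI.of (i := i) (Multiplicative.ofAdd (1 : ℤ)))
  have hψφ : ψ.comp φ = MonoidHom.id _ := by
    apply Monoid.CoprodI.ext_hom
    intro i
    ext
    simp [φ, ψ]
  have hinj : Function.Injective φ := by
    intro x y hxy
    have := congrArg ψ hxy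
    have hx : ψ (φ x) = x := DFunLike.congr_fun hψφ x
    have hy : ψ (φ y) = y := DFunLike.congr_fun hψφ y
    rw [hx, hy] at this
    exact this
  apply hinj
  rw [map_one]
  have h2 : φ h ^ 2 = 1 := by rw [pow_two, ← map_mul, hh, map_one]
  have := (IsMulTorsionFree.pow_left_injective (M := FreeGroup Bool) (n := 2) (by norm_num))
  apply this
  simpa using h2

theorem FZ_geo : Geo (Fac (fun _ : Bool => Multiplicative ℤ) true)
    (Fac (fun _ : Bool => Multiplicative ℤ) false) := Fac_geo FZ_t2 (fun x y => mul_comm x y)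

end Pool.Agent.ABA
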