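import Mathlib
import Pool.Agent.Helper89_ABA.Base

/-! # From `Geo` on the quotient to `Good` (MP_d857f1_al) -/

namespace Pool.Agent.ABA

/-- image of the cyclic group generated by `a` in `F / N` -/
abbrev Im {F : Type*} [Group F] (N : Subgroup F) [N.Normal] (a : F) : Subgroup (F ⧸ N) :=
  Subgroup.zpowers (QuotientGroup.mk' N a)

theorem mem_Im {F : Type*} [Group F] (N : Subgroup F) [N.Normal] (a u : F) :
    QuotientGroup.mk' N u ∈ Im N a ↔ ∃ k : ℤ, u * a ^ k ∈ N := by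
  have hmk : ∀ x : F, QuotientGroup.mk' N x = 1 ↔ x ∈ N := fun x => QuotientGroup.eq_one_iff x
  constructor
  · rintro ⟨k, hk⟩
    refine ⟨-k, (hmk _).1 ?_⟩
    simp only at hk
    rw [map_mul, map_zpow, ← hk]; group
  · rintro ⟨k, hk⟩
    rw [← hmk, map_mul, map_zpow] at hk
    refine ⟨-k, ?_⟩
    simp only [zpow_neg]
    exact (eq_inv_of_mul_eq_one_left hk).symm

theorem isABA_iff {F : Type*} [Group F] (N : Subgroup F) [N.Normal] (a b g : F) :
    IsABA (Im N a) (Im N b) (QuotientGroup.mk' N g) ↔ InABA a b N g := by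
  have hmk : ∀ x : F, QuotientGroup.mk' N x = 1 ↔ x ∈ N := fun x => QuotientGroup.eq_one_iff x
  constructor
  · rintro ⟨_, ⟨x, rfl⟩, _, ⟨y, rfl⟩, _, ⟨z, rfl⟩, h⟩
    refine ⟨x, y, z, (hmk _).1 ?_⟩
    simp only [map_mul, map_inv, map_zpow]
    rw [h]; group
  · rintro ⟨x, y, z, h⟩
    refine ⟨_, ⟨x, rfl⟩, _, ⟨y, rfl⟩, _, ⟨z, rfl⟩, ?_⟩
    rw [← hmk] at h
    simp only [map_mul, map_inv, map_zpow] at h
    exact (inv_mul_eq_one.1 h)

/-- a marked group whose images of `a`, `b` are infinite and which lies in the geometric class is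
good -/
theorem Geo.good {F : Type*} [Group F] {N : Subgroup F} [N.Normal] {a b : F}
    (hg : Geo (Im N a) (Im N b)) (ha : ∀ s : ℤ, a ^ s ∈ N → s = 0)
    (hb : ∀ s : ℤ, b ^ s ∈ N → s = 0) : Good a b N where
  inf := ha
  bA := by
    intro s hs
    have hmk : ∀ x : F, QuotientGroup.mk' N x = 1 ↔ x ∈ N := fun x => QuotientGroup.eq_one_iff x
    have h1 : QuotientGroup.mk' N b ∈ Im N a := (mem_Im N a b).2 ⟨s, hs⟩
    have h2 := hg.ab _ h1 (Subgroup.mem_zpowers _)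
    have := hb 1 (by rw [zpow_one]; exact (hmk b).1 h2)
    omega
  r2 := by
    intro h r s hr hs
    have h1 : QuotientGroup.mk' N (h * a ^ r * h⁻¹) ∈ Im N a := (mem_Im N a _).2 ⟨s, hs⟩
    have h2 := hg.aa (QuotientGroup.mk' N h) (QuotientGroup.mk' N a ^ r) ⟨r, rfl⟩
      (by simpa only [map_mul, map_inv, map_zpow] using h1) ?_
    · exact (mem_Im N a h).1 h2
    · intro h3
      rw [← map_zpow] at h3
      exact hr (ha r ((QuotientGroup.eq_one_iff _).1 h3))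
  r3 := by
    intro h₁ h₂ h₃ s₁ s₂ s₃ e₁ e₂ e₃ hm
    by_contra hcon
    push Not at hcon
    obtain ⟨c₁, c₂, c₃⟩ := hcon
    have nz : ∀ s : ℤ, s ≠ 0 → QuotientGroup.mk' N a ^ s ≠ 1 := by
      intro s hs h3
      rw [← map_zpow] at h3
      exact hs (ha s ((QuotientGroup.eq_one_iff _).1 h3))
    have nm : ∀ u v : F, (∀ k : ℤ, u⁻¹ * v * a ^ k ∉ N) →
        (QuotientGroup.mk' N u)⁻¹ * QuotientGroup.mk' N v ∉ Im N a := by
      intro u v h h'
      rw [← map_inv, ← map_mul, mem_Im] at h'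
      obtain ⟨k, hk⟩ := h'
      exact h k hk
    refine hg.r3 (QuotientGroup.mk' N h₁) (QuotientGroup.mk' N h₂) (QuotientGroup.mk' N h₃)
      (QuotientGroup.mk' N a ^ s₁) (QuotientGroup.mk' N a ^ s₂) (QuotientGroup.mk' N a ^ s₃)
      ⟨s₁, rfl⟩ ⟨s₂, rfl⟩ ⟨s₃, rfl⟩ (nz _ e₁) (nz _ e₂) (nz _ e₃) (nm _ _ c₁) (nm _ _ c₂)
      (nm _ _ c₃) ?_
    have := (QuotientGroup.eq_one_iff (N := N) _).2 hm
    rw [← QuotientGroup.mk'_apply] at this
    simpa only [map_mul, map_inv, map_zpow] using this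

end Pool.Agent.ABA
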