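import Mathlib
import Pool.Agent.Helper89_ABA.Pres

/-! # Transfer I: ultraproduct argument for `GeoB` (MP_d857f1_al) -/

namespace Pool.Agent.ABA

open Filter

section abstractTransfer

variable {U : Ultrafilter ℕ} {G : ℕ → Type} [∀ i, Group (G i)] {A B : ∀ i, Subgroup (G i)}
  {E P : Type} [Group E] [Group P] {φ : ∀ i, E →* G i} {ψ : E →* P} {𝒜 𝓑 : Subgroup E}

theorem ev_choice {T : ℕ → Type} [∀ i, Nonempty (T i)] {Q : ∀ i, T i → Prop}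
    (h : ∀ᶠ i in (U : Filter ℕ), ∃ t, Q i t) : ∃ t : ∀ i, T i, ∀ᶠ i in (U : Filter ℕ), Q i (t i) := by
  classical
  refine ⟨fun i => if h : ∃ t, Q i t then h.choose else Classical.arbitrary _, ?_⟩
  filter_upwards [h] with i hi
  rw [dif_pos hi]
  exact hi.choose_spec

/-- the data of a transfer -/
structure Trf (U : Ultrafilter ℕ) (A B : ∀ i, Subgroup (G i)) (φ : ∀ i, E →* G i) (ψ : E →* P)
    (𝒜 𝓑 : Subgroup E) : Prop where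
  tr : ∀ e, ψ e = 1 ↔ ∀ᶠ i in (U : Filter ℕ), φ i e = 1
  liftA : ∀ f : (∀ i, G i), (∀ i, f i ∈ A i) → ∃ e ∈ 𝒜, ∀ i, φ i e = f i
  liftB : ∀ f : (∀ i, G i), (∀ i, f i ∈ B i) → ∃ e ∈ 𝓑, ∀ i, φ i e = f i
  memA : ∀ e ∈ 𝒜, ∀ i, φ i e ∈ A i
  memB : ∀ e ∈ 𝓑, ∀ i, φ i e ∈ B i
  lift : ∀ n, ∀ f : (∀ i, G i), (∀ i, len (A i) (B i) (f i) ≤ n) → ∃ e, ∀ i, φ i e = f i

variable (T : Trf U A B φ ψ 𝒜 𝓑)
include T

theorem Trf.eq_iff (e e' : E) : ψ e = ψ e' ↔ ∀ᶠ i in (U : Filter ℕ), φ i e = φ i e' := by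
  have := T.tr (e * e'⁻¹)
  simp only [map_mul, map_inv, mul_inv_eq_one] at this
  exact this

theorem Trf.ne_iff (e : E) : ψ e ≠ 1 ↔ ∀ᶠ i in (U : Filter ℕ), φ i e ≠ 1 := by
  rw [Ne, T.tr, ← Ultrafilter.eventually_not]

theorem Trf.memA_iff (e : E) : ψ e ∈ 𝒜.map ψ ↔ ∀ᶠ i in (U : Filter ℕ), φ i e ∈ A i := by
  classical
  constructor
  · rintro ⟨e', he', h⟩
    filter_upwards [(T.eq_iff e' e).1 h] with i hi
    rw [← hi]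
    exact T.memA e' he' i
  · intro h
    obtain ⟨e', he', h'⟩ := T.liftA (fun i => if φ i e ∈ A i then φ i e else 1) (fun i => by
      by_cases hi : φ i e ∈ A i
      · simp only [hi, if_true]
      · simp only [hi, if_false]; exact one_mem _)
    refine ⟨e', he', (T.eq_iff e' e).2 ?_⟩
    filter_upwards [h] with i hi
    rw [h', if_pos hi]

theorem Trf.memB_iff (e : E) : ψ e ∈ 𝓑.map ψ ↔ ∀ᶠ i in (U : Filter ℕ), φ i e ∈ B i := by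
  classical
  constructor
  · rintro ⟨e', he', h⟩
    filter_upwards [(T.eq_iff e' e).1 h] with i hi
    rw [← hi]
    exact T.memB e' he' i
  · intro h
    obtain ⟨e', he', h'⟩ := T.liftB (fun i => if φ i e ∈ B i then φ i e else 1) (fun i => by
      by_cases hi : φ i e ∈ B i
      · simp only [hi, if_true]
      · simp only [hi, if_false]; exact one_mem _)
    refine ⟨e', he', (T.eq_iff e' e).2 ?_⟩
    filter_upwards [h] with i hi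
    rw [h', if_pos hi]

theorem Trf.aba (e : E) (h : IsABA (𝒜.map ψ) (𝓑.map ψ) (ψ e)) :
    ∀ᶠ i in (U : Filter ℕ), IsABA (A i) (B i) (φ i e) := by
  obtain ⟨x, ⟨x', hx', rfl⟩, y, ⟨y', hy', rfl⟩, z, ⟨z', hz', rfl⟩, h⟩ := h
  rw [← map_mul, ← map_mul, T.eq_iff] at h
  filter_upwards [h] with i hi
  exact ⟨φ i x', T.memA _ hx' i, φ i y', T.memB _ hy' i, φ i z', T.memA _ hz' i, by
    rw [hi, map_mul, map_mul]⟩

theorem Trf.not_aba (e : E) (h : ∀ᶠ i in (U : Filter ℕ), ¬ IsABA (A i) (B i) (φ i e)) :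
    ¬ IsABA (𝒜.map ψ) (𝓑.map ψ) (ψ e) := by
  intro h'
  have := (T.aba e h').and h
  obtain ⟨i, h1, h2⟩ := this.exists
  exact h2 h1

theorem Trf.not_memA (e : E) (h : ∀ᶠ i in (U : Filter ℕ), φ i e ∉ A i) : ψ e ∉ 𝒜.map ψ := by
  intro h'
  have := ((T.memA_iff e).1 h').and h
  obtain ⟨i, h1, h2⟩ := this.exists
  exact h2 h1

theorem Trf.not_memB (e : E) (h : ∀ᶠ i in (U : Filter ℕ), φ i e ∉ B i) : ψ e ∉ 𝓑.map ψ := by
  intro h'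
  have := ((T.memB_iff e).1 h').and h
  obtain ⟨i, h1, h2⟩ := this.exists
  exact h2 h1

omit T in
instance inst_len (n : ℕ) (i : ℕ) : Nonempty {h : G i // len (A i) (B i) h ≤ n} :=
  ⟨⟨1, by simp [len]⟩⟩

theorem Trf.geoB (hG : Geo (𝒜.map ψ) (𝓑.map ψ)) (n : ℕ) :
    ∀ᶠ i in (U : Filter ℕ), GeoB (A i) (B i) n := by
  have f1 : ∀ᶠ i in (U : Filter ℕ), ∀ x ∈ A i, x ∈ B i → x = 1 := by
    by_contra hcon
    rw [← Ultrafilter.eventually_not] at hcon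
    have h1 : ∀ᶠ i in (U : Filter ℕ), ∃ x : A i, (x : G i) ∈ B i ∧ (x : G i) ≠ 1 := by
      filter_upwards [hcon] with i hi
      push Not at hi
      obtain ⟨x, h1, h2, h3⟩ := hi
      exact ⟨⟨x, h1⟩, h2, h3⟩
    obtain ⟨x, hx⟩ := ev_choice h1
    obtain ⟨e, he, hφ⟩ := T.liftA (fun i => (x i : G i)) (fun i => (x i).2)
    apply (T.ne_iff e).2
    · filter_upwards [hx] with i hi
      rw [hφ]; exact hi.2
    · apply hG.ab _ ⟨e, he, rfl⟩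
      rw [T.memB_iff]
      filter_upwards [hx] with i hi
      rw [hφ]; exact hi.1
  have f2 : ∀ᶠ i in (U : Filter ℕ), ∀ h : G i, len (A i) (B i) h ≤ n → ∀ x ∈ A i,
      h * x * h⁻¹ ∈ A i → x ≠ 1 → h ∈ A i := by
    by_contra hcon
    rw [← Ultrafilter.eventually_not] at hcon
    have h1 : ∀ᶠ i in (U : Filter ℕ), ∃ t : {h : G i // len (A i) (B i) h ≤ n} × A i,
        (t.1 : G i) * t.2 * (t.1 : G i)⁻¹ ∈ A i ∧ (t.2 : G i) ≠ 1 ∧ (t.1 : G i) ∉ A i := by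
      filter_upwards [hcon] with i hi
      push Not at hi
      obtain ⟨h, h1, x, h2, h3, h4, h5⟩ := hi
      exact ⟨⟨⟨h, h1⟩, ⟨x, h2⟩⟩, h3, h4, h5⟩
    obtain ⟨t, ht⟩ := ev_choice h1
    obtain ⟨e, he⟩ := T.lift n (fun i => ((t i).1 : G i)) (fun i => (t i).1.2)
    obtain ⟨x, hx, hxφ⟩ := T.liftA (fun i => ((t i).2 : G i)) (fun i => (t i).2.2)
    refine T.not_memA e ?_ (hG.aa (ψ e) (ψ x) ⟨x, hx, rfl⟩ ?_ ?_)
    · filter_upwards [ht] with i hi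
      rw [he]; exact hi.2.2
    · rw [← map_mul, ← map_inv, ← map_mul, T.memA_iff]
      filter_upwards [ht] with i hi
      rw [map_mul, map_mul, map_inv, he, hxφ]; exact hi.1
    · rw [T.ne_iff]
      filter_upwards [ht] with i hi
      rw [hxφ]; exact hi.2.1
  have f3 : ∀ᶠ i in (U : Filter ℕ), ∀ h : G i, len (A i) (B i) h ≤ n → ∀ x ∈ B i,
      h * x * h⁻¹ ∈ B i → x ≠ 1 → h ∈ B i := by
    by_contra hcon
    rw [← Ultrafilter.eventually_not] at hcon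
    have h1 : ∀ᶠ i in (U : Filter ℕ), ∃ t : {h : G i // len (A i) (B i) h ≤ n} × B i,
        (t.1 : G i) * t.2 * (t.1 : G i)⁻¹ ∈ B i ∧ (t.2 : G i) ≠ 1 ∧ (t.1 : G i) ∉ B i := by
      filter_upwards [hcon] with i hi
      push Not at hi
      obtain ⟨h, h1, x, h2, h3, h4, h5⟩ := hi
      exact ⟨⟨⟨h, h1⟩, ⟨x, h2⟩⟩, h3, h4, h5⟩
    obtain ⟨t, ht⟩ := ev_choice h1
    obtain ⟨e, he⟩ := T.lift n (fun i => ((t i).1 : G i)) (fun i => (t i).1.2)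
    obtain ⟨x, hx, hxφ⟩ := T.liftB (fun i => ((t i).2 : G i)) (fun i => (t i).2.2)
    refine T.not_memB e ?_ (hG.bb (ψ e) (ψ x) ⟨x, hx, rfl⟩ ?_ ?_)
    · filter_upwards [ht] with i hi
      rw [he]; exact hi.2.2
    · rw [← map_mul, ← map_inv, ← map_mul, T.memB_iff]
      filter_upwards [ht] with i hi
      rw [map_mul, map_mul, map_inv, he, hxφ]; exact hi.1
    · rw [T.ne_iff]
      filter_upwards [ht] with i hi
      rw [hxφ]; exact hi.2.1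
  have f4 : ∀ᶠ i in (U : Filter ℕ), ∀ h : G i, len (A i) (B i) h ≤ n → ∀ x ∈ A i,
      h * x * h⁻¹ ∈ B i → x = 1 := by
    by_contra hcon
    rw [← Ultrafilter.eventually_not] at hcon
    have h1 : ∀ᶠ i in (U : Filter ℕ), ∃ t : {h : G i // len (A i) (B i) h ≤ n} × A i,
        (t.1 : G i) * t.2 * (t.1 : G i)⁻¹ ∈ B i ∧ (t.2 : G i) ≠ 1 := by
      filter_upwards [hcon] with i hi
      push Not at hi
      obtain ⟨h, h1, x, h2, h3, h4⟩ := hi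
      exact ⟨⟨⟨h, h1⟩, ⟨x, h2⟩⟩, h3, h4⟩
    obtain ⟨t, ht⟩ := ev_choice h1
    obtain ⟨e, he⟩ := T.lift n (fun i => ((t i).1 : G i)) (fun i => (t i).1.2)
    obtain ⟨x, hx, hxφ⟩ := T.liftA (fun i => ((t i).2 : G i)) (fun i => (t i).2.2)
    refine (T.ne_iff x).2 ?_ (hG.ab' (ψ e) (ψ x) ⟨x, hx, rfl⟩ ?_)
    · filter_upwards [ht] with i hi
      rw [hxφ]; exact hi.2
    · rw [← map_mul, ← map_inv, ← map_mul, T.memB_iff]
      filter_upwards [ht] with i hi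
      rw [map_mul, map_mul, map_inv, he, hxφ]; exact hi.1
  have f5 : ∀ᶠ i in (U : Filter ℕ), ∀ x ∈ A i, ∀ y ∈ B i, ∀ x' ∈ A i, ∀ y' ∈ B i, x ≠ 1 → y ≠ 1 →
      x' ≠ 1 → y' ≠ 1 → x * y * x' * y' ≠ 1 := by
    by_contra hcon
    rw [← Ultrafilter.eventually_not] at hcon
    have h1 : ∀ᶠ i in (U : Filter ℕ), ∃ t : A i × B i × A i × B i,
        (t.1 : G i) ≠ 1 ∧ (t.2.1 : G i) ≠ 1 ∧ (t.2.2.1 : G i) ≠ 1 ∧ (t.2.2.2 : G i) ≠ 1 ∧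
        (t.1 : G i) * t.2.1 * t.2.2.1 * t.2.2.2 = 1 := by
      filter_upwards [hcon] with i hi
      push Not at hi
      obtain ⟨x, hx, y, hy, x', hx', y', hy', h1, h2, h3, h4, h5⟩ := hi
      exact ⟨⟨⟨x, hx⟩, ⟨y, hy⟩, ⟨x', hx'⟩, ⟨y', hy'⟩⟩, h1, h2, h3, h4, h5⟩
    obtain ⟨t, ht⟩ := ev_choice h1
    obtain ⟨x, hx, hxφ⟩ := T.liftA (fun i => ((t i).1 : G i)) (fun i => (t i).1.2)
    obtain ⟨y, hy, hyφ⟩ := T.liftB (fun i => ((t i).2.1 : G i)) (fun i => (t i).2.1.2)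
    obtain ⟨x', hx', hxφ'⟩ := T.liftA (fun i => ((t i).2.2.1 : G i)) (fun i => (t i).2.2.1.2)
    obtain ⟨y', hy', hyφ'⟩ := T.liftB (fun i => ((t i).2.2.2 : G i)) (fun i => (t i).2.2.2.2)
    refine hG.e1 (ψ x) ⟨x, hx, rfl⟩ (ψ y) ⟨y, hy, rfl⟩ (ψ x') ⟨x', hx', rfl⟩ (ψ y') ⟨y', hy', rfl⟩
      ?_ ?_ ?_ ?_ ?_
    · rw [T.ne_iff]; filter_upwards [ht] with i hi; rw [hxφ]; exact hi.1
    · rw [T.ne_iff]; filter_upwards [ht] with i hi; rw [hyφ]; exact hi.2.1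
    · rw [T.ne_iff]; filter_upwards [ht] with i hi; rw [hxφ']; exact hi.2.2.1
    · rw [T.ne_iff]; filter_upwards [ht] with i hi; rw [hyφ']; exact hi.2.2.2.1
    · rw [← map_mul, ← map_mul, ← map_mul, T.tr]
      filter_upwards [ht] with i hi
      rw [map_mul, map_mul, map_mul, hxφ, hyφ, hxφ', hyφ']; exact hi.2.2.2.2
  have f6 : ∀ᶠ i in (U : Filter ℕ), ∀ h₁ h₂ h₃ x₁ x₂ x₃ : G i, len (A i) (B i) h₁ ≤ n →
      len (A i) (B i) h₂ ≤ n → len (A i) (B i) h₃ ≤ n →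
      x₁ ∈ A i → x₂ ∈ A i → x₃ ∈ A i → x₁ ≠ 1 → x₂ ≠ 1 → x₃ ≠ 1 →
      h₁⁻¹ * h₂ ∉ A i → h₂⁻¹ * h₃ ∉ A i → h₁⁻¹ * h₃ ∉ A i →
      h₁ * x₁ * h₁⁻¹ * (h₂ * x₂ * h₂⁻¹) * (h₃ * x₃ * h₃⁻¹) ≠ 1 := by
    by_contra hcon
    rw [← Ultrafilter.eventually_not] at hcon
    have h1 : ∀ᶠ i in (U : Filter ℕ), ∃ t : {h : G i // len (A i) (B i) h ≤ n} ×
        {h : G i // len (A i) (B i) h ≤ n} × {h : G i // len (A i) (B i) h ≤ n} × A i × A i × A i,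
        (t.2.2.2.1 : G i) ≠ 1 ∧ (t.2.2.2.2.1 : G i) ≠ 1 ∧ (t.2.2.2.2.2 : G i) ≠ 1 ∧
        (t.1 : G i)⁻¹ * t.2.1 ∉ A i ∧ (t.2.1 : G i)⁻¹ * t.2.2.1 ∉ A i ∧
        (t.1 : G i)⁻¹ * t.2.2.1 ∉ A i ∧
        (t.1 : G i) * t.2.2.2.1 * (t.1 : G i)⁻¹ * ((t.2.1 : G i) * t.2.2.2.2.1 *
          (t.2.1 : G i)⁻¹) * ((t.2.2.1 : G i) * t.2.2.2.2.2 * (t.2.2.1 : G i)⁻¹) = 1 := by
      filter_upwards [hcon] with i hi
      push Not at hi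
      obtain ⟨h₁, h₂, h₃, x₁, x₂, x₃, l1, l2, l3, m1, m2, m3, n1, n2, n3, c1, c2, c3, hr⟩ := hi
      exact ⟨⟨⟨h₁, l1⟩, ⟨h₂, l2⟩, ⟨h₃, l3⟩, ⟨x₁, m1⟩, ⟨x₂, m2⟩, ⟨x₃, m3⟩⟩, n1, n2, n3, c1, c2, c3,
        hr⟩
    obtain ⟨t, ht⟩ := ev_choice h1
    obtain ⟨e₁, he₁⟩ := T.lift n (fun i => ((t i).1 : G i)) (fun i => (t i).1.2)
    obtain ⟨e₂, he₂⟩ := T.lift n (fun i => ((t i).2.1 : G i)) (fun i => (t i).2.1.2)
    obtain ⟨e₃, he₃⟩ := T.lift n (fun i => ((t i).2.2.1 : G i)) (fun i => (t i).2.2.1.2)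
    obtain ⟨x₁, hx₁, hxφ₁⟩ := T.liftA (fun i => ((t i).2.2.2.1 : G i)) (fun i => (t i).2.2.2.1.2)
    obtain ⟨x₂, hx₂, hxφ₂⟩ := T.liftA (fun i => ((t i).2.2.2.2.1 : G i))
      (fun i => (t i).2.2.2.2.1.2)
    obtain ⟨x₃, hx₃, hxφ₃⟩ := T.liftA (fun i => ((t i).2.2.2.2.2 : G i))
      (fun i => (t i).2.2.2.2.2.2)
    refine hG.r3 (ψ e₁) (ψ e₂) (ψ e₃) (ψ x₁) (ψ x₂) (ψ x₃) ⟨x₁, hx₁, rfl⟩ ⟨x₂, hx₂, rfl⟩
      ⟨x₃, hx₃, rfl⟩ ?_ ?_ ?_ ?_ ?_ ?_ ?_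
    · rw [T.ne_iff]; filter_upwards [ht] with i hi; rw [hxφ₁]; exact hi.1
    · rw [T.ne_iff]; filter_upwards [ht] with i hi; rw [hxφ₂]; exact hi.2.1
    · rw [T.ne_iff]; filter_upwards [ht] with i hi; rw [hxφ₃]; exact hi.2.2.1
    · rw [← map_inv, ← map_mul]; apply T.not_memA
      filter_upwards [ht] with i hi
      rw [map_mul, map_inv, he₁, he₂]; exact hi.2.2.2.1
    · rw [← map_inv, ← map_mul]; apply T.not_memA
      filter_upwards [ht] with i hi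
      rw [map_mul, map_inv, he₂, he₃]; exact hi.2.2.2.2.1
    · rw [← map_inv, ← map_mul]; apply T.not_memA
      filter_upwards [ht] with i hi
      rw [map_mul, map_inv, he₁, he₃]; exact hi.2.2.2.2.2.1
    · simp only [← map_mul, ← map_inv]
      rw [T.tr]
      filter_upwards [ht] with i hi
      simp only [map_mul, map_inv, he₁, he₂, he₃, hxφ₁, hxφ₂, hxφ₃]
      exact hi.2.2.2.2.2.2
  have f7 : ∀ᶠ i in (U : Filter ℕ), ∀ h : G i, len (A i) (B i) h ≤ n → h * h = 1 → h = 1 := by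
    by_contra hcon
    rw [← Ultrafilter.eventually_not] at hcon
    have h1 : ∀ᶠ i in (U : Filter ℕ), ∃ t : {h : G i // len (A i) (B i) h ≤ n},
        (t : G i) * t = 1 ∧ (t : G i) ≠ 1 := by
      filter_upwards [hcon] with i hi
      push Not at hi
      obtain ⟨h, h1, h2, h3⟩ := hi
      exact ⟨⟨h, h1⟩, h2, h3⟩
    obtain ⟨t, ht⟩ := ev_choice h1
    obtain ⟨e, he⟩ := T.lift n (fun i => ((t i) : G i)) (fun i => (t i).2)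
    refine (T.ne_iff e).2 ?_ (hG.t2 (ψ e) ?_)
    · filter_upwards [ht] with i hi
      rw [he]; exact hi.2
    · rw [← map_mul, T.tr]
      filter_upwards [ht] with i hi
      rw [map_mul, he]; exact hi.1
  have f8 : ∀ᶠ i in (U : Filter ℕ), ∀ h : G i, len (A i) (B i) h ≤ n →
      ¬ IsABA (A i) (B i) h → E6 (A i) h := by
    by_contra hcon
    rw [← Ultrafilter.eventually_not] at hcon
    have h1 : ∀ᶠ i in (U : Filter ℕ), ∃ t : {h : G i // len (A i) (B i) h ≤ n} × A i × A i × A i ×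
        A i × A i × A i, ¬ IsABA (A i) (B i) (t.1 : G i) ∧
        (t.2.1 : G i) ≠ 1 ∧ (t.2.2.1 : G i) ≠ 1 ∧ (t.2.2.2.1 : G i) ≠ 1 ∧
        (t.2.2.2.2.1 : G i) ≠ 1 ∧ (t.2.2.2.2.2.1 : G i) ≠ 1 ∧ (t.2.2.2.2.2.2 : G i) ≠ 1 ∧
        (t.2.1 : G i) * ((t.1 : G i) * t.2.2.1 * (t.1 : G i)⁻¹) *
        t.2.2.2.1 * ((t.1 : G i) * t.2.2.2.2.1 * (t.1 : G i)⁻¹) *
        t.2.2.2.2.2.1 * ((t.1 : G i) * t.2.2.2.2.2.2 * (t.1 : G i)⁻¹) = 1 := by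
      filter_upwards [hcon] with i hi
      simp only [E6] at hi
      push Not at hi
      obtain ⟨h, l, hna, x₁, m1, y₁, m2, x₂, m3, y₂, m4, x₃, m5, y₃, m6, n1, n2, n3, n4, n5, n6,
        hr⟩ := hi
      exact ⟨⟨⟨h, l⟩, ⟨x₁, m1⟩, ⟨y₁, m2⟩, ⟨x₂, m3⟩, ⟨y₂, m4⟩, ⟨x₃, m5⟩, ⟨y₃, m6⟩⟩, hna,
        n1, n2, n3, n4, n5, n6, hr⟩
    obtain ⟨t, ht⟩ := ev_choice h1
    obtain ⟨e, he⟩ := T.lift n (fun i => ((t i).1 : G i)) (fun i => (t i).1.2)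
    obtain ⟨x₁, hx₁, hxφ₁⟩ := T.liftA (fun i => ((t i).2.1 : G i)) (fun i => (t i).2.1.2)
    obtain ⟨y₁, hy₁, hyφ₁⟩ := T.liftA (fun i => ((t i).2.2.1 : G i)) (fun i => (t i).2.2.1.2)
    obtain ⟨x₂, hx₂, hxφ₂⟩ := T.liftA (fun i => ((t i).2.2.2.1 : G i))
      (fun i => (t i).2.2.2.1.2)
    obtain ⟨y₂, hy₂, hyφ₂⟩ := T.liftA (fun i => ((t i).2.2.2.2.1 : G i))
      (fun i => (t i).2.2.2.2.1.2)
    obtain ⟨x₃, hx₃, hxφ₃⟩ := T.liftA (fun i => ((t i).2.2.2.2.2.1 : G i))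
      (fun i => (t i).2.2.2.2.2.1.2)
    obtain ⟨y₃, hy₃, hyφ₃⟩ := T.liftA (fun i => ((t i).2.2.2.2.2.2 : G i))
      (fun i => (t i).2.2.2.2.2.2.2)
    refine hG.e6 (ψ e) ?_ (ψ x₁) ⟨x₁, hx₁, rfl⟩ (ψ y₁) ⟨y₁, hy₁, rfl⟩ (ψ x₂) ⟨x₂, hx₂, rfl⟩ (ψ y₂)
      ⟨y₂, hy₂, rfl⟩ (ψ x₃) ⟨x₃, hx₃, rfl⟩ (ψ y₃) ⟨y₃, hy₃, rfl⟩ ?_ ?_ ?_ ?_ ?_ ?_ ?_
    · apply T.not_aba
      filter_upwards [ht] with i hi
      rw [he]; exact hi.1
    · rw [T.ne_iff]; filter_upwards [ht] with i hi; rw [hxφ₁]; exact hi.2.1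
    · rw [T.ne_iff]; filter_upwards [ht] with i hi; rw [hyφ₁]; exact hi.2.2.1
    · rw [T.ne_iff]; filter_upwards [ht] with i hi; rw [hxφ₂]; exact hi.2.2.2.1
    · rw [T.ne_iff]; filter_upwards [ht] with i hi; rw [hyφ₂]; exact hi.2.2.2.2.1
    · rw [T.ne_iff]; filter_upwards [ht] with i hi; rw [hxφ₃]; exact hi.2.2.2.2.2.1
    · rw [T.ne_iff]; filter_upwards [ht] with i hi; rw [hyφ₃]; exact hi.2.2.2.2.2.2.1
    · simp only [← map_mul, ← map_inv]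
      rw [T.tr]
      filter_upwards [ht] with i hi
      simp only [map_mul, map_inv, he, hxφ₁, hyφ₁, hxφ₂, hyφ₂, hxφ₃, hyφ₃]
      exact hi.2.2.2.2.2.2.2
  have f9 : ∀ᶠ i in (U : Filter ℕ), ∀ k : G i, len (A i) (B i) k ≤ n → ∀ s ∈ A i, ∀ t ∈ B i,
      s ≠ 1 → t ≠ 1 → k * s * k⁻¹ * s ≠ t := by
    by_contra hcon
    rw [← Ultrafilter.eventually_not] at hcon
    have h1 : ∀ᶠ i in (U : Filter ℕ), ∃ t : {h : G i // len (A i) (B i) h ≤ n} × A i × B i,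
        (t.2.1 : G i) ≠ 1 ∧ (t.2.2 : G i) ≠ 1 ∧
        (t.1 : G i) * t.2.1 * (t.1 : G i)⁻¹ * t.2.1 = t.2.2 := by
      filter_upwards [hcon] with i hi
      push Not at hi
      obtain ⟨k, l, s, hs, t, ht, h1, h2, h3⟩ := hi
      exact ⟨⟨⟨k, l⟩, ⟨s, hs⟩, ⟨t, ht⟩⟩, h1, h2, h3⟩
    obtain ⟨t, ht⟩ := ev_choice h1
    obtain ⟨e, he⟩ := T.lift n (fun i => ((t i).1 : G i)) (fun i => (t i).1.2)
    obtain ⟨x, hx, hxφ⟩ := T.liftA (fun i => ((t i).2.1 : G i)) (fun i => (t i).2.1.2)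
    obtain ⟨y, hy, hyφ⟩ := T.liftB (fun i => ((t i).2.2 : G i)) (fun i => (t i).2.2.2)
    refine hG.el (ψ e) (ψ x) ⟨x, hx, rfl⟩ (ψ y) ⟨y, hy, rfl⟩ ?_ ?_ ?_
    · rw [T.ne_iff]; filter_upwards [ht] with i hi; rw [hxφ]; exact hi.1
    · rw [T.ne_iff]; filter_upwards [ht] with i hi; rw [hyφ]; exact hi.2.1
    · simp only [← map_mul, ← map_inv]
      rw [T.eq_iff]
      filter_upwards [ht] with i hi
      simp only [map_mul, map_inv, he, hxφ, hyφ]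
      exact hi.2.2
  filter_upwards [f1, f2, f3, f4, f5, f6, f7, f8, f9] with i h1 h2 h3 h4 h5 h6 h7 h8 h9
  exact ⟨h1, h2, h3, h4, h5, h6, h7, h8, h9⟩

end abstractTransfer

end Pool.Agent.ABA
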