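import Mathlib
import Pool.Agent.Helper83_ABA.Cert
import Pool.Agent.Helper89_ABA.Trf1

/-! # Transfer II: canonical form of certificates (MP_d857f1_al) -/

open Equiv Equiv.Perm H17ABA

namespace Pool.Agent.ABA

section restrict

variable {α β : Type}

theorem nc_comap (e : α ≃ β) (r : Setoid β) : nc (r.comap e) = nc r :=
  Nat.card_congr (Quotient.congr e (fun _ _ => Iff.rfl))

theorem comap_sup (e : α ≃ β) (r s : Setoid β) : (r ⊔ s).comap e = r.comap e ⊔ s.comap e := by
  apply le_antisymm
  · have h1 : r ⊔ s ≤ (r.comap e ⊔ s.comap e).comap e.symm := by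
      apply sup_le
      · intro x y h
        apply (le_sup_left : r.comap e ≤ r.comap e ⊔ s.comap e)
        change r (e (e.symm x)) (e (e.symm y))
        simpa using h
      · intro x y h
        apply (le_sup_right : s.comap e ≤ r.comap e ⊔ s.comap e)
        change s (e (e.symm x)) (e (e.symm y))
        simpa using h
    intro x y h
    have h2 := h1 (show (r ⊔ s) (e x) (e y) from h)
    change (r.comap e ⊔ s.comap e) (e.symm (e x)) (e.symm (e y)) at h2
    simpa using h2
  · apply sup_le
    · intro x y h
      exact (le_sup_left : r ≤ r ⊔ s) h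
    · intro x y h
      exact (le_sup_right : s ≤ r ⊔ s) h

theorem cs_comap (e : α ≃ β) {a : Perm α} {b : Perm β} (h : ∀ x, b (e x) = e (a x)) :
    (cs b).comap e = cs a := by
  apply le_antisymm
  · have h1 : cs b ≤ (cs a).comap e.symm := by
      rw [cs_le_iff]
      intro y
      change cs a (e.symm y) (e.symm (b y))
      have : e.symm (b y) = a (e.symm y) := by
        rw [e.symm_apply_eq, ← h, e.apply_symm_apply]
      rw [this]
      exact cs_apply a _
    intro x y hxy
    have h2 := h1 (show cs b (e x) (e y) from hxy)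
    change cs a (e.symm (e x)) (e.symm (e y)) at h2
    simpa using h2
  · rw [cs_le_iff]
    intro x
    change cs b (e x) (e (a x))
    rw [← h]
    exact cs_apply b _

/-- split the target of an injection -/
noncomputable def splitEquiv (f : α → β) (hf : Function.Injective f) :
    α ⊕ {y : β // y ∉ Set.range f} ≃ β :=
  Equiv.ofBijective (Sum.elim f Subtype.val) (by
    constructor
    · rintro (x | x) (y | y) h
      · exact congrArg Sum.inl (hf h)
      · exact absurd ⟨x, h⟩ y.2
      · exact absurd ⟨y, h.symm⟩ x.2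
      · exact congrArg Sum.inr (Subtype.ext h)
    · intro y
      by_cases hy : y ∈ Set.range f
      · obtain ⟨x, rfl⟩ := hy
        exact ⟨Sum.inl x, rfl⟩
      · exact ⟨Sum.inr ⟨y, hy⟩, rfl⟩)

theorem splitEquiv_comm {f : α → β} (hf : Function.Injective f) {a : Perm α} {b : Perm β}
    (hb : ∀ x, b (f x) = f (a x)) (hb' : ∀ y, y ∉ Set.range f → b y = y) (x) :
    b (splitEquiv f hf x) =
      splitEquiv f hf (Perm.sumCongr a (1 : Perm {y : β // y ∉ Set.range f}) x) := by
  rcases x with x | x
  · exact hb x
  · exact hb' x.1 x.2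

theorem cyc_sumCongr_one [Finite α] [Finite β] (a : Perm α) :
    cyc (Perm.sumCongr a (1 : Perm β)) = cyc a + Nat.card β := by
  rw [cyc, cs_sumCongr, nc_sumS, cs_one, nc_bot]; rfl

theorem planar_restrict [Finite α] [Finite β] {f : α → β} (hf : Function.Injective f)
    {a c : Perm α} {b d : Perm β}
    (hb : ∀ x, b (f x) = f (a x)) (hb' : ∀ y, y ∉ Set.range f → b y = y)
    (hd : ∀ x, d (f x) = f (c x)) (hd' : ∀ y, y ∉ Set.range f → d y = y)
    (h : Planar b d) : Planar a c := by
  have e1 := cs_comap (splitEquiv f hf) (splitEquiv_comm hf hb hb')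
  have e2 := cs_comap (splitEquiv f hf) (splitEquiv_comm hf hd hd')
  have e3 : (cs (b * d)).comap (splitEquiv f hf) =
      cs (Perm.sumCongr (a * c) (1 : Perm {y : β // y ∉ Set.range f})) :=
    cs_comap (splitEquiv f hf) (splitEquiv_comm hf
      (fun x => by rw [Perm.mul_apply, hd, hb, Perm.mul_apply])
      (fun y hy => by rw [Perm.mul_apply, hd' y hy, hb' y hy]))
  have c1 : cyc b = cyc a + Nat.card {y : β // y ∉ Set.range f} := by
    rw [← cyc_sumCongr_one, cyc, cyc, ← e1, nc_comap]
  have c2 : cyc d = cyc c + Nat.card {y : β // y ∉ Set.range f} := by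
    rw [← cyc_sumCongr_one, cyc, cyc, ← e2, nc_comap]
  have c3 : cyc (b * d) = cyc (a * c) + Nat.card {y : β // y ∉ Set.range f} := by
    rw [← cyc_sumCongr_one, cyc, cyc, ← e3, nc_comap]
  have c4 : nc (orb2 b d) = nc (orb2 a c) + Nat.card {y : β // y ∉ Set.range f} := by
    rw [← nc_comap (splitEquiv f hf), orb2, comap_sup, e1, e2, cs_sumCongr, cs_sumCongr,
      sumS_sup, nc_sumS, cs_one, sup_idem, nc_bot]; rfl
  have c5 : Nat.card β = Nat.card α + Nat.card {y : β // y ∉ Set.range f} := by
    rw [← Nat.card_sum]; exact (Nat.card_congr (splitEquiv f hf)).symm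
  rw [Planar] at h ⊢
  omega

theorem cycSum_restrict {L : Type} [AddCommGroup L] [Fintype α] [Fintype β] {f : α → β}
    (hf : Function.Injective f) {a : Perm α} {b : Perm β}
    (hb : ∀ x, b (f x) = f (a x)) (hb' : ∀ y, y ∉ Set.range f → b y = y) (F : β → L) (x : α) :
    cycSum b F (f x) = cycSum a (fun v => F (f v)) x := by
  classical
  have e1 := cs_comap (splitEquiv f hf) (splitEquiv_comm hf hb hb')
  rw [cs_sumCongr] at e1
  have h2 := (clsSum_sumS (cs a) (cs (1 : Perm {y : β // y ∉ Set.range f}))
    (fun v => F (splitEquiv f hf v))).1 x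
  rw [cycSum_eq, cycSum_eq]
  change clsSum (cs b) F (f x) = clsSum (cs a) (fun v => F (splitEquiv f hf (Sum.inl v))) x
  rw [← h2, ← e1]
  unfold clsSum
  rw [Finset.sum_filter, Finset.sum_filter, ← Equiv.sum_comp (splitEquiv f hf)]
  rfl

end restrict

section canon

variable {L : Type} [AddCommGroup L]

/-- restriction of a certificate to a set containing all live positions -/
theorem FC.restrict {Ω Ω' : Type} [Fintype Ω] [DecidableEq Ω] [Fintype Ω'] [DecidableEq Ω']
    {ι : Ω' → Ω} (hι : Function.Injective ι) {fs : List (List Ω')} {gs : List (List Ω)}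
    (D : FC L Ω gs) (hgs : gs = fs.map (List.map ι)) :
    ∃ D' : FC L Ω' fs, ∀ x, D'.lab x = D.lab (ι x) := by
  classical
  subst hgs
  have hfl : (fs.map (List.map ι)).flatten = fs.flatten.map ι := by
    rw [List.map_flatten]
  have hdead : ∀ y, y ∉ Set.range ι → D.l y = y := by
    intro y hy
    apply D.dead
    rw [hfl]
    intro h
    obtain ⟨x, -, rfl⟩ := List.mem_map.1 h
    exact hy ⟨x, rfl⟩
  have hex : ∀ x, ∃ x', ι x' = D.l (ι x) := by
    intro x
    by_contra hcon
    have h1 : D.l (ι x) ∉ Set.range ι := fun ⟨x', hx'⟩ => hcon ⟨x', hx'⟩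
    have h2 := D.l.injective (hdead _ h1)
    exact h1 ⟨x, h2.symm⟩
  choose lf hlf using hex
  have hinj : Function.Injective lf := by
    intro x y h
    apply hι
    apply D.l.injective
    rw [← hlf, ← hlf, h]
  let l' : Perm Ω' := Equiv.ofBijective lf (Finite.injective_iff_bijective.1 hinj)
  have hl' : ∀ x, D.l (ι x) = ι (l' x) := fun x => (hlf x).symm
  have hl'' : ∀ x, D.l⁻¹ (ι x) = ι (l'⁻¹ x) := by
    intro x
    rw [Perm.inv_eq_iff_eq, hl']
    congr 1
    exact (Equiv.apply_symm_apply l' x).symm
  refine ⟨⟨l', fun x => D.lab (ι x), ?_, ?_, ?_, ?_, ?_⟩, fun x => rfl⟩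
  · have := D.nodup
    rw [hfl] at this
    exact List.Nodup.of_map _ this
  · intro w hw
    apply hι
    rw [← hl']
    apply D.dead
    rw [hfl]
    intro h
    obtain ⟨x, hx, hx'⟩ := List.mem_map.1 h
    exact hw (by rwa [← hι hx'])
  · intro w
    have := D.ty_l (ι w)
    rw [hl'] at this
    exact this
  · intro w
    have := D.sum_l (ι w)
    rw [cycSum_restrict hι hl' hdead] at this
    exact this
  · refine planar_restrict hι (b := facePerm (fs.map (List.map ι))) (d := D.l⁻¹) ?_ ?_ hl'' ?_
      D.planar
    · intro x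
      exact facePerm_map_apply ι hι fs x
    · intro y hy
      apply facePerm_apply_not_mem
      rw [hfl]
      intro h
      obtain ⟨x, -, rfl⟩ := List.mem_map.1 h
      exact hy ⟨x, rfl⟩
    · intro y hy
      rw [Perm.inv_eq_iff_eq, hdead y hy]

/-- canonical form of a certificate -/
theorem Cert.canon {F : List (Wd L)} (h : Cert F) {n : ℕ} (fs₀ : List (List (Fin n)))
    (h1 : fs₀.flatten = List.finRange n) (h2 : fs₀.map List.length = F.map List.length) :
    ∃ D : FC L (Fin n) fs₀, F = fs₀.map (fun c => c.map D.lab) := by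
  obtain ⟨Ω, hΩ, hΩ', fs, D, hF⟩ := h
  have h3 : fs.map List.length = fs₀.map List.length := by
    rw [h2, hF, List.map_map]
    congr 1
    funext c
    simp
  have h4 : fs.flatten.length = n := by
    rw [List.length_flatten, h3, ← List.length_flatten, h1, List.length_finRange]
  let ι : Fin n → Ω := fun j => fs.flatten.get (Fin.cast h4.symm j)
  have hι : Function.Injective ι := by
    intro x y hxy
    have := D.nodup.injective_get hxy
    simpa using this
  have h5 : fs = fs₀.map (List.map ι) := by
    rw [List.eq_iff_flatten_eq]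
    constructor
    · have e1 : (fs₀.map (List.map ι)).flatten = fs₀.flatten.map ι := by
        rw [List.map_flatten]
      rw [e1, h1]
      apply List.ext_get
      · simp [h4]
      · intro j hj hj'
        simp [ι]
    · rw [h3, List.map_map]
      congr 1
      funext c
      simp
  obtain ⟨D', hD'⟩ := D.restrict hι h5
  refine ⟨D', ?_⟩
  have h6 : ∀ lab : Ω → Bool × L,
      fs.map (fun c => c.map lab) = fs₀.map (fun c => c.map (fun x => lab (ι x))) := by
    intro lab
    rw [h5, List.map_map]
    apply List.map_congr_left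
    intro c _
    rw [Function.comp_apply, List.map_map]
    rfl
  rw [hF, h6 D.lab]
  apply List.map_congr_left
  intro c _
  apply List.map_congr_left
  intro x _
  rw [hD']

theorem exists_split {α : Type} (lens : List ℕ) : ∀ (l : List α), l.length = lens.sum →
    ∃ fs : List (List α), fs.flatten = l ∧ fs.map List.length = lens := by
  induction lens with
  | nil =>
    intro l hl
    refine ⟨[], ?_, rfl⟩
    simp only [List.sum_nil, List.length_eq_zero_iff] at hl
    simp [hl]
  | cons a lens ih =>
    intro l hl
    rw [List.sum_cons] at hl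
    obtain ⟨fs, h1, h2⟩ := ih (l.drop a) (by rw [List.length_drop]; omega)
    refine ⟨l.take a :: fs, ?_, ?_⟩
    · rw [List.flatten_cons, h1, List.take_append_drop]
    · rw [List.map_cons, h2, List.length_take]
      congr 1
      omega

end canon

end Pool.Agent.ABA
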