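import Mathlib
import Pool.Agent.Helper89_ABA.Trf2

/-! # Transfer III: certificates over the germs (MP_d857f1_al) -/

open Equiv Equiv.Perm H17ABA Filter

namespace Pool.Agent.ABA

/-- hyperintegers -/
abbrev HZ (U : Ultrafilter ℕ) : Type := Germ (U : Filter ℕ) ℤ

variable (U : Ultrafilter ℕ)

/-- the germ of a sequence word -/
def gmw (w : Wd (ℕ → ℤ)) : Wd (HZ U) :=
  wmap (fun f : ℕ → ℤ => ((f : Germ (U : Filter ℕ) ℤ) : HZ U)) w

/-- the word at an index -/
def atw (i : ℕ) (w : Wd (ℕ → ℤ)) : Wd ℤ := wmap (fun f => f i) w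

theorem wmap_append {L L' : Type} (f : L → L') (u v : Wd L) :
    wmap f (u ++ v) = wmap f u ++ wmap f v := by simp [wmap]

theorem wmap_winv {L L' : Type} [AddCommGroup L] [AddCommGroup L'] (f : L → L')
    (hf : ∀ x, f (-x) = -f x) (w : Wd L) : wmap f (winv w) = winv (wmap f w) := by
  simp only [wmap, winv, List.map_reverse, List.map_map]
  congr 1
  apply List.map_congr_left
  intro s _
  simp [hf]

theorem wmap_wmap {L L' L'' : Type} (f : L → L') (g : L' → L'') (w : Wd L) :
    wmap g (wmap f w) = wmap (fun x => g (f x)) w := by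
  simp [wmap, Function.comp_def]

theorem wmap_length {L L' : Type} (f : L → L') (w : Wd L) : (wmap f w).length = w.length := by
  simp [wmap]

theorem gmw_eq_iff (u v : Wd (ℕ → ℤ)) :
    gmw U u = gmw U v ↔ ∀ᶠ i in (U : Filter ℕ), atw i u = atw i v := by
  have hbot : (U : Filter ℕ) ≠ ⊥ := U.neBot.ne
  induction u generalizing v with
  | nil =>
    cases v with
    | nil => simp [gmw, atw, wmap]
    | cons t v => simp [gmw, atw, wmap, hbot]
  | cons s u ih =>
    cases v with
    | nil => simp [gmw, atw, wmap, hbot]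
    | cons t v =>
      have h1 := ih v
      have h2 : ((s.2 : Germ (U : Filter ℕ) ℤ) = (t.2 : Germ (U : Filter ℕ) ℤ)) ↔
        ∀ᶠ i in (U : Filter ℕ), s.2 i = t.2 i := Germ.coe_eq
      simp only [gmw, atw, wmap, List.map_cons, List.cons.injEq, Prod.mk.injEq] at h1 ⊢
      simp only [eventually_and, eventually_const]
      exact and_congr (and_congr Iff.rfl h2) h1

theorem gmwl_eq_iff (X Y : List (Wd (ℕ → ℤ))) :
    X.map (gmw U) = Y.map (gmw U) ↔ ∀ᶠ i in (U : Filter ℕ), X.map (atw i) = Y.map (atw i) := by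
  have hbot : (U : Filter ℕ) ≠ ⊥ := U.neBot.ne
  induction X generalizing Y with
  | nil =>
    cases Y with
    | nil => simp
    | cons t v => simp [hbot]
  | cons s u ih =>
    cases Y with
    | nil => simp [hbot]
    | cons t v =>
      simp only [List.map_cons, List.cons.injEq, eventually_and]
      exact and_congr (gmw_eq_iff U s t) (ih v)

theorem cycSum_coe {Ω : Type} [Fintype Ω] (π : Perm Ω) (f : Ω → ℕ → ℤ) (w : Ω) :
    cycSum (L := HZ U) π (fun v => (f v : Germ (U : Filter ℕ) ℤ)) w =
      ((fun i => cycSum π (fun v => f v i) w : ℕ → ℤ) : Germ (U : Filter ℕ) ℤ) := by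
  classical
  unfold cycSum
  have h := map_sum (Germ.coeAddHom (U : Filter ℕ) (M := ℤ))
    f (Finset.univ.filter (fun v => π.SameCycle w v))
  simp only [Germ.coe_coeAddHom] at h
  have h2 : (fun i => ∑ v ∈ Finset.univ.filter (fun v => π.SameCycle w v), f v i) =
      ∑ v ∈ Finset.univ.filter (fun v => π.SameCycle w v), f v := by
    funext i
    rw [Finset.sum_apply]
  rw [h2, h]

/-- certificates go down to almost all indices -/
theorem cert_down (F : List (Wd (ℕ → ℤ))) (h : Cert (F.map (gmw U))) :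
    ∀ᶠ i in (U : Filter ℕ), Cert (F.map (atw i)) := by
  classical
  obtain ⟨Ω, hΩ, hΩ', fs, D, hF⟩ := h
  have hrep : ∀ g : HZ U, ∃ f : ℕ → ℤ, (f : Germ (U : Filter ℕ) ℤ) = g := fun g =>
    Quot.exists_rep g
  choose rep hrep using hrep
  let LAB : Ω → Bool × (ℕ → ℤ) := fun w => ((D.lab w).1, rep (D.lab w).2)
  have h1 : F.map (gmw U) = (fs.map (fun c => c.map LAB)).map (gmw U) := by
    rw [hF, List.map_map]
    apply List.map_congr_left
    intro c _
    simp only [Function.comp_apply, gmw, wmap, List.map_map]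
    apply List.map_congr_left
    intro x _
    simp only [Function.comp_apply, LAB, hrep]
  rw [gmwl_eq_iff] at h1
  have h2 : ∀ᶠ i in (U : Filter ℕ), ∀ w : Ω, cycSum D.l (fun v => (LAB v).2 i) w = 0 := by
    rw [eventually_all]
    intro w
    have h3 := D.sum_l w
    have h4 : (fun v => (D.lab v).2) = fun v => ((LAB v).2 : Germ (U : Filter ℕ) ℤ) := by
      funext v
      simp only [LAB, hrep]
    rw [h4, cycSum_coe] at h3
    exact Germ.coe_eq.1 h3
  filter_upwards [h1, h2] with i hi1 hi2
  rw [hi1]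
  refine ⟨Ω, hΩ, hΩ', fs, ⟨D.l, fun w => ((LAB w).1, (LAB w).2 i), D.nodup, D.dead, D.ty_l, hi2,
    D.planar⟩, ?_⟩
  rw [List.map_map]
  apply List.map_congr_left
  intro c _
  simp only [Function.comp_apply, atw, wmap, List.map_map]
  rfl

theorem ev_pigeon {T : Type} [Finite T] {Q : T → ℕ → Prop}
    (h : ∀ᶠ i in (U : Filter ℕ), ∃ t, Q t i) : ∃ t, ∀ᶠ i in (U : Filter ℕ), Q t i := by
  by_contra hcon
  push Not at hcon
  have h1 : ∀ᶠ i in (U : Filter ℕ), ∀ t, ¬ Q t i := by
    rw [eventually_all]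
    intro t
    exact hcon t
  obtain ⟨i, ⟨t, h2⟩, h3⟩ := (h.and h1).exists
  exact h3 t h2

/-- certificates for almost all indices give a certificate over the germs -/
theorem cert_up (F : List (Wd (ℕ → ℤ))) (h : ∀ᶠ i in (U : Filter ℕ), Cert (F.map (atw i))) :
    Cert (F.map (gmw U)) := by
  classical
  obtain ⟨n, hn⟩ : ∃ n, n = (F.map List.length).sum := ⟨_, rfl⟩
  obtain ⟨fs₀, hfs1, hfs2⟩ := exists_split (F.map List.length) (List.finRange n)
    (by rw [List.length_finRange, hn])
  have hlen : F.flatten.length = n := by rw [List.length_flatten, hn]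
  let LAB : Fin n → Bool × (ℕ → ℤ) := fun j => F.flatten.get (Fin.cast hlen.symm j)
  have hF : F = fs₀.map (fun c => c.map LAB) := by
    rw [List.eq_iff_flatten_eq]
    constructor
    · have e1 : (fs₀.map (fun c => c.map LAB)).flatten = fs₀.flatten.map LAB := by
        rw [List.map_flatten]
      rw [e1, hfs1]
      apply List.ext_get
      · simp [hlen]
      · intro j hj hj'
        simp [LAB]
    · rw [List.map_map, ← hfs2]
      apply List.map_congr_left
      intro c _
      simp
  have h1 : ∀ᶠ i in (U : Filter ℕ), ∃ l : Perm (Fin n), ∃ D : FC ℤ (Fin n) fs₀, D.l = l ∧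
      ∀ j, D.lab j = ((LAB j).1, (LAB j).2 i) := by
    filter_upwards [h] with i hi
    obtain ⟨D, hD⟩ := hi.canon fs₀ hfs1 (by
      rw [hfs2, List.map_map]
      apply List.map_congr_left
      intro w _
      simp [atw, wmap_length])
    refine ⟨D.l, D, rfl, ?_⟩
    have e1 : F.map (atw i) = fs₀.map (fun c => c.map (fun j => ((LAB j).1, (LAB j).2 i))) := by
      rw [hF, List.map_map]
      apply List.map_congr_left
      intro c _
      simp only [Function.comp_apply, atw, wmap, List.map_map]
      rfl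
    rw [e1] at hD
    have e2 := congrArg List.flatten hD
    have e3 : ∀ f : Fin n → Bool × ℤ, (fs₀.map (fun c => c.map f)).flatten = fs₀.flatten.map f := by
      intro f; rw [List.map_flatten]
    rw [e3, e3, hfs1] at e2
    intro j
    have e4 := List.map_eq_map_iff.1 e2 j (List.mem_finRange j)
    exact e4.symm
  obtain ⟨l, hl⟩ := ev_pigeon U h1
  obtain ⟨i₀, D₀, hD₀, hlab₀⟩ := hl.exists
  refine ⟨Fin n, inferInstance, inferInstance, fs₀,
    ⟨l, fun j => ((LAB j).1, ((LAB j).2 : Germ (U : Filter ℕ) ℤ)), D₀.nodup, ?_, ?_, ?_, ?_⟩, ?_⟩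
  · rw [← hD₀]; exact D₀.dead
  · intro w
    have := D₀.ty_l w
    rw [hD₀, hlab₀, hlab₀] at this
    exact this
  · intro w
    change cycSum (L := HZ U) l (fun v => ((LAB v).2 : Germ (U : Filter ℕ) ℤ)) w = 0
    rw [cycSum_coe]
    apply Germ.coe_eq.2
    filter_upwards [hl] with i hi
    obtain ⟨D, hD, hlab⟩ := hi
    have := D.sum_l w
    rw [hD] at this
    simp only [hlab] at this
    exact this
  · rw [← hD₀]; exact D₀.planar
  · rw [hF, List.map_map]
    apply List.map_congr_left
    intro c _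
    simp only [Function.comp_apply, gmw, wmap, List.map_map]
    rfl

end Pool.Agent.ABA
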