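import Mathlib
import Pool.Agent.Helper89_ABA.Trf3

/-! # Transfer IV: relations hold in `P_Λ` iff they hold for almost all indices (MP_d857f1_al) -/

open Equiv Equiv.Perm H17ABA Filter

namespace Pool.Agent.ABA

section relators

variable {L L' : Type} [AddCommGroup L] [AddCommGroup L']

theorem wmap_Tw (f : L →+ L') (g : Wd L) (x y z : L) :
    wmap f (Tw g x y z) = Tw (wmap f g) (f x) (f y) (f z) := by
  rw [Tw, wmap_append, wmap_winv f (fun x => map_neg f x)]
  rfl

theorem image_Rnew (f : L →+ L') (R : Set (Wd ℤ)) (g : Wd ℤ) (c : ℤ → L) (x y z : L) :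
    wmap f '' (Rnew R g c x y z) = Rnew R g (fun n => f (c n)) (f x) (f y) (f z) := by
  rw [Rnew, Rnew, Set.image_union, Set.image_singleton, wmap_Tw, wmap_wmap]
  congr 1
  ext w
  constructor
  · rintro ⟨_, ⟨r, hr, rfl⟩, rfl⟩
    exact ⟨r, hr, by rw [wmap_wmap]⟩
  · rintro ⟨r, hr, rfl⟩
    exact ⟨wmap c r, ⟨r, hr, rfl⟩, by rw [wmap_wmap]⟩

theorem rel_image (f : L →+ L') (S : Set (Wd L)) (q : Wd L') :
    Rel (wmap f '' S) q ↔ ∃ q', Rel S q' ∧ wmap f q' = q := by
  have hf : ∀ x, f (-x) = -f x := fun x => map_neg f x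
  constructor
  · rintro (⟨q', hq', rfl⟩ | ⟨q', hq', h⟩)
    · exact ⟨q', Or.inl hq', rfl⟩
    · refine ⟨winv q', Or.inr (by rwa [winv_winv]), ?_⟩
      rw [wmap_winv f hf, h, winv_winv]
  · rintro ⟨q', h | h, rfl⟩
    · exact Or.inl ⟨q', h, rfl⟩
    · exact Or.inr ⟨winv q', h, by rw [wmap_winv f hf]⟩

theorem rel_finite {S : Set (Wd L)} (hS : S.Finite) : {q | Rel S q}.Finite := by
  have h : {q | Rel S q} = S ∪ winv ⁻¹' S := rfl
  rw [h]
  refine hS.union (hS.preimage (Set.injOn_of_injective ?_))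
  intro u v huv
  rw [← winv_winv u, huv, winv_winv]

end relators

/-- the germ homomorphism -/
def gmh (U : Ultrafilter ℕ) : (ℕ → ℤ) →+ HZ U where
  toFun f := (f : Germ (U : Filter ℕ) ℤ)
  map_zero' := rfl
  map_add' _ _ := rfl

/-- constant sequences -/
def csth : ℤ →+ (ℕ → ℤ) where
  toFun n := fun _ => n
  map_zero' := rfl
  map_add' _ _ := rfl

/-- evaluation at an index -/
def ath (i : ℕ) : (ℕ → ℤ) →+ ℤ := Pi.evalAddMonoidHom (fun _ => ℤ) i

variable (U : Ultrafilter ℕ)

theorem gmw_eq (w : Wd (ℕ → ℤ)) : gmw U w = wmap (gmh U) w := rfl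

theorem atw_eq (i : ℕ) (w : Wd (ℕ → ℤ)) : atw i w = wmap (ath i) w := rfl

/-- a relation holds in `P_Λ` iff it holds for almost all indices -/
theorem tr_words (hP : PresStmt) {R : Set (Wd ℤ)} (hR : R.Finite) (g : Wd ℤ) (x y z : ℕ → ℤ)
    {K : ℕ} (hLF : ∀ᶠ i in (U : Filter ℕ), LFwith K (Rnew R g id (x i) (y i) (z i)))
    (v : Wd (ℕ → ℤ)) :
    ev (αP (HZ U) (Rnew R g ((gmh U).comp csth) (gmh U x) (gmh U y) (gmh U z))) (gmw U v) = 1 ↔
    ∀ᶠ i in (U : Filter ℕ), ev (αP ℤ (Rnew R g id (x i) (y i) (z i))) (atw i v) = 1 := by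
  classical
  set S : Set (Wd (ℕ → ℤ)) := Rnew R g csth x y z with hS
  have hSU : wmap (gmh U) '' S =
      Rnew R g ((gmh U).comp csth) (gmh U x) (gmh U y) (gmh U z) := image_Rnew (gmh U) R g csth x y z
  have hSi : ∀ i, wmap (ath i) '' S = Rnew R g id (x i) (y i) (z i) := fun i =>
    image_Rnew (ath i) R g csth x y z
  have hfin : {q | Rel S q}.Finite := rel_finite ((hR.image _).union (Set.finite_singleton _))
  rw [← hSU]
  simp only [← hSi] at hLF ⊢
  constructor
  · intro h
    obtain ⟨Q, hQ, hC⟩ := ((hP (HZ U) (wmap (gmh U) '' S)).2 _).1 h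
    have hQ' : ∃ Q' : List (Wd (ℕ → ℤ)), (∀ q ∈ Q', Rel S q) ∧ Q'.map (wmap (gmh U)) = Q := by
      clear hC
      induction Q with
      | nil => exact ⟨[], by simp, rfl⟩
      | cons q Q ih =>
        obtain ⟨Q', h1, h2⟩ := ih (fun q hq => hQ q (List.mem_cons_of_mem _ hq))
        obtain ⟨q', h3, h4⟩ := (rel_image (gmh U) S q).1 (hQ q List.mem_cons_self)
        refine ⟨q' :: Q', ?_, by rw [List.map_cons, h2, h4]⟩
        intro q'' hq''
        rcases List.mem_cons.1 hq'' with rfl | hq''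
        · exact h3
        · exact h1 _ hq''
    obtain ⟨Q', hrel, rfl⟩ := hQ'
    have hC' : Cert ((v :: Q').map (gmw U)) := hC
    filter_upwards [cert_down U _ hC'] with i hi
    rw [← hSi i]
    refine ((hP ℤ (wmap (ath i) '' S)).2 _).2 ⟨Q'.map (wmap (ath i)), ?_, hi⟩
    intro q hq
    obtain ⟨q', hq', rfl⟩ := List.mem_map.1 hq
    exact (rel_image (ath i) S _).2 ⟨q', hrel q' hq', rfl⟩
  · intro h
    by_cases hv : v = []
    · subst hv; rfl
    have hfT : Finite {q | Rel S q} := hfin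
    have hfT2 : Finite {l : List {q | Rel S q} | l.length ≤ K * v.length} :=
      List.finite_length_le _ _
    have key : ∀ᶠ i in (U : Filter ℕ), ∃ t : {l : List {q | Rel S q} | l.length ≤ K * v.length},
        Cert ((v :: t.1.map Subtype.val).map (atw i)) := by
      filter_upwards [hLF, h] with i hi h1
      rw [← hSi i] at h1
      obtain ⟨Q, hQ, hC⟩ := ((hP ℤ (wmap (ath i) '' S)).2 _).1 h1
      obtain ⟨Q', hQ', hlen, hC'⟩ := hi [atw i v] (by
        intro w hw
        rw [List.mem_singleton] at hw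
        subst hw
        intro h2
        apply hv
        have h3 : (atw i v).length = 0 := by rw [h2]; rfl
        rw [atw, wmap_length] at h3
        exact List.length_eq_zero_iff.1 h3) Q hQ hC
      have hex : ∃ t : List {q | Rel S q}, (t.map Subtype.val).map (wmap (ath i)) = Q' := by
        clear hC' hlen
        induction Q' with
        | nil => exact ⟨[], rfl⟩
        | cons q Q' ih =>
          obtain ⟨t, ht⟩ := ih (fun q hq => hQ' q (List.mem_cons_of_mem _ hq))
          obtain ⟨q', h3, h4⟩ := (rel_image (ath i) S q).1 (hQ' q List.mem_cons_self)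
          exact ⟨⟨q', h3⟩ :: t, by rw [List.map_cons, List.map_cons, ht, h4]⟩
      obtain ⟨t, rfl⟩ := hex
      refine ⟨⟨t, ?_⟩, hC'⟩
      simpa [atw, wmap_length] using hlen
    obtain ⟨t, ht⟩ := ev_pigeon U key
    have hup := cert_up U _ ht
    refine ((hP (HZ U) (wmap (gmh U) '' S)).2 _).2
      ⟨(t.1.map Subtype.val).map (gmw U), ?_, hup⟩
    intro q hq
    obtain ⟨q', hq', rfl⟩ := List.mem_map.1 hq
    obtain ⟨q'', -, rfl⟩ := List.mem_map.1 hq'
    exact (rel_image (gmh U) S _).2 ⟨q''.1, q''.2, rfl⟩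

/-- every element of the free product is the value of a word -/
theorem exists_ev {L : Type} [AddCommGroup L] (e : FP L) : ∃ w : Wd L, ev (αF L) w = e := by
  induction e using Monoid.CoprodI.induction_on with
  | one => exact ⟨[], rfl⟩
  | of i m =>
    refine ⟨[(i, Multiplicative.toAdd m)], ?_⟩
    simp [ev, αF]
  | mul x y hx hy =>
    obtain ⟨u, rfl⟩ := hx
    obtain ⟨v, rfl⟩ := hy
    exact ⟨u ++ v, ev_append _ _ _⟩

/-- the homomorphism of a free product to a presented group given by a map of the labels -/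
def labHom {L L' : Type} [AddCommGroup L] [AddCommGroup L'] (f : L →+ L') (R : Set (Wd L')) :
    FP L →* PG L' R :=
  Monoid.CoprodI.lift (fun t => (αP L' R t).comp (AddMonoidHom.toMultiplicative f))

theorem labHom_αF {L L' : Type} [AddCommGroup L] [AddCommGroup L'] (f : L →+ L')
    (R : Set (Wd L')) (t : Bool) (k : L) :
    labHom f R (αF L t (Multiplicative.ofAdd k)) = αP L' R t (Multiplicative.ofAdd (f k)) := by
  simp [labHom, αF]

theorem labHom_ev {L L' : Type} [AddCommGroup L] [AddCommGroup L'] (f : L →+ L')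
    (R : Set (Wd L')) (w : Wd L) : labHom f R (ev (αF L) w) = ev (αP L' R) (wmap f w) := by
  induction w with
  | nil => simp [wmap, ev]
  | cons s w ih =>
    rw [ev_cons, map_mul, ih]
    simp only [wmap, List.map_cons]
    rw [ev_cons, pw, labHom_αF]
    rfl

/-- the two subgroups generate -/
theorem sup_top {L : Type} [AddCommGroup L] (R : Set (Wd L)) :
    (αP L R true).range ⊔ (αP L R false).range = ⊤ := by
  rw [Subgroup.eq_top_iff']
  intro x
  obtain ⟨e, rfl⟩ := QuotientGroup.mk'_surjective _ x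
  obtain ⟨w, rfl⟩ := exists_ev e
  induction w with
  | nil => simp [ev]
  | cons s w ih =>
    rw [ev_cons, map_mul]
    refine mul_mem ?_ ih
    obtain ⟨t, k⟩ := s
    cases t
    · exact Subgroup.mem_sup_right ⟨Multiplicative.ofAdd k, rfl⟩
    · exact Subgroup.mem_sup_left ⟨Multiplicative.ofAdd k, rfl⟩

/-- elements of bounded length in a uniform shape -/
theorem uniform_shape {L : Type} [AddCommGroup L] {Γ : Type} [Group Γ]
    (α : Bool → Multiplicative L →* Γ) (n : ℕ) : ∀ l : List Γ, l.length ≤ n →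
    (∀ s ∈ l, s ∈ (α true).range ∨ s ∈ (α false).range) →
    ∃ k m : ℕ → L, ((List.range n).map (fun j => α true (Multiplicative.ofAdd (k j)) *
      α false (Multiplicative.ofAdd (m j)))).prod = l.prod := by
  induction n with
  | zero =>
    intro l hl _
    have : l = [] := List.length_eq_zero_iff.1 (by omega)
    subst this
    exact ⟨0, 0, rfl⟩
  | succ n ih =>
    intro l hl hs
    cases l with
    | nil =>
      refine ⟨0, 0, ?_⟩
      apply List.prod_eq_one
      intro x hx
      obtain ⟨j, -, rfl⟩ := List.mem_map.1 hx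
      simp
    | cons s l =>
      obtain ⟨k, m, hkm⟩ := ih l (by simpa using hl) (fun s hs' => hs s (List.mem_cons_of_mem _ hs'))
      rcases hs s List.mem_cons_self with ⟨a, rfl⟩ | ⟨b, rfl⟩
      · refine ⟨fun j => Nat.casesOn j (Multiplicative.toAdd a) k,
          fun j => Nat.casesOn j 0 m, ?_⟩
        rw [List.range_succ_eq_map, List.map_cons, List.prod_cons, List.map_map, List.prod_cons,
          ← hkm]
        simp [Function.comp_def]
      · refine ⟨fun j => Nat.casesOn j 0 k,
          fun j => Nat.casesOn j (Multiplicative.toAdd b) m, ?_⟩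
        rw [List.range_succ_eq_map, List.map_cons, List.prod_cons, List.map_map, List.prod_cons,
          ← hkm]
        simp [Function.comp_def]

theorem gmh_surj : Function.Surjective (gmh U) := fun t => Quot.exists_rep t

/-- THE TRANSFER THEOREM -/
theorem transfer (hP : PresStmt) {R : Set (Wd ℤ)} (hR : R.Finite) (g : Wd ℤ) (x y z : ℕ → ℤ)
    {K : ℕ} (hLF : ∀ᶠ i in (U : Filter ℕ), LFwith K (Rnew R g id (x i) (y i) (z i)))
    (hG : Geo
      (αP (HZ U) (Rnew R g ((gmh U).comp csth) (gmh U x) (gmh U y) (gmh U z)) true).range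
      (αP (HZ U) (Rnew R g ((gmh U).comp csth) (gmh U x) (gmh U y) (gmh U z)) false).range)
    (n : ℕ) :
    ∀ᶠ i in (U : Filter ℕ), GeoB (αP ℤ (Rnew R g id (x i) (y i) (z i)) true).range
      (αP ℤ (Rnew R g id (x i) (y i) (z i)) false).range n := by
  classical
  obtain ⟨RU, hRU⟩ : ∃ RU, RU = Rnew R g ((gmh U).comp csth) (gmh U x) (gmh U y) (gmh U z) :=
    ⟨_, rfl⟩
  have htr := tr_words U hP hR g x y z hLF
  rw [← hRU] at hG htr
  have T : Trf U (fun i => (αP ℤ (Rnew R g id (x i) (y i) (z i)) true).range)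
      (fun i => (αP ℤ (Rnew R g id (x i) (y i) (z i)) false).range)
      (fun i => labHom (ath i) (Rnew R g id (x i) (y i) (z i)))
      (labHom (gmh U) RU) (αF (ℕ → ℤ) true).range (αF (ℕ → ℤ) false).range := by
    refine ⟨?_, ?_, ?_, ?_, ?_, ?_⟩
    · intro e
      obtain ⟨w, rfl⟩ := exists_ev e
      rw [labHom_ev]
      simp only [labHom_ev]
      exact htr w
    · intro f hf
      choose k hk using hf
      refine ⟨αF (ℕ → ℤ) true (Multiplicative.ofAdd (fun i => Multiplicative.toAdd (k i))),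
        ⟨_, rfl⟩, fun i => ?_⟩
      rw [labHom_αF, ← hk i]
      rfl
    · intro f hf
      choose k hk using hf
      refine ⟨αF (ℕ → ℤ) false (Multiplicative.ofAdd (fun i => Multiplicative.toAdd (k i))),
        ⟨_, rfl⟩, fun i => ?_⟩
      rw [labHom_αF, ← hk i]
      rfl
    · rintro e ⟨k, rfl⟩ i
      exact ⟨Multiplicative.ofAdd (ath i (Multiplicative.toAdd k)), (labHom_αF _ _ _ _).symm⟩
    · rintro e ⟨k, rfl⟩ i
      exact ⟨Multiplicative.ofAdd (ath i (Multiplicative.toAdd k)), (labHom_αF _ _ _ _).symm⟩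
    · intro n f hf
      have hex : ∀ i, ∃ km : (ℕ → ℤ) × (ℕ → ℤ), ((List.range n).map (fun j =>
          αP ℤ (Rnew R g id (x i) (y i) (z i)) true (Multiplicative.ofAdd (km.1 j)) *
          αP ℤ (Rnew R g id (x i) (y i) (z i)) false (Multiplicative.ofAdd (km.2 j)))).prod
          = f i := by
        intro i
        obtain ⟨l, h1, h2, h3⟩ := Far.exists_word
          (Far.cay_connected (sup_top (Rnew R g id (x i) (y i) (z i)))) (f i)
        obtain ⟨k, m, hkm⟩ := uniform_shape (αP ℤ (Rnew R g id (x i) (y i) (z i))) n l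
          (by rw [h1]; exact hf i) h2
        exact ⟨⟨k, m⟩, by rw [hkm, h3]⟩
      choose km hkm using hex
      refine ⟨((List.range n).map (fun j =>
          αF (ℕ → ℤ) true (Multiplicative.ofAdd (fun i => (km i).1 j)) *
          αF (ℕ → ℤ) false (Multiplicative.ofAdd (fun i => (km i).2 j)))).prod, fun i => ?_⟩
      rw [map_list_prod, List.map_map, ← hkm i]
      congr 1
  have hA : (αF (ℕ → ℤ) true).range.map (labHom (gmh U) RU) = (αP (HZ U) RU true).range := by
    ext u
    constructor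
    · rintro ⟨_, ⟨k, rfl⟩, rfl⟩
      exact ⟨Multiplicative.ofAdd (gmh U (Multiplicative.toAdd k)), (labHom_αF _ _ _ _).symm⟩
    · rintro ⟨k, rfl⟩
      obtain ⟨f, hf⟩ := gmh_surj U (Multiplicative.toAdd k)
      refine ⟨_, ⟨Multiplicative.ofAdd f, rfl⟩, ?_⟩
      rw [labHom_αF, hf]; rfl
  have hB : (αF (ℕ → ℤ) false).range.map (labHom (gmh U) RU) = (αP (HZ U) RU false).range := by
    ext u
    constructor
    · rintro ⟨_, ⟨k, rfl⟩, rfl⟩
      exact ⟨Multiplicative.ofAdd (gmh U (Multiplicative.toAdd k)), (labHom_αF _ _ _ _).symm⟩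
    · rintro ⟨k, rfl⟩
      obtain ⟨f, hf⟩ := gmh_surj U (Multiplicative.toAdd k)
      refine ⟨_, ⟨Multiplicative.ofAdd f, rfl⟩, ?_⟩
      rw [labHom_αF, hf]; rfl
  exact T.geoB (by rw [hA, hB]; exact hG) n

end Pool.Agent.ABA
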