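import Mathlib
import Pool.Agent.Helper89_ABA.Trf4
import Pool.Agent.Helper89_ABA.Limit
import Pool.Agent.Helper89_ABA.Class

/-! # Assembly: the theorem from the four interface statements (MP_d857f1_al) -/

open Filter

namespace Pool.Agent.ABA.Asm

theorem poly_zero (i j k n : ℤ) (hn : |i| + |j| < n) (h : i + j * n + k * n ^ 2 = 0) :
    i = 0 ∧ j = 0 ∧ k = 0 := by
  have hi := abs_nonneg i
  have hj := abs_nonneg j
  have hn1 : 1 ≤ n := by omega
  have hk : k = 0 := by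
    by_contra hk
    have h1 : 1 ≤ |k| := Int.one_le_abs hk
    have h2 : |k| * n ^ 2 = |i + j * n| := by
      rw [← abs_of_nonneg (sq_nonneg n), ← abs_mul]
      have : k * |n ^ 2| = -(i + j * n) := by
        rw [abs_of_nonneg (sq_nonneg n)]; linarith
      rw [abs_of_nonneg (sq_nonneg n)] at *
      rw [this, abs_neg]
    have h3 : |i + j * n| ≤ |i| + |j| * n := by
      calc |i + j * n| ≤ |i| + |j * n| := abs_add_le _ _
        _ = |i| + |j| * n := by rw [abs_mul, abs_of_pos (by omega : 0 < n)]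
    have h4 : |i| + |j| * n ≤ (|i| + |j|) * n := by nlinarith
    have h5 : (|i| + |j|) * n < n * n := by nlinarith
    have h6 : n ^ 2 ≤ |k| * n ^ 2 := by nlinarith [sq_nonneg n]
    nlinarith
  subst hk
  have hj0 : j = 0 := by
    by_contra hj0
    have h1 : 1 ≤ |j| := Int.one_le_abs hj0
    have h2 : |j| * n = |i| := by
      have : j * n = -i := by linarith
      rw [← abs_neg i, ← this, abs_mul, abs_of_pos (by omega : 0 < n)]
    nlinarith
  subst hj0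
  refine ⟨by linarith, rfl, rfl⟩

/-- the exponents -/
def xs (i : ℕ) : ℤ := i
def zs (i : ℕ) : ℤ := (i : ℤ) ^ 2
def ys (s : ℤ) (i : ℕ) : ℤ := s - i - (i : ℤ) ^ 2

theorem ev_hyper {P : ℕ → Prop} (h : ∀ᶠ i in atTop, P i) :
    ∀ᶠ i in (hyperfilter ℕ : Filter ℕ), P i := by
  have : (hyperfilter ℕ : Filter ℕ) ≤ atTop := Nat.hyperfilter_le_atTop
  exact this h

theorem gmh_eq_zero (U : Ultrafilter ℕ) (f : ℕ → ℤ) :
    gmh U f = 0 ↔ ∀ᶠ i in (U : Filter ℕ), f i = 0 := by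
  have : gmh U f = gmh U 0 ↔ ∀ᶠ i in (U : Filter ℕ), f i = (0 : ℕ → ℤ) i := Germ.coe_eq
  rw [map_zero] at this
  exact this

theorem lin1 (i j k : ℤ) (h : ((gmh (hyperfilter ℕ)).comp csth) i + j • gmh (hyperfilter ℕ) xs +
    k • gmh (hyperfilter ℕ) zs = 0) : i = 0 ∧ j = 0 ∧ k = 0 := by
  rw [AddMonoidHom.comp_apply, ← map_zsmul, ← map_zsmul, ← map_add, ← map_add, gmh_eq_zero] at h
  have h2 : ∀ᶠ n in (hyperfilter ℕ : Filter ℕ), (|i| + |j|).toNat + 1 ≤ n :=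
    ev_hyper (eventually_ge_atTop _)
  obtain ⟨n, h3, h4⟩ := (h.and h2).exists
  have hi := abs_nonneg i
  have hj := abs_nonneg j
  apply poly_zero i j k n (by omega)
  simpa [csth, xs, zs, smul_eq_mul] using h3

theorem lin2 (s i j : ℤ) (h : ((gmh (hyperfilter ℕ)).comp csth) i +
    j • gmh (hyperfilter ℕ) (ys s) = 0) : i = 0 ∧ j = 0 := by
  rw [AddMonoidHom.comp_apply, ← map_zsmul, ← map_add, gmh_eq_zero] at h
  have h2 : ∀ᶠ n in (hyperfilter ℕ : Filter ℕ), (|i + j * s| + |-j|).toNat + 1 ≤ n :=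
    ev_hyper (eventually_ge_atTop _)
  obtain ⟨n, h3, h4⟩ := (h.and h2).exists
  have hi := abs_nonneg (i + j * s)
  have hj := abs_nonneg (-j)
  have h5 : i + j * ys s n = 0 := by simpa [csth, smul_eq_mul] using h3
  have h6 := poly_zero (i + j * s) (-j) (-j) n (by omega) (by rw [ys] at h5; linarith)
  have hj0 : j = 0 := by omega
  subst hj0
  refine ⟨by simpa using h6.1, rfl⟩

theorem torfree (U : Ultrafilter ℕ) (n : ℕ) (t : HZ U) (hn : n ≠ 0) (h : n • t = 0) : t = 0 := by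
  obtain ⟨f, rfl⟩ := gmh_surj U t
  rw [← map_nsmul, gmh_eq_zero] at h
  rw [gmh_eq_zero]
  filter_upwards [h] with i hi
  have : (n : ℤ) * f i = 0 := by simpa using hi
  rcases mul_eq_zero.1 this with h1 | h1
  · exact absurd (by exact_mod_cast h1) hn
  · exact h1

theorem grow (s x₀ : ℤ) : ∀ᶠ i : ℕ in atTop, x₀ ≤ xs i ∧ 4 * xs i ≤ zs i ∧ xs i ≤ |ys s i| := by
  filter_upwards [eventually_ge_atTop (x₀.toNat + s.natAbs + 4)] with i hi
  have h1 : ((x₀.toNat + s.natAbs + 4 : ℕ) : ℤ) ≤ i := by exact_mod_cast hi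
  push_cast at h1
  have h2 := Int.self_le_toNat x₀
  have h3 := abs_nonneg s
  have h3' := le_abs_self s
  refine ⟨?_, ?_, ?_⟩
  · simp only [xs]; omega
  · simp only [xs, zs]; nlinarith
  · simp only [xs, ys]
    rw [abs_of_nonpos (by nlinarith)]
    nlinarith [neg_abs_le s]

theorem wmap_id (w : Wd ℤ) : wmap id w = w := by simp [wmap]

theorem Rnew_id (R : Set (Wd ℤ)) (g : Wd ℤ) (x y z : ℤ) :
    Rnew R g id x y z = R ∪ {Tw g x y z} := by
  rw [Rnew, wmap_id]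
  congr 1
  ext w
  constructor
  · rintro ⟨r, hr, rfl⟩; rwa [wmap_id]
  · intro h; exact ⟨w, h, wmap_id w⟩

theorem sum_winv (w : Wd ℤ) : ((winv w).map Prod.snd).sum = -(w.map Prod.snd).sum := by
  induction w with
  | nil => simp [winv]
  | cons s w ih =>
    rw [winv_cons, List.map_append, List.sum_append, ih]
    simp

theorem sum_Tw (g : Wd ℤ) (x y z : ℤ) (h : x + y + z = (g.map Prod.snd).sum) :
    ((Tw g x y z).map Prod.snd).sum = 0 := by
  rw [Tw, List.map_append, List.sum_append, sum_winv]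
  simp only [List.map_cons, List.map_nil, List.sum_cons, List.sum_nil]
  linarith

theorem rng_comm {L : Type} [AddCommGroup L] (R : Set (Wd L)) (t : Bool) :
    ∀ x ∈ (αP L R t).range, ∀ y ∈ (αP L R t).range, x * y = y * x := by
  rintro _ ⟨a, rfl⟩ _ ⟨b, rfl⟩
  rw [← map_mul, ← map_mul, mul_comm]

/-- the `P_Λ` statement for one presentation and one element -/
def PLamFor (R : Set (Wd ℤ)) (g : Wd ℤ) : Prop :=
  ∀ (Λ : Type) [AddCommGroup Λ] (c : ℤ →+ Λ) (x y z : Λ),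
    (∀ (n : ℕ) (t : Λ), n ≠ 0 → n • t = 0 → t = 0) →
    (∀ i j k : ℤ, c i + j • x + k • z = 0 → i = 0 ∧ j = 0 ∧ k = 0) →
    (∀ i j : ℤ, c i + j • y = 0 → i = 0 ∧ j = 0) →
    Geo (αP Λ (Rnew R g c x y z) true).range (αP Λ (Rnew R g c x y z) false).range

/-- the `P_Λ` statement, with all the hypotheses which are available in the construction -/
def PLamStmtF : Prop :=
  ∀ (R : Set (Wd ℤ)) (g : Wd ℤ), R.Finite → (∀ r ∈ R, (r.map Prod.snd).sum = 0) → LF R →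
    Geo (αP ℤ R true).range (αP ℤ R false).range →
    ¬ IsABA (αP ℤ R true).range (αP ℤ R false).range (ev (αP ℤ R) g) → PLamFor R g

/-- one step of the construction, for presentations -/
theorem step_exists (hPres : PresStmt) (hLF : LFnewStmt) (hGeom : GeomStmt)
    (R : Set (Wd ℤ)) (g : Wd ℤ) (hPL : PLamFor R g) (hR : R.Finite)
    (hs : ∀ r ∈ R, (r.map Prod.snd).sum = 0)
    (hG : Geo (αP ℤ R true).range (αP ℤ R false).range)
    (hg : ¬ IsABA (αP ℤ R true).range (αP ℤ R false).range (ev (αP ℤ R) g)) (hLFR : LF R) :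
    ∃ x y z : ℤ, x + y + z = (g.map Prod.snd).sum ∧ LF (Rnew R g id x y z) ∧
      Geo (αP ℤ (Rnew R g id x y z) true).range (αP ℤ (Rnew R g id x y z) false).range := by
  obtain ⟨s, hsdef⟩ : ∃ s, s = (g.map Prod.snd).sum := ⟨_, rfl⟩
  obtain ⟨K, x₀, hK⟩ := hLF R g hR hs hG hg hLFR
  have e1 : ∀ᶠ i in (hyperfilter ℕ : Filter ℕ),
      LFwith K (Rnew R g id (xs i) (ys s i) (zs i)) := by
    filter_upwards [ev_hyper (grow s x₀)] with i hi
    apply hK _ _ _ hi.1 hi.2.1 hi.2.2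
    rw [← hsdef, xs, ys, zs]; ring
  have e2 := hPL (HZ (hyperfilter ℕ)) ((gmh (hyperfilter ℕ)).comp csth)
    (gmh (hyperfilter ℕ) xs) (gmh (hyperfilter ℕ) (ys s)) (gmh (hyperfilter ℕ) zs)
    (torfree _) lin1 (lin2 s)
  obtain ⟨m₀, hm₀⟩ : ∃ m₀ : ℕ, ∀ r ∈ R, r.length ≤ m₀ := by
    obtain ⟨m₀, h⟩ := (hR.image List.length).bddAbove
    exact ⟨m₀, fun r hr => h ⟨r, hr, rfl⟩⟩
  obtain ⟨K', ρ, C, hKC⟩ := hGeom K (max m₀ (3 + g.length))
  obtain ⟨D₀, hD₀⟩ := Far.far K' ρ C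
  have e3 := transfer (hyperfilter ℕ) hPres hR g xs (ys s) zs e1 e2 D₀
  obtain ⟨i, h1, h2⟩ := (e1.and e3).exists
  have hsum : xs i + ys s i + zs i = (g.map Prod.snd).sum := by
    rw [← hsdef, xs, ys, zs]; ring
  refine ⟨xs i, ys s i, zs i, hsum, ⟨K, h1⟩, ?_⟩
  have hsumR : ∀ r ∈ Rnew R g id (xs i) (ys s i) (zs i), (r.map Prod.snd).sum = 0 := by
    rw [Rnew_id]
    rintro r (hr | hr)
    · exact hs r hr
    · rw [Set.mem_singleton_iff] at hr
      subst hr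
      exact sum_Tw g _ _ _ hsum
  have hlenR : ∀ r ∈ Rnew R g id (xs i) (ys s i) (zs i), r.length ≤ max m₀ (3 + g.length) := by
    rw [Rnew_id]
    rintro r (hr | hr)
    · exact (hm₀ r hr).trans (le_max_left _ _)
    · rw [Set.mem_singleton_iff] at hr
      subst hr
      refine le_trans ?_ (le_max_right _ _)
      simp only [Tw, List.length_append, List.length_cons, List.length_nil, winv_length]
      omega
  obtain ⟨k1, k2, k3⟩ := hKC _ hlenR hsumR h1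
  exact hD₀ _ _ _ (Far.cay_connected (sup_top _)) k1 (rng_comm _ _) (rng_comm _ _) k2 k3 h2

theorem ev_αP {L : Type} [AddCommGroup L] (R : Set (Wd L)) (w : Wd L) :
    ev (αP L R) w = QuotientGroup.mk' (Subgroup.normalClosure (ev (αF L) '' R)) (ev (αF L) w) := by
  rw [ev, ev, map_list_prod, List.map_map]
  rfl

/-- the degree homomorphism -/
def deg : FP ℤ →* Multiplicative ℤ := Monoid.CoprodI.lift (fun _ => MonoidHom.id _)

theorem deg_αF (t : Bool) (k : ℤ) : deg (αF ℤ t (Multiplicative.ofAdd k)) =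
    Multiplicative.ofAdd k := by
  simp [deg, αF]

theorem deg_ev (w : Wd ℤ) : deg (ev (αF ℤ) w) = Multiplicative.ofAdd (w.map Prod.snd).sum := by
  induction w with
  | nil => simp [ev]
  | cons s w ih =>
    rw [ev_cons, map_mul, ih, pw, deg_αF, List.map_cons, List.sum_cons, ofAdd_add]

theorem deg_eq_one {R : Set (Wd ℤ)} (hs : ∀ r ∈ R, (r.map Prod.snd).sum = 0) {x : FP ℤ}
    (hx : x ∈ Subgroup.normalClosure (ev (αF ℤ) '' R)) : deg x = 1 := by
  have h : Subgroup.normalClosure (ev (αF ℤ) '' R) ≤ deg.ker := by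
    apply Subgroup.normalClosure_le_normal
    rintro _ ⟨r, hr, rfl⟩
    rw [SetLike.mem_coe, MonoidHom.mem_ker, deg_ev, hs r hr, ofAdd_zero]
  exact h hx

/-- generators -/
abbrev gen (t : Bool) : FP ℤ := αF ℤ t (Multiplicative.ofAdd 1)

theorem gen_zpow (t : Bool) (k : ℤ) : gen t ^ k = αF ℤ t (Multiplicative.ofAdd k) := by
  rw [gen, ← map_zpow, ← ofAdd_zsmul]
  simp

theorem Im_eq (R : Set (Wd ℤ)) (t : Bool) :
    Im (Subgroup.normalClosure (ev (αF ℤ) '' R)) (gen t) = (αP ℤ R t).range := by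
  ext u
  constructor
  · rintro ⟨k, rfl⟩
    refine ⟨Multiplicative.ofAdd k, ?_⟩
    simp only
    rw [← map_zpow, gen_zpow]; rfl
  · rintro ⟨k, rfl⟩
    refine ⟨Multiplicative.toAdd k, ?_⟩
    simp only
    rw [← map_zpow, gen_zpow]; rfl

/-- the class of the construction -/
def Cls (N : Subgroup (FP ℤ)) : Prop :=
  ∃ R : Set (Wd ℤ), R.Finite ∧ (∀ r ∈ R, (r.map Prod.snd).sum = 0) ∧ LF R ∧
    Geo (αP ℤ R true).range (αP ℤ R false).range ∧ N = Subgroup.normalClosure (ev (αF ℤ) '' R)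

theorem Cls.good {N : Subgroup (FP ℤ)} (h : Cls N) : Good (gen true) (gen false) N := by
  obtain ⟨R, hR, hs, hLF, hG, rfl⟩ := h
  have key : ∀ (t : Bool) (s : ℤ), gen t ^ s ∈ Subgroup.normalClosure (ev (αF ℤ) '' R) →
      s = 0 := by
    intro t s hs'
    have := deg_eq_one hs hs'
    rw [gen_zpow, deg_αF] at this
    exact this
  refine Geo.good ?_ (key true) (key false)
  rw [Im_eq, Im_eq]
  exact hG

theorem geo_empty : Geo (αP ℤ (∅ : Set (Wd ℤ)) true).range (αP ℤ (∅ : Set (Wd ℤ)) false).range := by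
  have hN : Subgroup.normalClosure (ev (αF ℤ) '' (∅ : Set (Wd ℤ))) = ⊥ := by
    rw [Set.image_empty]
    exact Subgroup.normalClosure_empty
  have hinj : ∀ x y : FP ℤ, QuotientGroup.mk' (Subgroup.normalClosure
      (ev (αF ℤ) '' (∅ : Set (Wd ℤ)))) x = QuotientGroup.mk' _ y → x = y := by
    intro x y h
    have h1 := QuotientGroup.eq.1 h
    rw [hN, Subgroup.mem_bot, inv_mul_eq_one] at h1
    exact h1
  have hsurj := QuotientGroup.mk'_surjective (Subgroup.normalClosure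
      (ev (αF ℤ) '' (∅ : Set (Wd ℤ))))
  have hFZ := FZ_geo
  have hr : ∀ t : Bool, ∀ x : FP ℤ, QuotientGroup.mk' (Subgroup.normalClosure
      (ev (αF ℤ) '' (∅ : Set (Wd ℤ)))) x ∈ (αP ℤ (∅ : Set (Wd ℤ)) t).range ↔
      x ∈ Fac (fun _ : Bool => Multiplicative ℤ) t := by
    intro t x
    constructor
    · rintro ⟨k, hk⟩
      exact ⟨k, hinj _ _ hk⟩
    · rintro ⟨k, rfl⟩
      exact ⟨k, rfl⟩
  have h1 : ∀ x : FP ℤ, QuotientGroup.mk' (Subgroup.normalClosure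
      (ev (αF ℤ) '' (∅ : Set (Wd ℤ)))) x = 1 ↔ x = 1 := by
    intro x
    constructor
    · intro h
      exact hinj x 1 (by rw [h, map_one])
    · rintro rfl; exact map_one _
  refine
    { ab := ?_, aa := ?_, bb := ?_, ab' := ?_, e1 := ?_, r3 := ?_, t2 := ?_, e6 := ?_, el := ?_ }
  · intro x hx hx'
    obtain ⟨x, rfl⟩ := hsurj x
    rw [h1]
    exact hFZ.ab x ((hr _ _).1 hx) ((hr _ _).1 hx')
  · intro h x hx hx' hx1
    obtain ⟨h, rfl⟩ := hsurj h
    obtain ⟨x, rfl⟩ := hsurj x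
    rw [← map_inv, ← map_mul, ← map_mul] at hx'
    exact (hr _ _).2 (hFZ.aa h x ((hr _ _).1 hx) ((hr _ _).1 hx') (fun h => hx1 ((h1 _).2 h)))
  · intro h x hx hx' hx1
    obtain ⟨h, rfl⟩ := hsurj h
    obtain ⟨x, rfl⟩ := hsurj x
    rw [← map_inv, ← map_mul, ← map_mul] at hx'
    exact (hr _ _).2 (hFZ.bb h x ((hr _ _).1 hx) ((hr _ _).1 hx') (fun h => hx1 ((h1 _).2 h)))
  · intro h x hx hx'
    obtain ⟨h, rfl⟩ := hsurj h
    obtain ⟨x, rfl⟩ := hsurj x
    rw [← map_inv, ← map_mul, ← map_mul] at hx'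
    rw [h1]
    exact hFZ.ab' h x ((hr _ _).1 hx) ((hr _ _).1 hx')
  · intro x hx y hy x' hx' y' hy' n1 n2 n3 n4
    obtain ⟨x, rfl⟩ := hsurj x
    obtain ⟨y, rfl⟩ := hsurj y
    obtain ⟨x', rfl⟩ := hsurj x'
    obtain ⟨y', rfl⟩ := hsurj y'
    simp only [← map_mul, Ne, h1] at n1 n2 n3 n4 ⊢
    exact hFZ.e1 x ((hr _ _).1 hx) y ((hr _ _).1 hy) x' ((hr _ _).1 hx') y' ((hr _ _).1 hy')
      n1 n2 n3 n4
  · intro a1 a2 a3 x1 x2 x3 m1 m2 m3 n1 n2 n3 c1 c2 c3
    obtain ⟨a1, rfl⟩ := hsurj a1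
    obtain ⟨a2, rfl⟩ := hsurj a2
    obtain ⟨a3, rfl⟩ := hsurj a3
    obtain ⟨x1, rfl⟩ := hsurj x1
    obtain ⟨x2, rfl⟩ := hsurj x2
    obtain ⟨x3, rfl⟩ := hsurj x3
    simp only [← map_mul, ← map_inv, Ne, h1, hr] at m1 m2 m3 n1 n2 n3 c1 c2 c3 ⊢
    exact hFZ.r3 a1 a2 a3 x1 x2 x3 m1 m2 m3 n1 n2 n3 c1 c2 c3
  · intro h hh
    obtain ⟨h, rfl⟩ := hsurj h
    rw [← map_mul, h1] at hh
    rw [h1]
    exact hFZ.t2 h hh
  · intro h hh x1 m1 y1 k1 x2 m2 y2 k2 x3 m3 y3 k3 n1 n2 n3 n4 n5 n6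
    obtain ⟨h, rfl⟩ := hsurj h
    obtain ⟨x1, rfl⟩ := hsurj x1
    obtain ⟨x2, rfl⟩ := hsurj x2
    obtain ⟨x3, rfl⟩ := hsurj x3
    obtain ⟨y1, rfl⟩ := hsurj y1
    obtain ⟨y2, rfl⟩ := hsurj y2
    obtain ⟨y3, rfl⟩ := hsurj y3
    have hh' : ¬ IsABA (Fac (fun _ : Bool => Multiplicative ℤ) true)
        (Fac (fun _ : Bool => Multiplicative ℤ) false) h := by
      rintro ⟨x, hx, y, hy, z, hz, e⟩
      apply hh
      exact ⟨_, (hr _ _).2 hx, _, (hr _ _).2 hy, _, (hr _ _).2 hz, by rw [e, map_mul, map_mul]⟩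
    simp only [← map_mul, ← map_inv, Ne, h1, hr] at m1 m2 m3 k1 k2 k3 n1 n2 n3 n4 n5 n6 ⊢
    exact hFZ.e6 h hh' x1 m1 y1 k1 x2 m2 y2 k2 x3 m3 y3 k3 n1 n2 n3 n4 n5 n6
  · intro k s hs t ht n1 n2
    obtain ⟨k, rfl⟩ := hsurj k
    obtain ⟨s, rfl⟩ := hsurj s
    obtain ⟨t, rfl⟩ := hsurj t
    simp only [← map_mul, ← map_inv, Ne, h1, hr] at hs ht n1 n2 ⊢
    intro hcon
    exact hFZ.el k s hs t ht n1 n2 (hinj _ _ hcon)

theorem cls_base : Cls (Subgroup.normalClosure (ev (αF ℤ) '' (∅ : Set (Wd ℤ)))) := by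
  refine ⟨∅, Set.finite_empty, by simp, ⟨0, ?_⟩, geo_empty, rfl⟩
  intro F hF Q hQ hC
  refine ⟨Q, hQ, ?_, hC⟩
  cases Q with
  | nil => simp
  | cons q Q =>
    exfalso
    rcases hQ q List.mem_cons_self with h | h <;> exact h

/-- THE THEOREM, from the four interface statements. -/
theorem main_of_stmtsF (hPres : PresStmt) (hLF : LFnewStmt) (hGeom : GeomStmt)
    (hPL : PLamStmtF) :
    ∃ (G : Type) (_ : Group G) (A B : Subgroup G), IsCyclic A ∧ IsCyclic B ∧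
      (∀ g : G, ∃ x ∈ A, ∃ y ∈ B, ∃ z ∈ A, g = x * y * z) ∧ ¬ Group.IsSolvable G := by
  have hcount : Countable (FP ℤ) := by
    have : Function.Surjective (fun w : Wd ℤ => ev (αF ℤ) w) := fun e => exists_ev e
    exact this.countable
  refine main_of_class (gen true) (gen false) Cls
    ⟨_, Subgroup.normalClosure_normal, cls_base⟩ (fun N h => h.good) ?_
  rintro N hN ⟨R, hR, hs, hLFR, hG, rfl⟩ g hg
  obtain ⟨w, rfl⟩ := exists_ev g
  have hg' : ¬ IsABA (αP ℤ R true).range (αP ℤ R false).range (ev (αP ℤ R) w) := by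
    intro h
    apply hg
    rw [← isABA_iff, Im_eq, Im_eq]
    rw [← ev_αP]
    exact h
  obtain ⟨x, y, z, hsum, hLF', hG'⟩ := step_exists hPres hLF hGeom R w
    (hPL R w hR hs hLFR hG hg') hR hs hG hg' hLFR
  refine ⟨Subgroup.normalClosure (ev (αF ℤ) '' (Rnew R w id x y z)), ?_,
    Subgroup.normalClosure_normal, ⟨Rnew R w id x y z, ?_, ?_, hLF', hG', rfl⟩, ?_⟩
  · apply Subgroup.normalClosure_mono
    rw [Rnew_id]
    exact Set.image_mono Set.subset_union_left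
  · rw [Rnew_id]
    exact hR.union (Set.finite_singleton _)
  · rw [Rnew_id]
    rintro r (hr | hr)
    · exact hs r hr
    · rw [Set.mem_singleton_iff] at hr
      subst hr
      exact sum_Tw w _ _ _ hsum
  · refine ⟨x, y, z, ?_⟩
    have h1 : ev (αF ℤ) (Tw w x y z) ∈
        Subgroup.normalClosure (ev (αF ℤ) '' (Rnew R w id x y z)) := by
      apply Subgroup.subset_normalClosure
      refine ⟨_, ?_, rfl⟩
      rw [Rnew_id]
      exact Set.mem_union_right _ rfl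
    have h2 := Subgroup.normalClosure_normal.conj_mem _ h1 (ev (αF ℤ) w)⁻¹
    have e : (ev (αF ℤ) w)⁻¹ * ev (αF ℤ) (Tw w x y z) * (ev (αF ℤ) w)⁻¹⁻¹ =
        (ev (αF ℤ) w)⁻¹ * (gen true ^ x * gen false ^ y * gen true ^ z) := by
      rw [Tw, ev_append, ev_winv, gen_zpow, gen_zpow, gen_zpow]
      simp only [ev, List.map_cons, List.map_nil, List.prod_cons, List.prod_nil]
      group
    rw [e] at h2
    exact h2

theorem main_of_stmts (hPres : PresStmt) (hLF : LFnewStmt) (hGeom : GeomStmt) (hPL : PLamStmt) :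
    ∃ (G : Type) (_ : Group G) (A B : Subgroup G), IsCyclic A ∧ IsCyclic B ∧
      (∀ g : G, ∃ x ∈ A, ∃ y ∈ B, ∃ z ∈ A, g = x * y * z) ∧ ¬ Group.IsSolvable G :=
  main_of_stmtsF hPres hLF hGeom (fun R g _ hs _ hG hg Λ _ c x y z h1 h2 h3 =>
    hPL R g Λ c x y z hs hG hg h1 h2 h3)

end Pool.Agent.ABA.Asm
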