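import Pool.Agent.Helper94_ABA.Double
import Pool.Agent.Helper70_ABA.LFnew
import Pool.Agent.Helper70_ABA.Inj
import Pool.Agent.Helper17_ABA.Geom
import Pool.Agent.Helper89_ABA.Final

/-! # The theorem from the P-level theorem (MP_d857f1_al)

`PCore` is the only input: for an abstract group `G` in the geometric class and `g` not in `ABA`,
with `G → P` injective, the group `P = ⟨G, u, v, c | …, g = u c v⟩` is in the geometric class. -/

open Filter

namespace Pool.Agent.ABA.Asm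

/-- THE P-LEVEL THEOREM -/
def PCore : Prop := ∀ (G : Type) [Group G] (A B : Subgroup G) (g : G),
  (∀ x ∈ A, ∀ y ∈ A, x * y = y * x) → (∀ x ∈ B, ∀ y ∈ B, x * y = y * x) →
  Geo A B → ¬ IsABA A B g → Function.Injective (Pι A B g) → AM.PData A B g

/-- `G → P` is injective -/
theorem pi_injective {R : Set (Wd ℤ)} {g : Wd ℤ} (hR : R.Finite)
    (hs : ∀ r ∈ R, (r.map Prod.snd).sum = 0)
    (hG : Geo (αP ℤ R true).range (αP ℤ R false).range)
    (hg : ¬ IsABA (αP ℤ R true).range (αP ℤ R false).range (ev (αP ℤ R) g)) (hLF : LF R) :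
    Function.Injective (Pι (αP ℤ R true).range (αP ℤ R false).range (ev (αP ℤ R) g)) := by
  rw [injective_iff_map_eq_one]
  intro x hx
  by_contra hx1
  obtain ⟨e, rfl⟩ := QuotientGroup.mk'_surjective _ x
  obtain ⟨w, rfl⟩ := exists_ev e
  rw [← ev_αP] at hx hx1
  obtain ⟨x₀, h0⟩ := LFS.injStmt R g hR hs hG hg hLF w hx1
  obtain ⟨i, hi⟩ := (grow (g.map Prod.snd).sum x₀).exists
  refine h0 (xs i) (ys (g.map Prod.snd).sum i) (zs i) hi.1 hi.2.1 hi.2.2
    (by rw [xs, ys, zs]; ring) ?_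
  have h1 := congrArg (Pmap R g (AddMonoidHom.id ℤ) (xs i) (ys (g.map Prod.snd).sum i) (zs i)) hx
  rw [Pmap_ι, map_one, Gmap_ev] at h1
  have h2 : wmap (AddMonoidHom.id ℤ) w = w := wmap_id w
  rw [h2] at h1
  exact h1

/-- THE THEOREM from the P-level theorem -/
theorem main_of_PCore (h : PCore) :
    ∃ (G : Type) (_ : Group G) (A B : Subgroup G), IsCyclic A ∧ IsCyclic B ∧
      (∀ g : G, ∃ x ∈ A, ∃ y ∈ B, ∃ z ∈ A, g = x * y * z) ∧ ¬ Group.IsSolvable G := by
  refine main_of_stmtsF presStmt_proved LFS.lfnew geomStmt_proved ?_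
  intro R g hR hs hLF hG hg Λ _ c x y z htf hx hy
  have hP : AM.PData (αP ℤ R true).range (αP ℤ R false).range (ev (αP ℤ R) g) :=
    h _ _ _ _ (rng_comm R true) (rng_comm R false) hG hg (pi_injective hR hs hG hg hLF)
  obtain ⟨Y, _, jP, jL, back, h1, h2, h3, h4, h5, _, _, h8⟩ :=
    AM.plam R g Λ c x y z hs hP htf hx hy
  exact ident R g c x y z jP jL h1 h2 h3 h4 back h5 h8

end Pool.Agent.ABA.Asm
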