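import Pool.Agent.Helper89_ABA.Pln6

/-! # E1 for `P` (MP_d857f1_al, part B) -/

namespace Pool.Agent.ABA.B.H89

open Knd Pool.Agent.ABA Pool.Agent.ABA.B Pool.Agent.ABA.B.TG Pool.Agent.ABA.B.H17

variable {G : Type} [Group G] {A B : Subgroup G} {g : G}
variable {hg : ¬ IsABA A B g} {hgeo : Geo A B} {hι : Function.Injective (Pι A B g)}

theorem redb_red' {α β : Type} [DecidableEq β] {f : α → β} {l : List α}
    (h : redb (l.map f) = true) : Red l := by
  have h1 := redb_red _ h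
  rw [red_iff] at h1 ⊢
  intro i hi e
  have := h1 i (by simpa using hi)
  rw [List.getElem_map, List.getElem_map] at this
  exact this (by rw [e])

/-- T-triangle data -/
structure TTri (hg : ¬ IsABA A B g) (hgeo : Geo A B) (hι : Function.Injective (Pι A B g))
    (c0 c1 c2 : Car A B g) (v0 v1 v2 : XV A B g) (e0 e1 e2 : XE A B g) : Prop where
  h0 : SideP hg hgeo hι c0 v2 v0 [e0]
  h1 : SideP hg hgeo hι c1 v0 v1 [e1]
  h2 : SideP hg hgeo hι c2 v1 v2 [e2]
  tri : (XX hg hgeo hι).Tri e0 (xinv e2) (xinv e1)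
  knd : (kndE e0 = um ∧ kndE e1 = vm) ∨ (kndE e0 = vp ∧ kndE e1 = up)

theorem TTri.tri' {c0 c1 c2 : Car A B g} {v0 v1 v2 : XV A B g} {e0 e1 e2 : XE A B g}
    (h : TTri hg hgeo hι c0 c1 c2 v0 v1 v2 e0 e1 e2) :
    (XX hg hgeo hι).Tri e1 (xinv e0) (xinv e2) := by
  -- Tri (inv e'') (inv e) e'
  have h1 := (XX hg hgeo hι).tri_rot h.tri
  have h2 := (XX hg hgeo hι).tri_rot h1
  have e1' : (XX hg hgeo hι).inv (xinv e1) = e1 := (XX hg hgeo hι).inv_inv e1
  have e2' : (XX hg hgeo hι).inv ((XX hg hgeo hι).inv (xinv e2)) = xinv e2 :=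
    (XX hg hgeo hι).inv_inv _
  rw [e1', e2'] at h2
  exact h2

theorem xinv_xinv (hg : ¬ IsABA A B g) (hgeo : Geo A B) (hι : Function.Injective (Pι A B g))
    (e : XE A B g) : xinv (xinv e) = e := (XX hg hgeo hι).inv_inv e

/-- sources at `v0` -/
theorem TTri.src {c0 c1 c2 : Car A B g} {v0 v1 v2 : XV A B g} {e0 e1 e2 : XE A B g}
    (h : TTri hg hgeo hι c0 c1 c2 v0 v1 v2 e0 e1 e2) :
    xsrc (xinv e0) = v0 ∧ xsrc e1 = v0 ∧ car (xinv e0) = c0 ∧ car e1 = c1 ∧ car e2 = c2 := by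
  refine ⟨h.h0.1.2, h.h1.1.1, ?_, h.h1.2 _ (by simp), h.h2.2 _ (by simp)⟩
  rw [car_inv]; exact h.h0.2 _ (by simp)

theorem TTri.knd' {c0 c1 c2 : Car A B g} {v0 v1 v2 : XV A B g} {e0 e1 e2 : XE A B g}
    (h : TTri hg hgeo hι c0 c1 c2 v0 v1 v2 e0 e1 e2) :
    (kndE (xinv e0) = up ∧ kndE e1 = vm) ∨ (kndE (xinv e0) = vm ∧ kndE e1 = up) := by
  rw [kndE_xinv]
  rcases h.knd with ⟨h1, h2⟩ | ⟨h1, h2⟩
  · exact Or.inl ⟨by rw [h1]; rfl, h2⟩
  · exact Or.inr ⟨by rw [h1]; rfl, h2⟩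

theorem TTri.cor {c0 c1 c2 : Car A B g} {v0 v1 v2 : XV A B g} {e0 e1 e2 : XE A B g}
    (h : TTri hg hgeo hι c0 c1 c2 v0 v1 v2 e0 e1 e2) :
    (XX hg hgeo hι).Cor (xinv e0) e1 := cor_symm' ⟨_, h.tri'⟩

/-- three carriers plane, plane, line with three different vertices -/
theorem three_PPL (hA : ∀ x ∈ A, ∀ y ∈ A, x * y = y * x) (M : Mods) (hSC : (XX hg hgeo hι).SC)
    {q0 q1 q2 : PP A B g} (k01 : (plane q0 : Car A B g) ≠ plane q1)
    {v0 v1 v2 : XV A B g} (o00 : On (plane q0) v0) (o10 : On (plane q1) v0)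
    (o11 : On (plane q1) v1) (o21 : On (line q2) v1)
    (o22 : On (line q2) v2) (o02 : On (plane q0) v2) :
    (v0 = v1 ∧ v0 = v2) ∨
      ∃ e0 e1 e2, TTri hg hgeo hι (plane q0) (plane q1) (line q2) v0 v1 v2 e0 e1 e2 := by
  have k12 : (plane q1 : Car A B g) ≠ line q2 := plane_ne_line
  have k20 : (line q2 : Car A B g) ≠ plane q0 := fun h => plane_ne_line h.symm
  by_cases d01 : v0 = v1
  · left
    subst d01
    exact ⟨rfl, two_gon hA M hSC k20 o21 o22 o00 o02⟩
  · by_cases d12 : v1 = v2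
    · exfalso
      subst d12
      exact d01 (two_gon hA M hSC k01 o00 o02 o10 o11)
    · by_cases d20 : v2 = v0
      · exfalso
        subst d20
        exact d12 (two_gon hA M hSC k12 o11 o10 o21 o22)
      · right
        obtain ⟨s0, s1, s2, n0, n1, n2, a, W, I, h⟩ := gon3 hA M hSC k01 k12 k20 o00 o10 o11 o21
          o22 o02 d01 d12 d20
        obtain ⟨e0, e1, e2, h0, h1, h2, h3, h4⟩ := PPL_tri hA h
        exact ⟨e0, e1, e2, h0, h1, h2, h3, h4⟩

/-- line, line, anything: the three vertices coincide -/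
theorem three_LLX (hA : ∀ x ∈ A, ∀ y ∈ A, x * y = y * x) (M : Mods) (hSC : (XX hg hgeo hι).SC)
    {q0 q1 : PP A B g} {c2 : Car A B g} (k01 : (line q0 : Car A B g) ≠ line q1)
    (k12 : line q1 ≠ c2) (k20 : c2 ≠ line q0)
    {v0 v1 v2 : XV A B g} (o00 : On (line q0) v0) (o10 : On (line q1) v0)
    (o11 : On (line q1) v1) (o21 : On c2 v1)
    (o22 : On c2 v2) (o02 : On (line q0) v2) : v0 = v1 ∧ v0 = v2 := by
  by_cases d01 : v0 = v1
  · subst d01
    exact ⟨rfl, two_gon hA M hSC k20 o21 o22 o00 o02⟩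
  · by_cases d12 : v1 = v2
    · exfalso
      subst d12
      exact d01 (two_gon hA M hSC k01 o00 o02 o10 o11)
    · by_cases d20 : v2 = v0
      · exfalso
        subst d20
        exact d12 (two_gon hA M hSC k12 o11 o10 o21 o22)
      · exfalso
        obtain ⟨s0, s1, s2, n0, n1, n2, a, W, I, h⟩ := gon3 hA M hSC k01 k12 k20 o00 o10 o11 o21
          o22 o02 d01 d12 d20
        exact no_LLX hA h

/-- two T-triangles at the same vertex on the same two planes have the same line -/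
theorem TTri.uniq (hA : ∀ x ∈ A, ∀ y ∈ A, x * y = y * x) {q0 q1 : PP A B g} {c2 c2' : Car A B g}
    {v0 v1 v2 v1' v2' : XV A B g} {e0 e1 e2 e0' e1' e2' : XE A B g}
    (h : TTri hg hgeo hι (plane q0) (plane q1) c2 v0 v1 v2 e0 e1 e2)
    (h' : TTri hg hgeo hι (plane q0) (plane q1) c2' v0 v1' v2' e0' e1' e2') : c2 = c2' := by
  obtain ⟨s0, s1, k0, k1, k2⟩ := h.src
  obtain ⟨s0', s1', k0', k1', k2'⟩ := h'.src
  obtain ⟨m0, p0, he0⟩ := plane_letter k0
  obtain ⟨m1, p1, he1⟩ := plane_letter k1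
  obtain ⟨m0', h0'⟩ : ∃ m, xinv e0' = eA m p0 := by
    refine (InF_iff_car' (m := m0) hι ?_).2 ?_
    · rw [← he0, s0, s0']
    · rw [← he0, k0, k0']
  obtain ⟨m1', h1'⟩ : ∃ m, e1' = eA m p1 := by
    refine (InF_iff_car' (m := m1) hι ?_).2 ?_
    · rw [← he1, s1, s1']
    · rw [← he1, k1, k1']
  have hk := h.knd'
  have hk' := h'.knd'
  have same : xinv e0 = xinv e0' → e1 = e1' → c2 = c2' := by
    intro j0 j1
    have t1 := h.tri'
    have t2 := h'.tri'
    rw [← j0, ← j1] at t2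
    have t3 := (XX hg hgeo hι).tri_uniq t1 t2
    rw [← k2, ← k2', ← xinv_xinv hg hgeo hι e2, t3, xinv_xinv hg hgeo hι]
  rw [he0, he1, kndE_eA, kndE_eA] at hk
  rw [h0', h1', kndE_eA, kndE_eA] at hk'
  have hU : ∀ m, kndD m = up → m = .U := fun m hm => kndD_inj hm
  have hV : ∀ m, kndD m = vm → m = .V' := fun m hm => kndD_inj hm
  -- the bad pattern
  have bad : ∀ p p' : PP A B g, (XX hg hgeo hι).Cor (eA .U p) (eA .V' p') →
      (XX hg hgeo hι).Cor (eA .U p') (eA .V' p) → False := by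
    intro p p' c1 c2
    have h1 := link_X hg hgeo hι hA [eA .U p, eA .V' p', eA .W' p', eA .U p', eA .V' p, eA .W' p]
      (by simp) (by
        simp only [List.take_succ_cons, List.take_zero, List.cons_append, List.nil_append,
          List.isChain_cons_cons, List.isChain_singleton, and_true]
        exact ⟨c1, cor_nxt .V' p', cor_nxt .W' p', c2, cor_nxt .V' p, cor_nxt .W' p⟩) (by
        apply redb_red' (f := kndE)
        change redb [up, vm, wm, up, vm, wm, up, vm] = true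
        decide)
    rcases h1.2 with h2 | h2
    · simp only [cw, List.take_succ_cons, List.take_zero, List.cons_append, List.nil_append, ow, θR,
        kndE_eA, kndD, wt] at h2
      norm_num at h2
    · revert h2
      simp only [List.map_cons, List.map_nil, kndE_eA, kndD]
      decide
  rcases hk with ⟨a1, a2⟩ | ⟨a1, a2⟩ <;> rcases hk' with ⟨b1, b2⟩ | ⟨b1, b2⟩
  · apply same
    · rw [he0, h0', hU _ a1, hU _ b1]
    · rw [he1, h1', hV _ a2, hV _ b2]
  · exfalso
    refine bad p0 p1 ?_ ?_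
    · have := h.cor
      rw [he0, he1, hU _ a1, hV _ a2] at this
      exact this
    · have := cor_symm' h'.cor
      rw [h0', h1', hV _ b1, hU _ b2] at this
      exact this
  · exfalso
    refine bad p1 p0 ?_ ?_
    · have := cor_symm' h.cor
      rw [he0, he1, hV _ a1, hU _ a2] at this
      exact this
    · have := h'.cor
      rw [h0', h1', hU _ b1, hV _ b2] at this
      exact this
  · apply same
    · rw [he0, h0', hV _ a1, hV _ b1]
    · rw [he1, h1', hU _ a2, hU _ b2]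

/-- no O-corner between planes exchanged by a rotation about a line -/
theorem no_O (hι : Function.Injective (Pι A B g)) {p : PP A B g} {b : G} (hb : b ∈ B)
    {e e' : XE A B g} (hc : (XX hg hgeo hι).Cor e e') (hs : xsrc e = vx p)
    (hk : kndE e = up) (hk' : kndE e' = vm)
    (h : (car e = plane p ∧ car e' = plane (p * Pι A B g b)) ∨
      (car e' = plane p ∧ car e = plane (p * Pι A B g b))) : False := by
  obtain ⟨y, rfl, rfl⟩ := cor_up_vm hc hs hk hk'
  simp only [car_eA, plane_eq] at h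
  apply hg
  rcases h with ⟨h1, h2⟩ | ⟨h1, h2⟩
  · rw [mul_inv_rev, inv_mul_cancel_right, ← map_inv, ι_PA hι] at h1
    have h3 : Pι A B g ((y * g)⁻¹ * b) ∈ PA A B g := by
      rw [map_mul, map_inv]
      have e : (p * Pι A B g (y * g))⁻¹ * (p * Pι A B g b) =
        (Pι A B g (y * g))⁻¹ * Pι A B g b := by group
      rw [← e]; exact h2
    rw [ι_PA hι] at h3
    -- g = y⁻¹ b (…)⁻¹
    refine ⟨y⁻¹, h1, b, hb, ((y * g)⁻¹ * b)⁻¹, A.inv_mem h3, ?_⟩
    group
  · rw [mul_inv_rev, inv_mul_cancel_right, ← map_inv, ι_PA hι] at h1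
    have h3 : Pι A B g (y⁻¹ * b) ∈ PA A B g := by
      rw [map_mul, map_inv]
      have e : (p * Pι A B g y)⁻¹ * (p * Pι A B g b) =
        (Pι A B g y)⁻¹ * Pι A B g b := by group
      rw [← e]; exact h2
    rw [ι_PA hι] at h3
    -- y = b z⁻¹, g = y⁻¹ (y g)
    refine ⟨y⁻¹ * b, h3, b⁻¹, B.inv_mem hb, ((y * g)⁻¹)⁻¹, A.inv_mem h1, ?_⟩
    group

/-- E1 for `P` -/
theorem field_e1 (hA : ∀ x ∈ A, ∀ y ∈ A, x * y = y * x) (M : Mods) (hSC : (XX hg hgeo hι).SC)
    (hab : ∀ x ∈ PA A B g, x ∈ PB A B g → x = 1) :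
    ∀ x ∈ PA A B g, ∀ y ∈ PB A B g, ∀ x' ∈ PA A B g, ∀ y' ∈ PB A B g, x ≠ 1 → y ≠ 1 → x' ≠ 1 →
      y' ≠ 1 → x * y * x' * y' ≠ 1 := by
  intro x hx y hy x' hx' y' hy' nx ny nx' ny' hrel
  have hy'e : x * y * x' = y'⁻¹ := eq_inv_of_mul_eq_one_left hrel
  -- carriers
  have kF : (plane 1 : Car A B g) ≠ plane (x * y) := by
    intro h
    rw [plane_eq, inv_one, one_mul] at h
    have h1 : y ∈ PA A B g := by
      have := Subgroup.mul_mem _ (Subgroup.inv_mem _ hx) h
      rwa [inv_mul_cancel_left] at this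
    exact ny (hab y h1 hy)
  have kL : (line x : Car A B g) ≠ line 1 := by
    intro h
    rw [line_eq, mul_one] at h
    exact nx (hab x hx ((Subgroup.inv_mem_iff _).1 h))
  have pF : (plane 1 : Car A B g) = plane x := by rw [plane_eq, inv_one, one_mul]; exact hx
  have pF' : (plane (x * y) : Car A B g) = plane (x * y * x') := by
    rw [plane_eq, inv_mul_cancel_left]; exact hx'
  have pL' : (line x : Car A B g) = line (x * y) := by
    rw [line_eq, inv_mul_cancel_left]; exact hy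
  have pL : (line 1 : Car A B g) = line (x * y * x') := by
    rw [line_eq, inv_one, one_mul, hy'e]; exact Subgroup.inv_mem _ hy'
  have oF1 : On (plane 1 : Car A B g) (vx 1) := ⟨1, rfl, Or.inl rfl⟩
  have oFx : On (plane 1 : Car A B g) (vx x) := ⟨x, rfl, Or.inl pF⟩
  have oL'x : On (line x : Car A B g) (vx x) := ⟨x, rfl, Or.inr rfl⟩
  have oL'y : On (line x : Car A B g) (vx (x * y)) := ⟨_, rfl, Or.inr pL'⟩
  have oF'y : On (plane (x * y) : Car A B g) (vx (x * y)) := ⟨_, rfl, Or.inl rfl⟩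
  have oF'x' : On (plane (x * y) : Car A B g) (vx (x * y * x')) := ⟨_, rfl, Or.inl pF'⟩
  have oLx' : On (line 1 : Car A B g) (vx (x * y * x')) := ⟨_, rfl, Or.inr pL⟩
  have oL1 : On (line 1 : Car A B g) (vx 1) := ⟨1, rfl, Or.inr rfl⟩
  by_cases hFF : ∃ r, On (plane 1 : Car A B g) r ∧ On (plane (x * y)) r
  · obtain ⟨r, hr, hr'⟩ := hFF
    -- triangle 1: F, F', L'
    have T1 := three_PPL hA M hSC kF hr hr' oF'y oL'y oL'x oFx
    have T2 := three_PPL hA M hSC kF hr hr' oF'x' oLx' oL1 oF1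
    rcases T1 with ⟨r1, r2⟩ | ⟨e0, e1, e2, T1⟩
    · rcases T2 with ⟨r3, r4⟩ | ⟨e0', e1', e2', T2⟩
      · -- everything at one vertex
        obtain ⟨a, ha⟩ := vx_eq.1 (r4.symm.trans r2)
        rw [one_mul] at ha
        obtain ⟨b, hb⟩ := vx_eq.1 (r2.symm.trans r1)
        have hb' : y = Pι A B g b := mul_left_cancel hb
        obtain ⟨d, hd⟩ := vx_eq.1 (r4.symm.trans r3)
        rw [one_mul] at hd
        have hy2 : y' = Pι A B g d⁻¹ := by
          rw [map_inv, ← hd, hy'e]; exact (_root_.inv_inv y').symm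
        have hx2 : x' = Pι A B g ((a * b)⁻¹ * d) := by
          rw [map_mul, map_inv, map_mul, ← ha, ← hb', ← hd]
          group
        have ha1 : a ∈ A := by rw [← ι_PA (B := B) (g := g) hι, ← ha]; exact hx
        have hb1 : b ∈ B := by rw [← ι_PB (A := A) (g := g) hι, ← hb']; exact hy
        have hd1 : d⁻¹ ∈ B := by rw [← ι_PB (A := A) (g := g) hι, ← hy2]; exact hy'
        have hx1 : (a * b)⁻¹ * d ∈ A := by rw [← ι_PA (B := B) (g := g) hι, ← hx2]; exact hx'
        refine hgeo.e1 a ha1 b hb1 _ hx1 _ hd1 ?_ ?_ ?_ ?_ ?_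
        · rintro rfl; exact nx (by rw [ha, map_one])
        · rintro rfl; exact ny (by rw [hb', map_one])
        · intro h; exact nx' (by rw [hx2, h, map_one])
        · intro h; exact ny' (by rw [hy2, h, map_one])
        · group
      · -- triangle 1 degenerate
        obtain ⟨b, hb⟩ := vx_eq.1 (r2.symm.trans r1)
        have hb' : y = Pι A B g b := mul_left_cancel hb
        have hb1 : b ∈ B := by rw [← ι_PB (A := A) (g := g) hι, ← hb']; exact hy
        obtain ⟨s0, s1, k0, k1, k2⟩ := T2.src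
        rw [pF] at k0
        rw [hb] at k1
        rcases T2.knd' with ⟨j0, j1⟩ | ⟨j0, j1⟩
        · exact no_O hι hb1 T2.cor (by rw [s0, r2]) j0 j1 (Or.inl ⟨k0, k1⟩)
        · exact no_O hι hb1 (cor_symm' T2.cor) (by rw [s1, r2]) j1 j0 (Or.inr ⟨k0, k1⟩)
    · rcases T2 with ⟨r3, r4⟩ | ⟨e0', e1', e2', T2⟩
      · -- triangle 2 degenerate
        obtain ⟨d, hd⟩ := vx_eq.1 (r4.symm.trans r3)
        have hd1 : d ∈ B := by
          rw [← ι_PB (A := A) (g := g) hι]
          rw [one_mul] at hd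
          rw [← hd, hy'e]
          exact Subgroup.inv_mem _ hy'
        obtain ⟨s0, s1, k0, k1, k2⟩ := T1.src
        rw [pF', hd] at k1
        rcases T1.knd' with ⟨j0, j1⟩ | ⟨j0, j1⟩
        · exact no_O hι hd1 T1.cor (by rw [s0, r4]) j0 j1 (Or.inl ⟨k0, k1⟩)
        · exact no_O hι hd1 (cor_symm' T1.cor) (by rw [s1, r4]) j1 j0 (Or.inr ⟨k0, k1⟩)
      · exact kL (TTri.uniq hA T1 T2)
  · have hFF' : ∀ r, On (plane 1 : Car A B g) r → On (plane (x * y)) r → False :=
      fun r h1 h2 => hFF ⟨r, h1, h2⟩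
    by_cases hLL : ∃ r, On (line x : Car A B g) r ∧ On (line 1) r
    · obtain ⟨r, hr, hr'⟩ := hLL
      have T1 := three_LLX hA M hSC (c2 := plane 1) kL (fun h => plane_ne_line h.symm)
        plane_ne_line hr hr' oL1 oF1 oFx oL'x
      have T2 := three_LLX hA M hSC (c2 := plane (x * y)) kL (fun h => plane_ne_line h.symm)
        plane_ne_line hr hr' oLx' oF'x' oF'y oL'y
      apply hFF' r
      · rw [T1.1]; exact oF1
      · rw [T2.1]; exact oF'x'
    · obtain ⟨s0, s1, s2, s3, n0, n1, n2, n3, a, W, I, h⟩ := gon4 hA M hSC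
        (c0 := plane 1) (c1 := line x) (c2 := plane (x * y)) (c3 := line 1)
        plane_ne_line (fun h => plane_ne_line h.symm) plane_ne_line (fun h => plane_ne_line h.symm)
        oFx oL'x oL'y oF'y oF'x' oLx' oL1 oF1 hFF' (fun r h1 h2 => hLL ⟨r, h1, h2⟩)
      exact no_PLPL hA h

end Pool.Agent.ABA.B.H89
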