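import Pool.Agent.Helper17_ABA.Bdy

/-!
The boundary data of a minimal disc with the areas of the pushed words (adapted from helper17's
Bdy.lean) (MP_d857f1_al, part B).
-/

set_option autoImplicit false

namespace Pool.Agent.ABA.B.H89

open Pool.Agent.ABA.B Pool.Agent.ABA.B.TG Pool.Agent.ABA.B.H17

variable {V E : Type} (S : TG V E)

/-- Cyclic boundary data of the minimal disc of `w`; pushing a letter through its triangle drops the
area. -/
structure BdA (w : List E) (a : ℕ → E) (W : ℕ → List E) (I : List (List E)) : Prop extends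
    Bd S w.length a W I where
  get : ∀ i (h : i < w.length), a i = w[i]
  drop : ∀ i (h : i < w.length), ∃ f1 f2 l r, S.Tri w[i] f1 f2 ∧ W i = l ++ [f1, w[i]] ∧
    W (i + 1) = S.inv w[i] :: S.inv f2 :: r ∧
    S.ar (w.take i ++ f1 :: f2 :: w.drop (i + 1)) + 1 ≤ S.ar w

variable {S}

theorem bdyA (M : Mods) (hSC : S.SC) (w : List E) (hcl : S.Cl w) (hpf : S.PF w)
    (hw0 : w ≠ []) (hnb : ∀ e, w ≠ [S.inv e, e]) :
    ∃ (a : ℕ → E) (W : ℕ → List E) (I : List (List E)), BdA S w a W I := by
  obtain ⟨e0, α, rfl⟩ : ∃ e0 α, w = e0 :: α := by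
    cases w with
    | nil => exact absurd rfl hw0
    | cons e0 α => exact ⟨e0, α, rfl⟩
  obtain ⟨e, rfl⟩ : ∃ e, e0 = S.inv e := ⟨S.inv e0, by simp⟩
  obtain ⟨X, Y, J, I, hNS⟩ := M.nsx V E S hSC e α hcl hpf
  obtain ⟨r1, r2, r3, r4⟩ := M.mir V E S hSC e α X Y J I hNS
  obtain ⟨b1, b2, b3, b4, b5, b6, b7, b8, b9, b10, b11⟩ := M.nsb _ _ _ _ _ _ _ _ _ _ hNS
  have hn : S.ar (S.inv e :: α) ≠ 0 := by
    intro h
    have h1 := (b5 h).1
    exact hnb e (by rw [h1])
  haveI : Inhabited E := ⟨e⟩
  haveI : Inhabited (List E) := ⟨[]⟩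
  obtain ⟨WL, hWL⟩ : ∃ WL, WL = Y.reverse :: X :: J := ⟨_, rfl⟩
  have hWLlen : WL.length = (S.inv e :: α).length := by
    rw [hWL]
    simp only [List.length_cons]
    omega
  -- area drops
  have hdrop : ∀ (x : V) (u : List E), S.D x u (S.ar (S.inv e :: α) - 1) →
      S.ar u + 1 ≤ S.ar (S.inv e :: α) := by
    intro x u hu
    have h1 := (M.area V E S hSC).2.1 x u _ hu
    omega
  -- edges, as a statement about lists
  have hroot := H56.root M.ins M.rot M.nsb hNS hn
  have hletter := H56.letter M.ins M.rot M.nsb hNS hn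
  have hedg : ∀ i, i < WL.length → ∃ f1 f2 l r, S.Tri (cyc (S.inv e :: α) i) f1 f2 ∧
      cyc WL i = l ++ [f1, cyc (S.inv e :: α) i] ∧
      cyc WL (i + 1) = S.inv (cyc (S.inv e :: α) i) :: S.inv f2 :: r ∧
      S.ar ((S.inv e :: α).take i ++ f1 :: f2 :: (S.inv e :: α).drop (i + 1)) + 1 ≤
        S.ar (S.inv e :: α) := by
    intro i hi
    rw [hWLlen] at hi
    cases i with
    | zero =>
      obtain ⟨f', f'', X0, Y0, hT, hX, hY, hDr⟩ := hroot
      have c0 : cyc (S.inv e :: α) 0 = S.inv e := by rw [cyc_of_lt _ 0 hi]; rfl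
      have c1 : cyc WL 0 = Y.reverse := by
        rw [cyc_of_lt _ 0 (by rw [hWLlen]; exact hi)]
        simp only [hWL, List.getElem_cons_zero]
      have c2 : cyc WL (0 + 1) = X := by
        rw [cyc_of_lt _ (0 + 1) (by rw [hWL]; simp)]
        simp only [hWL, zero_add, List.getElem_cons_succ, List.getElem_cons_zero]
      rw [c0, c1, c2, hX, hY]
      refine ⟨S.inv f'', S.inv f', Y0.reverse, X0, H56.tri1 hT, ?_, ?_, ?_⟩
      · simp
      · rw [S.inv_inv, S.inv_inv]
      · exact hdrop _ _ (by simpa using hDr)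
    | succ i =>
      have hi' : i < α.length := by
        simp only [List.length_cons] at hi
        omega
      have hsplit : α = α.take i ++ α[i] :: α.drop (i + 1) := by
        conv_lhs => rw [← List.take_append_drop i α, List.drop_eq_getElem_cons hi']
      obtain ⟨f1, f2, l, r, hT, hDr, hW1, hW2⟩ := hletter (α.take i) α[i] (α.drop (i + 1)) hsplit
      have c0 : cyc (S.inv e :: α) (i + 1) = α[i] := by rw [cyc_of_lt _ _ hi]; rfl
      have hti : (α.take i).length = i := by
        rw [List.length_take]; omega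
      rw [hti] at hW1 hW2
      have c1 : cyc WL (i + 1) = l ++ [f1, α[i]] := by
        rw [cyc_of_lt _ _ (by rw [hWLlen]; exact hi)]
        have h1 : WL[i + 1]? = (X :: J ++ [Y.reverse])[i]? := by
          rw [hWL, List.getElem?_cons_succ, List.getElem?_append_left]
          simp only [List.length_cons]
          omega
        rw [hW1] at h1
        exact (List.getElem?_eq_some_iff.1 h1).2
      have c2 : cyc WL (i + 1 + 1) = S.inv α[i] :: S.inv f2 :: r := by
        by_cases hl : i + 1 + 1 < WL.length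
        · rw [cyc_of_lt _ _ hl]
          have h1 : WL[i + 1 + 1]? = (X :: J ++ [Y.reverse])[i + 1]? := by
            rw [hWL, List.getElem?_cons_succ, List.getElem?_append_left]
            rw [hWL] at hl
            simp only [List.length_cons] at hl ⊢
            omega
          rw [hW2] at h1
          exact (List.getElem?_eq_some_iff.1 h1).2
        · have h2 : i + 1 + 1 = WL.length := by
            rw [hWLlen] at hl ⊢
            omega
          have h3 : cyc WL (i + 1 + 1) = cyc WL 0 := by
            rw [h2]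
            have := cyc_per WL 0
            rwa [zero_add] at this
          have h4 : cyc WL 0 = Y.reverse := by
            rw [cyc_of_lt _ 0 (by omega)]
            simp only [hWL, List.getElem_cons_zero]
          rw [h3, h4]
          have h5 : i + 1 = (X :: J).length := by
            rw [hWL] at h2
            simp only [List.length_cons] at h2 ⊢
            omega
          rw [h5, List.getElem?_append_right le_rfl] at hW2
          simpa using hW2
      rw [c0, c1, c2]
      exact ⟨f1, f2, l, r, hT, rfl, rfl, hdrop _ _ (by simpa using hDr)⟩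
  have hmem : ∀ i, cyc WL i ∈ WL := by
    intro i
    have h1 : i % WL.length < WL.length := Nat.mod_lt _ (by rw [hWLlen]; simp)
    have h2 : cyc WL i = WL[i % WL.length] := by
      unfold cyc
      rw [List.getD_eq_getElem?_getD, List.getElem?_eq_getElem h1]
      rfl
    rw [h2]
    exact List.getElem_mem _
  have hmod : ∀ {A : Type} [Inhabited A] (w : List A) (i : ℕ), cyc w (i % w.length) = cyc w i := by
    intro A _ w i
    unfold cyc
    rw [Nat.mod_mod]
  have hedg' : ∀ i, ∃ f1 f2 l r, S.Tri (cyc (S.inv e :: α) i) f1 f2 ∧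
      cyc WL i = l ++ [f1, cyc (S.inv e :: α) i] ∧
      cyc WL (i + 1) = S.inv (cyc (S.inv e :: α) i) :: S.inv f2 :: r := by
    intro i
    have h1 : i % WL.length < WL.length := Nat.mod_lt _ (by rw [hWLlen]; simp)
    obtain ⟨f1, f2, l, r, hT, hW1, hW2, -⟩ := hedg _ h1
    have h2 : cyc (S.inv e :: α) (i % WL.length) = cyc (S.inv e :: α) i := by
      rw [hWLlen]
      exact hmod _ i
    have h3 : cyc WL (i % WL.length + 1) = cyc WL (i + 1) := by
      unfold cyc
      rw [Nat.mod_add_mod]
    rw [h2, h3] at hW2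
    rw [h2, hmod] at hW1
    rw [h2] at hT
    exact ⟨f1, f2, l, r, hT, hW1, hW2⟩
  have hchain : ∀ i, (cyc WL i).IsChain S.Cor := by
    intro i
    have h1 := hmem i
    rw [hWL, List.mem_cons, List.mem_cons] at h1
    rw [← hWL] at h1
    rcases h1 with h1 | h1 | h1
    · rw [h1, List.isChain_reverse]
      refine b8.2.2.imp ?_
      intro x y hxy
      obtain ⟨c, hc⟩ := hxy
      exact ⟨_, S.tri_swap hc⟩
    · rw [h1]
      exact b7.2.2
    · exact b9 _ h1
  refine ⟨cyc (S.inv e :: α), cyc WL, I, ⟨⟨cyc_per _, ?_, ?_, hedg', hchain, ?_, ?_, ?_⟩,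
    fun i hi => cyc_of_lt _ i hi, ?_⟩⟩
  · intro i
    rw [← hWLlen]
    exact cyc_per _ i
  · intro i
    obtain ⟨f1, f2, l, r, hT, hW1, hW2⟩ := hedg' i
    obtain ⟨g1, g2, l', r', hT', hW1', hW2'⟩ := hedg' (i + 1)
    have h1 := hchain (i + 1)
    have h2 : cyc (S.inv e :: α) (i + 1) ∈ cyc WL (i + 1) := by
      rw [hW1']
      simp
    rw [hW2] at h1 h2
    have h3 := src_chain h1 _ h2
    rw [h3, src_inv]
  · intro i
    have h1 := hmem i
    rw [hWL, List.mem_cons, List.mem_cons] at h1
    rw [← hWL] at h1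
    rcases h1 with h1 | h1 | h1
    · rw [h1]
      exact H56.red_reverse r2
    · rw [h1]
      exact r1
    · exact r3 _ h1
  · intro v hv
    exact ⟨(b11 v hv).1, (b11 v hv).2, r4 v hv⟩
  · intro θ hθ
    have h1 := M.gb V E S θ hθ e α _ X Y J I hNS
    have h2 := sum_cyc WL (fun v => 3 - ow θ v)
    rw [hWLlen] at h2
    rw [h2, hWL, List.map_cons, List.map_cons, List.sum_cons, List.sum_cons,
      H31.ow_reverse hθ.symm]
    linarith
  · intro i hi
    obtain ⟨f1, f2, l, r, hT, hW1, hW2, hd⟩ := hedg i (by rw [hWLlen]; exact hi)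
    rw [cyc_of_lt _ i hi] at hT hW1 hW2
    exact ⟨f1, f2, l, r, hT, hW1, hW2, hd⟩


end Pool.Agent.ABA.B.H89
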