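import Pool.Agent.Helper17_ABA.Dst
import Pool.Agent.Helper17_ABA.Mask

/-! # Holonomy words (MP_d857f1_al, part B)

`Lp S x w h ms`: `w` is a path from `x` to `h • x` which runs around a planar tree with the marks
`ms` (product `h`) at its vertices. -/

namespace Pool.Agent.ABA.B.H89

open Pool.Agent.ABA.B Pool.Agent.ABA.B.TG Pool.Agent.ABA.B.H17

variable {V E : Type} {S : TG V E} {H : Type} [Group H] [MulAction H V] [MulAction H E]

/-- the translate of a word -/
def mv (h : H) (w : List E) : List E := w.map (fun e => h • e)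

@[simp] theorem mv_nil (h : H) : mv h ([] : List E) = [] := rfl
@[simp] theorem mv_cons (h : H) (e : E) (w : List E) : mv h (e :: w) = h • e :: mv h w := rfl
@[simp] theorem mv_append (h : H) (w w' : List E) : mv h (w ++ w') = mv h w ++ mv h w' := by
  simp [mv]
@[simp] theorem mv_length (h : H) (w : List E) : (mv h w).length = w.length := by simp [mv]
@[simp] theorem mv_one (w : List E) : mv (1 : H) w = w := by simp [mv]
theorem mv_mul (h k : H) (w : List E) : mv (h * k) w = mv h (mv k w) := by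
  simp [mv, mul_smul]
theorem mv_inv_mv (h : H) (w : List E) : mv h⁻¹ (mv h w) = w := by rw [← mv_mul]; simp
theorem mv_mv_inv (h : H) (w : List E) : mv h (mv h⁻¹ w) = w := by rw [← mv_mul]; simp
theorem mv_eq_nil {h : H} {w : List E} : mv h w = [] ↔ w = [] := by simp [mv]
theorem mv_inj {h : H} {w w' : List E} (e : mv h w = mv h w') : w = w' := by
  rw [← mv_inv_mv h w, e, mv_inv_mv]

theorem mv_append_inv {h : H} {w a b : List E} (e : mv h w = a ++ b) :
    ∃ a' b', w = a' ++ b' ∧ a = mv h a' ∧ b = mv h b' := by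
  refine ⟨mv h⁻¹ a, mv h⁻¹ b, ?_, (mv_mv_inv _ _).symm, (mv_mv_inv _ _).symm⟩
  apply mv_inj (h := h)
  rw [e, mv_append, mv_mv_inv, mv_mv_inv]

theorem isP_mv (A : GAct S H) (h : H) {x y : V} {w : List E} (hw : S.IsP x w y) :
    S.IsP (h • x) (mv h w) (h • y) := A.isP h hw

theorem tgt_smul (A : GAct S H) (h : H) (e : E) : S.tgt (h • e) = h • S.tgt e := by
  unfold TG.tgt
  rw [A.inv, A.src]

theorem D_mv (A : GAct S H) (h : H) {x : V} {w : List E} {n : ℕ} (hD : S.D x w n) :
    S.D (h • x) (mv h w) n := by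
  induction hD with
  | nil x => exact D.nil _
  | @br e b a m n _ _ ih1 ih2 =>
    rw [← A.src] at ih2 ⊢
    rw [← tgt_smul A] at ih1
    have := D.br ih1 ih2
    rw [A.inv] at this
    simpa using this
  | @tri e e' e'' a n ht _ ih =>
    rw [← A.src] at ih ⊢
    have := D.tri (a := mv h a) (A.tri h ht) (by simpa using ih)
    simpa using this

theorem ar_mv (A : GAct S H) (h : H) (w : List E) : S.ar (mv h w) = S.ar w := by
  have key : ∀ (h : H) (w : List E) (n : ℕ), (∃ x, S.D x w n) → ∃ x, S.D x (mv h w) n := by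
    rintro h w n ⟨x, hx⟩
    exact ⟨_, D_mv A h hx⟩
  unfold TG.ar
  congr 1
  ext n
  constructor
  · intro hn
    have := key h⁻¹ _ _ hn
    rwa [mv_inv_mv] at this
  · exact key h w n

/-- holonomy words -/
inductive Lp (S : TG V E) : V → List E → H → List H → Prop
  | nil (x : V) : Lp S x [] 1 []
  | mark {x : V} {a : H} : a • x = x → Lp S x [] a [a]
  | edge {e : E} {w : List E} {h : H} {ms : List H} : Lp S (S.tgt e) w h ms →
      Lp S (S.src e) (e :: (w ++ [S.inv (h • e)])) h ms
  | app {x : V} {w w' : List E} {h h' : H} {ms ms' : List H} : Lp S x w h ms → Lp S x w' h' ms' →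
      Lp S x (w ++ mv h w') (h * h') (ms ++ ms')

theorem Lp.isP (A : GAct S H) {x : V} {w : List E} {h : H} {ms : List H} (hL : Lp S x w h ms) :
    S.IsP x w (h • x) := by
  induction hL with
  | nil x => exact (one_smul H x).symm
  | mark h => exact h.symm
  | @edge e w h ms _ ih =>
    refine ⟨rfl, isP_append.2 ⟨_, ih, ?_⟩⟩
    refine ⟨?_, ?_⟩
    · rw [src_inv, tgt_smul A]
    · change S.tgt (S.inv (h • e)) = h • S.src e
      rw [tgt_inv, A.src]
  | @app x w w' h h' ms ms' _ _ ih1 ih2 =>
    refine isP_append.2 ⟨_, ih1, ?_⟩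
    rw [mul_smul]
    exact isP_mv A h ih2

theorem Lp.prod {x : V} {w : List E} {h : H} {ms : List H} (hL : Lp S x w h ms) :
    ms.prod = h := by
  induction hL with
  | nil x => rfl
  | mark h => simp
  | edge _ ih => exact ih
  | app _ _ ih1 ih2 => rw [List.prod_append, ih1, ih2]

theorem Lp.even {x : V} {w : List E} {h : H} {ms : List H} (hL : Lp S x w h ms) :
    Even w.length := by
  induction hL with
  | nil x => exact ⟨0, rfl⟩
  | mark h => exact ⟨0, rfl⟩
  | edge _ ih =>
    obtain ⟨k, hk⟩ := ih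
    exact ⟨k + 1, by simp [hk]; omega⟩
  | app _ _ ih1 ih2 =>
    rw [List.length_append, mv_length]
    exact ih1.add ih2

/-- the conjugate of a list -/
def cj (k : H) (ms : List H) : List H := ms.map (fun m => k * m * k⁻¹)

@[simp] theorem cj_nil (k : H) : cj k ([] : List H) = [] := rfl
@[simp] theorem cj_append (k : H) (ms ms' : List H) : cj k (ms ++ ms') = cj k ms ++ cj k ms' := by
  simp [cj]
@[simp] theorem cj_length (k : H) (ms : List H) : (cj k ms).length = ms.length := by simp [cj]

theorem Lp.mv (A : GAct S H) (k : H) {x : V} {w : List E} {h : H} {ms : List H}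
    (hL : Lp S x w h ms) : Lp S (k • x) (mv k w) (k * h * k⁻¹) (cj k ms) := by
  induction hL with
  | nil x =>
    rw [mul_one, mul_inv_cancel]
    exact Lp.nil _
  | @mark x a h =>
    refine Lp.mark ?_
    rw [mul_smul, mul_smul, inv_smul_smul, h]
  | @edge e w h ms _ ih =>
    rw [← A.src]
    rw [← tgt_smul A] at ih
    have := Lp.edge ih
    rw [← mul_smul, inv_mul_cancel_right, mul_smul, A.inv] at this
    simpa using this
  | @app x w w' h h' ms ms' _ _ ih1 ih2 =>
    have := Lp.app ih1 ih2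
    rw [← mv_mul, inv_mul_cancel_right, mv_mul] at this
    have e : k * h * k⁻¹ * (k * h' * k⁻¹) = k * (h * h') * k⁻¹ := by group
    rw [e] at this
    simpa using this

/-- arms -/
theorem Lp.arm {x y : V} {w c : List E} {h : H} {ms : List H}
    (hL : Lp S y w h ms) (hc : S.IsP x c y) :
    Lp S x (c ++ w ++ S.rv (H89.mv h c)) h ms := by
  induction c generalizing x with
  | nil =>
    have : x = y := hc
    subst this
    simpa using hL
  | cons e c ih =>
    obtain ⟨rfl, h2⟩ := hc
    have := Lp.edge (ih h2)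
    simpa using this

/-! ## relations between mark lists -/

/-- `ms'` generates the same subgroup and is obtained by conjugations -/
def MR (ms ms' : List H) : Prop :=
  ms'.length = ms.length ∧ (∀ K : Subgroup H, (∀ m ∈ ms', m ∈ K) → ∀ m ∈ ms, m ∈ K) ∧
    ∀ m' ∈ ms', ∃ m ∈ ms, ∃ k : H, m' = k * m * k⁻¹

theorem MR.refl (ms : List H) : MR ms ms :=
  ⟨rfl, fun _ h => h, fun m hm => ⟨m, hm, 1, by simp⟩⟩

theorem MR.trans {ms ms' ms'' : List H} (h : MR ms ms') (h' : MR ms' ms'') : MR ms ms'' := by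
  refine ⟨h'.1.trans h.1, fun K hK => h.2.1 K (h'.2.1 K hK), ?_⟩
  intro m'' hm''
  obtain ⟨m', hm', k', rfl⟩ := h'.2.2 m'' hm''
  obtain ⟨m, hm, k, rfl⟩ := h.2.2 m' hm'
  exact ⟨m, hm, k' * k, by group⟩

/-- permutations -/
theorem MR.perm {ms ms' : List H} (h : ms.Perm ms') : MR ms ms' :=
  ⟨h.length_eq.symm, fun _ hK m hm => hK m (h.mem_iff.1 hm),
    fun m hm => ⟨m, h.mem_iff.2 hm, 1, by simp⟩⟩

/-- conjugation by an element of the group generated by the list -/
theorem MR.cj {ms ms' : List H} {k : H} (h : MR ms ms')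
    (hk : ∀ K : Subgroup H, (∀ m ∈ ms, m ∈ K) → k ∈ K) : MR ms (H89.cj k ms') := by
  refine ⟨by rw [cj_length]; exact h.1, ?_, ?_⟩
  · intro K hK
    have h1 : ∀ m ∈ ms', m ∈ K.map (MulAut.conj k⁻¹).toMonoidHom := by
      intro m hm
      refine ⟨k * m * k⁻¹, hK _ (List.mem_map_of_mem hm), ?_⟩
      simp
      group
    have h2 := h.2.1 _ h1
    have h3 := hk _ h2
    have h4 : k ∈ K := by
      obtain ⟨k', hk', h5⟩ := h3
      simp at h5
      have h6 : k' = k := (inv_mul_eq_one.1 h5).symm
      rwa [← h6]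
    intro m hm
    obtain ⟨m', hm', h5⟩ := h2 m hm
    simp at h5
    rw [← h5]
    exact K.mul_mem (K.mul_mem (K.inv_mem h4) hm') h4
  · intro m' hm'
    obtain ⟨m'', h1, rfl⟩ := List.mem_map.1 hm'
    obtain ⟨m, hm, k', rfl⟩ := h.2.2 m'' h1
    exact ⟨m, hm, k * k', by group⟩

theorem prod_mem_of {ms : List H} {K : Subgroup H} (h : ∀ m ∈ ms, m ∈ K) : ms.prod ∈ K :=
  Subgroup.list_prod_mem K h

/-! ## rotation -/

/-- rotation with a closing loop -/
theorem Lp.rot' (A : GAct S H) {x : V} {w : List E} {h : H} {ms : List H} (hL : Lp S x w h ms) :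
    ∀ (a b K : List E) (κ : H) (mκ : List H) (r : V), w = a ++ b → Lp S x K κ mκ → S.IsP x a r →
      ∃ ms', Lp S r (b ++ H89.mv h K ++ H89.mv (h * κ) a) (h * κ) ms' ∧ MR (ms ++ mκ) ms' := by
  induction hL with
  | nil x =>
    intro a b K κ mκ r hw hK hr
    obtain ⟨rfl, rfl⟩ := List.append_eq_nil_iff.1 hw.symm
    have : x = r := hr
    subst this
    exact ⟨mκ, by simpa using hK, MR.refl _⟩
  | @mark x a' h =>
    intro a b K κ mκ r hw hK hr
    obtain ⟨rfl, rfl⟩ := List.append_eq_nil_iff.1 hw.symm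
    have : x = r := hr
    subst this
    refine ⟨[a'] ++ mκ, ?_, MR.refl _⟩
    have := Lp.app (Lp.mark (S := S) h) hK
    simpa using this
  | @edge e w h ms hw1 ih =>
    intro a b K κ mκ r hw hK hr
    have hL := Lp.edge hw1
    rcases a with _ | ⟨e', a⟩
    · have : S.src e = r := hr
      subst this
      refine ⟨ms ++ mκ, ?_, MR.refl _⟩
      have := Lp.app hL hK
      rw [hw] at this
      simpa using this
    · rw [List.cons_append, List.cons.injEq] at hw
      obtain ⟨rfl, hw⟩ := hw
      rcases List.eq_nil_or_concat b with rfl | ⟨b', z, rfl⟩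
      · -- everything
        rw [List.append_nil] at hw
        subst hw
        have h1 : r = h • S.src e := hr.eq (hL.isP A)
        subst h1
        refine ⟨H89.cj h (mκ ++ ms), ?_, MR.cj (MR.perm List.perm_append_comm) ?_⟩
        · have := (Lp.app hK hL).mv A h
          have e1 : h * (κ * h) * h⁻¹ = h * κ := by group
          rw [e1, mv_append, ← mv_mul] at this
          simpa using this
        · intro K hK'
          rw [← hL.prod]
          exact prod_mem_of fun m hm => hK' m (List.mem_append_left _ hm)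
      · have hw2 : w = a ++ b' ∧ z = S.inv (h • e) := by
          have e1 : w ++ [S.inv (h • e)] = (a ++ b') ++ [z] := by rw [hw]; simp
          obtain ⟨h1, h2⟩ := List.append_inj' e1 rfl
          exact ⟨h1, (List.cons.inj h2).1.symm⟩
        obtain ⟨hw2, rfl⟩ := hw2
        have hK' : Lp S (S.tgt e) (S.inv e :: (K ++ [S.inv (κ • S.inv e)])) κ mκ := by
          have h1 : S.tgt (S.inv e) = S.src e := tgt_inv S e
          exact Lp.edge (e := S.inv e) (by rw [h1]; exact hK)
        obtain ⟨ms', h1, h2⟩ := ih a b' _ κ mκ r hw2 hK' hr.2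
        refine ⟨ms', ?_, h2⟩
        have e2 : S.inv (κ • S.inv e) = κ • e := by rw [← A.inv, S.inv_inv]
        rw [e2] at h1
        have e3 : h • S.inv e = S.inv (h • e) := (A.inv h e).symm
        simp only [mv_cons, mv_append, mv_nil, e3, ← mul_smul] at h1
        simpa using h1
  | @app x w1 w2 h1 h2 ms1 ms2 hw1 hw2 ih1 ih2 =>
    intro a b K κ mκ r hw hK hr
    rcases List.append_eq_append_iff.1 hw with ⟨c, rfl, hc⟩ | ⟨c, rfl, rfl⟩
    · -- in the second part
      obtain ⟨a2, b2, rfl, rfl, rfl⟩ := mv_append_inv hc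
      obtain ⟨z, hz1, hz2⟩ := isP_append.1 hr
      have hz : z = h1 • x := hz1.eq (hw1.isP A)
      subst hz
      have hr2 : S.IsP x a2 (h1⁻¹ • r) := by
        have := isP_mv A h1⁻¹ hz2
        rwa [mv_inv_mv, inv_smul_smul] at this
      obtain ⟨ms', h3, h4⟩ := ih2 a2 b2 _ (κ * h1) (mκ ++ ms1) _ rfl (Lp.app hK hw1) hr2
      refine ⟨H89.cj h1 ms', ?_, ?_⟩
      · have h5 := h3.mv A h1
        rw [smul_inv_smul] at h5
        have e1 : h1 * (h2 * (κ * h1)) * h1⁻¹ = h1 * h2 * κ := by group
        rw [e1] at h5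
        simp only [mv_append, ← mv_mul] at h5 ⊢
        have e2 : h1 * (h2 * κ) = h1 * h2 * κ := by group
        have e3 : h1 * (h2 * (κ * h1)) = h1 * h2 * κ * h1 := by group
        rw [e2, e3] at h5
        simpa using h5
      · have h6 : (ms1 ++ ms2 ++ mκ).Perm (ms2 ++ (mκ ++ ms1)) := by
          rw [List.append_assoc]
          exact List.perm_append_comm.trans (by simp)
        have h5 : MR (ms1 ++ ms2 ++ mκ) ms' := (MR.perm h6).trans h4
        refine MR.cj h5 ?_
        intro K hK'
        rw [← hw1.prod]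
        exact prod_mem_of fun m hm => hK' m (by simp [hm])
    · -- in the first part
      obtain ⟨ms', h3, h4⟩ := ih1 a c _ (h2 * κ) (ms2 ++ mκ) r rfl (Lp.app hw2 hK) hr
      refine ⟨ms', ?_, by rwa [List.append_assoc]⟩
      simp only [mv_append, ← mv_mul] at h3
      have e1 : h1 * (h2 * κ) = h1 * h2 * κ := by group
      rw [e1] at h3
      simpa using h3

/-- rotation -/
theorem Lp.rot (A : GAct S H) {x r : V} {a b : List E} {h : H} {ms : List H}
    (hL : Lp S x (a ++ b) h ms) (hr : S.IsP x a r) :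
    ∃ ms', Lp S r (b ++ H89.mv h a) h ms' ∧ MR ms ms' := by
  obtain ⟨ms', h1, h2⟩ := hL.rot' A a b [] 1 [] r rfl (Lp.nil x) hr
  refine ⟨ms', by simpa using h1, by simpa using h2⟩

end Pool.Agent.ABA.B.H89
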