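import Pool.Agent.Helper89_ABA.Hol1

/-! # Holonomy words: surgery, pinches of minimal words (MP_d857f1_al, part B) -/

namespace Pool.Agent.ABA.B.H89

open Pool.Agent.ABA.B Pool.Agent.ABA.B.TG Pool.Agent.ABA.B.H17

variable {V E : Type} {S : TG V E} {H : Type} [Group H] [MulAction H V] [MulAction H E]

/-- a holonomy word cut at a vertex of the tree or inside an edge -/
theorem Lp.split {x : V} {w : List E} {h : H} {ms : List H} (hL : Lp S x w h ms) :
    ∀ p p' : List E, w = p ++ p' →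
      (∃ h0 ms0 p'' h1 ms1, Lp S x p h0 ms0 ∧ p' = H89.mv h0 p'' ∧ Lp S x p'' h1 ms1 ∧
        h = h0 * h1 ∧ ms = ms0 ++ ms1) ∨
      (∃ L0 h0 ms0 e a b h1 ms1 L2 h2 ms2, Lp S x L0 h0 ms0 ∧ S.src e = x ∧
        Lp S (S.tgt e) (a ++ b) h1 ms1 ∧ Lp S x L2 h2 ms2 ∧
        p = L0 ++ H89.mv h0 (e :: a) ∧ p' = H89.mv h0 (b ++ S.inv (h1 • e) :: H89.mv h1 L2) ∧
        h = h0 * h1 * h2 ∧ ms = ms0 ++ ms1 ++ ms2) := by
  induction hL with
  | nil x =>
    intro p p' hw
    obtain ⟨rfl, rfl⟩ := List.append_eq_nil_iff.1 hw.symm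
    exact Or.inl ⟨1, [], [], 1, [], Lp.nil x, by simp, Lp.nil x, by simp, by simp⟩
  | @mark x a' h =>
    intro p p' hw
    obtain ⟨rfl, rfl⟩ := List.append_eq_nil_iff.1 hw.symm
    exact Or.inl ⟨a', [a'], [], 1, [], Lp.mark h, by simp, Lp.nil x, by simp, by simp⟩
  | @edge e w h ms hw1 ih =>
    intro p p' hw
    have hL := Lp.edge hw1
    rcases p with _ | ⟨e', a⟩
    · rw [List.nil_append] at hw
      subst hw
      exact Or.inl ⟨1, [], _, h, ms, Lp.nil _, by simp, hL, by simp, by simp⟩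
    · rw [List.cons_append, List.cons.injEq] at hw
      obtain ⟨rfl, hw⟩ := hw
      rcases List.eq_nil_or_concat p' with rfl | ⟨b', z, rfl⟩
      · rw [List.append_nil] at hw
        subst hw
        exact Or.inl ⟨h, ms, [], 1, [], hL, by simp, Lp.nil _, by simp, by simp⟩
      · have hw2 : w = a ++ b' ∧ z = S.inv (h • e) := by
          have e1 : w ++ [S.inv (h • e)] = (a ++ b') ++ [z] := by rw [hw]; simp
          obtain ⟨h1, h2⟩ := List.append_inj' e1 rfl
          exact ⟨h1, (List.cons.inj h2).1.symm⟩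
        obtain ⟨hw2, rfl⟩ := hw2
        right
        refine ⟨[], 1, [], e, a, b', h, ms, [], 1, [], Lp.nil _, rfl, hw2 ▸ hw1, Lp.nil _,
          by simp, by simp, by simp, by simp⟩
  | @app x w1 w2 h1 h2 ms1 ms2 hw1 hw2 ih1 ih2 =>
    intro p p' hw
    rcases List.append_eq_append_iff.1 hw with ⟨c, rfl, hc⟩ | ⟨c, rfl, rfl⟩
    · -- in the second part
      obtain ⟨a2, b2, rfl, rfl, rfl⟩ := mv_append_inv hc
      rcases ih2 a2 b2 rfl with ⟨h0, ms0, p'', h3, ms3, k1, rfl, k3, rfl, rfl⟩ |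
        ⟨L0, h0, ms0, e, a, b, h3, ms3, L2, h4, ms4, k1, k2, k3, k4, rfl, rfl, rfl, rfl⟩
      · left
        refine ⟨h1 * h0, ms1 ++ ms0, p'', h3, ms3, Lp.app hw1 k1, by rw [mv_mul], k3,
          by group, by simp⟩
      · right
        refine ⟨w1 ++ H89.mv h1 L0, h1 * h0, ms1 ++ ms0, e, a, b, h3, ms3, L2, h4, ms4,
          Lp.app hw1 k1, k2, k3, k4, ?_, ?_, by group, by simp⟩
        · simp [← mv_mul, ← mul_smul]
        · simp [← mv_mul, ← mul_smul, mul_assoc]
    · -- in the first part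
      rcases ih1 p c rfl with ⟨h0, ms0, p'', h3, ms3, k1, rfl, k3, rfl, rfl⟩ |
        ⟨L0, h0, ms0, e, a, b, h3, ms3, L2, h4, ms4, k1, k2, k3, k4, rfl, rfl, rfl, rfl⟩
      · left
        refine ⟨h0, ms0, p'' ++ H89.mv h3 w2, h3 * h2, ms3 ++ ms2, k1, ?_, Lp.app k3 hw2,
          by group, by simp⟩
        simp [← mv_mul]
      · right
        refine ⟨L0, h0, ms0, e, a, b, h3, ms3, L2 ++ H89.mv h4 w2, h4 * h2, ms4 ++ ms2,
          k1, k2, k3, Lp.app k4 hw2, rfl, ?_, by group, by simp⟩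
        simp [← mv_mul, mul_assoc]

/-- all marks of the empty word fix the base point -/
theorem Lp.fix {x : V} {w : List E} {h : H} {ms : List H} (hL : Lp S x w h ms) (hw : w = []) :
    ∀ m ∈ ms, m • x = x := by
  induction hL with
  | nil x => simp
  | mark h => simpa using h
  | edge _ _ => simp at hw
  | @app x w w' h h' ms ms' _ _ ih1 ih2 =>
    obtain ⟨h1, h2⟩ := List.append_eq_nil_iff.1 hw
    intro m hm
    rcases List.mem_append.1 hm with hm | hm
    · exact ih1 h1 m hm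
    · exact ih2 (mv_eq_nil.1 h2) m hm

/-- crossing surgery -/
theorem Lp.surg (M : Mods) (hSC : S.SC) (A : GAct S H) {x : V} {L0 L2 a b : List E}
    {h0 h1 h2 : H} {ms0 ms1 ms2 : List H} {e : E} (k1 : Lp S x L0 h0 ms0) (k2 : S.src e = x)
    (k3 : Lp S (S.tgt e) (a ++ b) h1 ms1) (k4 : Lp S x L2 h2 ms2)
    (hp : S.IsP x (L0 ++ H89.mv h0 (e :: a)) x) (hh : h0 * h1 * h2 = 1) :
    ∃ r N ms', Lp S r N 1 ms' ∧ MR (ms0 ++ ms1 ++ ms2) ms' ∧
      N.length + 2 = (L0 ++ H89.mv h0 (e :: a)).length +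
        (H89.mv h0 (b ++ S.inv (h1 • e) :: H89.mv h1 L2)).length ∧
      S.ar N ≤ S.ar (L0 ++ H89.mv h0 (e :: a)) +
        S.ar (H89.mv h0 (b ++ S.inv (h1 • e) :: H89.mv h1 L2)) := by
  obtain ⟨-, hD, hRot, -, -, -, hGlue, -⟩ := M.area V E S hSC
  -- the middle vertex
  obtain ⟨z, hz1, hz2⟩ := isP_append.1 hp
  have hz : z = h0 • x := hz1.eq (k1.isP A)
  subst hz
  have hea : S.IsP x (e :: a) (h0⁻¹ • x) := by
    have := isP_mv A h0⁻¹ hz2
    rwa [mv_inv_mv, inv_smul_smul] at this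
  have har : S.IsP (S.tgt e) a (h0⁻¹ • x) := hea.2
  obtain ⟨ms1', c1, c2⟩ := k3.rot A har
  -- the two other loops
  have l0 := k1.mv A h0⁻¹
  have l2 := k4.mv A h0⁻¹
  have e1 : h0⁻¹ * h0 * h0⁻¹⁻¹ = h0 := by group
  rw [e1] at l0
  have hloop := Lp.app (Lp.app l0 l2) c1
  have e2 : h0 * (h0⁻¹ * h2 * h0⁻¹⁻¹) * h1 = 1 := by
    have : h0 * (h0⁻¹ * h2 * h0⁻¹⁻¹) * h1 = (h0 * h1)⁻¹ * (h0 * h1 * h2) * (h0 * h1) := by group
    rw [this, hh]; group
  have e3 : h0 * (h0⁻¹ * h2 * h0⁻¹⁻¹) = h1⁻¹ := eq_inv_of_mul_eq_one_left e2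
  rw [e2, e3, ← mv_mul, mul_inv_cancel, mv_one, mv_append, ← mv_mul, inv_mul_cancel, mv_one] at hloop
  refine ⟨h0⁻¹ • x, _, _, hloop, ?_, ?_, ?_⟩
  · -- marks
    have q1 : MR (ms0 ++ ms1 ++ ms2) (H89.cj h0⁻¹ (ms0 ++ ms2) ++ ms1') := by
      refine ⟨?_, ?_, ?_⟩
      · have := c2.1
        simp [this]; omega
      · intro K hK
        have hK1 : ∀ m ∈ H89.cj h0⁻¹ (ms0 ++ ms2), m ∈ K := fun m hm =>
          hK m (List.mem_append_left _ hm)
        have hK2 : ∀ m ∈ ms1', m ∈ K := fun m hm => hK m (by simp [hm])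
        have hh0 : h0 ∈ K := by
          have h3 : (H89.cj h0⁻¹ ms0).prod = h0 := by rw [l0.prod]
          rw [← h3]
          exact prod_mem_of fun m hm => hK1 m (by rw [cj_append]; simp [hm])
        have h4 : ∀ m ∈ ms0 ++ ms2, m ∈ K := by
          intro m hm
          have h5 := hK1 _ (List.mem_map_of_mem hm)
          have h6 := K.mul_mem (K.mul_mem hh0 h5) (K.inv_mem hh0)
          have h7 : h0 * (h0⁻¹ * m * h0⁻¹⁻¹) * h0⁻¹ = m := by group
          rwa [h7] at h6
        have h8 := c2.2.1 K hK2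
        intro m hm
        simp only [List.mem_append] at hm h4
        rcases hm with (hm | hm) | hm
        · exact h4 m (Or.inl hm)
        · exact h8 m hm
        · exact h4 m (Or.inr hm)
      · intro m' hm'
        rcases List.mem_append.1 hm' with hm' | hm'
        · obtain ⟨m, hm, rfl⟩ := List.mem_map.1 hm'
          refine ⟨m, ?_, h0⁻¹, rfl⟩
          simp only [List.mem_append] at hm ⊢
          tauto
        · obtain ⟨m, hm, k, rfl⟩ := c2.2.2 m' hm'
          exact ⟨m, by simp [hm], k, rfl⟩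
    simpa using q1
  · simp only [List.length_append, mv_length, List.length_cons]
    omega
  · -- areas
    set L0' := H89.mv h0⁻¹ L0 with hL0'
    have i1 : H89.mv h0⁻¹ (L0 ++ H89.mv h0 (e :: a)) = L0' ++ e :: a := by
      rw [mv_append, mv_inv_mv]
    have i2 : H89.mv (h0 * h1)⁻¹ (H89.mv h0 (b ++ S.inv (h1 • e) :: H89.mv h1 L2)) =
        H89.mv h1⁻¹ b ++ S.inv e :: L2 := by
      rw [← mv_mul]
      have : (h0 * h1)⁻¹ * h0 = h1⁻¹ := by group
      rw [this, mv_append, mv_cons, mv_inv_mv, ← A.inv, inv_smul_smul]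
    have hcl1 : S.IsP (h0⁻¹ • x) (L0' ++ e :: a) (h0⁻¹ • x) := by
      have := isP_mv A h0⁻¹ hp
      rwa [i1] at this
    obtain ⟨z, hz3, hz4⟩ := isP_append.1 hcl1
    have hz5 : z = x := by
      have h3 := l0.isP A
      rw [smul_inv_smul] at h3
      exact hz3.eq h3
    subst hz5
    -- second block
    have hb : S.IsP (h1⁻¹ • h0⁻¹ • z) (H89.mv h1⁻¹ b) (S.tgt e) := by
      obtain ⟨y, hy1, hy2⟩ := isP_append.1 (k3.isP A)
      have hy : y = h0⁻¹ • z := hy1.eq har
      subst hy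
      have := isP_mv A h1⁻¹ hy2
      rwa [inv_smul_smul] at this
    have hL2 : S.IsP z L2 (h1⁻¹ • h0⁻¹ • z) := by
      have h3 := k4.isP A
      have h4 : h2 = h1⁻¹ * h0⁻¹ := by
        have : h2 = (h0 * h1)⁻¹ * (h0 * h1 * h2) := by group
        rw [this, hh]; group
      rwa [h4, mul_smul] at h3
    have ha : S.IsP (S.tgt e) a (h0⁻¹ • z) := har
    have r1 : S.ar (L0 ++ H89.mv h0 (e :: a)) = S.ar ((a ++ L0') ++ [e]) := by
      rw [← ar_mv A h0⁻¹, i1]
      have h3 := hRot (L0' ++ [e]) a ⟨_, by simpa using hcl1⟩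
      have h4 := hRot ((a ++ L0')) [e] ⟨S.tgt e, by
        rw [isP_append]
        refine ⟨z, isP_append.2 ⟨_, ha, hz3⟩, ⟨k2, rfl⟩⟩⟩
      have e5 : L0' ++ e :: a = (L0' ++ [e]) ++ a := by simp
      rw [e5, h3]
      simp
    have r2 : S.ar (H89.mv h0 (b ++ S.inv (h1 • e) :: H89.mv h1 L2)) =
        S.ar (S.rv [e] ++ (L2 ++ H89.mv h1⁻¹ b)) := by
      rw [← ar_mv A (h0 * h1)⁻¹, i2]
      have h3 := hRot (H89.mv h1⁻¹ b) (S.inv e :: L2) ⟨_, isP_append.2 ⟨_, hb, ⟨rfl, by
        rw [tgt_inv, k2]; exact hL2⟩⟩⟩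
      rw [h3]
      simp
    have r3 : S.ar (L0' ++ L2 ++ (H89.mv h1⁻¹ b ++ a)) =
        S.ar ((a ++ L0') ++ (L2 ++ H89.mv h1⁻¹ b)) := by
      have h3 := hRot (L0' ++ L2 ++ H89.mv h1⁻¹ b) a ⟨h0⁻¹ • z, by
        rw [isP_append]
        refine ⟨S.tgt e, ?_, ha⟩
        have q1 : S.IsP (h0⁻¹ • z) (L0' ++ L2) (h1⁻¹ • h0⁻¹ • z) := isP_append.2 ⟨_, hz3, hL2⟩
        exact isP_append.2 ⟨_, q1, hb⟩⟩
      have e5 : L0' ++ L2 ++ (H89.mv h1⁻¹ b ++ a) = (L0' ++ L2 ++ H89.mv h1⁻¹ b) ++ a := by simp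
      rw [e5, h3]
      simp
    rw [r3, r1, r2]
    refine hGlue (a ++ L0') (L2 ++ H89.mv h1⁻¹ b) [e] ⟨S.tgt e, ?_⟩ ⟨S.tgt e, ?_⟩
    · exact isP_append.2 ⟨_, isP_append.2 ⟨_, ha, hz3⟩, ⟨k2, rfl⟩⟩
    · rw [rv_cons, rv_nil, List.nil_append, List.cons_append, List.nil_append]
      refine ⟨rfl, ?_⟩
      rw [tgt_inv, k2]
      exact isP_append.2 ⟨_, hL2, hb⟩

/-! ## minimal words -/

/-- the classes of mark lists -/
structure TCls (V : Type) {H : Type} [Group H] [MulAction H V] (T : List H → Prop) : Prop where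
  len : ∀ ms, T ms → ms.length = 3
  mr : ∀ ms ms', T ms → MR ms ms' → T ms'
  nofix : ∀ ms, T ms → ms.prod = 1 → ∀ x : V, ¬ ∀ m ∈ ms, m • x = x

/-- the measure -/
noncomputable def msr (S : TG V E) (w : List E) : ℕ := 2 * S.ar w + w.length

/-- minimal words -/
structure Mnw (S : TG V E) (T : List H → Prop) (x : V) (w : List E) (ms : List H) : Prop where
  t : T ms
  lp : Lp S x w 1 ms
  mn : ∀ x' w' ms', T ms' → Lp S x' w' 1 ms' → msr S w ≤ msr S w'

theorem exists_Mnw (S : TG V E) (T : List H → Prop) (h : ∃ x w ms, T ms ∧ Lp S x w 1 ms) :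
    ∃ x w ms, Mnw S T x w ms := by
  classical
  obtain ⟨x, w, ms, h1, h2⟩ := h
  have hex : ∃ n, ∃ x w ms, T ms ∧ Lp S x w (1 : H) ms ∧ msr S w = n := ⟨_, x, w, ms, h1, h2, rfl⟩
  obtain ⟨x, w, ms, h3, h4, h5⟩ := Nat.find_spec hex
  refine ⟨x, w, ms, h3, h4, ?_⟩
  intro x' w' ms' h6 h7
  rw [h5]
  exact Nat.find_min' hex ⟨x', w', ms', h6, h7, rfl⟩

/-- a loop with at most one mark which closes up is replaced by a mark -/
theorem Lp.cut {x : V} {w : List E} {h : H} {ms : List H} (hL : Lp S x w h ms)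
    (hx : h • x = x) (hn : ms.length ≤ 1) : Lp S x [] h ms := by
  have hp := hL.prod
  rcases ms with _ | ⟨m, _ | ⟨m', ms⟩⟩
  · rw [List.prod_nil] at hp
    subst hp
    exact Lp.nil x
  · rw [List.prod_singleton] at hp
    subst hp
    exact Lp.mark hx
  · simp at hn

variable {T : List H → Prop}

theorem Mnw.pf (M : Mods) (hSC : S.SC) (A : GAct S H) (hT : TCls V T) {x : V} {w : List E}
    {ms : List H} (hw : Mnw S T x w ms) : S.PF w := by
  intro p₁ p p₂ hwp hp0 hp12 hcl
  by_contra hcon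
  rw [not_lt] at hcon
  obtain ⟨-, -, hRot, -⟩ := M.area V E S hSC
  subst hwp
  -- rotate
  have hLp := hw.lp
  rw [List.append_assoc] at hLp
  obtain ⟨y, hy1, hy2⟩ := isP_append.1 (hLp.isP A)
  obtain ⟨ms', h1, h2⟩ := hLp.rot A hy1
  rw [mv_one, List.append_assoc] at h1
  have hT' := hT.mr _ _ hw.t h2
  have hlen := hT.len _ hT'
  -- p is closed at y
  obtain ⟨z, hz⟩ := hcl
  have hzy : z = y := by
    cases p with
    | nil => exact absurd rfl hp0
    | cons e p => exact hz.1.symm.trans hy2.1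
  subst hzy
  have hcl2 : S.IsP z (p₂ ++ p₁) z := by
    have h3 := h1.isP A
    rw [one_smul] at h3
    obtain ⟨z', hz1, hz2⟩ := isP_append.1 h3
    rw [← hz.eq hz1] at hz2
    exact hz2
  have har : S.ar (p₁ ++ p₂) = S.ar (p₂ ++ p₁) := (hRot _ _ ⟨_, hcl2⟩).symm
  have hpos : 0 < (p₂ ++ p₁).length := by
    rw [List.length_pos_iff]
    intro h
    apply hp12
    obtain ⟨h3, h4⟩ := List.append_eq_nil_iff.1 h
    rw [h3, h4]; rfl
  have hppos : 0 < p.length := List.length_pos_iff.2 hp0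
  have hlenw : (p₁ ++ p ++ p₂).length = p.length + (p₂ ++ p₁).length := by
    simp only [List.length_append]; omega
  rcases h1.split p (p₂ ++ p₁) rfl with ⟨h0, ms0, p'', h3, ms3, k1, k2, k3, k4, rfl⟩ |
    ⟨L0, h0, ms0, e, a, b, h3, ms3, L2, h4, ms4, k1, k2, k3, k4, k5, k6, k7, rfl⟩
  · -- two loops
    have hh0 : h0 • z = z := (k1.isP A).eq hz
    have hh3 : h3 • z = z := by
      have : h3 = h0⁻¹ := eq_inv_of_mul_eq_one_right k4.symm
      rw [this, inv_smul_eq_iff, hh0]
    rw [List.length_append] at hlen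
    rcases Nat.lt_or_ge ms0.length 2 with hc | hc
    · have h5 := Lp.app (k1.cut hh0 (by omega)) k3
      rw [← k4, ← k2, List.nil_append] at h5
      have h6 := hw.mn _ _ _ hT' h5
      unfold msr at h6
      omega
    · have h5 := Lp.app k1 (k3.cut hh3 (by omega))
      rw [← k4, mv_nil, List.append_nil] at h5
      have h6 := hw.mn _ _ _ hT' h5
      unfold msr at h6
      omega
  · obtain ⟨r, N, ms'', n1, n2, n3, n4⟩ := Lp.surg M hSC A k1 k2 k3 k4 (k5 ▸ hz) k7.symm
    have h6 := hw.mn _ _ _ (hT.mr _ _ hT' n2) n1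
    rw [← k5, ← k6] at n3 n4
    unfold msr at h6
    omega

theorem Mnw.ne_nil (hT : TCls V T) {x : V} {w : List E}
    {ms : List H} (hw : Mnw S T x w ms) : w ≠ [] := by
  intro h
  exact hT.nofix _ hw.t hw.lp.prod x (hw.lp.fix h)

theorem Mnw.ne_spur (A : GAct S H) (hT : TCls V T) {x : V} {w : List E}
    {ms : List H} (hw : Mnw S T x w ms) (e : E) : w ≠ [S.inv e, e] := by
  intro h
  have hL := hw.lp
  rw [h] at hL
  rcases hL.split [S.inv e] [e] rfl with ⟨h0, ms0, p'', h3, ms3, k1, k2, k3, k4, k5⟩ |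
    ⟨L0, h0, ms0, f, a, b, h3, ms3, L2, h4, ms4, k1, k2, k3, k4, k5, k6, k7, k8⟩
  · have := k1.even
    simp at this
  · have q1 := congrArg List.length k5
    have q2 := congrArg List.length k6
    simp only [List.length_append, mv_length, List.length_cons, List.length_nil] at q1 q2
    have e1 : L0 = [] := List.length_eq_zero_iff.1 (by omega)
    have e2 : a = [] := List.length_eq_zero_iff.1 (by omega)
    have e3 : b = [] := List.length_eq_zero_iff.1 (by omega)
    have e4 : L2 = [] := List.length_eq_zero_iff.1 (by omega)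
    subst e1 e2 e3 e4
    simp only [List.nil_append, mv_cons, mv_nil, List.cons.injEq, and_true] at k5 k6
    have hfe : h3 • f = f := by
      have h5 : S.inv (h0 • h3 • f) = S.inv (h0 • f) := by
        rw [A.inv, ← k6, A.inv, ← A.inv, ← k5, S.inv_inv]
      have h6 := congrArg S.inv h5
      rw [S.inv_inv, S.inv_inv] at h6
      exact smul_left_cancel h0 h6
    have f0 := k1.fix rfl
    have f1 := k3.fix rfl
    have f2 := k4.fix rfl
    have p0 := k1.prod
    have p1 := k3.prod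
    have p2 := k4.prod
    have hlen := hT.len _ hw.t
    rw [k8, List.length_append, List.length_append] at hlen
    rcases Nat.lt_or_ge ms3.length 2 with hc | hc
    · -- everything fixes x
      apply hT.nofix _ hw.t hw.lp.prod x
      rw [k8]
      intro m hm
      simp only [List.mem_append] at hm
      rcases hm with (hm | hm) | hm
      · exact f0 m hm
      · have h5 : m = h3 := by
          rcases ms3 with _ | ⟨m', _ | ⟨m'', l⟩⟩
          · simp at hm
          · rw [List.prod_singleton] at p1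
            rw [List.mem_singleton] at hm
            rw [hm, p1]
          · simp at hc
        rw [h5, ← k2, ← A.src, hfe]
      · exact f2 m hm
    · -- everything fixes the other end
      apply hT.nofix _ hw.t hw.lp.prod (S.tgt f)
      rw [k8]
      have hft : h3⁻¹ • S.tgt f = S.tgt f := by
        rw [inv_smul_eq_iff, ← tgt_smul A, hfe]
      have hms : ∀ m ∈ ms0 ++ ms4, m = h3⁻¹ := by
        intro m hm
        have hl : (ms0 ++ ms4).length = 1 := by
          rw [List.length_append]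
          have : 0 < (ms0 ++ ms4).length := List.length_pos_of_mem hm
          rw [List.length_append] at this
          omega
        rcases ms0 with _ | ⟨m0, ms0⟩
        · rw [List.nil_append] at hl hm
          obtain ⟨m4, rfl⟩ := List.length_eq_one_iff.1 hl
          rw [List.mem_singleton] at hm
          rw [List.prod_singleton] at p2
          rw [List.prod_nil] at p0
          rw [← p0, ← p2, one_mul] at k7
          rw [hm]
          exact eq_inv_of_mul_eq_one_right k7.symm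
        · rw [List.cons_append, List.length_cons] at hl
          have hl2 : (ms0 ++ ms4).length = 0 := by omega
          obtain ⟨rfl, rfl⟩ := List.append_eq_nil_iff.1 (List.length_eq_zero_iff.1 hl2)
          rw [List.append_nil, List.mem_singleton] at hm
          rw [List.prod_singleton] at p0
          rw [List.prod_nil] at p2
          rw [← p0, ← p2, mul_one] at k7
          rw [hm]
          exact eq_inv_of_mul_eq_one_left k7.symm
      intro m hm
      simp only [List.mem_append] at hm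
      rcases hm with (hm | hm) | hm
      · rw [hms m (by simp [hm])]; exact hft
      · exact f1 m hm
      · rw [hms m (by simp [hm])]; exact hft

end Pool.Agent.ABA.B.H89
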