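import Pool.Agent.Helper89_ABA.PLink5

/-! # Walks outside a flat, rotations (MP_d857f1_al, part B) -/

namespace Pool.Agent.ABA.B

open Knd Pool.Agent.ABA

/-! ## reduced lists -/

theorem red_iff {α : Type} (v : List α) :
    Red v ↔ ∀ i (h : i + 2 < v.length), v[i] ≠ v[i + 2] := by
  constructor
  · intro h i hi
    refine h (v.take i) v[i] v[i + 1] v[i + 2] (v.drop (i + 3)) ?_
    rw [← List.drop_eq_getElem_cons, ← List.drop_eq_getElem_cons,
      ← List.drop_eq_getElem_cons, List.take_append_drop]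
  · rintro h l a b c r rfl
    have := h l.length (by simp)
    simpa using this

/-- gluing reduced lists along two letters -/
theorem red_glue {α : Type} {p s : List α} {x y : α} (h : Red (p ++ [x, y])) (h' : Red (x :: y :: s)) :
    Red (p ++ x :: y :: s) := by
  rw [red_iff] at h h' ⊢
  intro i hi
  by_cases hc : i + 2 < p.length + 2
  · have h1 := h i (by simpa using hc)
    have e1 : (p ++ x :: y :: s)[i] = (p ++ [x, y])[i]'(by simp; omega) := by
      have : p ++ x :: y :: s = (p ++ [x, y]) ++ s := by simp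
      simp only [this]
      rw [List.getElem_append_left]
    have e2 : (p ++ x :: y :: s)[i + 2] = (p ++ [x, y])[i + 2]'(by simp; omega) := by
      have : p ++ x :: y :: s = (p ++ [x, y]) ++ s := by simp
      simp only [this]
      rw [List.getElem_append_left]
    rw [e1, e2]
    exact h1
  · have hl : i + 2 < p.length + (x :: y :: s).length := by simpa using hi
    have h1 := h' (i - p.length) (by omega)
    rw [List.getElem_append_right (by omega), List.getElem_append_right (by omega)]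
    have e3 : i + 2 - p.length = i - p.length + 2 := by omega
    simp only [e3]
    exact h1

theorem red_short {α : Type} (a b : α) : Red [a, b] := by
  rw [red_iff]
  intro i hi
  simp at hi

theorem red_three {α : Type} {a b c : α} (h : a ≠ c) : Red [a, b, c] := by
  rw [red_iff]
  intro i hi
  have : i = 0 := by simp at hi; omega
  subst this
  simpa using h

def redb {α : Type} [DecidableEq α] : List α → Bool
  | a :: b :: c :: l => decide (a ≠ c) && redb (b :: c :: l)
  | _ => true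

theorem redb_red {α : Type} [DecidableEq α] : ∀ l : List α, redb l = true → Red l
  | [], _ => by rw [red_iff]; intro i hi; simp at hi
  | [_], _ => by rw [red_iff]; intro i hi; simp at hi
  | [a, b], _ => red_short a b
  | a :: b :: c :: l, h => by
    simp only [redb, Bool.and_eq_true, decide_eq_true_eq] at h
    exact red_glue (p := [a]) (red_three h.1) (redb_red (b :: c :: l) h.2)

theorem red_map {α β : Type} {f : α → β} (hf : Function.Injective f) {l : List α} (h : Red l) :
    Red (l.map f) := by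
  rw [red_iff] at h ⊢
  intro i hi
  rw [List.length_map] at hi
  rw [List.getElem_map, List.getElem_map]
  exact fun e => h i hi (hf e)

theorem red_left {α : Type} {p s : List α} (h : Red (p ++ s)) : Red p := by
  rintro l a b c r rfl
  exact h l a b c (r ++ s) (by simp)

theorem ow_glue {E : Type} (θ : E → E → ℝ) : ∀ (p : List E) (x : E) (s : List E),
    ow θ (p ++ x :: s) = ow θ (p ++ [x]) + ow θ (x :: s)
  | [], x, s => by simp [ow]
  | [a], x, s => by simp [ow]
  | a :: b :: p, x, s => by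
    have := ow_glue θ (b :: p) x s
    simp only [List.cons_append, ow] at this ⊢
    rw [this]; ring

variable {G : Type} [Group G] {A B : Subgroup G} {g : G}
variable {hg : ¬ IsABA A B g} {hgeo : Geo A B} {hι : Function.Injective (Pι A B g)}

/-- refined weights in the hexagon -/
noncomputable def wD (a b : Dr) : ℝ := (wt (kndD a) (kndD b) : ℝ) / 20

theorem eA_inj (q : PP A B g) : Function.Injective (fun m : Dr => (eA m q : XE A B g)) := by
  intro m m' h
  exact (eA_eq.1 h).1

theorem InF_trans {q q' : PP A B g} {m m' : Dr} {f : XE A B g} (h : eA m q = eA m' q')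
    (hf : InF q' f) : InF q f := by
  obtain ⟨-, a, ha, rfl⟩ := eA_eq.1 h
  obtain ⟨m'', rfl⟩ := hf
  refine ⟨m'', ?_⟩
  rw [eA_eq]
  refine ⟨rfl, a⁻¹, A.inv_mem ha, ?_⟩
  rw [map_inv, mul_inv_cancel_right]

/-- closing a walk outside a flat by an arc of the flat -/
theorem walk_arc (hA : ∀ x ∈ A, ∀ y ∈ A, x * y = y * x) {v : List (XE A B g)} {q : PP A B g}
    {m m' : Dr} {f f' : XE A B g} {w w' : List (XE A B g)}
    (hc : v.IsChain (XX hg hgeo hι).Cor) (hr : Red v)
    (hv : v = eA m q :: f :: w) (hv' : v = w' ++ [f', eA m' q])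
    (hf : ¬ InF q f) (hf' : ¬ InF q f') (Y : List Dr)
    (hY : (m' :: (Y ++ [m])).IsChain (fun a b => b = a.nxt ∨ a = b.nxt))
    (hYr : Red (m' :: (Y ++ [m]))) :
    6.1 ≤ ow θR v + ow wD (m' :: (Y ++ [m])) := by
  set F : Dr → XE A B g := fun m => eA m q with hFdef
  have hFc : ∀ a b : Dr, (b = a.nxt ∨ a = b.nxt) → (XX hg hgeo hι).Cor (F a) (F b) := by
    rintro a b (rfl | rfl)
    · exact cor_nxt a q
    · exact cor_symm' (cor_nxt b q)
  -- the arc
  have hYc : ((m' :: (Y ++ [m])).map F).IsChain (XX hg hgeo hι).Cor := by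
    rw [List.isChain_map]
    exact hY.imp hFc
  have hYr' : Red ((m' :: (Y ++ [m])).map F) := red_map (eA_inj q) hYr
  -- the closed walk
  set c : List (XE A B g) := v ++ Y.map F with hcdef
  have e1 : c ++ c.take 1 = w' ++ [f'] ++ (m' :: (Y ++ [m])).map F := by
    have h1 : c.take 1 = [F m] := by rw [hcdef, hv]; simp [hFdef]
    rw [h1, hcdef]
    conv_lhs => rw [hv']
    simp [hFdef]
  have e2 : c ++ c.take 2 = w' ++ f' :: ((m' :: (Y ++ [m])).map F ++ [f]) := by
    have h1 : c.take 2 = [F m, f] := by rw [hcdef, hv]; simp [hFdef]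
    rw [h1, hcdef]
    conv_lhs => rw [hv']
    simp [hFdef]
  have hcc : (c ++ c.take 1).IsChain (XX hg hgeo hι).Cor := by
    rw [e1]
    have h1 : v = (w' ++ [f']) ++ [F m'] := by rw [hv']; simp [hFdef]
    rw [h1] at hc
    rw [List.isChain_append] at hc ⊢
    refine ⟨hc.1, hYc, ?_⟩
    intro x hx y hy
    refine hc.2.2 x hx y ?_
    simpa using hy
  have hrr : Red (c ++ c.take 2) := by
    rw [e2]
    have h1 : (m' :: (Y ++ [m])).map F ++ [f] = F m' :: ((Y ++ [m]).map F ++ [f]) := by simp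
    rw [h1]
    refine red_glue (by
      have : w' ++ [f', F m'] = v := by rw [hv']
      rw [this]; exact hr) ?_
    -- f' :: m' :: ...
    obtain ⟨z, Z, hZ⟩ : ∃ z Z, Y ++ [m] = z :: Z := by
      cases Y with
      | nil => exact ⟨m, [], rfl⟩
      | cons z Z => exact ⟨z, Z ++ [m], rfl⟩
    have h2 : (Y ++ [m]).map F ++ [f] = F z :: (Z.map F ++ [f]) := by rw [hZ]; simp
    rw [h2]
    refine red_glue (p := [f']) (red_three ?_) ?_
    · intro h3
      exact hf' ⟨z, h3⟩
    -- the end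
    obtain ⟨u, y, hu⟩ : ∃ u y, m' :: Y = u ++ [y] :=
      ⟨(m' :: Y).dropLast, (m' :: Y).getLast (by simp), (List.dropLast_append_getLast _).symm⟩
    have h3 : F m' :: F z :: (Z.map F ++ [f]) = u.map F ++ F y :: F m :: [f] := by
      have h4 : F m' :: F z :: (Z.map F ++ [f]) = (m' :: (Y ++ [m])).map F ++ [f] := by
        rw [hZ]; simp
      have h5 : m' :: (Y ++ [m]) = u ++ [y] ++ [m] := by rw [← hu]; simp
      rw [h4, h5]; simp
    rw [h3]
    refine red_glue ?_ (red_three ?_)
    · have h5 : u.map F ++ [F y, F m] = (m' :: (Y ++ [m])).map F := by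
        have h6 : m' :: (Y ++ [m]) = u ++ [y] ++ [m] := by rw [← hu]; simp
        rw [h6]; simp
      rw [h5]; exact hYr'
    · intro h4
      exact hf ⟨y, h4.symm⟩
  have hcne : c ≠ [] := by rw [hcdef, hv]; simp
  obtain ⟨-, hw⟩ := link_X' hg hgeo hι hA c hcne hcc hrr
  have hcw : cw θR c = ow θR v + ow wD (m' :: (Y ++ [m])) := by
    unfold cw
    rw [e1, List.map_cons, ow_glue]
    have h1 : w' ++ [f'] ++ [F m'] = v := by rw [hv']; simp [hFdef]
    rw [h1, ← List.map_cons]
    congr 1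
    apply ow_map
    intro a _ b _
    rfl
  rcases hw with hw | ⟨-, -, q', hq1, -⟩
  · rw [← hcw]; exact hw
  · exfalso
    obtain ⟨m1, h1⟩ := hq1 (eA m q) (by rw [hcdef, hv]; simp)
    obtain ⟨m2, h2⟩ := hq1 f (by rw [hcdef, hv]; simp)
    exact hf (InF_trans h1 ⟨m2, h2⟩)

/-- position in the hexagon (times 20) -/
def pos : Dr → ℤ
  | .U => 0 | .V => 22 | .W => 41 | .U' => 60 | .V' => 82 | .W' => 101

def cyc : List Dr := [.U, .V, .W, .U', .V', .W', .U, .V, .W, .U', .V', .W']

def chb : List Dr → Bool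
  | a :: b :: l => (decide (b = a.nxt) || decide (a = b.nxt)) && chb (b :: l)
  | _ => true

theorem chb_chain : ∀ l : List Dr, chb l = true → l.IsChain (fun a b => b = a.nxt ∨ a = b.nxt)
  | [], _ => List.IsChain.nil
  | [_], _ => List.IsChain.singleton _
  | a :: b :: l, h => by
    simp only [chb, Bool.and_eq_true, Bool.or_eq_true, decide_eq_true_eq] at h
    rw [List.isChain_cons_cons]
    exact ⟨h.1, chb_chain (b :: l) h.2⟩

theorem arcs_ok : ∀ m m' : Dr, m ≠ m' →
    (∃ c ∈ [cyc, cyc.reverse], ∃ i < 12, ∃ j < 5,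
      (chb (m' :: (((c.drop i).take j) ++ [m])) && redb (m' :: (((c.drop i).take j) ++ [m])) &&
      decide ((ow20 ((m' :: (((c.drop i).take j) ++ [m])).map kndD) : ℤ) =
        |pos m - pos m'|)) = true) ∧
    (∃ c ∈ [cyc, cyc.reverse], ∃ i < 12, ∃ j < 5,
      (chb (m' :: (((c.drop i).take j) ++ [m])) && redb (m' :: (((c.drop i).take j) ++ [m])) &&
      decide ((ow20 ((m' :: (((c.drop i).take j) ++ [m])).map kndD) : ℤ) =
        120 - |pos m - pos m'|)) = true) := by
  decide +kernel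

theorem ow_wD : ∀ v : List Dr, ow wD v = (ow20 (v.map kndD) : ℝ) / 20
  | [] => by simp [ow, ow20]
  | [_] => by simp [ow, ow20]
  | a :: b :: l => by
    have := ow_wD (b :: l)
    simp only [List.map_cons, ow, ow20] at this ⊢
    rw [this, wD]
    push_cast
    ring

/-- (a) walks outside a flat between two different letters of the flat -/
theorem walk_out (hA : ∀ x ∈ A, ∀ y ∈ A, x * y = y * x) {v : List (XE A B g)} {q : PP A B g}
    {m m' : Dr} {f f' : XE A B g} {w w' : List (XE A B g)}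
    (hc : v.IsChain (XX hg hgeo hι).Cor) (hr : Red v)
    (hv : v = eA m q :: f :: w) (hv' : v = w' ++ [f', eA m' q])
    (hf : ¬ InF q f) (hf' : ¬ InF q f') (hm : m ≠ m') :
    6.1 ≤ ow θR v + (|pos m - pos m'| : ℤ) / 20 ∧
    6.1 ≤ ow θR v + (120 - |pos m - pos m'| : ℤ) / 20 := by
  obtain ⟨⟨c, -, i, -, j, -, h1⟩, ⟨c', -, i', -, j', -, h2⟩⟩ := arcs_ok m m' hm
  simp only [Bool.and_eq_true, decide_eq_true_eq] at h1 h2
  constructor
  · have h3 := walk_arc hA hc hr hv hv' hf hf' _ (chb_chain _ h1.1.1) (redb_red _ h1.1.2)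
    rw [ow_wD] at h3
    have h4 := h1.2
    rw [← h4]
    push_cast
    exact h3
  · have h3 := walk_arc hA hc hr hv hv' hf hf' _ (chb_chain _ h2.1.1) (redb_red _ h2.1.2)
    rw [ow_wD] at h3
    have h4 := h2.2
    rw [← h4]
    push_cast
    exact h3

/-- in particular at least 3.1 -/
theorem walk_out_ge (hA : ∀ x ∈ A, ∀ y ∈ A, x * y = y * x) {v : List (XE A B g)} {q : PP A B g}
    {m m' : Dr} {f f' : XE A B g} {w w' : List (XE A B g)}
    (hc : v.IsChain (XX hg hgeo hι).Cor) (hr : Red v)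
    (hv : v = eA m q :: f :: w) (hv' : v = w' ++ [f', eA m' q])
    (hf : ¬ InF q f) (hf' : ¬ InF q f') (hm : m ≠ m') : 3.1 ≤ ow θR v := by
  obtain ⟨h1, h2⟩ := walk_out hA hc hr hv hv' hf hf' hm
  have h3 : |pos m - pos m'| ≤ 60 ∨ 120 - |pos m - pos m'| ≤ 60 := by omega
  rcases h3 with h3 | h3
  · have h4 : ((|pos m - pos m'| : ℤ) : ℝ) ≤ ((60 : ℤ) : ℝ) := by exact_mod_cast h3
    push_cast at h1 h4
    linarith
  · have h4 : ((120 - |pos m - pos m'| : ℤ) : ℝ) ≤ ((60 : ℤ) : ℝ) := by exact_mod_cast h3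
    push_cast at h2 h4
    linarith

/-- closed walks given with their first letter repeated -/
theorem walk_loop (hA : ∀ x ∈ A, ∀ y ∈ A, x * y = y * x) {v : List (XE A B g)}
    {e f f' : XE A B g} {w w' : List (XE A B g)}
    (hc : v.IsChain (XX hg hgeo hι).Cor) (hr : Red v)
    (hv : v = e :: f :: w) (hv' : v = w' ++ [f', e]) (hff : f ≠ f') :
    7 ≤ v.length ∧ (6.1 ≤ ow θR v ∨ (v.length = 7 ∧ ow θR v = 6 ∧ ∃ q : PP A B g, ∀ x ∈ v, InF q x)) := by
  obtain ⟨u, hu⟩ : ∃ u, w' ++ [f'] = e :: u := by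
    cases w' with
    | nil =>
      rw [hv] at hv'
      simp only [List.nil_append, List.cons.injEq] at hv'
      exact ⟨[], by rw [hv'.1]; rfl⟩
    | cons a w' =>
      rw [hv] at hv'
      simp only [List.cons_append, List.cons.injEq] at hv'
      exact ⟨w' ++ [f'], by rw [hv'.1]; rfl⟩
  set c : List (XE A B g) := w' ++ [f'] with hcdef
  have hvc : v = c ++ [e] := by rw [hcdef, hv']; simp
  have hcne : c ≠ [] := by rw [hcdef]; simp
  have e1 : c ++ c.take 1 = v := by
    have : c.take 1 = [e] := by rw [hu]; simp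
    rw [this, ← hvc]
  have hadj : e ≠ f := by
    rw [hv, List.isChain_cons_cons] at hc
    intro h
    rw [← h] at hc
    exact adj_ne (cor_adj hc.1) rfl
  have h2 : ∃ u', u = f :: u' := by
    cases u with
    | nil =>
      exfalso
      rw [hvc, hu] at hv
      simp only [List.cons_append, List.nil_append, List.cons.injEq] at hv
      exact hadj hv.2.1
    | cons a u' =>
      rw [hvc, hu] at hv
      simp only [List.cons_append, List.cons.injEq] at hv
      exact ⟨u', by rw [hv.2.1]⟩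
  obtain ⟨u', hu'⟩ := h2
  have e2 : c ++ c.take 2 = w' ++ f' :: e :: [f] := by
    have : c.take 2 = [e, f] := by rw [hu, hu']; simp
    rw [this, hcdef]; simp
  have hrr : Red (c ++ c.take 2) := by
    rw [e2]
    refine red_glue (by rw [← hv']; exact hr) (red_three (Ne.symm hff))
  have hcc : (c ++ c.take 1).IsChain (XX hg hgeo hι).Cor := by rw [e1]; exact hc
  obtain ⟨h3, h4⟩ := link_X' hg hgeo hι hA c hcne hcc hrr
  have hl : v.length = c.length + 1 := by rw [hvc]; simp
  have hw : cw θR c = ow θR v := by unfold cw; rw [e1]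
  rw [hw] at h4
  refine ⟨by omega, ?_⟩
  rcases h4 with h4 | ⟨h4, h5, q, h6, -⟩
  · exact Or.inl h4
  · refine Or.inr ⟨by omega, h5, q, ?_⟩
    intro x hx
    rw [hvc] at hx
    rcases List.mem_append.1 hx with hx | hx
    · exact h6 x hx
    · simp only [List.mem_singleton] at hx
      rw [hx]
      exact h6 e (by rw [hu]; simp)

/-! ## rotations -/

theorem rot_core {γ h a x y z : G} (hgeo : Geo A B) (hγ : γ ∉ A) (ha : a ∈ A) (ha1 : a ≠ 1)
    (hx : x ∈ A) (hy : y ∈ A) (hz : z ∈ A) (hh : h ∉ A)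
    (e : h⁻¹ * a * h = x * (γ * y * γ⁻¹) * z) : h * x * γ ∈ A := by
  have hmal := hgeo.aa
  have hy1 : y ≠ 1 := by
    rintro rfl
    apply hh
    have h1 : h⁻¹ * a * (h⁻¹)⁻¹ ∈ A := by
      rw [inv_inv, e]
      simp only [mul_one, mul_inv_cancel]
      exact A.mul_mem hx hz
    have := hmal h⁻¹ a ha h1 ha1
    exact (Subgroup.inv_mem_iff _).1 this
  have e2 : (z * h⁻¹) * a * (z * h⁻¹)⁻¹ = (z * x) * (γ * y * γ⁻¹) := by
    have : (z * h⁻¹) * a * (z * h⁻¹)⁻¹ = z * (h⁻¹ * a * h) * z⁻¹ := by group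
    rw [this, e]; group
  by_cases hc : z * x = 1
  · rw [hc, one_mul] at e2
    have h1 : (γ⁻¹ * (z * h⁻¹)) * a * (γ⁻¹ * (z * h⁻¹))⁻¹ = y := by
      have : (γ⁻¹ * (z * h⁻¹)) * a * (γ⁻¹ * (z * h⁻¹))⁻¹ =
        γ⁻¹ * ((z * h⁻¹) * a * (z * h⁻¹)⁻¹) * γ := by group
      rw [this, e2]; group
    have h2 := hmal _ a ha (by rw [h1]; exact hy) ha1
    have h3 : h * x * γ = (γ⁻¹ * (z * h⁻¹))⁻¹ := by
      have : x = z⁻¹ := eq_inv_of_mul_eq_one_right hc
      rw [this]; group
    rw [h3]
    exact A.inv_mem h2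
  · exfalso
    have hr3 := hgeo.r3 1 γ (z * h⁻¹) (z * x) y a⁻¹ (A.mul_mem hz hx) hy (A.inv_mem ha) hc hy1
      (inv_ne_one.2 ha1) (by simpa using hγ) (by
        intro h4
        apply hc
        -- then z x in γ A γ⁻¹
        have h5 : γ⁻¹ * (z * x) * (γ⁻¹)⁻¹ ∈ A := by
          have h6 : γ⁻¹ * (z * x) * (γ⁻¹)⁻¹ =
            ((γ⁻¹ * (z * h⁻¹)) * a * (γ⁻¹ * (z * h⁻¹))⁻¹) * y⁻¹ := by
            have : (γ⁻¹ * (z * h⁻¹)) * a * (γ⁻¹ * (z * h⁻¹))⁻¹ =
              γ⁻¹ * ((z * h⁻¹) * a * (z * h⁻¹)⁻¹) * γ := by group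
            rw [this, e2]; group
          rw [h6]
          exact A.mul_mem (A.mul_mem (A.mul_mem h4 ha) (A.inv_mem h4)) (A.inv_mem hy)
        by_contra h7
        have h8 := hmal _ _ (A.mul_mem hz hx) h5 h7
        exact hγ ((Subgroup.inv_mem_iff _).1 h8)) (by
        intro h4
        apply hh
        have h5 : z * h⁻¹ ∈ A := by simpa using h4
        have h6 : h⁻¹ ∈ A := by
          have := A.mul_mem (A.inv_mem hz) h5
          rwa [inv_mul_cancel_left] at this
        exact (Subgroup.inv_mem_iff _).1 h6)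
    apply hr3
    have h5 : 1 * (z * x) * 1⁻¹ * (γ * y * γ⁻¹) * (z * h⁻¹ * a⁻¹ * (z * h⁻¹)⁻¹) =
      ((z * x) * (γ * y * γ⁻¹)) * ((z * h⁻¹) * a * (z * h⁻¹)⁻¹)⁻¹ := by group
    rw [h5, e2, mul_inv_cancel]

end Pool.Agent.ABA.B
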