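import Pool.Agent.Helper17_ABA.Fix
import Pool.Agent.Helper89_ABA.PLink6
import Pool.Agent.Helper89_ABA.Hol2

/-! # Holonomy words: paired letters of minimal words (MP_d857f1_al, part B) -/

namespace Pool.Agent.ABA.B.H89

open Pool.Agent.ABA.B Pool.Agent.ABA.B.TG Pool.Agent.ABA.B.H17

variable {V E : Type} {S : TG V E} {H : Type} [Group H] [MulAction H V] [MulAction H E]

theorem rdrop (F : ℕ → E × E) (μ : ℕ → Bool) (k : ℕ) (a : E) (α : List E) (h : μ k = true) :
    rp F μ k (a :: α) = (F k).1 :: (F k).2 :: rp F μ (k + 1) α := by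
  simp [rp, h]

/-- the word with two letters replaced -/
theorem rp_two (F : ℕ → E × E) (X w1 Y : List E) (e e' : E) :
    rp F (fun k => decide (k = X.length ∨ k = X.length + 1 + w1.length)) 0
      (X ++ e :: (w1 ++ e' :: Y)) =
      X ++ [(F X.length).1, (F X.length).2] ++ w1 ++
        [(F (X.length + 1 + w1.length)).1, (F (X.length + 1 + w1.length)).2] ++ Y := by
  rw [rp_append, rp_false (α := X) (by intro i hi; simp; omega), rdrop _ _ _ _ _ (by simp),
    rp_append, rp_false (α := w1) (by intro i hi; simp; omega), rdrop _ _ _ _ _ (by simp),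
    rp_false (α := Y) (by intro i hi; simp; omega)]
  simp [add_assoc]

theorem ct_one (μ : ℕ → Bool) (k n : ℕ) (h : μ k = true) : ct μ k (n + 1) = 1 + ct μ (k + 1) n := by
  simp [ct, h]

theorem ct_two (X w1 Y : List E) (e e' : E) :
    ct (fun k => decide (k = X.length ∨ k = X.length + 1 + w1.length)) 0
      (X ++ e :: (w1 ++ e' :: Y)).length = 2 := by
  have e1 : (X ++ e :: (w1 ++ e' :: Y)).length = X.length + ((w1.length + (Y.length + 1)) + 1) := by
    simp
  rw [e1, ct_add, ct_false (n := X.length) (by intro i hi; simp; omega), zero_add,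
    ct_one _ _ _ (by simp), ct_add, ct_false (n := w1.length) (by intro i hi; simp; omega),
    zero_add, zero_add, ct_one _ _ _ (by simp),
    ct_false (n := Y.length) (by intro i hi; simp; omega)]

theorem cor_δ {e e' : E} (h : S.Cor e e') : S.δ e ≠ S.δ e' := by
  obtain ⟨c, hc⟩ := h
  intro h1
  have h2 := S.δ_tri hc
  rw [h1] at h2
  exact S.δ_ne c (by linarith)

theorem cor_δ2 {v l r : List E} {e e' : E} (hc : v.IsChain S.Cor) (h1 : v = e :: r)
    (h2 : v = l ++ [e']) (h3 : S.δ e = S.δ e') : v.length ≠ 2 := by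
  intro h4
  rw [h1] at h4
  obtain ⟨z, rfl⟩ := List.length_eq_one_iff.1 (by simpa using h4 : r.length = 1)
  subst h1
  have h5 : z = e' := by
    have := congrArg List.getLast? h2
    simpa using this
  subst h5
  rw [List.isChain_cons_cons] at hc
  exact cor_δ hc.1 h3

variable {T : List H → Prop}

/-- minimal words are reduced at paired letters -/
theorem Mnw.pair (A : GAct S H) {x : V} {w : List E}
    {ms : List H} (hw : Mnw S T x w ms) {a : ℕ → E} {W : ℕ → List E} {I : List (List E)}
    (B : Bd S w.length a W I) (ha : ∀ i (h : i < w.length), a i = w[i]) (hM : MaskRed S w W)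
    {X Y w1 : List E} {u h : H} {e : E} {ms1 : List H}
    (hwX : w = X ++ H89.mv u (e :: (w1 ++ [S.inv (h • e)])) ++ Y) (hL : Lp S (S.tgt e) w1 h ms1)
    (hctx : ∀ w', Lp S (S.src e) w' h ms1 → Lp S x (X ++ H89.mv u w' ++ Y) 1 ms)
    {f1 f2 g1 g2 : E} {l r l' r' : List E}
    (hT1 : S.Tri (a X.length) f1 f2) (hW1 : W X.length = l ++ [f1, a X.length])
    (hT2 : S.Tri (a (X.length + 1 + w1.length)) g1 g2)
    (hW2 : W (X.length + 1 + w1.length) = l' ++ [g1, a (X.length + 1 + w1.length)])
    (hW1' : W (X.length + 1) = S.inv (a X.length) :: S.inv f2 :: r)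
    (hW2' : W (X.length + 1 + w1.length + 1) = S.inv (a (X.length + 1 + w1.length)) ::
      S.inv g2 :: r') :
    (u * h * u⁻¹) • f1 ≠ S.inv g2 ∧ (u * h * u⁻¹) • S.inv f2 ≠ g1 := by
  have hw' : w = X ++ u • e :: (H89.mv u w1 ++ S.inv ((u * h) • e) :: Y) := by
    rw [hwX]
    simp [← A.inv, mul_smul]
  have hl1 : (H89.mv u w1).length = w1.length := mv_length _ _
  have hlen : w.length = X.length + (w1.length + (Y.length + 1) + 1) := by
    rw [hw']; simp
  have hi : X.length < w.length := by omega
  have hj : X.length + 1 + w1.length < w.length := by omega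
  have hai : a X.length = u • e := by
    rw [ha _ hi]
    simp [hw']
  have haj : a (X.length + 1 + w1.length) = S.inv ((u * h) • e) := by
    rw [ha _ hj]
    simp only [hw']
    rw [List.getElem_append_right (by omega)]
    have e1 : X.length + 1 + w1.length - X.length = w1.length + 1 := by omega
    simp only [e1, List.getElem_cons_succ]
    rw [List.getElem_append_right (by omega)]
    simp [hl1]
  have hH : (u * h * u⁻¹) • (a X.length) = (u * h) • e := by
    rw [hai, ← mul_smul, inv_mul_cancel_right]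
  have hT1' := A.tri (u * h * u⁻¹) hT1
  rw [hH] at hT1'
  have hT3 := H56.tri1 hT1'
  rw [haj] at hT2
  -- the contradiction
  suffices hmain : ¬ (g1 = S.inv ((u * h * u⁻¹) • f2) ∧ g2 = S.inv ((u * h * u⁻¹) • f1)) by
    constructor
    · intro hc
      apply hmain
      have e1 : g2 = S.inv ((u * h * u⁻¹) • f1) := by rw [hc, S.inv_inv]
      refine ⟨?_, e1⟩
      have h1 := H56.tri1 hT2
      have h2 := H56.tri1 hT3
      rw [S.inv_inv] at h1 h2
      rw [e1] at h1
      have h3 := S.tri_uniq h1 h2
      have h4 := congrArg S.inv h3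
      rwa [S.inv_inv, S.inv_inv] at h4
    · intro hc
      apply hmain
      have e1 : g1 = S.inv ((u * h * u⁻¹) • f2) := by rw [← hc, A.inv]
      refine ⟨e1, ?_⟩
      rw [e1] at hT2
      exact S.tri_uniq hT2 hT3
  rintro ⟨hg1, hg2⟩
  -- pushing
  have hred := hM (fun k => if k = X.length then (f1, f2) else (g1, g2))
    (fun k => decide (k = X.length ∨ k = X.length + 1 + (H89.mv u w1).length)) ?_ ?_ ?_
  · have hct := ct_two X (H89.mv u w1) Y (u • e) (S.inv ((u * h) • e))
    rw [← hw'] at hct
    rw [hct] at hred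
    have hrp := rp_two (fun k => if k = X.length then (f1, f2) else (g1, g2)) X (H89.mv u w1) Y
      (u • e) (S.inv ((u * h) • e))
    rw [← hw'] at hrp
    rw [hrp] at hred
    have hne : X.length + 1 + (H89.mv u w1).length ≠ X.length := by omega
    simp only [if_true, if_neg hne] at hred
    -- the new word is in the class
    have hTe : S.Tri e (u⁻¹ • f1) (u⁻¹ • f2) := by
      have := A.tri u⁻¹ hT1
      rwa [hai, inv_smul_smul] at this
    have hs1 := S.tri_src hTe
    have hs2 := S.tri_mid hTe
    have hs3 := Tri.tgt' hTe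
    have q1 : Lp S (S.src (u⁻¹ • f2)) _ h ms1 := Lp.edge (e := u⁻¹ • f2) (by rw [hs3]; exact hL)
    have q2 : Lp S (S.src (u⁻¹ • f1)) _ h ms1 := Lp.edge (e := u⁻¹ • f1) (by
      have : S.tgt (u⁻¹ • f1) = S.src (u⁻¹ • f2) := hs2.symm
      rw [this]; exact q1)
    rw [hs1] at q2
    have q3 := hctx _ q2
    have e2 : X ++ H89.mv u (u⁻¹ • f1 :: (u⁻¹ • f2 :: (w1 ++ [S.inv (h • u⁻¹ • f2)]) ++
        [S.inv (h • u⁻¹ • f1)])) ++ Y = X ++ [f1, f2] ++ H89.mv u w1 ++ [g1, g2] ++ Y := by
      rw [hg1, hg2]
      simp [← A.inv, mul_smul]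
    rw [e2] at q3
    have h6 := hw.mn _ _ _ hw.t q3
    have h7 : (X ++ [f1, f2] ++ H89.mv u w1 ++ [g1, g2] ++ Y).length = w.length + 2 := by
      rw [hlen]; simp; omega
    unfold msr at h6
    omega
  · -- faces
    intro k hk hμ
    simp only [decide_eq_true_eq] at hμ
    rcases hμ with rfl | rfl
    · simp only [if_true]
      rw [← ha _ hk]
      exact ⟨hT1, l, hW1⟩
    · have hne : X.length + 1 + (H89.mv u w1).length ≠ X.length := by omega
      simp only [if_neg hne]
      rw [← ha _ hk]
      simp only [hl1]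
      rw [haj]
      refine ⟨hT2, l', ?_⟩
      rw [hW2, haj]
  · -- neighbours
    intro k hk h1 h2
    simp only [decide_eq_true_eq] at h1 h2
    have h3 : k = X.length ∧ w1.length = 0 := by omega
    obtain ⟨rfl, h3⟩ := h3
    refine cor_δ2 (B.chain _) hW1' (l := l' ++ [g1]) (e' := a (X.length + 1)) ?_ ?_
    · have := hW2
      rw [h3, Nat.add_zero] at this
      rw [this]; simp
    · have : a (X.length + 1) = S.inv ((u * h) • e) := by
        have := haj
        rwa [h3, Nat.add_zero] at this
      rw [this, hai, S.δ_inv, S.δ_inv, A.δ, A.δ]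
  · intro h1 h2
    simp only [decide_eq_true_eq] at h1 h2
    have h3 : X.length = 0 ∧ Y.length = 0 := by omega
    obtain ⟨h3, h4⟩ := h3
    have h5 : W (X.length + 1 + w1.length + 1) = W 0 := by
      have : X.length + 1 + w1.length + 1 = 0 + w.length := by omega
      rw [this]
      exact B.perW 0
    rw [h5] at hW2'
    refine cor_δ2 (B.chain _) hW2' (l := l ++ [f1]) (e' := a 0) ?_ ?_
    · rw [h3] at hW1
      rw [hW1]; simp
    · rw [h3] at hai
      rw [hai, haj, S.inv_inv, A.δ, A.δ]

end Pool.Agent.ABA.B.H89
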