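import Pool.Agent.Helper17_ABA.Curv
import Pool.Agent.Helper89_ABA.Hol3

/-! # Holonomy words: the count (MP_d857f1_al, part B) -/

namespace Pool.Agent.ABA.B.H89

open Pool.Agent.ABA.B Pool.Agent.ABA.B.TG Pool.Agent.ABA.B.H17

variable {V E : Type} {S : TG V E} {H : Type} [Group H] [MulAction H V] [MulAction H E]

/-- the properties of the weights -/
structure CntW (S : TG V E) (H : Type) [Group H] [MulAction H V] [MulAction H E]
    (θ : E → E → ℝ) (Mk : H → Prop) : Prop where
  wt : S.Wt θ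
  act : ∀ (h : H) a b, θ (h • a) (h • b) = θ a b
  low : ∀ a b, 0.9 ≤ θ a b
  inner : ∀ v, CRW S v → 6 ≤ cw θ v
  loop : ∀ (v : List E) e f f' w w', v.IsChain S.Cor → Red v → v = e :: f :: w →
    v = w' ++ [f', e] → f ≠ f' → 6 ≤ ow θ v
  rot : ∀ (m : H) (v : List E) e f f' w w', Mk m → m • S.src e = S.src e → v.IsChain S.Cor →
    Red v → v = e :: f :: w → v = w' ++ [f', m • e] → m • f ≠ f' → 2.1 ≤ ow θ v

variable {θ : E → E → ℝ} {Mk : H → Prop}

theorem ow_mv (hθ : ∀ (h : H) a b, θ (h • a) (h • b) = θ a b) (h : H) :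
    ∀ v : List E, ow θ (mv h v) = ow θ v
  | [] => rfl
  | [_] => rfl
  | a :: b :: v => by
    have := ow_mv hθ h (b :: v)
    simp only [mv_cons, ow] at this ⊢
    rw [this, hθ]

theorem chain_mv (A : GAct S H) (h : H) {v : List E} (hc : v.IsChain S.Cor) :
    (mv h v).IsChain S.Cor := by
  unfold mv
  rw [List.isChain_map]
  exact hc.imp fun _ _ h1 => A.cor h h1

theorem red_mv (h : H) {v : List E} (hr : Red v) : Red (mv h v) :=
  red_map (MulAction.injective h) hr

/-- gluing along a common part -/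
theorem glue_chain {P M Q : List E} (h1 : (P ++ M).IsChain S.Cor) (h2 : (M ++ Q).IsChain S.Cor)
    (hM : M ≠ []) : (P ++ M ++ Q).IsChain S.Cor := by
  rw [List.append_assoc, List.isChain_append]
  rw [List.isChain_append] at h1
  refine ⟨h1.1, h2, ?_⟩
  intro x hx y hy
  apply h1.2.2 x hx
  cases M with
  | nil => exact absurd rfl hM
  | cons m M => simpa using hy

theorem glue_red {P M Q : List E} (h1 : Red (P ++ M)) (h2 : Red (M ++ Q)) (hM : 2 ≤ M.length) :
    Red (P ++ M ++ Q) := by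
  rcases M with _ | ⟨x, _ | ⟨y, M⟩⟩
  · simp at hM
  · simp at hM
  · have h3 : Red (P ++ [x, y]) := by
      apply red_left (s := M)
      simpa using h1
    have := red_glue h3 (s := M ++ Q) (by simpa using h2)
    simpa using this

theorem glue_ow {P M Q : List E} (hM : M ≠ []) :
    ow θ (P ++ M ++ Q) = ow θ (P ++ M) + ow θ (M ++ Q) - ow θ M := by
  cases M with
  | nil => exact absurd rfl hM
  | cons m M =>
    have h1 := ow_glue θ P m (M ++ Q)
    have h2 := ow_glue θ P m M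
    have e1 : P ++ m :: M ++ Q = P ++ m :: (M ++ Q) := by simp
    rw [e1, h1, h2, List.cons_append]
    ring

theorem red_glue1 {p s : List E} {y x z : E} (h1 : Red (p ++ [y, x])) (h2 : Red (x :: z :: s))
    (h : y ≠ z) : Red (p ++ y :: x :: z :: s) := by
  refine red_glue h1 ?_
  exact red_glue (p := [y]) (red_three h) h2

/-- partial sums -/
noncomputable def Φ (θ : E → E → ℝ) (W : ℕ → List E) (i n : ℕ) : ℝ :=
  ∑ k ∈ Finset.range n, (3 - ow θ (W (i + k)))

theorem Φ_add (W : ℕ → List E) (i m n : ℕ) : Φ θ W i (m + n) = Φ θ W i m + Φ θ W (i + m) n := by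
  unfold Φ
  rw [Finset.sum_range_add]
  simp [add_assoc]

theorem Φ_one (W : ℕ → List E) (i : ℕ) : Φ θ W i 1 = 3 - ow θ (W i) := by
  simp [Φ]

variable {T : List H → Prop}

/-- THE COUNT -/
theorem Mnw.count (A : GAct S H) (C : CntW S H θ Mk) {x : V} {w : List E}
    {ms : List H} (hw : Mnw S T x w ms) {a : ℕ → E} {W : ℕ → List E} {I : List (List E)}
    (B : Bd S w.length a W I) (ha : ∀ i (h : i < w.length), a i = w[i]) (hM : MaskRed S w W)
    {x0 : V} {w0 : List E} {h0 : H} {ms0 : List H} (hL : Lp S x0 w0 h0 ms0) :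
    (∀ m ∈ ms0, Mk m) → ∀ (X Y : List E) (u : H), w = X ++ mv u w0 ++ Y →
      (∀ w', Lp S x0 w' h0 ms0 → Lp S x (X ++ mv u w' ++ Y) 1 ms) →
    ∃ (nl : ℕ) (mu : H) (Z X1 Y1 : List E), nl ≤ ms0.length ∧ (nl = 0 → mu = 1) ∧
      (nl = 1 → Mk mu ∧ mu • x0 = x0) ∧ Z.IsChain S.Cor ∧ Red Z ∧
      Z = mv u⁻¹ (W X.length) ++ Y1 ∧
      Z = X1 ++ mv (mu * h0⁻¹ * u⁻¹) (W (X.length + w0.length)) ∧ (w0 ≠ [] → X1 ≠ []) ∧
      Φ θ W X.length (w0.length + 1) ≤ 3.9 * ((ms0.length : ℝ) - nl) + 3 - ow θ Z := by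
  induction hL with
  | nil x0 =>
    intro _ X Y u hwX _
    refine ⟨0, 1, mv u⁻¹ (W X.length), [], [], le_refl _, fun _ => rfl, fun h => absurd h (by simp),
      chain_mv A _ (B.chain _), red_mv _ (B.red _), by simp, by simp, fun h => absurd rfl h, ?_⟩
    rw [ow_mv C.act]
    simp [Φ_one]
  | @mark x0 m hm =>
    intro hMk X Y u hwX _
    refine ⟨1, m, mv u⁻¹ (W X.length), [], [], by simp, fun h => absurd h (by simp),
      fun _ => ⟨hMk m (by simp), hm⟩,
      chain_mv A _ (B.chain _), red_mv _ (B.red _), by simp, by simp, fun h => absurd rfl h, ?_⟩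
    rw [ow_mv C.act]
    simp [Φ_one]
  | @app x0 w1 w2 h1 h2 ms1 ms2 hw1 hw2 ih1 ih2 =>
    intro hMk X Y u hwX hctx
    obtain ⟨n1, mu1, Z1, X11, Y11, a1, a2, a3, a4, a5, a6, a7, a8, a9⟩ := ih1
      (fun m hm => hMk m (by simp [hm])) X (mv (u * h1) w2 ++ Y) u
      (by rw [hwX]; simp [mv_mul]) (by
        intro w' hw'
        have := hctx _ (Lp.app hw' hw2)
        rw [mv_append, ← mv_mul] at this
        simpa using this)
    obtain ⟨n2, mu2, Z2, X12, Y12, b1, b2, b3, b4, b5, b6, b7, b8, b9⟩ := ih2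
      (fun m hm => hMk m (by simp [hm])) (X ++ mv u w1) Y (u * h1)
      (by rw [hwX]; simp [mv_mul]) (by
        intro w' hw'
        have := hctx _ (Lp.app hw1 hw')
        rw [mv_append, ← mv_mul] at this
        simpa using this)
    have hlX : (X ++ mv u w1).length = X.length + w1.length := by simp
    rw [hlX] at b6 b7 b9
    obtain ⟨m, hm⟩ : ∃ m, m = X.length + w1.length := ⟨_, rfl⟩
    rw [← hm] at a7 b6 b7 b9
    have h2W := two_le B m
    obtain ⟨M, hM'⟩ : ∃ M, M = mv (mu1 * h1⁻¹ * u⁻¹) (W m) := ⟨_, rfl⟩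
    have hMl : 2 ≤ M.length := by rw [hM', mv_length]; exact h2W
    have hMne : M ≠ [] := by rintro rfl; simp at hMl
    have e1 : mv mu1 Z2 = M ++ mv mu1 Y12 := by
      rw [b6, mv_append, ← mv_mul, hM']
      have : mu1 * (u * h1)⁻¹ = mu1 * h1⁻¹ * u⁻¹ := by group
      rw [this]
    rw [← hM'] at a7
    have c1 : (X11 ++ M ++ mv mu1 Y12).IsChain S.Cor := by
      refine glue_chain (by rw [← a7]; exact a4) ?_ hMne
      rw [← e1]; exact chain_mv A _ b4
    have c2 : Red (X11 ++ M ++ mv mu1 Y12) := by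
      refine glue_red (by rw [← a7]; exact a5) ?_ hMl
      rw [← e1]; exact red_mv _ b5
    have c3 : ow θ (X11 ++ M ++ mv mu1 Y12) = ow θ Z1 + ow θ Z2 - ow θ (W m) := by
      rw [glue_ow hMne, ← a7, ← e1, ow_mv C.act, hM', ow_mv C.act]
    refine ⟨n1 + n2, mu1 * mu2, X11 ++ M ++ mv mu1 Y12, X11 ++ mv mu1 X12, Y11 ++ mv mu1 Y12,
      ?_, ?_, ?_, c1, c2, ?_, ?_, ?_, ?_⟩
    · rw [List.length_append]; omega
    · intro h
      rw [a2 (by omega), b2 (by omega), one_mul]
    · intro h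
      rcases Nat.eq_zero_or_pos n1 with hn | hn
      · rw [a2 hn, one_mul]
        exact b3 (by omega)
      · rw [b2 (by omega), mul_one]
        exact a3 (by omega)
    · rw [← a7, a6]; simp
    · rw [List.append_assoc X11 M, ← e1, b7, mv_append, ← mv_mul]
      have e2 : mu1 * (mu2 * h2⁻¹ * (u * h1)⁻¹) = mu1 * mu2 * (h1 * h2)⁻¹ * u⁻¹ := by group
      have e3 : X.length + (w1 ++ mv h1 w2).length = m + w2.length := by
        rw [hm]; simp; omega
      rw [e2, e3]
      simp
    · intro hne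
      by_cases h3 : w1 = []
      · have h4 : w2 ≠ [] := by
          rintro rfl
          exact hne (by rw [h3]; rfl)
        intro h5
        exact b8 h4 (mv_eq_nil.1 (List.append_eq_nil_iff.1 h5).2)
      · intro h5
        exact a8 h3 (List.append_eq_nil_iff.1 h5).1
    · have e4 : (w1 ++ mv h1 w2).length + 1 = w1.length + (w2.length + 1) := by simp; omega
      rw [e4, Φ_add, c3, ← hm]
      rw [Φ_add, ← hm, Φ_one] at a9
      push_cast
      rw [List.length_append]
      push_cast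
      linarith
  | @edge e w1 h ms1 hw1 ih =>
    intro hMk X Y u hwX hctx
    obtain ⟨n1, mu1, Z1, X11, Y11, a1, a2, a3, a4, a5, a6, a7, a8, a9⟩ := ih hMk
      (X ++ [u • e]) ([S.inv ((u * h) • e)] ++ Y) u
      (by rw [hwX]; simp [← A.inv, mul_smul]) (by
        intro w' hw'
        have := hctx _ (Lp.edge hw')
        simpa [← A.inv, mul_smul] using this)
    have hlX : (X ++ [u • e]).length = X.length + 1 := by simp
    rw [hlX] at a6 a7 a9
    -- letters
    have hw' : w = X ++ u • e :: (mv u w1 ++ S.inv ((u * h) • e) :: Y) := by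
      rw [hwX]
      simp [← A.inv, mul_smul]
    have hl1 : (mv u w1).length = w1.length := mv_length _ _
    have hlen : w.length = X.length + (w1.length + (Y.length + 1) + 1) := by
      rw [hw']; simp
    have hi : X.length < w.length := by omega
    have hj : X.length + 1 + w1.length < w.length := by omega
    have hai : a X.length = u • e := by
      rw [ha _ hi]
      simp [hw']
    have haj : a (X.length + 1 + w1.length) = S.inv ((u * h) • e) := by
      rw [ha _ hj]
      simp only [hw']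
      rw [List.getElem_append_right (by omega)]
      have e1 : X.length + 1 + w1.length - X.length = w1.length + 1 := by omega
      simp only [e1, List.getElem_cons_succ]
      rw [List.getElem_append_right (by omega)]
      simp [hl1]
    obtain ⟨f1, f2, l, r, hT1, hW1, hW1'⟩ := B.edg X.length
    obtain ⟨g1, g2, l', r', hT2, hW2, hW2'⟩ := B.edg (X.length + 1 + w1.length)
    obtain ⟨hp1, hp2⟩ := hw.pair A B ha hM hwX hw1 hctx hT1 hW1 hT2 hW2 hW1' hW2'
    -- the closed walk at the end point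
    have z1 : Z1 = S.inv e :: u⁻¹ • S.inv f2 :: (mv u⁻¹ r ++ Y11) := by
      rw [a6, hW1', hai]
      simp [← A.inv]
    have z2 : Z1 = (X11 ++ mv (mu1 * h⁻¹ * u⁻¹) l') ++
        [(mu1 * h⁻¹ * u⁻¹) • g1, mu1 • S.inv e] := by
      rw [a7, hW2, haj]
      have e1 : (mu1 * h⁻¹ * u⁻¹) • S.inv ((u * h) • e) = mu1 • S.inv e := by
        rw [← A.inv, ← A.inv, ← mul_smul]
        congr 2
        group
      simp [e1]
    have hne2 : mu1 • u⁻¹ • S.inv f2 ≠ (mu1 * h⁻¹ * u⁻¹) • g1 := by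
      intro hc
      apply hp2
      rw [← mul_smul] at hc
      have := congrArg (fun z => (mu1 * h⁻¹ * u⁻¹)⁻¹ • z) hc
      simp only [inv_smul_smul] at this
      rw [← this, ← mul_smul]
      congr 1
      group
    have hsrc : S.src (S.inv e) = S.tgt e := rfl
    have hZ : (3.9 : ℝ) * ((ms1.length : ℝ) - n1) + 3 - ow θ Z1 ≤ 3.9 * ms1.length - 3 := by
      have hlow : 0.9 ≤ ow θ Z1 := by
        apply ow_low C.low
        rw [z1]; simp
      rcases Nat.lt_or_ge n1 2 with hn | hn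
      · rcases Nat.eq_zero_or_pos n1 with hn0 | hn1
        · have hm1 := a2 hn0
          subst hn0 hm1
          rw [one_smul] at hne2
          rw [one_smul] at z2
          have := C.loop Z1 _ _ _ _ _ a4 a5 z1 z2 hne2
          push_cast
          linarith
        · have hn1' : n1 = 1 := by omega
          obtain ⟨q1, q2⟩ := a3 hn1'
          have := C.rot mu1 Z1 _ _ _ _ _ q1 (by rw [hsrc]; exact q2) a4 a5 z1 z2 hne2
          rw [hn1']
          push_cast
          norm_num at this ⊢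
          linarith
      · have hn' : (2 : ℝ) ≤ n1 := by exact_mod_cast hn
        norm_num at hlow ⊢
        linarith
    -- the new walk
    have y1 : mv u⁻¹ (W X.length) = mv u⁻¹ l ++ [u⁻¹ • f1, e] := by
      rw [hW1, hai]
      simp
    have y2 : mv (h⁻¹ * u⁻¹) (W (X.length + 1 + w1.length + 1)) =
        e :: (h⁻¹ * u⁻¹) • S.inv g2 :: mv (h⁻¹ * u⁻¹) r' := by
      rw [hW2', haj, S.inv_inv]
      have e1 : (h⁻¹ * u⁻¹) • (u * h) • e = e := by
        rw [← mul_smul]
        have : h⁻¹ * u⁻¹ * (u * h) = 1 := by group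
        rw [this, one_smul]
      simp only [mv_cons]
      rw [e1]
    have hne1 : u⁻¹ • f1 ≠ (h⁻¹ * u⁻¹) • S.inv g2 := by
      intro hc
      apply hp1
      have := congrArg (fun z => (u * h) • z) hc
      simp only [← mul_smul] at this
      have e1 : u * h * (h⁻¹ * u⁻¹) = 1 := by group
      rwa [e1, one_smul] at this
    have v1 : (mv u⁻¹ l ++ [u⁻¹ • f1, e]).IsChain S.Cor := by
      rw [← y1]; exact chain_mv A _ (B.chain _)
    have v2 : (e :: (h⁻¹ * u⁻¹) • S.inv g2 :: mv (h⁻¹ * u⁻¹) r').IsChain S.Cor := by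
      rw [← y2]; exact chain_mv A _ (B.chain _)
    have v3 : Red (mv u⁻¹ l ++ [u⁻¹ • f1, e]) := by
      rw [← y1]; exact red_mv _ (B.red _)
    have v4 : Red (e :: (h⁻¹ * u⁻¹) • S.inv g2 :: mv (h⁻¹ * u⁻¹) r') := by
      rw [← y2]; exact red_mv _ (B.red _)
    have hj2 : X.length + (e :: (w1 ++ [S.inv (h • e)])).length = X.length + 1 + w1.length + 1 := by
      simp; omega
    refine ⟨0, 1, mv u⁻¹ l ++ u⁻¹ • f1 :: e :: (h⁻¹ * u⁻¹) • S.inv g2 :: mv (h⁻¹ * u⁻¹) r',
      mv u⁻¹ l ++ [u⁻¹ • f1], (h⁻¹ * u⁻¹) • S.inv g2 :: mv (h⁻¹ * u⁻¹) r',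
      Nat.zero_le _, fun _ => rfl, fun h => absurd h (by simp), ?_, ?_, ?_, ?_, ?_, ?_⟩
    · have := glue_chain (P := mv u⁻¹ l ++ [u⁻¹ • f1]) (M := [e])
        (Q := (h⁻¹ * u⁻¹) • S.inv g2 :: mv (h⁻¹ * u⁻¹) r') (by simpa using v1) (by simpa using v2)
        (by simp)
      simpa using this
    · exact red_glue1 v3 v4 hne1
    · rw [y1]; simp
    · rw [hj2, one_mul, y2]; simp
    · intro _; simp
    · have hΦ : Φ θ W X.length ((e :: (w1 ++ [S.inv (h • e)])).length + 1) =
          (3 - ow θ (W X.length)) + Φ θ W (X.length + 1) (w1.length + 1) +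
            (3 - ow θ (W (X.length + 1 + w1.length + 1))) := by
        have e1 : (e :: (w1 ++ [S.inv (h • e)])).length + 1 = 1 + ((w1.length + 1) + 1) := by
          simp; omega
        rw [e1, Φ_add, Φ_add, Φ_one, Φ_one]
        have e2 : X.length + 1 + (w1.length + 1) = X.length + 1 + w1.length + 1 := by omega
        rw [e2]; ring
      have how : ow θ (mv u⁻¹ l ++ u⁻¹ • f1 :: e :: (h⁻¹ * u⁻¹) • S.inv g2 ::
          mv (h⁻¹ * u⁻¹) r') = ow θ (W X.length) + ow θ (W (X.length + 1 + w1.length + 1)) := by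
        have e1 := glue_ow (θ := θ) (P := mv u⁻¹ l ++ [u⁻¹ • f1]) (M := [e])
          (Q := (h⁻¹ * u⁻¹) • S.inv g2 :: mv (h⁻¹ * u⁻¹) r') (by simp)
        have e2 : mv u⁻¹ l ++ [u⁻¹ • f1] ++ [e] = mv u⁻¹ (W X.length) := by rw [y1]; simp
        have e3 : [e] ++ (h⁻¹ * u⁻¹) • S.inv g2 :: mv (h⁻¹ * u⁻¹) r' =
            mv (h⁻¹ * u⁻¹) (W (X.length + 1 + w1.length + 1)) := by rw [y2]; simp
        rw [e2, e3, ow_mv C.act, ow_mv C.act] at e1
        have e4 : ow θ [e] = 0 := rfl
        rw [e4, sub_zero] at e1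
        rw [← e1, ← e2]
        congr 1
        simp
      rw [hΦ, how]
      push_cast
      linarith

/-- THE THEOREM: there are no closed holonomy words with three marks -/
theorem no_triple (M : Mods) (hSC : S.SC) (A : GAct S H) (C : CntW S H θ Mk) (hT : TCls V T)
    (hMk : ∀ ms, T ms → ∀ m ∈ ms, Mk m) {x : V} {w : List E} {ms : List H} (h : T ms)
    (hL : Lp S x w 1 ms) : False := by
  obtain ⟨x, w, ms, hw⟩ := exists_Mnw S T ⟨x, w, ms, h, hL⟩
  have hcl : S.Cl w := ⟨x, by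
    have := hw.lp.isP A
    rwa [one_smul] at this⟩
  have hne := hw.ne_nil hT
  obtain ⟨a, W, I, B, ha, -, hM⟩ := bdyM M hSC w hcl (hw.pf M hSC A hT) hne (hw.ne_spur A hT)
  obtain ⟨n1, mu, Z, X1, Y1, a1, a2, a3, a4, a5, a6, a7, a8, a9⟩ :=
    hw.count A C B ha hM hw.lp (hMk _ hw.t) [] [] 1 (by simp) (by
      intro w' hw'
      simpa using hw')
  have hlen3 := hT.len _ hw.t
  simp only [List.length_nil, Nat.zero_add, inv_one, mv_one, mul_one] at a6 a7 a9
  have hWN : W w.length = W 0 := by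
    have := B.perW 0
    rwa [zero_add] at this
  rw [hWN] at a7
  have hX1 := a8 hne
  -- the total
  have hgb := B.gb _ C.wt
  have hI : (I.map (fun v => 6 - cw θ v)).sum ≤ 0 := by
    apply sum_np
    intro t ht
    obtain ⟨v, hv, rfl⟩ := List.mem_map.1 ht
    have h1 := C.inner v (B.inner v hv)
    linarith
  have hΦ : Φ θ W 0 (w.length + 1) = ∑ i ∈ Finset.range w.length, (3 - ow θ (W i)) +
      (3 - ow θ (W 0)) := by
    unfold Φ
    rw [Finset.sum_range_succ]
    simp [hWN]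
  rw [hΦ, hlen3] at a9
  obtain ⟨σ, hσ⟩ : ∃ σ, σ = ∑ i ∈ Finset.range w.length, (3 - ow θ (W i)) := ⟨_, rfl⟩
  rw [← hσ] at a9 hgb
  -- the closed walk at the base point
  have hN : 0 < w.length := List.length_pos_iff.2 hne
  obtain ⟨N, hN'⟩ : ∃ N, w.length = N + 1 := ⟨w.length - 1, by omega⟩
  obtain ⟨f1, f2, l, r, hT1, hW1, hW1'⟩ := B.edg N
  have hWN' : W (N + 1) = W 0 := by rw [← hN', hWN]
  rw [hWN'] at hW1'
  obtain ⟨c, hc⟩ : ∃ c, c = S.inv (a N) := ⟨_, rfl⟩
  obtain ⟨d, hd⟩ : ∃ d, d = S.inv f2 := ⟨_, rfl⟩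
  rw [← hc, ← hd] at hW1'
  -- Z = X1 ++ mu (c :: d :: r)
  obtain ⟨X2, q, hX2⟩ : ∃ X2 q, X1 = X2 ++ [q] :=
    ⟨X1.dropLast, X1.getLast hX1, (List.dropLast_append_getLast hX1).symm⟩
  have z1 : Z = c :: d :: (r ++ Y1) := by rw [a6, hW1']; simp
  have z2 : Z = X2 ++ q :: mu • c :: mu • d :: mv mu r := by rw [a7, hW1', hX2]; simp
  obtain ⟨Z', hZ'⟩ : ∃ Z', Z' = X2 ++ [q, mu • c] := ⟨_, rfl⟩
  have z3 : Z = Z' ++ (mu • d :: mv mu r) := by rw [z2, hZ']; simp
  have hcZ' : Z'.IsChain S.Cor := by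
    rw [z3] at a4
    exact a4.left_of_append
  have hrZ' : Red Z' := by
    rw [z3] at a5
    exact red_left a5
  have hq : q ≠ mu • d := a5 X2 q (mu • c) (mu • d) (mv mu r) z2
  have how : ow θ Z = ow θ Z' + ow θ (W 0) := by
    have e1 := glue_ow (θ := θ) (P := X2 ++ [q]) (M := [mu • c]) (Q := mu • d :: mv mu r) (by simp)
    have e2 : X2 ++ [q] ++ [mu • c] = Z' := by rw [hZ']; simp
    have e3 : [mu • c] ++ mu • d :: mv mu r = mv mu (W 0) := by rw [hW1']; simp
    rw [e2, e3, ow_mv C.act] at e1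
    have e4 : ow θ [mu • c] = 0 := rfl
    rw [e4, sub_zero] at e1
    rw [z3]
    simpa using e1
  -- Z' starts with c :: d
  have hZ'1 : ∃ r2, Z' = c :: d :: r2 := by
    have h2 : 2 ≤ Z'.length := by rw [hZ']; simp
    rcases hz : Z' with _ | ⟨p1, _ | ⟨p2, r2⟩⟩
    · rw [hz] at h2; simp at h2
    · rw [hz] at h2; simp at h2
    · rw [hz, z1] at z3
      simp only [List.cons_append, List.cons.injEq] at z3
      exact ⟨r2, by rw [z3.1, z3.2.1]⟩
  obtain ⟨r2, hr2⟩ := hZ'1
  have hlowZ : 0.9 ≤ ow θ Z' := by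
    apply ow_low C.low
    rw [hr2]; simp
  rcases Nat.lt_or_ge n1 2 with hn | hn
  · rcases Nat.eq_zero_or_pos n1 with hn0 | hn1
    · have hm1 := a2 hn0
      subst hn0 hm1
      rw [one_smul] at hq hZ'
      have := C.loop Z' _ _ _ _ _ hcZ' hrZ' hr2 hZ' (Ne.symm hq)
      push_cast at a9
      norm_num at a9
      linarith
    · have hn1' : n1 = 1 := by omega
      obtain ⟨q1, q2⟩ := a3 hn1'
      have hsrc : S.src c = x := by
        have h1 : S.src (a 0) = x := by
          have h2 := hw.lp.isP A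
          rw [ha 0 hN]
          obtain ⟨e, w', hwc⟩ := List.exists_cons_of_ne_nil hne
          have h3 : w[0] = e := by simp [hwc]
          rw [h3]
          rw [hwc] at h2
          exact h2.1
        have h3 := B.path N
        have h4 : a (N + 1) = a 0 := by
          have := B.per 0
          rwa [zero_add, hN'] at this
        rw [h4, h1] at h3
        rw [hc, src_inv, ← h3]
      have := C.rot mu Z' _ _ _ _ _ q1 (by rw [hsrc]; exact q2) hcZ' hrZ' hr2 hZ' (Ne.symm hq)
      rw [hn1'] at a9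
      push_cast at a9
      norm_num at a9 this
      linarith
  · have hn' : (2 : ℝ) ≤ n1 := by exact_mod_cast hn
    push_cast at a9
    norm_num at a9 hlowZ
    linarith

end Pool.Agent.ABA.B.H89
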