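import Pool.Agent.Helper89_ABA.PLink6

/-! # Walks between a letter and its image under a rotation (MP_d857f1_al, part B) -/

namespace Pool.Agent.ABA.B

open Knd Pool.Agent.ABA

variable {G : Type} [Group G] {A B : Subgroup G} {g : G}
variable {hg : ¬ IsABA A B g} {hgeo : Geo A B} {hι : Function.Injective (Pι A B g)}

theorem eA_iff_G (hι : Function.Injective (Pι A B g)) {m m' : Dr} {q : PP A B g} {h h' : G} :
    eA m (q * Pι A B g h) = eA m' (q * Pι A B g h') ↔ m = m' ∧ h⁻¹ * h' ∈ A := by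
  rw [eA_eq]
  constructor
  · rintro ⟨rfl, a, ha, h1⟩
    rw [mul_assoc, ← map_mul] at h1
    have h2 := hι (mul_left_cancel h1)
    refine ⟨rfl, ?_⟩
    rw [h2, inv_mul_cancel_left]; exact ha
  · rintro ⟨rfl, h1⟩
    refine ⟨rfl, _, h1, ?_⟩
    rw [mul_assoc, ← map_mul, mul_inv_cancel_left]

theorem eC_iff_G (hι : Function.Injective (Pι A B g)) {m m' : Bool} {q : PP A B g} {h h' : G} :
    eC m (q * Pι A B g h) = eC m' (q * Pι A B g h') ↔ m = m' ∧ h⁻¹ * h' ∈ B := by
  rw [eC_eq]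
  constructor
  · rintro ⟨rfl, a, ha, h1⟩
    rw [mul_assoc, ← map_mul] at h1
    have h2 := hι (mul_left_cancel h1)
    refine ⟨rfl, ?_⟩
    rw [h2, inv_mul_cancel_left]; exact ha
  · rintro ⟨rfl, h1⟩
    refine ⟨rfl, _, h1, ?_⟩
    rw [mul_assoc, ← map_mul, mul_inv_cancel_left]

theorem InF_G {q : PP A B g} {m : Dr} {h : G} :
    InF q (eA m (q * Pι A B g h) : XE A B g) ↔ h ∈ A ∨ ∃ a ∈ A, Pι A B g h = Pι A B g a := by
  constructor
  · rintro ⟨m', h1⟩
    obtain ⟨-, a, ha, h2⟩ := eA_eq.1 h1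
    right
    refine ⟨a⁻¹, A.inv_mem ha, ?_⟩
    have h3 : q * 1 = q * (Pι A B g h * Pι A B g a) := by rw [mul_one, ← mul_assoc]; exact h2
    have h4 := mul_left_cancel h3
    rw [map_inv]
    exact eq_inv_of_mul_eq_one_left h4.symm
  · intro h1
    obtain ⟨a, ha, h2⟩ : ∃ a ∈ A, Pι A B g h = Pι A B g a := by
      rcases h1 with h1 | h1
      · exact ⟨h, h1, rfl⟩
      · exact h1
    refine ⟨m, ?_⟩
    rw [eA_eq]
    refine ⟨rfl, a⁻¹, A.inv_mem ha, ?_⟩
    rw [h2, map_inv, mul_inv_cancel_right]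

theorem InF_G' (hι : Function.Injective (Pι A B g)) {q : PP A B g} {m : Dr} {h : G} :
    InF q (eA m (q * Pι A B g h) : XE A B g) ↔ h ∈ A := by
  rw [InF_G]
  constructor
  · rintro (h1 | ⟨a, ha, h1⟩)
    · exact h1
    · rw [hι h1]; exact ha
  · exact Or.inl

/-- O-corners at the vertex `q G` -/
theorem cor_up_vm {q : PP A B g} {e e' : XE A B g}
    (h : (XX hg hgeo hι).Cor e e') (hs : xsrc e = vx q) (hk : kndE e = up) (hk' : kndE e' = vm) :
    ∃ y : G, e = eA .U (q * Pι A B g y) ∧ e' = eA .V' (q * Pι A B g (y * g)) := by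
  rcases (cor_iff e e').1 h with ⟨m, p, rfl, rfl⟩ | ⟨m, p, rfl, rfl⟩ | ⟨p, rfl, rfl⟩ |
    ⟨p, rfl, rfl⟩ | ⟨p, rfl, rfl⟩ | ⟨p, rfl, rfl⟩ | ⟨p, rfl, rfl⟩ | ⟨p, rfl, rfl⟩
  · exfalso; revert hk hk'; cases m <;> simp [kndD, Dr.nxt]
  · exfalso; revert hk hk'; cases m <;> simp [kndD, Dr.nxt]
  · exfalso; revert hk; simp [kndD]
  · rw [xsrc_eA] at hs
    obtain ⟨y, rfl⟩ := vx_eq.1 hs.symm
    exact ⟨y, rfl, by rw [map_mul, ← mul_assoc]⟩
  · exfalso; revert hk; simp [kndC]
  · exfalso; revert hk; simp [kndD]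
  · exfalso; revert hk; simp [kndD]
  · exfalso; revert hk; simp [kndC]

theorem chain_src' {v : List (XE A B g)} {x : XV A B g} (hc : v.IsChain (XX hg hgeo hι).Cor)
    {e : XE A B g} (he : e ∈ v) (hx : xsrc e = x) : ∀ e ∈ v, xsrc e = x := by
  induction v with
  | nil => simp
  | cons a v ih =>
    rcases List.mem_cons.1 he with rfl | he'
    · exact chain_src hg hgeo hι hc (by
        intro f hf
        simp only [List.head?_cons, Option.mem_def, Option.some.injEq] at hf
        subst hf; exact hx)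
    · cases v with
      | nil => simp at he'
      | cons b v =>
        rw [List.isChain_cons_cons] at hc
        have h1 := ih hc.2 he'
        intro f hf
        rcases List.mem_cons.1 hf with rfl | hf
        · rw [cor_src hg hgeo hι hc.1]
          exact h1 b (by simp)
        · exact h1 f hf

/-- (e) from a letter outside the flat of `q` to its image under a rotation about the flat -/
theorem walk_rot {v : List (XE A B g)} {q : PP A B g} {a : G} (ha : a ∈ A) (ha1 : a ≠ 1)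
    (hc : v.IsChain (XX hg hgeo hι).Cor) (hr : Red v) {e : XE A B g}
    (hs : xsrc e = vx q) (hF : ∀ x ∈ v, ¬ InF q x) (h1 : v.head? = some e)
    (h2 : v.getLast? = some (actE (q * Pι A B g a * q⁻¹) e)) :
    2.1 ≤ ow θR v ∧ 3 ≤ v.length := by
  have hmem : e ∈ v := List.mem_of_mem_head? h1
  have heF : ¬ InF q e := hF e hmem
  -- same kinds
  have hkk : kndE (actE (q * Pι A B g a * q⁻¹) e) = kndE e := by
    refine XE.ind (P := fun e => kndE (actE (q * Pι A B g a * q⁻¹) e) = kndE e) ?_ ?_ e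
    · intro m p; rfl
    · intro m p; rfl
  -- the image is different
  have hne : actE (q * Pι A B g a * q⁻¹) e ≠ e := by
    intro h
    rcases edge_at hs with ⟨m, h', rfl⟩ | ⟨s, h', rfl⟩
    · rw [actE_eA] at h
      have e1 : q * Pι A B g a * q⁻¹ * (q * Pι A B g h') = q * Pι A B g (a * h') := by
        rw [map_mul]; group
      rw [e1] at h
      obtain ⟨-, h3⟩ := (eA_iff_G hι).1 h
      have h4 : h'⁻¹ * a⁻¹ * (h'⁻¹)⁻¹ ∈ A := by
        have : h'⁻¹ * a⁻¹ * (h'⁻¹)⁻¹ = (a * h')⁻¹ * h' := by group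
        rw [this]; exact h3
      have h5 := hgeo.aa _ _ (A.inv_mem ha) h4 (inv_ne_one.2 ha1)
      exact heF ((InF_G' hι).2 ((Subgroup.inv_mem_iff _).1 h5))
    · rw [actE_eC] at h
      have e1 : q * Pι A B g a * q⁻¹ * (q * Pι A B g h') = q * Pι A B g (a * h') := by
        rw [map_mul]; group
      rw [e1] at h
      obtain ⟨-, h3⟩ := (eC_iff_G hι).1 h
      have h4 : h'⁻¹ * a⁻¹ * (h'⁻¹)⁻¹ ∈ B := by
        have : h'⁻¹ * a⁻¹ * (h'⁻¹)⁻¹ = (a * h')⁻¹ * h' := by group
        rw [this]; exact h3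
      have h5 := hgeo.ab' _ _ (A.inv_mem ha) h4
      exact ha1 (inv_eq_one.1 h5)
  have hlen := ow20_ge (v.map kndE)
  rw [List.length_map] at hlen
  rcases v with _ | ⟨x0, _ | ⟨x1, _ | ⟨x2, _ | ⟨x3, v⟩⟩⟩⟩
  · simp at h1
  · exfalso
    simp only [List.head?_cons, Option.some.injEq, List.getLast?_singleton] at h1 h2
    exact hne (by rw [← h2, h1])
  · exfalso
    simp only [List.head?_cons, Option.some.injEq, List.getLast?_cons_cons,
      List.getLast?_singleton] at h1 h2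
    subst h1
    rw [List.isChain_cons_cons] at hc
    have h3 := cor_adj hc.1
    rw [h2, hkk] at h3
    exact adj_ne h3 rfl
  · -- three letters
    simp only [List.head?_cons, Option.some.injEq, List.getLast?_cons_cons,
      List.getLast?_singleton] at h1 h2
    subst h1
    rw [List.isChain_cons_cons, List.isChain_cons_cons] at hc
    refine ⟨?_, le_refl _⟩
    have hx02 : x0 ≠ x2 := hr [] x0 x1 x2 [] rfl
    have hk2 : kndE x2 = kndE x0 := by rw [h2, hkk]
    have hsx1 : xsrc x1 = vx q := by rw [← cor_src hg hgeo hι hc.1]; exact hs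
    have hsx2 : xsrc x2 = vx q := by rw [← cor_src hg hgeo hι hc.2.1]; exact hsx1
    have hadj := cor_adj hc.1
    -- not a hexagon edge
    have hnh : hex (kndE x0) (kndE x1) = false := by
      by_contra hcon
      simp only [Bool.not_eq_false] at hcon
      obtain ⟨m, m', r, e1, e2⟩ := Cor.hex_coset hg hgeo hι hc.1 hcon
      have hcon' : hex (kndE x1) (kndE x2) = true := by rw [hk2, hex_symm]; exact hcon
      obtain ⟨m2, m3, r', e3, e4⟩ := Cor.hex_coset hg hgeo hι hc.2.1 hcon'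
      apply hx02
      rw [e1, e4]
      rw [e2] at e3
      obtain ⟨rfl, b, hb, rfl⟩ := eA_eq.1 e3
      rw [eA_eq]
      refine ⟨?_, b, hb, rfl⟩
      rw [e1, e4, kndE_eA, kndE_eA] at hk2
      exact (kndD_inj hk2).symm
    have htee : tee (kndE x0) (kndE x1) = true := by
      unfold adj at hadj
      rw [hnh, Bool.false_or] at hadj
      exact hadj
    rw [ow_eq20]
    rcases tee_cases htee with ⟨h3, h4⟩ | ⟨h3, h4⟩ | ⟨h3, h4⟩ | ⟨h3, h4⟩ | ⟨h3, h4⟩ | ⟨h3, h4⟩
    · -- up vm up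
      exfalso
      obtain ⟨y, hy1, hy2⟩ := cor_up_vm hc.1 hs h3 h4
      obtain ⟨y', hy1', hy2'⟩ := cor_up_vm (cor_symm' hc.2.1) hsx2 (by rw [hk2]; exact h3) h4
      rw [hy2] at hy2'
      obtain ⟨-, hb⟩ := (eA_iff_G hι).1 hy2'
      rw [hy1', hy1, actE_eA] at h2
      have e1 : q * Pι A B g a * q⁻¹ * (q * Pι A B g y) = q * Pι A B g (a * y) := by
        rw [map_mul]; group
      rw [e1] at h2
      obtain ⟨-, hb2⟩ := (eA_iff_G hι).1 h2
      -- a y = y' z, y' g = y g b
      have hyA : y ∉ A := by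
        intro h
        exact heF (by rw [hy1]; exact (InF_G' hι).2 h)
      have hcore := rot_core hgeo (γ := g) (h := y) (a := a) (x := 1) (y := (y * g)⁻¹ * (y' * g))
        (z := y'⁻¹ * (a * y)) (not_mem_A hg) ha ha1 A.one_mem hb hb2 hyA (by group)
      rw [mul_one] at hcore
      exact hF x1 (by simp) (by rw [hy2]; exact (InF_G' hι).2 hcore)
    · -- vm up vm
      exfalso
      obtain ⟨y, hy1, hy2⟩ := cor_up_vm (cor_symm' hc.1) hsx1 h4 h3
      obtain ⟨y', hy1', hy2'⟩ := cor_up_vm hc.2.1 hsx1 h4 (by rw [hk2]; exact h3)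
      rw [hy1] at hy1'
      obtain ⟨-, hb⟩ := (eA_iff_G hι).1 hy1'
      rw [hy2', hy2, actE_eA] at h2
      have e1 : q * Pι A B g a * q⁻¹ * (q * Pι A B g (y * g)) = q * Pι A B g (a * (y * g)) := by
        rw [map_mul (Pι A B g) a (y * g)]; group
      rw [e1] at h2
      obtain ⟨-, hb2⟩ := (eA_iff_G hι).1 h2
      have hyA : y * g ∉ A := by
        intro h
        exact heF (by rw [hy2]; exact (InF_G' hι).2 h)
      have hg' : g⁻¹ ∉ A := fun h => not_mem_A hg ((Subgroup.inv_mem_iff _).1 h)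
      have hcore := rot_core hgeo (γ := g⁻¹) (h := y * g) (a := a) (x := 1) (y := y⁻¹ * y')
        (z := (y' * g)⁻¹ * (a * (y * g))) hg' ha ha1 A.one_mem hb hb2 hyA (by group)
      rw [mul_one, mul_inv_cancel_right] at hcore
      exact hF x1 (by simp) (by rw [hy1]; exact (InF_G' hι).2 hcore)
    all_goals
      simp only [List.map_cons, List.map_nil, ow20, hk2, h3, h4]
      norm_num [wt]
  · -- at least four letters
    simp only [List.length_cons] at hlen ⊢
    have h5 : (54 : ℕ) ≤ ow20 ((x0 :: x1 :: x2 :: x3 :: v).map kndE) := by omega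
    have h6 : (54 : ℝ) ≤ (ow20 ((x0 :: x1 :: x2 :: x3 :: v).map kndE) : ℝ) := by exact_mod_cast h5
    rw [ow_eq20]
    refine ⟨by linarith, by omega⟩

end Pool.Agent.ABA.B
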