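import Pool.Agent.Helper17_ABA.PR2
import Pool.Agent.Helper89_ABA.PLink7
import Pool.Agent.Helper89_ABA.Hol4

/-! # R3 for three rotations of `P` (MP_d857f1_al, part B) -/

namespace Pool.Agent.ABA.B.H89

open Knd Pool.Agent.ABA Pool.Agent.ABA.B Pool.Agent.ABA.B.TG Pool.Agent.ABA.B.H17

variable {G : Type} [Group G] {A B : Subgroup G} {g : G}

/-- rotations -/
def Rtn (A B : Subgroup G) (g : G) (m : PP A B g) : Prop :=
  ∃ q : PP A B g, ∃ a ∈ A, a ≠ 1 ∧ m = q * Pι A B g a * q⁻¹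

variable {hg : ¬ IsABA A B g} {hgeo : Geo A B} {hι : Function.Injective (Pι A B g)}

/-- a rotation fixing a vertex is a rotation of the link group -/
theorem Rtn.at (M : Mods) (hSC : (XX hg hgeo hι).SC) (hA : ∀ x ∈ A, ∀ y ∈ A, x * y = y * x)
    {m p : PP A B g} (hm : Rtn A B g m) (hp : m • (vx p : XV A B g) = vx p) :
    ∃ k : G, ∃ a ∈ A, a ≠ 1 ∧ m = p * Pι A B g (k * a * k⁻¹) * p⁻¹ := by
  obtain ⟨q, a, ha, ha1, rfl⟩ := hm
  have h1 : (vx (Pι A B g a * (q⁻¹ * p)) : XV A B g) = vx (q⁻¹ * p) := by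
    have h2 : q⁻¹ • ((q * Pι A B g a * q⁻¹) • (vx p : XV A B g)) = q⁻¹ • vx p := by rw [hp]
    rw [← mul_smul] at h2
    have e1 : q⁻¹ * (q * Pι A B g a * q⁻¹) = Pι A B g a * q⁻¹ := by group
    rw [e1] at h2
    have h3 : (vx (Pι A B g a * q⁻¹ * p) : XV A B g) = vx (q⁻¹ * p) := h2
    rwa [mul_assoc] at h3
  obtain ⟨q', hq', k, hk⟩ := ell_plane M hSC hA ha ha1 h1
  obtain ⟨a1, ha1', ha11, h4⟩ := PA_comm_ι hq' ha ha1
  refine ⟨k⁻¹, a1, ha1', ha11, ?_⟩
  have e2 : q = p * (Pι A B g k)⁻¹ * q'⁻¹ := by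
    have : q⁻¹ * p = q' * Pι A B g k := hk
    have h5 : p = q * (q' * Pι A B g k) := by rw [← this]; group
    rw [h5]; group
  have e3 : q'⁻¹ * Pι A B g a * q' = Pι A B g a1 := by
    rw [mul_assoc, h4]; group
  have e4 : Pι A B g (k⁻¹ * a1 * k⁻¹⁻¹) = (Pι A B g k)⁻¹ * Pι A B g a1 * Pι A B g k := by
    simp only [map_mul, map_inv]
    group
  rw [e2, e4, ← e3]
  group

/-- the class of the triples of rotations -/
def TR (A B : Subgroup G) (g : G) (ms : List (PP A B g)) : Prop :=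
  ms.length = 3 ∧ (∀ m ∈ ms, Rtn A B g m) ∧ ∀ q : PP A B g, ¬ ∀ m ∈ ms, q⁻¹ * m * q ∈ PA A B g

theorem TR_cls (M : Mods) (hSC : (XX hg hgeo hι).SC) (hA : ∀ x ∈ A, ∀ y ∈ A, x * y = y * x) :
    TCls (XV A B g) (TR A B g) where
  len := fun ms h => h.1
  mr := by
    rintro ms ms' ⟨h1, h2, h3⟩ ⟨r1, r2, r3⟩
    refine ⟨r1.trans h1, ?_, ?_⟩
    · intro m' hm'
      obtain ⟨m, hm, k, rfl⟩ := r3 m' hm'
      obtain ⟨q, a, ha, ha1, rfl⟩ := h2 m hm
      exact ⟨k * q, a, ha, ha1, by group⟩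
    · intro q hq
      apply h3 q
      have h4 := r2 ((PA A B g).map (MulAut.conj q).toMonoidHom) (by
        intro m hm
        refine ⟨q⁻¹ * m * q, hq m hm, ?_⟩
        simp
        group)
      intro m hm
      obtain ⟨z, hz, hz2⟩ := h4 m hm
      simp at hz2
      have : q⁻¹ * m * q = z := by rw [← hz2]; group
      rw [this]; exact hz
  nofix := by
    rintro ms ⟨h1, h2, h3⟩ hprod x hx
    obtain ⟨p, rfl⟩ := QuotientGroup.mk_surjective x
    obtain ⟨m1, m2, m3, rfl⟩ := List.length_eq_three.1 h1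
    have f1 := hx m1 (by simp)
    have f2 := hx m2 (by simp)
    have f3 := hx m3 (by simp)
    obtain ⟨k1, a1, ha1, hn1, e1⟩ := (h2 m1 (by simp)).at M hSC hA f1
    obtain ⟨k2, a2, ha2, hn2, e2⟩ := (h2 m2 (by simp)).at M hSC hA f2
    obtain ⟨k3, a3, ha3, hn3, e3⟩ := (h2 m3 (by simp)).at M hSC hA f3
    have hp3 : m1 * (m2 * m3) = 1 := by simpa using hprod
    -- membership in conjugates
    have hmem : ∀ (k k' a : G), k'⁻¹ * k ∈ A → a ∈ A →
        (p * Pι A B g k')⁻¹ * (p * Pι A B g (k * a * k⁻¹) * p⁻¹) * (p * Pι A B g k') ∈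
          PA A B g := by
      intro k k' a hk ha
      have e4 : (p * Pι A B g k')⁻¹ * (p * Pι A B g (k * a * k⁻¹) * p⁻¹) * (p * Pι A B g k') =
          Pι A B g (k'⁻¹ * k * a * (k'⁻¹ * k)⁻¹) := by
        simp only [map_mul, map_inv, mul_inv_rev]
        group
      rw [e4]
      exact Subgroup.mem_sup_left (Subgroup.mem_map_of_mem _
        (A.mul_mem (A.mul_mem hk ha) (A.inv_mem hk)))
    have hall : ∀ q : PP A B g, (q⁻¹ * m1 * q ∈ PA A B g ∧ q⁻¹ * m2 * q ∈ PA A B g) ∨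
        (q⁻¹ * m2 * q ∈ PA A B g ∧ q⁻¹ * m3 * q ∈ PA A B g) ∨
        (q⁻¹ * m1 * q ∈ PA A B g ∧ q⁻¹ * m3 * q ∈ PA A B g) → False := by
      intro q hq
      apply h3 q
      have e5 : q⁻¹ * m1 * q * ((q⁻¹ * m2 * q) * (q⁻¹ * m3 * q)) = 1 := by
        have : q⁻¹ * m1 * q * ((q⁻¹ * m2 * q) * (q⁻¹ * m3 * q)) = q⁻¹ * (m1 * (m2 * m3)) * q := by
          group
        rw [this, hp3]; group
      have hthree : q⁻¹ * m1 * q ∈ PA A B g ∧ q⁻¹ * m2 * q ∈ PA A B g ∧
          q⁻¹ * m3 * q ∈ PA A B g := by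
        rcases hq with ⟨q1, q2⟩ | ⟨q2, q3⟩ | ⟨q1, q3⟩
        · refine ⟨q1, q2, ?_⟩
          have : q⁻¹ * m3 * q = (q⁻¹ * m2 * q)⁻¹ * (q⁻¹ * m1 * q)⁻¹ := by
            rw [← mul_inv_rev]
            exact eq_inv_of_mul_eq_one_right (by rw [mul_assoc]; exact e5)
          rw [this]
          exact (PA A B g).mul_mem ((PA A B g).inv_mem q2) ((PA A B g).inv_mem q1)
        · refine ⟨?_, q2, q3⟩
          rw [eq_inv_of_mul_eq_one_left e5]
          exact (PA A B g).inv_mem ((PA A B g).mul_mem q2 q3)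
        · refine ⟨q1, ?_, q3⟩
          have : q⁻¹ * m2 * q = (q⁻¹ * m1 * q)⁻¹ * (q⁻¹ * m3 * q)⁻¹ := by
            have h4 : (q⁻¹ * m2 * q) * (q⁻¹ * m3 * q) = (q⁻¹ * m1 * q)⁻¹ :=
              eq_inv_of_mul_eq_one_right e5
            rw [← h4]; group
          rw [this]
          exact (PA A B g).mul_mem ((PA A B g).inv_mem q1) ((PA A B g).inv_mem q3)
      intro m hm
      simp only [List.mem_cons, List.not_mem_nil, or_false] at hm
      rcases hm with rfl | rfl | rfl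
      · exact hthree.1
      · exact hthree.2.1
      · exact hthree.2.2
    have hself : ∀ k : G, k⁻¹ * k ∈ A := fun k => by rw [inv_mul_cancel]; exact A.one_mem
    refine hgeo.r3 k1 k2 k3 a1 a2 a3 ha1 ha2 ha3 hn1 hn2 hn3 ?_ ?_ ?_ ?_
    · intro hk
      apply hall (p * Pι A B g k1)
      left
      rw [e1, e2]
      exact ⟨hmem k1 k1 a1 (hself _) ha1, hmem k2 k1 a2 hk ha2⟩
    · intro hk
      apply hall (p * Pι A B g k2)
      right; left
      rw [e2, e3]
      exact ⟨hmem k2 k2 a2 (hself _) ha2, hmem k3 k2 a3 hk ha3⟩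
    · intro hk
      apply hall (p * Pι A B g k1)
      right; right
      rw [e1, e3]
      exact ⟨hmem k1 k1 a1 (hself _) ha1, hmem k3 k1 a3 hk ha3⟩
    · apply hι
      have h5 : p * (Pι A B g (k1 * a1 * k1⁻¹ * (k2 * a2 * k2⁻¹) * (k3 * a3 * k3⁻¹))) * p⁻¹ = 1 := by
        rw [e1, e2, e3] at hp3
        rw [← hp3]
        simp only [map_mul]
        group
      have h6 : Pι A B g (k1 * a1 * k1⁻¹ * (k2 * a2 * k2⁻¹) * (k3 * a3 * k3⁻¹)) = p⁻¹ * 1 * p := by
        rw [← h5]; group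
      rw [h6, map_one]; group

/-- the weights -/
theorem CntX (M : Mods) (hSC : (XX hg hgeo hι).SC) (hA : ∀ x ∈ A, ∀ y ∈ A, x * y = y * x) :
    CntW (XX hg hgeo hι) (PP A B g) θR (Rtn A B g) where
  wt := θR_Wt hg hgeo hι
  act := by
    intro h a b
    unfold θR
    rw [smul_actE, smul_actE, kndE_act, kndE_act]
  low := (cvR (hg := hg) (hgeo := hgeo) (hι := hι) hA).low
  inner := (cvR (hg := hg) (hgeo := hgeo) (hι := hι) hA).inner
  loop := by
    intro v e f f' w w' hc hr h1 h2 hff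
    obtain ⟨-, h3⟩ := walk_loop hA hc hr h1 h2 hff
    rcases h3 with h3 | ⟨-, h3, -⟩
    · linarith
    · rw [h3]
  rot := by
    intro m v e f f' w w' hm hfix hc hr h1 h2 hff
    obtain ⟨p, hp⟩ := QuotientGroup.mk_surjective (xsrc e)
    have hfix' : m • (vx p : XV A B g) = vx p := by
      have : (vx p : XV A B g) = (XX hg hgeo hι).src e := hp
      rw [this]; exact hfix
    obtain ⟨k, a, ha, ha1, rfl⟩ := hm.at M hSC hA hfix'
    -- the flat
    set q := p * Pι A B g k with hq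
    have hmq : p * Pι A B g (k * a * k⁻¹) * p⁻¹ = q * Pι A B g a * q⁻¹ := by
      rw [hq, map_mul, map_mul, map_inv]; group
    have hse : xsrc e = vx q := by
      rw [← hp]
      exact vx_eq.2 ⟨k, rfl⟩
    have hF : ∀ x : XE A B g, InF q x → actE (q * Pι A B g a * q⁻¹) x = x := by
      rintro x ⟨d, rfl⟩
      rw [actE_eA, eA_eq]
      refine ⟨rfl, a⁻¹, A.inv_mem ha, ?_⟩
      rw [map_inv]; group
    have hF' : ∀ x : XE A B g, InF q (actE (q * Pι A B g a * q⁻¹) x) → InF q x := by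
      rintro x ⟨d, hd⟩
      refine ⟨d, ?_⟩
      apply actE_inj (q * Pι A B g a * q⁻¹)
      rw [hd]
      exact (hF _ ⟨d, rfl⟩).symm
    by_contra hcon
    rw [not_le] at hcon
    have hlow := (cvR (hg := hg) (hgeo := hgeo) (hι := hι) hA).low
    have hshort : v.length ≤ 3 := by
      by_contra hl
      rw [not_le] at hl
      rcases v with _ | ⟨x0, _ | ⟨x1, _ | ⟨x2, _ | ⟨x3, v⟩⟩⟩⟩
      · simp at hl
      · simp at hl
      · simp at hl
      · simp at hl
      · have a1 := hlow x0 x1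
        have a2 := hlow x1 x2
        have a3 := hlow x2 x3
        have a4 := ow_nn hlow (x3 :: v)
        simp only [ow] at hcon
        norm_num at a1 a2 a3 hcon
        linarith
    have hall : ∀ x ∈ v, ¬ InF q x := by
      rw [smul_actE, hmq] at h2
      rw [smul_actE, hmq] at hff
      rw [h1] at hshort h2 hr
      have hl : (w' ++ [f', actE (q * Pι A B g a * q⁻¹) e]).length ≤ 3 := by
        rw [← h2]; exact hshort
      rcases w' with _ | ⟨y, _ | ⟨y', w'⟩⟩
      · -- two letters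
        exfalso
        simp only [List.nil_append, List.cons.injEq] at h2
        obtain ⟨h3, h4, h5⟩ := h2
        subst h5
        rw [h1, List.isChain_cons_cons] at hc
        have h6 := cor_adj hc.1
        rw [h4, kndE_act] at h6
        exact Knd.adj_ne h6 rfl
      · -- three letters
        simp only [List.cons_append, List.nil_append, List.cons.injEq] at h2
        obtain ⟨h3, h4, h5⟩ := h2
        subst h4 h5
        have hfF : ¬ InF q f := fun h => hff (hF f h)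
        have heF : ¬ InF q e := by
          intro h
          exact hr [] e f _ [] rfl (hF e h).symm
        intro x hx
        rw [h1] at hx
        simp only [List.mem_cons, List.not_mem_nil, or_false] at hx
        rcases hx with rfl | rfl | rfl
        · exact heF
        · exact hfF
        · exact fun h => heF (hF' _ h)
      · exfalso
        simp only [List.length_append, List.length_cons, List.length_nil] at hl
        omega
    rw [smul_actE, hmq] at h2
    have h3 := walk_rot (hg := hg) (hgeo := hgeo) (hι := hι) ha ha1 hc hr hse hall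
      (by rw [h1]; rfl) (by rw [h2]; simp)
    have h4 := h3.1
    norm_num at h4 hcon
    linarith

/-- R3 FOR ROTATIONS -/
theorem r3_rot (M : Mods) (hSC : (XX hg hgeo hι).SC) (hA : ∀ x ∈ A, ∀ y ∈ A, x * y = y * x)
    {m1 m2 m3 : PP A B g} (h1 : Rtn A B g m1) (h2 : Rtn A B g m2) (h3 : Rtn A B g m3)
    (hne : ∀ q : PP A B g, ¬ (q⁻¹ * m1 * q ∈ PA A B g ∧ q⁻¹ * m2 * q ∈ PA A B g ∧
      q⁻¹ * m3 * q ∈ PA A B g)) : m1 * m2 * m3 ≠ 1 := by
  intro hprod
  have hT : TR A B g [m1, m2, m3] := by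
    refine ⟨rfl, ?_, ?_⟩
    · intro m hm
      simp only [List.mem_cons, List.not_mem_nil, or_false] at hm
      rcases hm with rfl | rfl | rfl <;> assumption
    · intro q hq
      exact hne q ⟨hq _ (by simp), hq _ (by simp), hq _ (by simp)⟩
  have hloop : ∀ m : PP A B g, Rtn A B g m → ∃ w, Lp (XX hg hgeo hι) (vx 1) w m [m] := by
    rintro m ⟨q, a, ha, -, rfl⟩
    obtain ⟨c, hc⟩ := connX (hg := hg) (hgeo := hgeo) (hι := hι) (vx 1) (vx q)
    have hfix : (q * Pι A B g a * q⁻¹) • (vx q : XV A B g) = vx q := by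
      have : (q * Pι A B g a * q⁻¹) • (vx q : XV A B g) = vx (q * Pι A B g a * q⁻¹ * q) := rfl
      rw [this, inv_mul_cancel_right]
      exact (vx_eq.2 ⟨a, rfl⟩).symm
    exact ⟨_, (Lp.mark (S := XX hg hgeo hι) hfix).arm hc⟩
  obtain ⟨w1, l1⟩ := hloop m1 h1
  obtain ⟨w2, l2⟩ := hloop m2 h2
  obtain ⟨w3, l3⟩ := hloop m3 h3
  have l := Lp.app (Lp.app l1 l2) l3
  rw [hprod] at l
  exact no_triple M hSC gactX (CntX M hSC hA) (TR_cls M hSC hA) (fun ms h => h.2.1) hT l

end Pool.Agent.ABA.B.H89
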