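import Pool.Agent.Helper83_ABA.PXAct
import Pool.Agent.Helper89_ABA.PLink4

/-! # Walks between marks in the links of the triangle graph of `P` (MP_d857f1_al, part B) -/

namespace Pool.Agent.ABA.B

open Knd Pool.Agent.ABA

variable {G : Type} [Group G] {A B : Subgroup G} {g : G}

/-- letters of the flat of `q` -/
def InF (q : PP A B g) (f : XE A B g) : Prop := ∃ m, f = eA m q

theorem InF_eA {q : PP A B g} (m : Dr) : InF q (eA m q) := ⟨m, rfl⟩

variable {hg : ¬ IsABA A B g} {hgeo : Geo A B} {hι : Function.Injective (Pι A B g)}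

theorem cor_adj {e e' : XE A B g} (h : (XX hg hgeo hι).Cor e e') :
    adj (kndE e) (kndE e') = true := by
  rcases (cor_iff e e').1 h with ⟨m, q, rfl, rfl⟩ | ⟨m, q, rfl, rfl⟩ | ⟨q, rfl, rfl⟩ |
    ⟨q, rfl, rfl⟩ | ⟨q, rfl, rfl⟩ | ⟨q, rfl, rfl⟩ | ⟨q, rfl, rfl⟩ | ⟨q, rfl, rfl⟩
  · cases m <;> rfl
  · cases m <;> rfl
  all_goals rfl

theorem cor_symm' {e e' : XE A B g} (h : (XX hg hgeo hι).Cor e e') :
    (XX hg hgeo hι).Cor e' e := by
  obtain ⟨c, hc⟩ := h
  exact ⟨_, (XX hg hgeo hι).tri_swap hc⟩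

/-- a corner between letters of the same flat or a T-corner -/
theorem cor_tee {e e' : XE A B g} {q : PP A B g} (h : (XX hg hgeo hι).Cor e e') (he : InF q e)
    (he' : ¬ InF q e') : tee (kndE e) (kndE e') = true := by
  have h1 := cor_adj h
  unfold adj at h1
  rcases Bool.or_eq_true_iff.1 h1 with h2 | h2
  · exfalso
    obtain ⟨m, m', r, rfl, rfl⟩ := Cor.hex_coset hg hgeo hι h h2
    obtain ⟨m'', h3⟩ := he
    obtain ⟨rfl, a, ha, rfl⟩ := eA_eq.1 h3
    apply he'
    refine ⟨m', ?_⟩
    rw [eA_eq]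
    exact ⟨rfl, a, ha, rfl⟩
  · exact h2

theorem cor_hex {m m' : Dr} {q : PP A B g} (h : (XX hg hgeo hι).Cor (eA m q) (eA m' q)) :
    m' = m.nxt ∨ m = m'.nxt := by
  rcases (cor_iff _ _).1 h with ⟨m, p, h1, h2⟩ | ⟨m, p, h1, h2⟩ | ⟨p, h1, h2⟩ | ⟨p, h1, h2⟩ |
    ⟨p, h1, h2⟩ | ⟨p, h1, h2⟩ | ⟨p, h1, h2⟩ | ⟨p, h1, h2⟩
  · right
    rw [(eA_eq.1 h1).1, (eA_eq.1 h2).1]
  · left
    rw [(eA_eq.1 h1).1, (eA_eq.1 h2).1]
  · exfalso
    obtain ⟨rfl, a, ha, h3⟩ := eA_eq.1 h1
    obtain ⟨rfl, a', ha', h4⟩ := eA_eq.1 h2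
    rw [h4, mul_assoc, ← map_mul] at h3
    have h5 := hι (mul_left_cancel h3)
    apply not_mem_A hg
    have h6 : g = a'⁻¹ * a := by rw [← h5]; group
    rw [h6]
    exact A.mul_mem (A.inv_mem ha') ha
  · exfalso
    obtain ⟨rfl, a, ha, h3⟩ := eA_eq.1 h1
    obtain ⟨rfl, a', ha', h4⟩ := eA_eq.1 h2
    rw [h3, mul_assoc, ← map_mul] at h4
    have h5 := hι (mul_left_cancel h4)
    apply not_mem_A hg
    have h6 : g = a⁻¹ * a' := by rw [← h5]; group
    rw [h6]
    exact A.mul_mem (A.inv_mem ha) ha'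
  · exact absurd h1 eA_ne_eC
  · exact absurd h2 eA_ne_eC
  · exact absurd h2 eA_ne_eC
  · exact absurd h1 eA_ne_eC

/-- next corners -/
theorem cor_nxt (m : Dr) (q : PP A B g) : (XX hg hgeo hι).Cor (eA m q) (eA m.nxt q) :=
  (cor_iff _ _).2 (Or.inr (Or.inl ⟨m, q, rfl, rfl⟩))

/-! ## potentials -/

/-- `20 ow θR` as a natural number -/
def ow20 : List Knd → ℕ
  | [] => 0
  | [_] => 0
  | a :: b :: l => wt a b + ow20 (b :: l)

theorem ow_eq20 : ∀ v : List (XE A B g), ow θR v = (ow20 (v.map kndE) : ℝ) / 20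
  | [] => by simp [ow, ow20]
  | [_] => by simp [ow, ow20]
  | a :: b :: l => by
    have := ow_eq20 (b :: l)
    simp only [List.map_cons, ow, ow20] at this ⊢
    rw [this, θR]
    push_cast
    ring

theorem chain_adj {v : List (XE A B g)} (hc : v.IsChain (XX hg hgeo hι).Cor) :
    (v.map kndE).IsChain (fun a b => adj a b = true) := by
  rw [List.isChain_map]
  exact hc.imp (fun a b h => cor_adj h)

/-- lower bounds by potentials -/
theorem ow20_pot (f : Knd → ℤ) (hf : ∀ a b, adj a b = true → f b - f a ≤ wt a b) :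
    ∀ (v : List Knd) (a b : Knd), v.IsChain (fun a b => adj a b = true) → v.head? = some a →
      v.getLast? = some b → f b - f a ≤ ow20 v
  | [], a, b, _, h, _ => by simp at h
  | [x], a, b, _, h, h' => by
    simp only [List.head?_cons, Option.some.injEq] at h
    simp only [List.getLast?_singleton, Option.some.injEq] at h'
    subst h; subst h'
    simp [ow20]
  | x :: y :: l, a, b, hc, h, h' => by
    rw [List.isChain_cons_cons] at hc
    simp only [List.head?_cons, Option.some.injEq] at h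
    subst h
    have h1 := ow20_pot f hf (y :: l) y b hc.2 rfl (by
      rw [List.getLast?_cons_cons] at h'
      exact h')
    have h2 := hf x y hc.1
    simp only [ow20]
    push_cast
    linarith

/-- distance from `cp` -/
def fcp : Knd → ℤ
  | cp => 0 | um => 21 | wp => 40 | vm => 43 | vp => 59 | up => 61 | wm => 62 | cm => 80

/-- distance to the kinds `cp, cm` -/
def fC : Knd → ℤ
  | cp => 0 | cm => 0 | um => 21 | vp => 21 | wp => 40 | vm => 43 | up => 43 | wm => 62

theorem fcp_lip (a b : Knd) (h : adj a b = true) : fcp b - fcp a ≤ wt a b := by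
  revert h; cases a <;> cases b <;> simp [adj, hex, tee, fcp, wt]

theorem fC_lip (a b : Knd) (h : adj a b = true) : (fun k => - fC k) b - (fun k => - fC k) a ≤ wt a b := by
  revert h; cases a <;> cases b <;> simp [adj, hex, tee, fC, wt]

/-- (b) from `C` to `C⁻¹` -/
theorem walk_CC {v : List (XE A B g)} (hc : v.IsChain (XX hg hgeo hι).Cor) {p q : PP A B g}
    (s : Bool) (h1 : v.head? = some (eC s p)) (h2 : v.getLast? = some (eC (!s) q)) :
    4 ≤ ow θR v := by
  rw [ow_eq20]
  have h3 := ow20_pot (fun k => if s then fcp k else - fcp k) (by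
      intro a b hab
      cases s
      · simp only [Bool.false_eq_true, if_false]
        have := fcp_lip b a (by rw [adj_symm]; exact hab)
        rw [wt_symm] at this
        linarith
      · simpa using fcp_lip a b hab) (v.map kndE) (kndC s) (kndC (!s)) (chain_adj hc)
    (by rw [List.head?_map, h1]; rfl) (by rw [List.getLast?_map, h2]; rfl)
  have h4 : (80 : ℤ) ≤ ow20 (v.map kndE) := by
    cases s
    · simpa [kndC, fcp] using h3
    · simpa [kndC, fcp] using h3
  have h5 : (80 : ℝ) ≤ (ow20 (v.map kndE) : ℝ) := by exact_mod_cast h4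
  linarith

theorem tee_cases {a b : Knd} (h : tee a b = true) :
    (a = up ∧ b = vm) ∨ (a = vm ∧ b = up) ∨ (a = um ∧ b = cp) ∨ (a = cp ∧ b = um) ∨
    (a = cm ∧ b = vp) ∨ (a = vp ∧ b = cm) := by
  revert h; cases a <;> cases b <;> simp [tee]

/-- (c) from a flat to a `C` letter -/
theorem walk_FC {e f : XE A B g} {v : List (XE A B g)} {p q : PP A B g} {s : Bool}
    (hc : (e :: f :: v).IsChain (XX hg hgeo hι).Cor) (he : InF q e) (hf : ¬ InF q f)
    (hl : (e :: f :: v).getLast? = some (eC s p)) :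
    (v = [] ∧ ow θR (e :: f :: v) = 1.05) ∨ 3.05 ≤ ow θR (e :: f :: v) := by
  rw [List.isChain_cons_cons] at hc
  have h1 := cor_tee hc.1 he hf
  have h2 : kndE e ≠ cp ∧ kndE e ≠ cm := by
    obtain ⟨m, rfl⟩ := he
    cases m <;> simp [kndD]
  cases v with
  | nil =>
    left
    simp only [List.getLast?_cons_cons, List.getLast?_singleton, Option.some.injEq] at hl
    subst hl
    refine ⟨rfl, ?_⟩
    rw [ow_eq20]
    have h3 : wt (kndE e) (kndC s) = 21 := by
      rcases tee_cases h1 with ⟨h3, h4⟩ | ⟨h3, h4⟩ | ⟨h3, h4⟩ | ⟨h3, h4⟩ | ⟨h3, h4⟩ | ⟨h3, h4⟩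
      · cases s <;> simp [kndC] at h4
      · cases s <;> simp [kndC] at h4
      · rw [h3]; cases s <;> simp_all [kndC, wt]
      · exact absurd h3 h2.1
      · exact absurd h3 h2.2
      · rw [h3]; cases s <;> simp_all [kndC, wt]
    simp only [List.map_cons, List.map_nil, ow20, kndE_eC, h3]
    norm_num
  | cons f' v =>
    right
    rw [ow_eq20]
    have hc2 := hc.2
    rw [List.isChain_cons_cons] at hc2
    have h3 : (61 : ℤ) ≤ ow20 ((e :: f :: f' :: v).map kndE) := by
      have hA1 := ow20_pot (fun k => - fC k) fC_lip ((f :: f' :: v).map kndE) (kndE f) (kndC s)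
        (chain_adj hc.2) rfl (by
          rw [List.getLast?_map]
          rw [List.getLast?_cons_cons] at hl
          rw [hl]; rfl)
      have hA2 := ow20_pot (fun k => - fC k) fC_lip ((f' :: v).map kndE) (kndE f') (kndC s)
        (chain_adj hc2.2) rfl (by
          rw [List.getLast?_map]
          rw [List.getLast?_cons_cons, List.getLast?_cons_cons] at hl
          rw [hl]; rfl)
      have hk : fC (kndC s) = 0 := by cases s <;> rfl
      have hadj := cor_adj hc2.1
      simp only [List.map_cons, ow20, hk] at hA1 hA2 ⊢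
      push_cast at hA1 ⊢
      rcases tee_cases h1 with ⟨h3, h4⟩ | ⟨h3, h4⟩ | ⟨h3, h4⟩ | ⟨h3, h4⟩ | ⟨h3, h4⟩ | ⟨h3, h4⟩
      · rw [h4] at hA1; rw [h3, h4]
        simp only [fC, wt] at hA1 ⊢
        push_cast at hA1 ⊢
        linarith
      · rw [h4] at hA1; rw [h3, h4]
        simp only [fC, wt] at hA1 ⊢
        push_cast at hA1 ⊢
        linarith
      · rw [h4] at hadj
        have h5 : kndE f' = um := by
          revert hadj; generalize kndE f' = k; cases k <;> simp [adj, hex, tee]
        rw [h5] at hA2; rw [h3, h4, h5]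
        simp only [fC, wt] at hA2 ⊢
        push_cast at hA2 ⊢
        linarith
      · exact absurd h3 h2.1
      · exact absurd h3 h2.2
      · rw [h4] at hadj
        have h5 : kndE f' = vp := by
          revert hadj; generalize kndE f' = k; cases k <;> simp [adj, hex, tee]
        rw [h5] at hA2; rw [h3, h4, h5]
        simp only [fC, wt] at hA2 ⊢
        push_cast at hA2 ⊢
        linarith
    have h5 : (61 : ℝ) ≤ (ow20 ((e :: f :: f' :: v).map kndE) : ℝ) := by exact_mod_cast h3
    linarith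

theorem ow20_ge : ∀ v : List Knd, 18 * (v.length - 1) ≤ ow20 v
  | [] => by simp
  | [_] => by simp
  | a :: b :: l => by
    have h1 := ow20_ge (b :: l)
    have h2 := wt_ge a b
    simp only [ow20, List.length_cons] at h1 ⊢
    omega

/-- (d) between two flats -/
theorem walk_FF {v : List (XE A B g)} {q q' : PP A B g} {e e' f f' : XE A B g}
    (hc : v.IsChain (XX hg hgeo hι).Cor) (he : InF q e) (he' : InF q' e')
    {w w' : List (XE A B g)} (hv : v = e :: f :: w) (hv' : v = w' ++ [f', e'])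
    (hf : ¬ InF q f) (hf' : ¬ InF q' f') :
    (v = [e, e'] ∧ ((kndE e = up ∧ kndE e' = vm) ∨ (kndE e = vm ∧ kndE e' = up)) ∧
      ow θR v = 0.9) ∨
    (v = [e, f, e'] ∧ ((kndE e = up ∧ kndE f = vm ∧ kndE e' = up) ∨
      (kndE e = vm ∧ kndE f = up ∧ kndE e' = vm)) ∧ ow θR v = 1.8) ∨
    2.1 ≤ ow θR v := by
  have h2 : kndE e ≠ cp ∧ kndE e ≠ cm := by
    obtain ⟨m, rfl⟩ := he
    cases m <;> simp [kndD]
  have h2' : kndE e' ≠ cp ∧ kndE e' ≠ cm := by
    obtain ⟨m, rfl⟩ := he'
    cases m <;> simp [kndD]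
  have hA : tee (kndE e) (kndE f) = true := by
    rw [hv, List.isChain_cons_cons] at hc
    exact cor_tee hc.1 he hf
  have hB : tee (kndE e') (kndE f') = true := by
    have hc' := hc
    rw [hv', List.isChain_append] at hc'
    have := hc'.2.1
    rw [List.isChain_cons_cons] at this
    exact cor_tee (cor_symm' this.1) he' hf'
  rcases w with _ | ⟨x, _ | ⟨y, w⟩⟩
  · -- two letters
    left
    rw [hv] at hv'
    have h3 : w' = [] ∧ e = f' ∧ f = e' := by
      rcases w' with _ | ⟨a, w'⟩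
      · simpa using hv'
      · have := congrArg List.length hv'
        simp at this
    obtain ⟨rfl, rfl, rfl⟩ := h3
    refine ⟨hv, ?_, ?_⟩
    · rcases tee_cases hA with ⟨h3, h4⟩ | ⟨h3, h4⟩ | ⟨h3, h4⟩ | ⟨h3, h4⟩ | ⟨h3, h4⟩ | ⟨h3, h4⟩
      · exact Or.inl ⟨h3, h4⟩
      · exact Or.inr ⟨h3, h4⟩
      · exact absurd h4 h2'.1
      · exact absurd h3 h2.1
      · exact absurd h3 h2.2
      · exact absurd h4 h2'.2
    · rw [ow_eq20, hv]
      simp only [List.map_cons, List.map_nil, ow20]
      rcases tee_cases hA with ⟨h3, h4⟩ | ⟨h3, h4⟩ | ⟨h3, h4⟩ | ⟨h3, h4⟩ | ⟨h3, h4⟩ | ⟨h3, h4⟩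
      · rw [h3, h4]; norm_num [wt]
      · rw [h3, h4]; norm_num [wt]
      · exact absurd h4 h2'.1
      · exact absurd h3 h2.1
      · exact absurd h3 h2.2
      · exact absurd h4 h2'.2
  · -- three letters
    rw [hv] at hv'
    have h3 : w' = [e] ∧ f = f' ∧ x = e' := by
      rcases w' with _ | ⟨a, _ | ⟨b, w'⟩⟩
      · have := congrArg List.length hv'
        simp at this
      · simp only [List.cons_append, List.nil_append, List.cons.injEq, and_true] at hv'
        exact ⟨by rw [hv'.1], hv'.2.1, hv'.2.2⟩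
      · have := congrArg List.length hv'
        simp at this
    obtain ⟨rfl, rfl, rfl⟩ := h3
    rcases tee_cases hA with ⟨h3, h4⟩ | ⟨h3, h4⟩ | ⟨h3, h4⟩ | ⟨h3, h4⟩ | ⟨h3, h4⟩ | ⟨h3, h4⟩
    · right; left
      have h5 : kndE x = up := by
        rw [h4] at hB
        revert hB; generalize kndE x = k; cases k <;> simp [tee]
      refine ⟨hv, Or.inl ⟨h3, h4, h5⟩, ?_⟩
      rw [ow_eq20, hv]
      simp only [List.map_cons, List.map_nil, ow20, h3, h4, h5]
      norm_num [wt]
    · right; left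
      have h5 : kndE x = vm := by
        rw [h4] at hB
        revert hB; generalize kndE x = k; cases k <;> simp [tee]
      refine ⟨hv, Or.inr ⟨h3, h4, h5⟩, ?_⟩
      rw [ow_eq20, hv]
      simp only [List.map_cons, List.map_nil, ow20, h3, h4, h5]
      norm_num [wt]
    · right; right
      have h5 : kndE x = um := by
        rw [h4] at hB
        revert hB; generalize kndE x = k; cases k <;> simp [tee]
      rw [ow_eq20, hv]
      simp only [List.map_cons, List.map_nil, ow20, h3, h4, h5]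
      norm_num [wt]
    · exact absurd h3 h2.1
    · exact absurd h3 h2.2
    · right; right
      have h5 : kndE x = vp := by
        rw [h4] at hB
        revert hB; generalize kndE x = k; cases k <;> simp [tee]
      rw [ow_eq20, hv]
      simp only [List.map_cons, List.map_nil, ow20, h3, h4, h5]
      norm_num [wt]
  · -- more letters
    right; right
    rw [ow_eq20]
    have h3 := ow20_ge (v.map kndE)
    have h4 : 4 ≤ (v.map kndE).length := by
      rw [hv]; simp
    have h5 : (54 : ℕ) ≤ ow20 (v.map kndE) := by omega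
    have h6 : (54 : ℝ) ≤ (ow20 (v.map kndE) : ℝ) := by exact_mod_cast h5
    linarith

end Pool.Agent.ABA.B
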