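import Pool.Agent.Helper89_ABA.PLink7

/-! # Planes and lines of the triangle graph of `P` (MP_d857f1_al, part B) -/

namespace Pool.Agent.ABA.B

open Knd Pool.Agent.ABA Pool.Agent.ABA.B.TG

variable {G : Type} [Group G] {A B : Subgroup G} {g : G}

/-! ## the degree homomorphism -/

/-- degrees -/
def dg2 (A B : Subgroup G) (g : G) : PP A B g →* Multiplicative (ℤ × ℤ) :=
  Plift A B g 1 (Multiplicative.ofAdd (1, 0)) (Multiplicative.ofAdd (0, 1))
    (Multiplicative.ofAdd (-1, -1)) (mul_comm _ _) (fun a _ => by simp) (fun a _ => by simp)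
    (fun b _ => by simp) (by
      rw [MonoidHom.one_apply, ← ofAdd_add, ← ofAdd_add]
      rfl)

@[simp] theorem dg2_ι (x : G) : dg2 A B g (Pι A B g x) = 1 := by
  rw [dg2, Plift_ι]; rfl
@[simp] theorem dg2_u : dg2 A B g (Pu A B g) = Multiplicative.ofAdd (1, 0) := Plift_u ..
@[simp] theorem dg2_v : dg2 A B g (Pv A B g) = Multiplicative.ofAdd (0, 1) := Plift_v ..
@[simp] theorem dg2_c : dg2 A B g (Pc A B g) = Multiplicative.ofAdd (-1, -1) := Plift_c ..

theorem comm_ι_uv {a : G} (ha : a ∈ A) (i j : ℤ) :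
    Commute (Pι A B g a) (Pu A B g ^ i * Pv A B g ^ j) := by
  have h1 : Commute (Pι A B g a) (Pu A B g) := (P_ua A B g ha : Commute _ _).symm
  have h2 : Commute (Pι A B g a) (Pv A B g) := (P_va A B g ha : Commute _ _).symm
  exact (h1.zpow_right i).mul_right (h2.zpow_right j)

theorem comm_ι_c {b : G} (hb : b ∈ B) (i : ℤ) : Commute (Pι A B g b) (Pc A B g ^ i) := by
  have h1 : Commute (Pι A B g b) (Pc A B g) := (P_cb A B g hb : Commute _ _).symm
  exact h1.zpow_right i

theorem mem_PA {x : PP A B g} :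
    x ∈ PA A B g ↔ ∃ a ∈ A, ∃ i j : ℤ, x = Pι A B g a * (Pu A B g ^ i * Pv A B g ^ j) := by
  constructor
  · intro hx
    have huv : Commute (Pu A B g) (Pv A B g) := P_uv A B g
    let S : Subgroup (PP A B g) :=
      { carrier := {x | ∃ a ∈ A, ∃ i j : ℤ, x = Pι A B g a * (Pu A B g ^ i * Pv A B g ^ j)}
        mul_mem' := by
          rintro x y ⟨a, ha, i, j, rfl⟩ ⟨a', ha', i', j', rfl⟩
          refine ⟨a * a', A.mul_mem ha ha', i + i', j + j', ?_⟩
          have h1 := (comm_ι_uv (A := A) (B := B) (g := g) ha' i j).eq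
          have h2 : Commute (Pv A B g ^ j) (Pu A B g ^ i') := (huv.zpow_zpow i' j).symm
          calc Pι A B g a * (Pu A B g ^ i * Pv A B g ^ j) *
                (Pι A B g a' * (Pu A B g ^ i' * Pv A B g ^ j'))
              = Pι A B g a * ((Pu A B g ^ i * Pv A B g ^ j) * Pι A B g a') *
                (Pu A B g ^ i' * Pv A B g ^ j') := by group
            _ = Pι A B g a * (Pι A B g a' * (Pu A B g ^ i * Pv A B g ^ j)) *
                (Pu A B g ^ i' * Pv A B g ^ j') := by rw [h1]
            _ = Pι A B g a * Pι A B g a' * (Pu A B g ^ i * (Pv A B g ^ j * Pu A B g ^ i') *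
                Pv A B g ^ j') := by group
            _ = _ := by
              rw [h2.eq, map_mul, zpow_add, zpow_add]
              group
        one_mem' := ⟨1, A.one_mem, 0, 0, by simp⟩
        inv_mem' := by
          rintro x ⟨a, ha, i, j, rfl⟩
          refine ⟨a⁻¹, A.inv_mem ha, -i, -j, ?_⟩
          have h1 := (comm_ι_uv (A := A) (B := B) (g := g) (A.inv_mem ha) (-i) (-j)).eq
          rw [h1]
          have h2 : Commute (Pu A B g ^ (-i)) (Pv A B g ^ (-j)) := huv.zpow_zpow _ _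
          rw [h2.eq, map_inv]
          group }
    have hle : PA A B g ≤ S := by
      unfold PA
      rw [sup_le_iff]
      constructor
      · rintro _ ⟨a, ha, rfl⟩
        exact ⟨a, ha, 0, 0, by simp⟩
      · rw [Subgroup.closure_le]
        rintro x (rfl | rfl)
        · exact ⟨1, A.one_mem, 1, 0, by simp⟩
        · exact ⟨1, A.one_mem, 0, 1, by simp⟩
    exact hle hx
  · rintro ⟨a, ha, i, j, rfl⟩
    have hu : Pu A B g ∈ PA A B g :=
      (le_sup_right : _ ≤ PA A B g) (Subgroup.subset_closure (Or.inl rfl))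
    have hv : Pv A B g ∈ PA A B g :=
      (le_sup_right : _ ≤ PA A B g) (Subgroup.subset_closure (Or.inr rfl))
    have ha' : Pι A B g a ∈ PA A B g := (le_sup_left : _ ≤ PA A B g) ⟨a, ha, rfl⟩
    exact Subgroup.mul_mem _ ha' (Subgroup.mul_mem _ (Subgroup.zpow_mem _ hu i)
      (Subgroup.zpow_mem _ hv j))

theorem mem_PB {x : PP A B g} :
    x ∈ PB A B g ↔ ∃ b ∈ B, ∃ i : ℤ, x = Pι A B g b * Pc A B g ^ i := by
  constructor
  · intro hx
    let S : Subgroup (PP A B g) :=
      { carrier := {x | ∃ b ∈ B, ∃ i : ℤ, x = Pι A B g b * Pc A B g ^ i}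
        mul_mem' := by
          rintro x y ⟨a, ha, i, rfl⟩ ⟨a', ha', i', rfl⟩
          refine ⟨a * a', B.mul_mem ha ha', i + i', ?_⟩
          have h1 := (comm_ι_c (A := A) (B := B) (g := g) ha' i).eq
          calc Pι A B g a * Pc A B g ^ i * (Pι A B g a' * Pc A B g ^ i')
              = Pι A B g a * (Pc A B g ^ i * Pι A B g a') * Pc A B g ^ i' := by group
            _ = Pι A B g a * (Pι A B g a' * Pc A B g ^ i) * Pc A B g ^ i' := by rw [h1]
            _ = _ := by
              rw [map_mul, zpow_add]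
              group
        one_mem' := ⟨1, B.one_mem, 0, by simp⟩
        inv_mem' := by
          rintro x ⟨a, ha, i, rfl⟩
          refine ⟨a⁻¹, B.inv_mem ha, -i, ?_⟩
          have h1 := (comm_ι_c (A := A) (B := B) (g := g) (B.inv_mem ha) (-i)).eq
          rw [h1, map_inv]
          group }
    have hle : PB A B g ≤ S := by
      unfold PB
      rw [sup_le_iff]
      constructor
      · rintro _ ⟨a, ha, rfl⟩
        exact ⟨a, ha, 0, by simp⟩
      · rw [Subgroup.closure_le]
        rintro x rfl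
        exact ⟨1, B.one_mem, 1, by simp⟩
    exact hle hx
  · rintro ⟨a, ha, i, rfl⟩
    have hc : Pc A B g ∈ PB A B g :=
      (le_sup_right : _ ≤ PB A B g) (Subgroup.subset_closure rfl)
    have ha' : Pι A B g a ∈ PB A B g := (le_sup_left : _ ≤ PB A B g) ⟨a, ha, rfl⟩
    exact Subgroup.mul_mem _ ha' (Subgroup.zpow_mem _ hc i)

theorem dg2_PA (a : G) (i j : ℤ) :
    dg2 A B g (Pι A B g a * (Pu A B g ^ i * Pv A B g ^ j)) = Multiplicative.ofAdd (i, j) := by
  rw [map_mul, map_mul, map_zpow, map_zpow, dg2_ι, dg2_u, dg2_v, one_mul, ← ofAdd_zsmul,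
    ← ofAdd_zsmul, ← ofAdd_add]
  simp

theorem dg2_PB (a : G) (i : ℤ) :
    dg2 A B g (Pι A B g a * Pc A B g ^ i) = Multiplicative.ofAdd (-i, -i) := by
  rw [map_mul, map_zpow, dg2_ι, dg2_c, one_mul, ← ofAdd_zsmul]
  simp

theorem ι_PA (hι : Function.Injective (Pι A B g)) {h : G} : Pι A B g h ∈ PA A B g ↔ h ∈ A := by
  constructor
  · intro hh
    obtain ⟨a, ha, i, j, he⟩ := mem_PA.1 hh
    have h1 := congrArg (dg2 A B g) he
    rw [dg2_PA, dg2_ι] at h1
    have h2 : ((0 : ℤ), (0 : ℤ)) = (i, j) := Multiplicative.ofAdd.injective h1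
    rw [Prod.mk.injEq] at h2
    obtain ⟨rfl, rfl⟩ := h2
    simp only [zpow_zero, mul_one] at he
    rw [hι he]; exact ha
  · intro hh
    exact mem_PA.2 ⟨h, hh, 0, 0, by simp⟩

theorem ι_PB (hι : Function.Injective (Pι A B g)) {h : G} : Pι A B g h ∈ PB A B g ↔ h ∈ B := by
  constructor
  · intro hh
    obtain ⟨a, ha, i, he⟩ := mem_PB.1 hh
    have h1 := congrArg (dg2 A B g) he
    rw [dg2_PB, dg2_ι] at h1
    have h2 : ((0 : ℤ), (0 : ℤ)) = (-i, -i) := Multiplicative.ofAdd.injective h1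
    rw [Prod.mk.injEq] at h2
    have h3 : i = 0 := by omega
    subst h3
    simp only [zpow_zero, mul_one] at he
    rw [hι he]; exact ha
  · intro hh
    exact mem_PB.2 ⟨h, hh, 0, by simp⟩

theorem trn_PA (m : Dr) : trn A B g m ∈ PA A B g := by
  cases m
  · exact mem_PA.2 ⟨1, A.one_mem, 1, 0, by simp [trn]⟩
  · exact mem_PA.2 ⟨1, A.one_mem, 0, 1, by simp [trn]⟩
  · refine Subgroup.mul_mem _ (mem_PA.2 ⟨1, A.one_mem, 0, 1, by simp⟩)
      (Subgroup.inv_mem _ (mem_PA.2 ⟨1, A.one_mem, 1, 0, by simp⟩))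
  · exact Subgroup.inv_mem _ (mem_PA.2 ⟨1, A.one_mem, 1, 0, by simp⟩)
  · exact Subgroup.inv_mem _ (mem_PA.2 ⟨1, A.one_mem, 0, 1, by simp⟩)
  · refine Subgroup.mul_mem _ (mem_PA.2 ⟨1, A.one_mem, 1, 0, by simp⟩)
      (Subgroup.inv_mem _ (mem_PA.2 ⟨1, A.one_mem, 0, 1, by simp⟩))

theorem trc_PB (s : Bool) : trc A B g s ∈ PB A B g := by
  cases s
  · exact Subgroup.inv_mem _ (mem_PB.2 ⟨1, B.one_mem, 1, by simp⟩)
  · exact mem_PB.2 ⟨1, B.one_mem, 1, by simp [trc]⟩

/-! ## carriers -/

/-- carriers: planes and lines -/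
abbrev Car (A B : Subgroup G) (g : G) : Type := (PP A B g ⧸ PA A B g) ⊕ (PP A B g ⧸ PB A B g)

/-- plane of `q` -/
def plane (q : PP A B g) : Car A B g := Sum.inl (QuotientGroup.mk q)

/-- line of `q` -/
def line (q : PP A B g) : Car A B g := Sum.inr (QuotientGroup.mk q)

theorem plane_eq {q q' : PP A B g} : plane q = plane q' ↔ q⁻¹ * q' ∈ PA A B g := by
  rw [plane, plane]
  constructor
  · intro h
    exact QuotientGroup.eq.1 (Sum.inl.inj h)
  · intro h
    rw [QuotientGroup.eq.2 h]

theorem line_eq {q q' : PP A B g} : line q = line q' ↔ q⁻¹ * q' ∈ PB A B g := by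
  rw [line, line]
  constructor
  · intro h
    exact QuotientGroup.eq.1 (Sum.inr.inj h)
  · intro h
    rw [QuotientGroup.eq.2 h]

theorem plane_ne_line {q q' : PP A B g} : plane q ≠ line q' := by
  intro h; cases h

/-- carrier of an edge -/
def car : XE A B g → Car A B g
  | Sum.inl (_, q) => Sum.inl (Quotient.map' (s₂ := QuotientGroup.leftRel (PA A B g)) id (by
      intro p p' h
      rw [QuotientGroup.leftRel_apply] at h ⊢
      exact (le_sup_left : _ ≤ PA A B g) h) q)
  | Sum.inr (_, q) => Sum.inr (Quotient.map' (s₂ := QuotientGroup.leftRel (PB A B g)) id (by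
      intro p p' h
      rw [QuotientGroup.leftRel_apply] at h ⊢
      exact (le_sup_left : _ ≤ PB A B g) h) q)

@[simp] theorem car_eA (m : Dr) (q : PP A B g) : car (eA m q) = plane q := rfl
@[simp] theorem car_eC (s : Bool) (q : PP A B g) : car (eC s q) = line q := rfl

theorem car_inv (e : XE A B g) : car (xinv e) = car e := by
  refine XE.ind (P := fun e => car (xinv e) = car e) ?_ ?_ e
  · intro m q
    rw [xinv_eA, car_eA, car_eA, plane_eq, mul_inv_rev, inv_mul_cancel_right]
    exact Subgroup.inv_mem _ (trn_PA m)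
  · intro m q
    rw [xinv_eC, car_eC, car_eC, line_eq, mul_inv_rev, inv_mul_cancel_right]
    exact Subgroup.inv_mem _ (trc_PB m)

/-- the vertex `x` lies on the carrier `c` -/
def On (c : Car A B g) (x : XV A B g) : Prop :=
  ∃ q : PP A B g, x = vx q ∧ (c = plane q ∨ c = line q)

theorem On_src (e : XE A B g) : On (car e) (xsrc e) := by
  refine XE.ind (P := fun e => On (car e) (xsrc e)) ?_ ?_ e
  · intro m q; exact ⟨q, rfl, Or.inl rfl⟩
  · intro m q; exact ⟨q, rfl, Or.inr rfl⟩

theorem On_tgt (e : XE A B g) : On (car e) (xsrc (xinv e)) := by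
  rw [← car_inv e]; exact On_src _

/-- two letters of the same plane at a vertex -/
theorem same_flat (hι : Function.Injective (Pι A B g)) {m m' : Dr} {q q' : PP A B g}
    (h : plane q = plane q') (hs : vx q = vx q') : eA m' q' = eA m' q := by
  obtain ⟨x, rfl⟩ := vx_eq.1 hs
  rw [plane_eq, inv_mul_cancel_left, ι_PA hι] at h
  rw [eA_eq]
  exact ⟨rfl, x⁻¹, A.inv_mem h, by rw [map_inv, mul_inv_cancel_right]⟩

/-- two letters of the same line at a vertex -/
theorem same_line (hι : Function.Injective (Pι A B g)) {m' : Bool} {q q' : PP A B g}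
    (h : line q = line q') (hs : vx q = vx q') : eC m' q' = eC m' q := by
  obtain ⟨x, rfl⟩ := vx_eq.1 hs
  rw [line_eq, inv_mul_cancel_left, ι_PB hι] at h
  rw [eC_eq]
  exact ⟨rfl, x⁻¹, B.inv_mem h, by rw [map_inv, mul_inv_cancel_right]⟩

theorem InF_iff_car (hι : Function.Injective (Pι A B g)) {q : PP A B g} {e : XE A B g}
    (hs : xsrc e = vx q) : InF q e ↔ car e = plane q := by
  constructor
  · rintro ⟨m, rfl⟩; rfl
  · revert hs
    refine XE.ind (P := fun e => xsrc e = vx q → car e = plane q → InF q e) ?_ ?_ e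
    · intro m q' hs h
      rw [car_eA] at h
      exact ⟨m, same_flat (m := m) hι h.symm hs.symm⟩
    · intro m q' hs h
      exact absurd h.symm plane_ne_line

theorem InF_iff_car' (hι : Function.Injective (Pι A B g)) {m : Dr} {q : PP A B g} {e : XE A B g}
    (hs : xsrc e = xsrc (eA m q)) : InF q e ↔ car e = car (eA m q) := InF_iff_car hι hs

/-! ## paths in carriers -/

variable (hg : ¬ IsABA A B g) (hgeo : Geo A B) (hι : Function.Injective (Pι A B g))

/-- side: path in a carrier -/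
def SideP (c : Car A B g) (x y : XV A B g) (s : List (XE A B g)) : Prop :=
  (XX hg hgeo hι).IsP x s y ∧ ∀ e ∈ s, car e = c

theorem SideP.append {c : Car A B g} {x y z : XV A B g} {s t : List (XE A B g)}
    (h : SideP hg hgeo hι c x y s) (h' : SideP hg hgeo hι c y z t) :
    SideP hg hgeo hι c x z (s ++ t) := by
  refine ⟨isP_append.2 ⟨y, h.1, h'.1⟩, ?_⟩
  intro e he
  rcases List.mem_append.1 he with he | he
  · exact h.2 e he
  · exact h'.2 e he

theorem SideP.split {c : Car A B g} {x z : XV A B g} {s t : List (XE A B g)}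
    (h : SideP hg hgeo hι c x z (s ++ t)) : ∃ y, SideP hg hgeo hι c x y s ∧
      SideP hg hgeo hι c y z t := by
  obtain ⟨y, h1, h2⟩ := isP_append.1 h.1
  exact ⟨y, ⟨h1, fun e he => h.2 e (List.mem_append_left _ he)⟩,
    ⟨h2, fun e he => h.2 e (List.mem_append_right _ he)⟩⟩

theorem SideP.on_src {c : Car A B g} {x z : XV A B g} {s : List (XE A B g)}
    (h : SideP hg hgeo hι c x z s) (hs : s ≠ []) : On c x ∧ On c z := by
  constructor
  · cases s with
    | nil => exact absurd rfl hs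
    | cons e s =>
      have h1 : xsrc e = x := h.1.1
      rw [← h1, ← h.2 e (by simp)]
      exact On_src e
  · obtain ⟨s', e, rfl⟩ : ∃ s' e, s = s' ++ [e] :=
      ⟨s.dropLast, s.getLast hs, (List.dropLast_append_getLast hs).symm⟩
    obtain ⟨y, h1, h2⟩ := h.split
    have h3 : xsrc (xinv e) = z := h2.1.2
    rw [← h3, ← h2.2 e (by simp)]
    exact On_tgt e

theorem plane_conn (q : PP A B g) (x : PP A B g) (hx : x ∈ PA A B g) :
    ∃ s, SideP hg hgeo hι (plane q) (vx q) (vx (q * x)) s := by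
  -- one step
  have step : ∀ (p : PP A B g) (m : Dr), SideP hg hgeo hι (plane p) (vx p) (vx (p * trn A B g m))
      [eA m p] := by
    intro p m
    refine ⟨⟨rfl, rfl⟩, ?_⟩
    intro e he
    rw [List.mem_singleton] at he
    rw [he]; rfl
  have hpl : ∀ p m, plane (p * trn A B g m) = plane p := by
    intro p m
    rw [plane_eq, mul_inv_rev, inv_mul_cancel_right]
    exact Subgroup.inv_mem _ (trn_PA m)
  -- powers
  have pow : ∀ (m : Dr) (n : ℕ) (p : PP A B g), ∃ s,
      SideP hg hgeo hι (plane p) (vx p) (vx (p * trn A B g m ^ n)) s := by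
    intro m n
    induction n with
    | zero => intro p; exact ⟨[], ⟨by simp [TG.IsP], by simp⟩⟩
    | succ n ih =>
      intro p
      obtain ⟨s, hs⟩ := ih (p * trn A B g m)
      rw [hpl] at hs
      have e1 : p * trn A B g m * trn A B g m ^ n = p * trn A B g m ^ (n + 1) := by
        rw [pow_succ', mul_assoc]
      rw [e1] at hs
      exact ⟨_, (step p m).append hg hgeo hι hs⟩
  have zpow : ∀ (m : Dr) (n : ℤ) (p : PP A B g), ∃ s,
      SideP hg hgeo hι (plane p) (vx p) (vx (p * trn A B g m ^ n)) s := by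
    intro m n p
    obtain ⟨k, rfl | rfl⟩ := Int.eq_nat_or_neg n
    · simpa using pow m k p
    · have := pow m.inv k p
      rw [trn_inv] at this
      simpa using this
  obtain ⟨a, ha, i, j, rfl⟩ := mem_PA.1 hx
  obtain ⟨s, hs⟩ := zpow .U i q
  obtain ⟨t, ht⟩ := zpow .V j (q * Pu A B g ^ i)
  have h1 : plane (q * Pu A B g ^ i) = plane q := by
    rw [plane_eq, mul_inv_rev, inv_mul_cancel_right]
    exact Subgroup.inv_mem _ (Subgroup.zpow_mem _ (trn_PA .U) i)
  rw [h1] at ht
  refine ⟨s ++ t, ?_⟩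
  have h2 : vx (q * (Pι A B g a * (Pu A B g ^ i * Pv A B g ^ j))) =
      vx (q * Pu A B g ^ i * Pv A B g ^ j) := by
    rw [(comm_ι_uv ha i j).eq]
    symm
    rw [vx_eq]
    exact ⟨a, by group⟩
  rw [h2]
  exact hs.append hg hgeo hι ht

theorem line_conn (q : PP A B g) (x : PP A B g) (hx : x ∈ PB A B g) :
    ∃ s, SideP hg hgeo hι (line q) (vx q) (vx (q * x)) s := by
  have step : ∀ (p : PP A B g) (m : Bool), SideP hg hgeo hι (line p) (vx p)
      (vx (p * trc A B g m)) [eC m p] := by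
    intro p m
    refine ⟨⟨rfl, rfl⟩, ?_⟩
    intro e he
    rw [List.mem_singleton] at he
    rw [he]; rfl
  have hpl : ∀ p m, line (p * trc A B g m) = line p := by
    intro p m
    rw [line_eq, mul_inv_rev, inv_mul_cancel_right]
    exact Subgroup.inv_mem _ (trc_PB m)
  have pow : ∀ (m : Bool) (n : ℕ) (p : PP A B g), ∃ s,
      SideP hg hgeo hι (line p) (vx p) (vx (p * trc A B g m ^ n)) s := by
    intro m n
    induction n with
    | zero => intro p; exact ⟨[], ⟨by simp [TG.IsP], by simp⟩⟩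
    | succ n ih =>
      intro p
      obtain ⟨s, hs⟩ := ih (p * trc A B g m)
      rw [hpl] at hs
      have e1 : p * trc A B g m * trc A B g m ^ n = p * trc A B g m ^ (n + 1) := by
        rw [pow_succ', mul_assoc]
      rw [e1] at hs
      exact ⟨_, (step p m).append hg hgeo hι hs⟩
  have zpow : ∀ (n : ℤ) (p : PP A B g), ∃ s,
      SideP hg hgeo hι (line p) (vx p) (vx (p * Pc A B g ^ n)) s := by
    intro n p
    obtain ⟨k, rfl | rfl⟩ := Int.eq_nat_or_neg n
    · simpa [trc] using pow true k p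
    · have := pow false k p
      simpa [trc] using this
  obtain ⟨a, ha, i, rfl⟩ := mem_PB.1 hx
  obtain ⟨s, hs⟩ := zpow i q
  refine ⟨s, ?_⟩
  have h2 : vx (q * (Pι A B g a * Pc A B g ^ i)) = vx (q * Pc A B g ^ i) := by
    rw [(comm_ι_c ha i).eq]
    symm
    rw [vx_eq]
    exact ⟨a, by group⟩
  rw [h2]
  exact hs

/-- carriers are connected -/
theorem car_conn {c : Car A B g} {x y : XV A B g} (hx : On c x) (hy : On c y) :
    ∃ s, SideP hg hgeo hι c x y s := by
  obtain ⟨q, rfl, hq⟩ := hx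
  obtain ⟨q', rfl, hq'⟩ := hy
  rcases hq with rfl | rfl <;> rcases hq' with h | h
  · obtain ⟨s, hs⟩ := plane_conn hg hgeo hι q (q⁻¹ * q') (plane_eq.1 h)
    rw [mul_inv_cancel_left] at hs
    exact ⟨s, hs⟩
  · exact absurd h plane_ne_line
  · exact absurd h.symm plane_ne_line
  · obtain ⟨s, hs⟩ := line_conn hg hgeo hι q (q⁻¹ * q') (line_eq.1 h)
    rw [mul_inv_cancel_left] at hs
    exact ⟨s, hs⟩

end Pool.Agent.ABA.B
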