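import Pool.Agent.Helper89_ABA.Pln1
import Pool.Agent.Helper89_ABA.BdyA
import Pool.Agent.Helper17_ABA.T2

/-! # Curvature at the vertices of a polygon with sides in planes and lines (MP_d857f1_al, part B) -/

namespace Pool.Agent.ABA.B.H89

open Knd Pool.Agent.ABA Pool.Agent.ABA.B Pool.Agent.ABA.B.TG Pool.Agent.ABA.B.H17

variable {G : Type} [Group G] {A B : Subgroup G} {g : G}
variable {hg : ¬ IsABA A B g} {hgeo : Geo A B} {hι : Function.Injective (Pι A B g)}

theorem plane_letter {e : XE A B g} {q : PP A B g} (h : car e = plane q) : ∃ m q', e = eA m q' := by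
  revert h
  refine XE.ind (P := fun e => car e = plane q → ∃ m q', e = eA m q') ?_ ?_ e
  · intro m q' _; exact ⟨m, q', rfl⟩
  · intro m q' h; exact absurd h.symm plane_ne_line

theorem line_letter {e : XE A B g} {q : PP A B g} (h : car e = line q) : ∃ m q', e = eC m q' := by
  revert h
  refine XE.ind (P := fun e => car e = line q → ∃ m q', e = eC m q') ?_ ?_ e
  · intro m q' h; exact absurd h plane_ne_line
  · intro m q' _; exact ⟨m, q', rfl⟩

/-- every carrier is a plane or a line -/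
theorem car_cases (c : Car A B g) : (∃ q, c = plane q) ∨ ∃ q, c = line q := by
  rcases c with c | c
  · obtain ⟨q, rfl⟩ := QuotientGroup.mk_surjective c
    exact Or.inl ⟨q, rfl⟩
  · obtain ⟨q, rfl⟩ := QuotientGroup.mk_surjective c
    exact Or.inr ⟨q, rfl⟩

/-- triangles in a plane -/
theorem tri_car {e f1 f2 : XE A B g} {m : Dr} {q : PP A B g} (he : e = eA m q)
    (ht : (XX hg hgeo hι).Tri e f1 f2) (h : car f1 = car e) : car f2 = car e := by
  subst he
  have hs : xsrc f1 = xsrc (eA m q) := (XX hg hgeo hι).tri_src ht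
  obtain ⟨m', rfl⟩ := (InF_iff_car' hι hs).2 h
  have hcor : (XX hg hgeo hι).Cor (eA m q) (eA m' q) := ⟨f2, ht⟩
  rcases cor_hex hcor with rfl | rfl
  · have h1 := XT_uniq hg hgeo hι ht (XT.f2 m q)
    rw [h1, car_eA, car_eA, plane_eq, mul_inv_rev, inv_mul_cancel_right]
    exact Subgroup.inv_mem _ (trn_PA _)
  · have h1 := XT_uniq hg hgeo hι ht (XT.f1 m' q)
    rw [h1, car_eA, car_eA, plane_eq, mul_inv_rev, inv_mul_cancel_right]
    exact Subgroup.inv_mem _ (trn_PA _)

theorem tri_car' {e f1 f2 : XE A B g} {m : Dr} {q : PP A B g} (he : e = eA m q)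
    (ht : (XX hg hgeo hι).Tri e f1 f2) (h : car f2 = car e) : car f1 = car e := by
  -- Tri (inv e) (inv f2) (inv f1)
  have h1 : (XX hg hgeo hι).Tri (xinv e) (xinv f2) (xinv f1) := by
    exact (XX hg hgeo hι).tri_rot ((XX hg hgeo hι).tri_swap ht)
  have h2 := tri_car (hg := hg) (hgeo := hgeo) (hι := hι) (e := xinv e) (m := m.inv)
    (q := q * trn A B g m) (by rw [he, xinv_eA]) h1 (by rw [car_inv, car_inv]; exact h)
  rw [car_inv, car_inv] at h2
  exact h2

/-! ## local minimality -/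

/-- pushing a letter inside its plane does not decrease the area -/
def LM (hg : ¬ IsABA A B g) (hgeo : Geo A B) (hι : Function.Injective (Pι A B g))
    (w : List (XE A B g)) : Prop :=
  ∀ l r e f1 f2, w = l ++ e :: r → (XX hg hgeo hι).Tri e f1 f2 → car f1 = car e → car f2 = car e →
    (XX hg hgeo hι).ar w ≤ (XX hg hgeo hι).ar (l ++ f1 :: f2 :: r)

/-- position of a kind -/
def pk : Knd → ℤ
  | up => 0 | vp => 22 | wp => 41 | um => 60 | vm => 82 | wm => 101 | cp => 0 | cm => 0

/-- distance of directions -/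
def cd (a b : Knd) : ℤ := min |pk a - pk b| (120 - |pk a - pk b|)

theorem cd_tri (a b c : Knd) : cd a c ≤ cd a b + cd b c := by
  revert a b c
  have : ∀ a ∈ all, ∀ b ∈ all, ∀ c ∈ all, cd a c ≤ cd a b + cd b c := by decide +kernel
  intro a b c
  exact this a (mem_all a) b (mem_all b) c (mem_all c)

theorem cd_self (a : Knd) : cd a a = 0 := by cases a <;> rfl

/-- curvature times 20 -/
noncomputable def F (W : ℕ → List (XE A B g)) (i : ℕ) : ℝ := 3 - ow θR (W i)

variable {w : List (XE A B g)} {a : ℕ → XE A B g} {W : ℕ → List (XE A B g)}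
  {I : List (List (XE A B g))}

theorem get_mod (h : BdA (XX hg hgeo hι) w a W I) (hw : w ≠ []) (i : ℕ) :
    ∃ j, ∃ hj : j < w.length, a i = w[j] ∧ W i = W j ∧ W (i + 1) = W (j + 1) := by
  have hn : 0 < w.length := List.length_pos_iff.2 hw
  have key : ∀ k j, a (j + k * w.length) = a j ∧ W (j + k * w.length) = W j := by
    intro k
    induction k with
    | zero => intro j; simp
    | succ k ih =>
      intro j
      have e : j + (k + 1) * w.length = j + k * w.length + w.length := by ring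
      rw [e, h.per, h.perW]
      exact ih j
  refine ⟨i % w.length, Nat.mod_lt _ hn, ?_, ?_, ?_⟩
  · rw [← h.get _ (Nat.mod_lt _ hn)]
    conv_lhs => rw [← Nat.mod_add_div i w.length, mul_comm]
    exact (key _ _).1
  · conv_lhs => rw [← Nat.mod_add_div i w.length, mul_comm]
    exact (key _ _).2
  · conv_lhs => rw [← Nat.mod_add_div i w.length, mul_comm]
    have e : i % w.length + i / w.length * w.length + 1 =
      i % w.length + 1 + i / w.length * w.length := by ring
    rw [e]
    exact (key _ _).2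

/-- the data at the letter `i` -/
theorem edgA (h : BdA (XX hg hgeo hι) w a W I) (hw : w ≠ []) (hL : LM hg hgeo hι w) (i : ℕ) :
    ∃ f1 f2 l r, (XX hg hgeo hι).Tri (a i) f1 f2 ∧ W i = l ++ [f1, a i] ∧
      W (i + 1) = xinv (a i) :: xinv f2 :: r ∧
      (∀ m q, a i = eA m q → car f1 ≠ car (a i) ∧ car f2 ≠ car (a i)) := by
  obtain ⟨j, hj, h1, h2, h3⟩ := get_mod h hw i
  obtain ⟨f1, f2, l, r, hT, hW1, hW2, hd⟩ := h.drop j hj
  rw [h1, h2, h3]
  refine ⟨f1, f2, l, r, hT, hW1, hW2, ?_⟩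
  intro m q he
  have hsp : w = w.take j ++ w[j] :: w.drop (j + 1) := by
    conv_lhs => rw [← List.take_append_drop j w, List.drop_eq_getElem_cons hj]
  have hno : ¬ (car f1 = car w[j] ∧ car f2 = car w[j]) := by
    rintro ⟨hc1, hc2⟩
    have := hL _ _ _ _ _ hsp hT hc1 hc2
    omega
  constructor
  · intro hc
    exact hno ⟨hc, tri_car he hT hc⟩
  · intro hc
    exact hno ⟨tri_car' he hT hc, hc⟩

/-- all letters of the walk start at the same vertex -/
theorem walk_src (h : BdA (XX hg hgeo hι) w a W I) (hw : w ≠ []) (i : ℕ) :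
    (∀ e ∈ W i, xsrc e = xsrc (a i)) ∧ a i ∈ W i := by
  obtain ⟨j, hj, h1, h2, h3⟩ := get_mod h hw i
  obtain ⟨f1, f2, l, r, hT, hW1, hW2, hd⟩ := h.drop j hj
  have hmem : a i ∈ W i := by rw [h1, h2, hW1]; simp
  exact ⟨chain_src' (h.chain i) hmem rfl, hmem⟩

/-- structure of the walk between the letters `i` and `i + 1` -/
theorem walk_struct (h : BdA (XX hg hgeo hι) w a W I) (hw : w ≠ []) (hL : LM hg hgeo hι w)
    (i : ℕ) :
    (∃ f r, W (i + 1) = xinv (a i) :: f :: r ∧
      (∀ m q, xinv (a i) = eA m q → ¬ InF q f)) ∧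
    (∃ f' l, W (i + 1) = l ++ [f', a (i + 1)] ∧
      (∀ m q, a (i + 1) = eA m q → ¬ InF q f')) := by
  obtain ⟨f1, f2, l, r, hT, hW1, hW2, hd⟩ := edgA h hw hL i
  obtain ⟨f1', f2', l', r', hT', hW1', hW2', hd'⟩ := edgA h hw hL (i + 1)
  have hsrc := walk_src h hw (i + 1)
  constructor
  · refine ⟨xinv f2, r, hW2, ?_⟩
    intro m q he hin
    have hai : a i = eA m.inv (q * trn A B g m) := by
      have := congrArg xinv he
      rwa [(XX hg hgeo hι).inv_inv (a i) |> fun (h : xinv (xinv (a i)) = a i) => h, xinv_eA] at this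
    refine (hd _ _ hai).2 ?_
    obtain ⟨m', h1⟩ := hin
    have h2 : car (xinv f2) = car (xinv (a i)) := by rw [h1, he]; rfl
    rw [car_inv, car_inv] at h2
    exact h2
  · refine ⟨f1', l', hW1', ?_⟩
    intro m q he hin
    refine (hd' _ _ he).1 ?_
    obtain ⟨m', h1⟩ := hin
    rw [h1, he]; rfl

theorem cor_xx_ne {e e' : XE A B g} (h : (XX hg hgeo hι).Cor e e') : e ≠ e' := by
  rintro rfl
  exact adj_ne (cor_adj h) rfl

/-- (V0) inner vertices of plane sides -/
theorem F_plane (hA : ∀ x ∈ A, ∀ y ∈ A, x * y = y * x) (h : BdA (XX hg hgeo hι) w a W I)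
    (hw : w ≠ []) (hL : LM hg hgeo hι w) (i : ℕ) {q : PP A B g} (h1 : car (a i) = plane q)
    (h2 : car (a (i + 1)) = plane q) (hne : a (i + 1) ≠ xinv (a i)) :
    F W (i + 1) ≤ (-(2 + cd (kndE (a i)) (kndE (a (i + 1)))) : ℤ) / 20 := by
  obtain ⟨⟨f, r, hW, hf⟩, ⟨f', l, hW', hf'⟩⟩ := walk_struct h hw hL i
  obtain ⟨m', q', he'⟩ := plane_letter h2
  -- the inverse letter in the same flat
  have hs : xsrc (xinv (a i)) = xsrc (a (i + 1)) := (walk_src h hw (i + 1)).1 _ (by rw [hW]; simp)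
  have hin : InF q' (xinv (a i)) := by
    rw [he'] at hs
    rw [InF_iff_car' hι hs, car_inv, h1, ← h2, he']
  obtain ⟨m, he⟩ := hin
  have hmm : m ≠ m' := by
    rintro rfl
    apply hne
    rw [he, he']
  have hout := walk_out hA (h.chain (i + 1)) (h.red (i + 1)) (by rw [hW, he]) (by rw [hW', he'])
    (hf _ _ he) (hf' _ _ he') hmm
  -- kinds
  have hk : kinv (kndE (a i)) = kndD m := by rw [← kndE_xinv, he, kndE_eA]
  have hk' : kndE (a (i + 1)) = kndD m' := by rw [he', kndE_eA]
  have hcd : min |pos m - pos m'| (120 - |pos m - pos m'|) + cd (kndE (a i)) (kndE (a (i + 1))) =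
      60 := by
    have key : ∀ k ∈ all, ∀ m m' : Dr, kinv k = kndD m →
      min |pos m - pos m'| (120 - |pos m - pos m'|) + cd k (kndD m') = 60 := by decide +kernel
    rw [hk']
    exact key _ (mem_all _) m m' hk
  unfold F
  rcases min_choice |pos m - pos m'| (120 - |pos m - pos m'|) with h3 | h3
  · rw [h3] at hcd
    have h4 := hout.1
    have h5 : (|pos m - pos m'| : ℤ) = 60 - cd (kndE (a i)) (kndE (a (i + 1))) := by omega
    rw [h5] at h4
    push_cast at h4 ⊢
    linarith
  · rw [h3] at hcd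
    have h4 := hout.2
    have h5 : (120 - |pos m - pos m'| : ℤ) = 60 - cd (kndE (a i)) (kndE (a (i + 1))) := by omega
    rw [h5] at h4
    push_cast at h4 ⊢
    linarith

/-- (V1) inner vertices of line sides -/
theorem F_line (h : BdA (XX hg hgeo hι) w a W I)
    (hw : w ≠ []) (hL : LM hg hgeo hι w) (i : ℕ) {q : PP A B g} (h1 : car (a i) = line q)
    (h2 : car (a (i + 1)) = line q) (hne : a (i + 1) ≠ xinv (a i)) :
    F W (i + 1) ≤ -1 := by
  obtain ⟨⟨f, r, hW, hf⟩, ⟨f', l, hW', hf'⟩⟩ := walk_struct h hw hL i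
  obtain ⟨m', q', he'⟩ := line_letter h2
  have hs : xsrc (xinv (a i)) = xsrc (a (i + 1)) := (walk_src h hw (i + 1)).1 _ (by rw [hW]; simp)
  have h3 : car (xinv (a i)) = line q := by rw [car_inv]; exact h1
  obtain ⟨m, q'', he⟩ := line_letter h3
  have h4 : xinv (a i) = eC m q' := by
    rw [he]
    apply same_line hι
    · rw [he, car_eC] at h3
      rw [he', car_eC] at h2
      rw [h3, h2]
    · rw [he, he', xsrc_eC, xsrc_eC] at hs
      exact hs.symm
  have hmm : m = !m' := by
    have : m ≠ m' := by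
      rintro rfl
      apply hne
      rw [h4, he']
    revert this; cases m <;> cases m' <;> simp
  have h5 := walk_CC (h.chain (i + 1)) (p := q') (q := q') (!m') (by rw [hW, h4, hmm]; rfl)
    (by rw [hW', he']; simp)
  unfold F
  linarith

theorem F_le (h : BdA (XX hg hgeo hι) w a W I) (i : ℕ) : F W i ≤ 2.1 := by
  have h0 : ∃ f r, W (i + w.length) = f :: r ∧ r ≠ [] := by
    obtain ⟨f1, f2, l, r, -, h1, -⟩ := h.edg (i + w.length)
    rw [h1]
    rcases l with _ | ⟨x, l⟩
    · exact ⟨f1, [_], rfl, by simp⟩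
    · exact ⟨x, _, rfl, by simp⟩
  rw [h.perW] at h0
  obtain ⟨f, r, h1, h2⟩ := h0
  unfold F
  rw [h1, ow_eq20]
  have h3 := ow20_ge ((f :: r).map kndE)
  have h4 : 1 ≤ r.length := List.length_pos_iff.2 h2
  have h5 : (18 : ℕ) ≤ ow20 ((f :: r).map kndE) := by
    rw [List.length_map, List.length_cons] at h3
    omega
  have h6 : (18 : ℝ) ≤ (ow20 ((f :: r).map kndE) : ℝ) := by exact_mod_cast h5
  linarith

/-- (V2) corner between planes -/
theorem F_PP (h : BdA (XX hg hgeo hι) w a W I)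
    (hw : w ≠ []) (hL : LM hg hgeo hι w) (i : ℕ) {q q' : PP A B g} (h1 : car (a i) = plane q)
    (h2 : car (a (i + 1)) = plane q') :
    (W (i + 1) = [xinv (a i), a (i + 1)] ∧ ((kndE (a i) = um ∧ kndE (a (i + 1)) = vm) ∨
      (kndE (a i) = vp ∧ kndE (a (i + 1)) = up)) ∧ F W (i + 1) = 2.1) ∨ F W (i + 1) ≤ 1.2 := by
  obtain ⟨⟨f, r, hW, hf⟩, ⟨f', l, hW', hf'⟩⟩ := walk_struct h hw hL i
  obtain ⟨m', p', he'⟩ := plane_letter h2
  have h3 : car (xinv (a i)) = plane q := by rw [car_inv]; exact h1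
  obtain ⟨m, p, he⟩ := plane_letter h3
  have hk : kinv (kndE (a i)) = kndE (xinv (a i)) := (kndE_xinv _).symm
  rcases walk_FF (h.chain (i + 1)) (q := p) (q' := p') ⟨m, he⟩ ⟨m', he'⟩ hW hW' (hf _ _ he)
    (hf' _ _ he') with ⟨h4, h5, h6⟩ | ⟨h4, h5, h6⟩ | h6
  · left
    refine ⟨h4, ?_, by unfold F; rw [h6]; norm_num⟩
    rcases h5 with ⟨h7, h8⟩ | ⟨h7, h8⟩
    · left
      rw [h7] at hk
      refine ⟨?_, h8⟩
      revert hk; generalize kndE (a i) = k; cases k <;> simp [kinv]
    · right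
      rw [h7] at hk
      refine ⟨?_, h8⟩
      revert hk; generalize kndE (a i) = k; cases k <;> simp [kinv]
  · right; unfold F; rw [h6]; norm_num
  · right; unfold F; linarith

/-- (V2) corner from a plane to a line -/
theorem F_PL (h : BdA (XX hg hgeo hι) w a W I)
    (hw : w ≠ []) (hL : LM hg hgeo hι w) (i : ℕ) {q q' : PP A B g} (h1 : car (a i) = plane q)
    (h2 : car (a (i + 1)) = line q') :
    (W (i + 1) = [xinv (a i), a (i + 1)] ∧ (kndE (a i) = up ∨ kndE (a i) = vm) ∧
      F W (i + 1) = 1.95) ∨ F W (i + 1) ≤ -0.05 := by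
  obtain ⟨⟨f, r, hW, hf⟩, ⟨f', l, hW', hf'⟩⟩ := walk_struct h hw hL i
  obtain ⟨m', p', he'⟩ := line_letter h2
  have h3 : car (xinv (a i)) = plane q := by rw [car_inv]; exact h1
  obtain ⟨m, p, he⟩ := plane_letter h3
  have hk : kinv (kndE (a i)) = kndE (xinv (a i)) := (kndE_xinv _).symm
  have hch := h.chain (i + 1)
  have hlast : (W (i + 1)).getLast? = some (a (i + 1)) := by rw [hW']; simp
  rw [hW] at hch hlast
  rw [he'] at hlast
  rcases walk_FC hch ⟨m, he⟩ (hf _ _ he) hlast with ⟨h4, h5⟩ | h5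
  · left
    subst h4
    simp only [List.getLast?_cons_cons, List.getLast?_singleton, Option.some.injEq] at hlast
    refine ⟨by rw [hW, he', hlast], ?_, by unfold F; rw [hW, h5]; norm_num⟩
    have htee := cor_tee (List.isChain_cons_cons.1 hch).1 ⟨m, he⟩ (hf _ _ he)
    rw [hlast, kndE_eC, ← hk] at htee
    revert htee; generalize kndE (a i) = k
    cases k <;> cases m' <;> simp [kinv, tee, kndC]
  · right; unfold F; rw [hW]; linarith

theorem ow_rev {E : Type} {θ : E → E → ℝ} (hθ : ∀ a b, θ a b = θ b a) (v : List E) :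
    ow θ v.reverse = ow θ v := H31.ow_reverse hθ v

/-- (V2) corner from a line to a plane -/
theorem F_LP (h : BdA (XX hg hgeo hι) w a W I)
    (hw : w ≠ []) (hL : LM hg hgeo hι w) (i : ℕ) {q q' : PP A B g} (h1 : car (a i) = line q)
    (h2 : car (a (i + 1)) = plane q') :
    (W (i + 1) = [xinv (a i), a (i + 1)] ∧ (kndE (a (i + 1)) = um ∨ kndE (a (i + 1)) = vp) ∧
      F W (i + 1) = 1.95) ∨ F W (i + 1) ≤ -0.05 := by
  obtain ⟨⟨f, r, hW, hf⟩, ⟨f', l, hW', hf'⟩⟩ := walk_struct h hw hL i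
  obtain ⟨m', p', he'⟩ := plane_letter h2
  have h3 : car (xinv (a i)) = line q := by rw [car_inv]; exact h1
  obtain ⟨m, p, he⟩ := line_letter h3
  have hrev : (W (i + 1)).reverse = a (i + 1) :: f' :: l.reverse := by rw [hW']; simp
  have hch : (W (i + 1)).reverse.IsChain (XX hg hgeo hι).Cor := by
    rw [List.isChain_reverse]
    exact (h.chain (i + 1)).imp (fun x y hxy => cor_symm' hxy)
  have hlast : (W (i + 1)).reverse.getLast? = some (eC m p) := by
    rw [List.getLast?_reverse, hW, he]; rfl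
  have how := ow_rev (fun a b => (θR_Wt hg hgeo hι).symm a b) (W (i + 1))
  rw [hrev] at hch hlast how
  rcases walk_FC hch ⟨m', he'⟩ (hf' _ _ he') hlast with ⟨h4, h5⟩ | h5
  · left
    rw [h4] at hlast how hrev
    simp only [List.getLast?_cons_cons, List.getLast?_singleton, Option.some.injEq] at hlast
    rw [h4] at h5
    have hWW : W (i + 1) = [xinv (a i), a (i + 1)] := by
      have := congrArg List.reverse hrev
      rw [List.reverse_reverse] at this
      rw [this, he, hlast]; simp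
    refine ⟨hWW, ?_, by unfold F; rw [← how, h5]; norm_num⟩
    rw [h4] at hch
    have htee := cor_tee (List.isChain_cons_cons.1 hch).1 ⟨m', he'⟩ (hf' _ _ he')
    rw [hlast, kndE_eC] at htee
    revert htee; generalize kndE (a (i + 1)) = k
    cases k <;> cases m <;> simp [tee, kndC]
  · right; unfold F; linarith

/-- (V2) corner between lines -/
theorem F_LL (h : BdA (XX hg hgeo hι) w a W I)
    (hw : w ≠ []) (hL : LM hg hgeo hι w) (i : ℕ) {q q' : PP A B g} (h1 : car (a i) = line q)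
    (h2 : car (a (i + 1)) = line q') : F W (i + 1) ≤ 0.9 := by
  obtain ⟨⟨f, r, hW, hf⟩, ⟨f', l, hW', hf'⟩⟩ := walk_struct h hw hL i
  obtain ⟨m', p', he'⟩ := line_letter h2
  have h3 : car (xinv (a i)) = line q := by rw [car_inv]; exact h1
  obtain ⟨m, p, he⟩ := line_letter h3
  have hch := h.chain (i + 1)
  unfold F
  rw [ow_eq20]
  have h4 : (42 : ℤ) ≤ ow20 ((W (i + 1)).map kndE) := by
    -- first step from a C letter, then to a C letter
    rw [hW] at hch ⊢
    have hc1 := (List.isChain_cons_cons.1 hch)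
    have hadj := cor_adj hc1.1
    rw [he, kndE_eC] at hadj
    have hlast : (W (i + 1)).getLast? = some (a (i + 1)) := by rw [hW']; simp
    rw [hW, List.getLast?_cons_cons, he'] at hlast
    have h5 := ow20_pot (fun k => - fC k) fC_lip ((f :: r).map kndE) (kndE f) (kndC m')
      (chain_adj hc1.2) rfl (by rw [List.getLast?_map, hlast]; rfl)
    have hk : fC (kndC m') = 0 := by cases m' <;> rfl
    simp only [List.map_cons, ow20, hk, he, kndE_eC] at h5 ⊢
    push_cast
    have h6 : (21 : ℤ) ≤ fC (kndE f) ∧ (21 : ℤ) ≤ wt (kndC m) (kndE f) := by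
      revert hadj; generalize kndE f = k
      cases m <;> cases k <;> simp [adj, hex, tee, kndC, fC, wt]
    linarith [h6.1, h6.2]
  have h5 : (42 : ℝ) ≤ (ow20 ((W (i + 1)).map kndE) : ℝ) := by exact_mod_cast h4
  linarith

/-- the total is at least six -/
theorem total_ge_six (hA : ∀ x ∈ A, ∀ y ∈ A, x * y = y * x) (h : BdA (XX hg hgeo hι) w a W I) :
    6 ≤ ∑ i ∈ Finset.range w.length, F W i := by
  have h1 := h.gb θR (θR_Wt hg hgeo hι)
  have h2 : (I.map (fun v => 6 - cw θR v)).sum ≤ 0 := by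
    apply H17.sum_np
    intro t ht
    obtain ⟨v, hv, rfl⟩ := List.mem_map.1 ht
    obtain ⟨h3, h4, h5⟩ := h.inner v hv
    have h6 := (link_X' hg hgeo hι hA v (by rintro rfl; simp at h3) h4 h5).2
    rcases h6 with h6 | ⟨-, h6, -⟩ <;> linarith
  unfold F
  linarith

end Pool.Agent.ABA.B.H89
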