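import Pool.Agent.Helper89_ABA.Pln2

/-! # Polygons with sides in planes and lines: minimal choices, sums, 2-gons
(MP_d857f1_al, part B) -/

namespace Pool.Agent.ABA.B.H89

open Knd Pool.Agent.ABA Pool.Agent.ABA.B Pool.Agent.ABA.B.TG Pool.Agent.ABA.B.H17

variable {G : Type} [Group G] {A B : Subgroup G} {g : G}
variable {hg : ¬ IsABA A B g} {hgeo : Geo A B} {hι : Function.Injective (Pι A B g)}

/-! ## sums along sides -/

section sums

variable {w : List (XE A B g)} {a : ℕ → XE A B g} {W : ℕ → List (XE A B g)}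
  {I : List (List (XE A B g))}

/-- the letters `p, …, p + n` lie in the carrier `c` without backtracking -/
def Seg (c : Car A B g) (a : ℕ → XE A B g) (p n : ℕ) : Prop :=
  (∀ i, p ≤ i → i ≤ p + n → car (a i) = c) ∧ ∀ i, p ≤ i → i < p + n → a (i + 1) ≠ xinv (a i)

theorem sum_plane (hA : ∀ x ∈ A, ∀ y ∈ A, x * y = y * x) (h : BdA (XX hg hgeo hι) w a W I)
    (hw : w ≠ []) (hL : LM hg hgeo hι w) {q : PP A B g} {p n : ℕ} (hs : Seg (plane q) a p n) :
    ∑ i ∈ Finset.Ico p (p + n), F W (i + 1) ≤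
      (-(2 * n + cd (kndE (a p)) (kndE (a (p + n)))) : ℤ) / 20 := by
  induction n with
  | zero => simp [cd_self]
  | succ n ih =>
    have h1 := ih ⟨fun i h1 h2 => hs.1 i h1 (by omega), fun i h1 h2 => hs.2 i h1 (by omega)⟩
    rw [← add_assoc, Finset.sum_Ico_succ_top (by omega)]
    have h2 := F_plane hA h hw hL (p + n) (hs.1 (p + n) (by omega) (by omega))
      (hs.1 (p + n + 1) (by omega) (by omega)) (hs.2 (p + n) (by omega) (by omega))
    have h3 := cd_tri (kndE (a p)) (kndE (a (p + n))) (kndE (a (p + n + 1)))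
    have h4 : ((-(2 * ((n + 1 : ℕ) : ℤ) + cd (kndE (a p)) (kndE (a (p + n + 1)))) : ℤ) : ℝ) ≥
        ((-(2 * (n : ℤ) + cd (kndE (a p)) (kndE (a (p + n)))) +
          -(2 + cd (kndE (a (p + n))) (kndE (a (p + n + 1)))) : ℤ) : ℝ) := by
      have : (-(2 * ((n + 1 : ℕ) : ℤ) + cd (kndE (a p)) (kndE (a (p + n + 1)))) : ℤ) ≥
          -(2 * (n : ℤ) + cd (kndE (a p)) (kndE (a (p + n)))) +
          -(2 + cd (kndE (a (p + n))) (kndE (a (p + n + 1)))) := by
        push_cast
        linarith
      exact_mod_cast this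
    push_cast at h1 h2 h4 ⊢
    linarith

theorem sum_line (h : BdA (XX hg hgeo hι) w a W I)
    (hw : w ≠ []) (hL : LM hg hgeo hι w) {q : PP A B g} {p n : ℕ} (hs : Seg (line q) a p n) :
    ∑ i ∈ Finset.Ico p (p + n), F W (i + 1) ≤ - n := by
  induction n with
  | zero => simp
  | succ n ih =>
    have h1 := ih ⟨fun i h1 h2 => hs.1 i h1 (by omega), fun i h1 h2 => hs.2 i h1 (by omega)⟩
    rw [← add_assoc, Finset.sum_Ico_succ_top (by omega)]
    have h2 := F_line h hw hL (p + n) (hs.1 (p + n) (by omega) (by omega))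
      (hs.1 (p + n + 1) (by omega) (by omega)) (hs.2 (p + n) (by omega) (by omega))
    push_cast
    linarith

theorem cd_nonneg (a b : Knd) : 0 ≤ cd a b := by
  have : ∀ a ∈ all, ∀ b ∈ all, 0 ≤ cd a b := by decide +kernel
  exact this a (mem_all a) b (mem_all b)

theorem sum_side (hA : ∀ x ∈ A, ∀ y ∈ A, x * y = y * x) (h : BdA (XX hg hgeo hι) w a W I)
    (hw : w ≠ []) (hL : LM hg hgeo hι w) {c : Car A B g} {p n : ℕ} (hs : Seg c a p n) :
    ∑ i ∈ Finset.Ico p (p + n), F W (i + 1) ≤ - (n : ℝ) / 10 := by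
  rcases car_cases c with ⟨q, rfl⟩ | ⟨q, rfl⟩
  · have h1 := sum_plane hA h hw hL hs
    have h2 : (0 : ℝ) ≤ ((cd (kndE (a p)) (kndE (a (p + n))) : ℤ) : ℝ) := by
      exact_mod_cast cd_nonneg _ _
    push_cast at h1
    linarith
  · have h1 := sum_line h hw hL hs
    have h2 : (0 : ℝ) ≤ (n : ℝ) := Nat.cast_nonneg n
    linarith

/-- the total, shifted -/
theorem total_shift (hA : ∀ x ∈ A, ∀ y ∈ A, x * y = y * x) (h : BdA (XX hg hgeo hι) w a W I) :
    6 ≤ ∑ i ∈ Finset.range w.length, F W (i + 1) := by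
  have h1 := total_ge_six hA h
  have h2 : ∑ i ∈ Finset.range w.length, F W (i + 1) = ∑ i ∈ Finset.range w.length, F W i := by
    have h3 := Finset.sum_range_succ' (fun i => F W i) w.length
    have h4 := Finset.sum_range_succ (fun i => F W i) w.length
    have h5 : F W w.length = F W 0 := by
      unfold F
      rw [← h.perW 0, Nat.zero_add]
    linarith
  rw [h2]; exact h1

/-- letters of a side -/
theorem seg_of (h : BdA (XX hg hgeo hι) w a W I) {l s r : List (XE A B g)} {c : Car A B g}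
    (hw : w = l ++ s ++ r) (hc : ∀ e ∈ s, car e = c)
    (hb : ∀ t u e, s = t ++ e :: xinv e :: u → False) (hs : s ≠ []) :
    Seg c a l.length (s.length - 1) := by
  have hlen : 1 ≤ s.length := List.length_pos_iff.2 hs
  have hget : ∀ i, l.length ≤ i → i < l.length + s.length → ∃ hi : i - l.length < s.length,
      a i = s[i - l.length] := by
    intro i h1 h2
    have h3 : i - l.length < s.length := by omega
    refine ⟨h3, ?_⟩
    have h4 : i < w.length := by rw [hw]; simp; omega
    rw [h.get i h4]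
    subst hw
    rw [List.getElem_append_left (by simp; omega), List.getElem_append_right h1]
  constructor
  · intro i h1 h2
    obtain ⟨hi, h3⟩ := hget i h1 (by omega)
    rw [h3]
    exact hc _ (List.getElem_mem _)
  · intro i h1 h2 h3
    obtain ⟨hi, h4⟩ := hget i h1 (by omega)
    obtain ⟨hi', h5⟩ := hget (i + 1) (by omega) (by omega)
    have e1 : i + 1 - l.length = i - l.length + 1 := by omega
    apply hb (s.take (i - l.length)) (s.drop (i - l.length + 2)) (a i)
    have h6 : s[i - l.length + 1]'(by omega) = xinv (a i) := by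
      rw [← h3, h5]; simp only [e1]
    rw [← h6, h4, ← List.drop_eq_getElem_cons, ← List.drop_eq_getElem_cons,
      List.take_append_drop]

end sums

/-! ## sides -/

variable {c c' : Car A B g}

theorem _root_.Pool.Agent.ABA.B.SideP.cut {x y : XV A B g} {t p u : List (XE A B g)}
    (h : SideP hg hgeo hι c x y (t ++ p ++ u)) (hp : p ≠ []) (hcl : (XX hg hgeo hι).Cl p) :
    SideP hg hgeo hι c x y (t ++ u) := by
  obtain ⟨z, h1, h2⟩ := h.split
  obtain ⟨z', h3, h4⟩ := h1.split
  obtain ⟨r, h5⟩ := hcl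
  obtain ⟨e, p', rfl⟩ := List.exists_cons_of_ne_nil hp
  have h6 : z' = r := h4.1.src_eq h5
  subst h6
  have h7 : z = z' := h4.1.eq h5
  subst h7
  exact h3.append hg hgeo hι h2

theorem _root_.Pool.Agent.ABA.B.SideP.block2 {x y z : XV A B g} {t t' u u' : List (XE A B g)}
    (h : SideP hg hgeo hι c x z (t ++ t')) (h' : SideP hg hgeo hι c' z y (u ++ u'))
    (hp : t' ++ u ≠ []) (hcl : (XX hg hgeo hι).Cl (t' ++ u)) :
    ∃ r, SideP hg hgeo hι c x r t ∧ SideP hg hgeo hι c r z t' ∧ SideP hg hgeo hι c' z r u ∧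
      SideP hg hgeo hι c' r y u' := by
  obtain ⟨r, h1, h2⟩ := h.split
  obtain ⟨r', h3, h4⟩ := h'.split
  obtain ⟨s, h5⟩ := hcl
  have h6 : (XX hg hgeo hι).IsP r (t' ++ u) r' := isP_append.2 ⟨z, h2.1, h3.1⟩
  obtain ⟨e, p', he⟩ := List.exists_cons_of_ne_nil hp
  rw [he] at h5 h6
  have h7 : r = s := h6.src_eq h5
  subst h7
  have h8 : r' = r := h6.eq h5
  subst h8
  exact ⟨r', h1, h2, h3, h4⟩

theorem _root_.Pool.Agent.ABA.B.SideP.push {x y : XV A B g} {l r : List (XE A B g)} {e f1 f2 : XE A B g}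
    (h : SideP hg hgeo hι c x y (l ++ e :: r)) (ht : (XX hg hgeo hι).Tri e f1 f2)
    (h1 : car f1 = car e) (h2 : car f2 = car e) :
    SideP hg hgeo hι c x y (l ++ f1 :: f2 :: r) := by
  obtain ⟨z, h3, h4⟩ := h.split
  have hce : car e = c := h4.2 e (by simp)
  refine h3.append hg hgeo hι ⟨⟨?_, ?_, ?_⟩, ?_⟩
  · rw [(XX hg hgeo hι).tri_src ht]; exact h4.1.1
  · exact (XX hg hgeo hι).tri_mid ht
  · have h5 : (XX hg hgeo hι).tgt f2 = (XX hg hgeo hι).tgt e := (XX hg hgeo hι).tri_tgt ht
    rw [h5]; exact h4.1.2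
  · intro x hx
    rcases List.mem_cons.1 hx with rfl | hx
    · rw [h1, hce]
    · rcases List.mem_cons.1 hx with rfl | hx
      · rw [h2, hce]
      · exact h4.2 x (by simp [hx])

theorem _root_.Pool.Agent.ABA.B.SideP.back {x y : XV A B g} {l r : List (XE A B g)} {e : XE A B g}
    (h : SideP hg hgeo hι c x y (l ++ e :: xinv e :: r)) :
    SideP hg hgeo hι c x y (l ++ r) := by
  have h1 : SideP hg hgeo hι c x y (l ++ [e, xinv e] ++ r) := by simpa using h
  refine h1.cut (by simp) ⟨xsrc e, rfl, rfl, ?_⟩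
  change (XX hg hgeo hι).tgt ((XX hg hgeo hι).inv e) = xsrc e
  rw [tgt_inv]; rfl

theorem _root_.Pool.Agent.ABA.B.SideP.nil_eq {x y : XV A B g} (h : SideP hg hgeo hι c x y []) : x = y := h.1

theorem _root_.Pool.Agent.ABA.B.SideP.on {x y : XV A B g} {s : List (XE A B g)} (h : SideP hg hgeo hι c x y s)
    (hx : On c x) : On c y := by
  rcases List.eq_nil_or_concat s with rfl | ⟨s', e, rfl⟩
  · rw [← h.nil_eq]; exact hx
  · exact (h.on_src hg hgeo hι (by simp)).2

/-- measure -/
noncomputable def mu (hg : ¬ IsABA A B g) (hgeo : Geo A B) (hι : Function.Injective (Pι A B g))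
    (w : List (XE A B g)) : ℕ := 2 * (XX hg hgeo hι).ar w + w.length

/-! ## areas -/

section areas

variable (M : Mods) (hSC : (XX hg hgeo hι).SC)

include M hSC

theorem ar_rot {u v : List (XE A B g)} (h : (XX hg hgeo hι).Cl (u ++ v)) :
    (XX hg hgeo hι).ar (u ++ v) = (XX hg hgeo hι).ar (v ++ u) :=
  (M.area _ _ _ hSC).2.2.1 u v h

theorem ar_back {u v : List (XE A B g)} {e : XE A B g}
    (h : (XX hg hgeo hι).Cl (u ++ e :: xinv e :: v)) :
    (XX hg hgeo hι).ar (u ++ v) ≤ (XX hg hgeo hι).ar (u ++ e :: xinv e :: v) :=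
  (M.area _ _ _ hSC).2.2.2.2.2.1 u v e h

end areas

theorem Cl_rot {u v : List (XE A B g)} (h : (XX hg hgeo hι).Cl (u ++ v)) :
    (XX hg hgeo hι).Cl (v ++ u) := by
  obtain ⟨x, h⟩ := h
  obtain ⟨y, h1, h2⟩ := isP_append.1 h
  exact ⟨y, isP_append.2 ⟨x, h2, h1⟩⟩

/-- two-part location -/
theorem loc2 {α : Type} {s t l r : List α} {e : α} (h : s ++ t = l ++ e :: r) :
    (∃ q, s = l ++ e :: q ∧ r = q ++ t) ∨ (∃ p, t = p ++ e :: r ∧ l = s ++ p) := by
  rw [List.append_eq_append_iff] at h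
  rcases h with ⟨u, h1, h2⟩ | ⟨u, h1, h2⟩
  · exact Or.inr ⟨u, h2, h1⟩
  · cases u with
    | nil =>
      right
      refine ⟨[], ?_, ?_⟩
      · simpa using h2.symm
      · simpa using h1.symm
    | cons x u =>
      simp only [List.cons_append, List.cons.injEq] at h2
      obtain ⟨rfl, h3⟩ := h2
      exact Or.inl ⟨u, h1, h3⟩

/-- two-part location of a cut -/
theorem cut2 {α : Type} {s t l r : List α} (h : s ++ t = l ++ r) :
    (∃ q, s = l ++ q ∧ r = q ++ t) ∨ (∃ p, t = p ++ r ∧ l = s ++ p) := by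
  rw [List.append_eq_append_iff] at h
  rcases h with ⟨u, h1, h2⟩ | ⟨u, h1, h2⟩
  · exact Or.inr ⟨u, h2, h1⟩
  · exact Or.inl ⟨u, h1, h2⟩

/-! ## 2-gons -/

/-- TWO-GONS: different carriers have at most one common vertex -/
theorem two_gon (hA : ∀ x ∈ A, ∀ y ∈ A, x * y = y * x) (M : Mods) (hSC : (XX hg hgeo hι).SC)
    {c c' : Car A B g} (hne : c ≠ c') {x y : XV A B g} (h1 : On c x) (h2 : On c y)
    (h3 : On c' x) (h4 : On c' y) : x = y := by
  classical
  by_contra hxy
  obtain ⟨s0, hs0⟩ := car_conn hg hgeo hι h1 h2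
  obtain ⟨s0', hs0'⟩ := car_conn hg hgeo hι h4 h3
  let Q : ℕ → Prop := fun n => ∃ x y s s', x ≠ y ∧ SideP hg hgeo hι c x y s ∧
    SideP hg hgeo hι c' y x s' ∧ mu hg hgeo hι (s ++ s') = n
  have hQ : ∃ n, Q n := ⟨_, x, y, s0, s0', hxy, hs0, hs0', rfl⟩
  obtain ⟨x, y, s, s', hxy, hs, hs', hn⟩ := Nat.find_spec hQ
  have hmin : ∀ x' y' t t', x' ≠ y' → SideP hg hgeo hι c x' y' t → SideP hg hgeo hι c' y' x' t' →
      mu hg hgeo hι (s ++ s') ≤ mu hg hgeo hι (t ++ t') := by
    intro x' y' t t' e1 e2 e3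
    rw [hn]
    exact Nat.find_min' hQ ⟨x', y', t, t', e1, e2, e3, rfl⟩
  have hcl : (XX hg hgeo hι).Cl (s ++ s') := ⟨x, isP_append.2 ⟨y, hs.1, hs'.1⟩⟩
  have hsne : s ≠ [] := by rintro rfl; exact hxy hs.nil_eq
  have hsne' : s' ≠ [] := by rintro rfl; exact hxy hs'.nil_eq.symm
  have hwne : s ++ s' ≠ [] := by simp [hsne]
  -- PF
  have hPF : (XX hg hgeo hι).PF (s ++ s') := by
    intro p₁ p p₂ hw hp hpp hclp
    by_contra hcon
    rw [not_lt] at hcon
    have hlp : 1 ≤ p.length := List.length_pos_iff.2 hp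
    have hlpp : 1 ≤ (p₁ ++ p₂).length := List.length_pos_iff.2 hpp
    have hlw : (s ++ s').length = p.length + (p₁ ++ p₂).length := by
      rw [hw]; simp; omega
    rw [List.append_assoc] at hw
    rcases cut2 hw with ⟨q, e1, e2⟩ | ⟨q, e1, e2⟩
    · rcases cut2 e2.symm with ⟨q', e3, e4⟩ | ⟨q', e3, e4⟩
      · -- p inside s
        subst e3
        have hs2 : SideP hg hgeo hι c x y (p₁ ++ q') := by
          rw [e1, ← List.append_assoc] at hs
          exact hs.cut hp hclp
        have := hmin x y _ _ hxy hs2 hs'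
        have e5 : p₁ ++ q' ++ s' = p₁ ++ p₂ := by rw [e4]; simp
        rw [e5] at this
        unfold mu at this
        omega
      · -- p spans the corner y
        subst e4
        rw [e1] at hs
        rw [e3] at hs'
        obtain ⟨r, k1, k2, k3, k4⟩ := SideP.block2 hs hs' hp hclp
        by_cases hry : r = y
        · subst hry
          have := hmin x r _ _ hxy k1 k4
          unfold mu at this
          omega
        · have := hmin r y _ _ hry k2 k3
          unfold mu at this
          omega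
    · -- p inside s'
      have hs2 : SideP hg hgeo hι c' y x (q ++ p₂) := by
        rw [e1, ← List.append_assoc] at hs'
        exact hs'.cut hp hclp
      have := hmin x y _ _ hxy hs hs2
      have e5 : s ++ (q ++ p₂) = p₁ ++ p₂ := by rw [e2]; simp
      rw [e5] at this
      unfold mu at this
      omega
  -- local minimality
  have hLM : LM hg hgeo hι (s ++ s') := by
    intro l r e f1 f2 hw ht hf1 hf2
    rcases loc2 hw with ⟨q, e1, e2⟩ | ⟨p, e1, e2⟩
    · rw [e1] at hs
      have := hmin x y _ _ hxy (hs.push ht hf1 hf2) hs'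
      have e5 : (l ++ f1 :: f2 :: q) ++ s' = l ++ f1 :: f2 :: r := by rw [e2]; simp
      rw [e5] at this
      have hl : (l ++ f1 :: f2 :: r).length = (s ++ s').length + 1 := by rw [hw]; simp; omega
      unfold mu at this
      omega
    · rw [e1] at hs'
      have := hmin x y _ _ hxy hs (hs'.push ht hf1 hf2)
      have e5 : s ++ (p ++ f1 :: f2 :: r) = l ++ f1 :: f2 :: r := by rw [e2]; simp
      rw [e5] at this
      have hl : (l ++ f1 :: f2 :: r).length = (s ++ s').length + 1 := by rw [hw]; simp; omega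
      unfold mu at this
      omega
  -- no backtracks
  have hb : ∀ t u e, s = t ++ e :: xinv e :: u → False := by
    intro t u e he
    rw [he] at hs
    have h1 := hmin x y _ _ hxy hs.back hs'
    have h2 := ar_back M hSC (u := t) (v := u ++ s') (e := e) (by rw [he] at hcl; simpa using hcl)
    have e5 : (t ++ u) ++ s' = t ++ (u ++ s') := by simp
    have e6 : s ++ s' = t ++ e :: xinv e :: (u ++ s') := by rw [he]; simp
    rw [e5, e6] at h1
    unfold mu at h1
    simp only [List.length_append, List.length_cons] at h1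
    omega
  have hb' : ∀ t u e, s' = t ++ e :: xinv e :: u → False := by
    intro t u e he
    rw [he] at hs'
    have h1 := hmin x y _ _ hxy hs hs'.back
    have h2 := ar_back M hSC (u := s ++ t) (v := u) (e := e) (by rw [he] at hcl; simpa using hcl)
    have e5 : s ++ (t ++ u) = (s ++ t) ++ u := by simp
    have e6 : s ++ s' = (s ++ t) ++ e :: xinv e :: u := by rw [he]; simp
    rw [e5, e6] at h1
    unfold mu at h1
    simp only [List.length_append, List.length_cons] at h1 h2
    omega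
  -- boundary data
  obtain ⟨a, W, I, hB⟩ := bdyA M hSC (s ++ s') hcl hPF hwne (by
    intro e he
    rcases s with _ | ⟨e1, _ | ⟨e2, s⟩⟩
    · exact hsne rfl
    · rcases s' with _ | ⟨e1', _ | ⟨e2', s'⟩⟩
      · exact hsne' rfl
      · simp only [List.cons_append, List.nil_append, List.cons.injEq, and_true] at he
        obtain ⟨he1, he2⟩ := he
        apply hne
        rw [← hs.2 e1 (by simp), ← hs'.2 e1' (by simp), he1, he2]
        exact car_inv e
      · have := congrArg List.length he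
        simp at this
    · have := congrArg List.length he
      have h5 : 1 ≤ s'.length := List.length_pos_iff.2 hsne'
      simp only [List.length_append, List.length_cons, List.length_nil] at this
      omega)
  have htot := total_shift hA hB
  have hl1 : 1 ≤ s.length := List.length_pos_iff.2 hsne
  have hl2 : 1 ≤ s'.length := List.length_pos_iff.2 hsne'
  have hS1 := sum_side hA hB hwne hLM (seg_of hB (l := []) (s := s) (r := s') (by simp) hs.2 hb hsne)
  have hS2 := sum_side hA hB hwne hLM (seg_of hB (l := s) (s := s') (r := []) (by simp) hs'.2 hb'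
    hsne')
  obtain ⟨n, hn1⟩ : ∃ n, s.length = n + 1 := ⟨s.length - 1, by omega⟩
  obtain ⟨n', hn2⟩ : ∃ n', s'.length = n' + 1 := ⟨s'.length - 1, by omega⟩
  rw [List.length_append, hn1, hn2] at htot
  rw [hn1, List.length_nil, Nat.add_sub_cancel, Nat.zero_add] at hS1
  rw [hn1, hn2, Nat.add_sub_cancel] at hS2
  have hsplit : ∑ i ∈ Finset.range (n + 1 + (n' + 1)), F W (i + 1) =
      ∑ i ∈ Finset.Ico 0 n, F W (i + 1) + F W (n + 1) +
      (∑ i ∈ Finset.Ico (n + 1) (n + 1 + n'), F W (i + 1) + F W (n + 1 + n' + 1)) := by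
    rw [Finset.range_eq_Ico, ← Finset.sum_Ico_consecutive _ (Nat.zero_le (n + 1)) (by omega),
      Finset.sum_Ico_succ_top (Nat.zero_le n), ← add_assoc (n + 1) n' 1,
      Finset.sum_Ico_succ_top (by omega)]
  rw [hsplit] at htot
  have hc1 := F_le hB (n + 1)
  have hc2 := F_le hB (n + 1 + n' + 1)
  have hp1 : (0 : ℝ) ≤ (n : ℝ) := Nat.cast_nonneg n
  have hp2 : (0 : ℝ) ≤ (n' : ℝ) := Nat.cast_nonneg n'
  linarith

end Pool.Agent.ABA.B.H89
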