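import Pool.Agent.Helper89_ABA.Pln3

/-! # 3-gons (MP_d857f1_al, part B) -/

namespace Pool.Agent.ABA.B.H89

open Knd Pool.Agent.ABA Pool.Agent.ABA.B Pool.Agent.ABA.B.TG Pool.Agent.ABA.B.H17

variable {G : Type} [Group G] {A B : Subgroup G} {g : G}
variable {hg : ¬ IsABA A B g} {hgeo : Geo A B} {hι : Function.Injective (Pι A B g)}

/-- a closed block with a middle part -/
theorem block3 {c c' : Car A B g} {x y z z' : XV A B g} {t t' u u' m : List (XE A B g)}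
    (h : SideP hg hgeo hι c x z (t ++ t')) (hm : (XX hg hgeo hι).IsP z m z')
    (h' : SideP hg hgeo hι c' z' y (u ++ u'))
    (hp : t' ++ m ++ u ≠ []) (hcl : (XX hg hgeo hι).Cl (t' ++ m ++ u)) :
    ∃ r, SideP hg hgeo hι c x r t ∧ SideP hg hgeo hι c r z t' ∧ SideP hg hgeo hι c' z' r u ∧
      SideP hg hgeo hι c' r y u' := by
  obtain ⟨r, h1, h2⟩ := h.split
  obtain ⟨r', h3, h4⟩ := h'.split
  obtain ⟨s, h5⟩ := hcl
  have h6 : (XX hg hgeo hι).IsP r (t' ++ m ++ u) r' :=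
    isP_append.2 ⟨z', isP_append.2 ⟨z, h2.1, hm⟩, h3.1⟩
  obtain ⟨e, p', he⟩ := List.exists_cons_of_ne_nil hp
  rw [he] at h5 h6
  have h7 : r = s := h6.src_eq h5
  subst h7
  have h8 : r' = r := h6.eq h5
  subst h8
  exact ⟨r', h1, h2, h3, h4⟩

/-- the data of a minimal 3-gon -/
structure Gon3 (hg : ¬ IsABA A B g) (hgeo : Geo A B) (hι : Function.Injective (Pι A B g))
    (c0 c1 c2 : Car A B g) (v0 v1 v2 : XV A B g) (s0 s1 s2 : List (XE A B g)) (n0 n1 n2 : ℕ)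
    (a : ℕ → XE A B g) (W : ℕ → List (XE A B g)) (I : List (List (XE A B g))) : Prop where
  h0 : SideP hg hgeo hι c0 v2 v0 s0
  h1 : SideP hg hgeo hι c1 v0 v1 s1
  h2 : SideP hg hgeo hι c2 v1 v2 s2
  l0 : s0.length = n0 + 1
  l1 : s1.length = n1 + 1
  l2 : s2.length = n2 + 1
  bd : BdA (XX hg hgeo hι) (s0 ++ s1 ++ s2) a W I
  lm : LM hg hgeo hι (s0 ++ s1 ++ s2)
  g0 : Seg c0 a 0 n0
  g1 : Seg c1 a (n0 + 1) n1
  g2 : Seg c2 a (n0 + 1 + (n1 + 1)) n2
  tot : 6 ≤ (∑ i ∈ Finset.Ico 0 n0, F W (i + 1) + F W (n0 + 1)) +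
    (∑ i ∈ Finset.Ico (n0 + 1) (n0 + 1 + n1), F W (i + 1) + F W (n0 + 1 + n1 + 1)) +
    (∑ i ∈ Finset.Ico (n0 + 1 + (n1 + 1)) (n0 + 1 + (n1 + 1) + n2), F W (i + 1) +
      F W (n0 + 1 + (n1 + 1) + n2 + 1))

theorem gon3 (hA : ∀ x ∈ A, ∀ y ∈ A, x * y = y * x) (M : Mods) (hSC : (XX hg hgeo hι).SC)
    {c0 c1 c2 : Car A B g} (k01 : c0 ≠ c1) (k12 : c1 ≠ c2) (k20 : c2 ≠ c0)
    {v0 v1 v2 : XV A B g} (o00 : On c0 v0) (o10 : On c1 v0) (o11 : On c1 v1) (o21 : On c2 v1)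
    (o22 : On c2 v2) (o02 : On c0 v2) (d01 : v0 ≠ v1) (d12 : v1 ≠ v2) (d20 : v2 ≠ v0) :
    ∃ s0 s1 s2 n0 n1 n2 a W I, Gon3 hg hgeo hι c0 c1 c2 v0 v1 v2 s0 s1 s2 n0 n1 n2 a W I := by
  classical
  obtain ⟨t0, ht0⟩ := car_conn hg hgeo hι o02 o00
  obtain ⟨t1, ht1⟩ := car_conn hg hgeo hι o10 o11
  obtain ⟨t2, ht2⟩ := car_conn hg hgeo hι o21 o22
  let Q : ℕ → Prop := fun n => ∃ s0 s1 s2, SideP hg hgeo hι c0 v2 v0 s0 ∧
    SideP hg hgeo hι c1 v0 v1 s1 ∧ SideP hg hgeo hι c2 v1 v2 s2 ∧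
    mu hg hgeo hι (s0 ++ s1 ++ s2) = n
  have hQ : ∃ n, Q n := ⟨_, t0, t1, t2, ht0, ht1, ht2, rfl⟩
  obtain ⟨s0, s1, s2, h0, h1, h2, hn⟩ := Nat.find_spec hQ
  have hmin : ∀ s0' s1' s2', SideP hg hgeo hι c0 v2 v0 s0' → SideP hg hgeo hι c1 v0 v1 s1' →
      SideP hg hgeo hι c2 v1 v2 s2' →
      mu hg hgeo hι (s0 ++ s1 ++ s2) ≤ mu hg hgeo hι (s0' ++ s1' ++ s2') := by
    intro s0' s1' s2' e1 e2 e3
    rw [hn]
    exact Nat.find_min' hQ ⟨s0', s1', s2', e1, e2, e3, rfl⟩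
  have hcl : (XX hg hgeo hι).Cl (s0 ++ s1 ++ s2) :=
    ⟨v2, isP_append.2 ⟨v1, isP_append.2 ⟨v0, h0.1, h1.1⟩, h2.1⟩⟩
  have z0 : s0 ≠ [] := by rintro rfl; exact d20 h0.nil_eq
  have z1 : s1 ≠ [] := by rintro rfl; exact d01 h1.nil_eq
  have z2 : s2 ≠ [] := by rintro rfl; exact d12 h2.nil_eq
  have m0 : 1 ≤ s0.length := List.length_pos_iff.2 z0
  have m1 : 1 ≤ s1.length := List.length_pos_iff.2 z1
  have m2 : 1 ≤ s2.length := List.length_pos_iff.2 z2
  have hwne : s0 ++ s1 ++ s2 ≠ [] := by simp [z0]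
  have u01 : ∀ r, On c0 r → On c1 r → r = v0 := fun r e1 e2 => two_gon hA M hSC k01 e1 o00 e2 o10
  have u12 : ∀ r, On c1 r → On c2 r → r = v1 := fun r e1 e2 => two_gon hA M hSC k12 e1 o11 e2 o21
  have u20 : ∀ r, On c2 r → On c0 r → r = v2 := fun r e1 e2 => two_gon hA M hSC k20 e1 o22 e2 o02
  -- PF
  have hPF : (XX hg hgeo hι).PF (s0 ++ s1 ++ s2) := by
    intro p₁ p p₂ hw hp hpp hclp
    by_contra hcon
    rw [not_lt] at hcon
    have hlp : 1 ≤ p.length := List.length_pos_iff.2 hp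
    have hlpp : 1 ≤ (p₁ ++ p₂).length := List.length_pos_iff.2 hpp
    have hlw : (s0 ++ s1 ++ s2).length = p.length + (p₁ ++ p₂).length := by
      rw [hw]; simp only [List.length_append]; omega
    -- the two ways to win
    have win1 : ∀ s0' s1' s2', SideP hg hgeo hι c0 v2 v0 s0' → SideP hg hgeo hι c1 v0 v1 s1' →
        SideP hg hgeo hι c2 v1 v2 s2' → s0' ++ s1' ++ s2' = p₁ ++ p₂ → False := by
      intro s0' s1' s2' e1 e2 e3 e4
      have := hmin s0' s1' s2' e1 e2 e3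
      rw [e4] at this
      unfold mu at this
      omega
    have win2 : ∀ s0' s1' s2', SideP hg hgeo hι c0 v2 v0 s0' → SideP hg hgeo hι c1 v0 v1 s1' →
        SideP hg hgeo hι c2 v1 v2 s2' → s0' ++ s1' ++ s2' = p → False := by
      intro s0' s1' s2' e1 e2 e3 e4
      have := hmin s0' s1' s2' e1 e2 e3
      rw [e4] at this
      unfold mu at this
      omega
    rw [List.append_assoc, List.append_assoc] at hw
    rcases cut2 hw with ⟨q, e1, e2⟩ | ⟨q, e1, e2⟩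
    · rcases cut2 e2.symm with ⟨q', e3, e4⟩ | ⟨q', e3, e4⟩
      · -- inside s0
        rw [e1, e3, ← List.append_assoc] at h0
        exact win1 _ _ _ (h0.cut hp hclp) h1 h2 (by rw [e4]; simp)
      · rcases cut2 e3 with ⟨q'', e5, e6⟩ | ⟨q'', e5, e6⟩
        · -- spans v0
          rw [e1] at h0
          rw [e5] at h1
          rw [e4] at hp hclp
          obtain ⟨r, j1, j2, j3, j4⟩ := SideP.block2 h0 h1 hp hclp
          have hr : r = v0 := u01 r (j1.on o02) (j3.on o10)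
          subst hr
          exact win1 _ _ _ j1 j4 h2 (by rw [e6]; simp)
        · -- p = q ++ s1 ++ q''
          rw [e1] at h0
          rw [e5] at h2
          have e7 : p = q ++ s1 ++ q'' := by rw [e4, e6]; simp
          rw [e7] at hp hclp
          obtain ⟨r, j1, j2, j3, j4⟩ := block3 h0 h1.1 h2 hp hclp
          have hr : r = v2 := u20 r (j3.on o21) (j1.on o02)
          subst hr
          exact win2 _ _ _ j2 h1 j3 e7.symm
    · rcases cut2 e1 with ⟨q', e3, e4⟩ | ⟨q', e3, e4⟩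
      · rcases cut2 e4.symm with ⟨q'', e5, e6⟩ | ⟨q'', e5, e6⟩
        · -- inside s1
          rw [e3, e5, ← List.append_assoc] at h1
          exact win1 _ _ _ h0 (h1.cut hp hclp) h2 (by rw [e2, e6]; simp)
        · -- spans v1
          rw [e3] at h1
          rw [e5] at h2
          rw [e6] at hp hclp
          obtain ⟨r, j1, j2, j3, j4⟩ := SideP.block2 h1 h2 hp hclp
          have hr : r = v1 := u12 r (j1.on o10) (j3.on o21)
          subst hr
          exact win1 _ _ _ h0 j1 j4 (by rw [e2])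
      · -- inside s2
        rw [e3, ← List.append_assoc] at h2
        exact win1 _ _ _ h0 h1 (h2.cut hp hclp) (by rw [e2, e4]; simp)
  -- local minimality
  have hLM : LM hg hgeo hι (s0 ++ s1 ++ s2) := by
    intro l r e f1 f2 hw ht hf1 hf2
    have hl : (l ++ f1 :: f2 :: r).length = (s0 ++ s1 ++ s2).length + 1 := by
      rw [hw]; simp only [List.length_append, List.length_cons]; omega
    have win : ∀ s0' s1' s2', SideP hg hgeo hι c0 v2 v0 s0' → SideP hg hgeo hι c1 v0 v1 s1' →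
        SideP hg hgeo hι c2 v1 v2 s2' → s0' ++ s1' ++ s2' = l ++ f1 :: f2 :: r →
        (XX hg hgeo hι).ar (s0 ++ s1 ++ s2) ≤ (XX hg hgeo hι).ar (l ++ f1 :: f2 :: r) := by
      intro s0' s1' s2' e1 e2 e3 e4
      have := hmin s0' s1' s2' e1 e2 e3
      rw [e4] at this
      unfold mu at this
      omega
    rcases loc2 hw with ⟨q, e1, e2⟩ | ⟨p, e1, e2⟩
    · rcases loc2 e1 with ⟨q', e3, e4⟩ | ⟨p', e3, e4⟩
      · rw [e3] at h0
        exact win _ _ _ (h0.push ht hf1 hf2) h1 h2 (by rw [e2, e4]; simp)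
      · rw [e3] at h1
        exact win _ _ _ h0 (h1.push ht hf1 hf2) h2 (by rw [e2, e4]; simp)
    · rw [e1] at h2
      exact win _ _ _ h0 h1 (h2.push ht hf1 hf2) (by rw [e2]; simp)
  -- no backtracks
  have back : ∀ l r e, s0 ++ s1 ++ s2 = l ++ e :: xinv e :: r → ∀ s0' s1' s2',
      SideP hg hgeo hι c0 v2 v0 s0' → SideP hg hgeo hι c1 v0 v1 s1' →
      SideP hg hgeo hι c2 v1 v2 s2' → s0' ++ s1' ++ s2' = l ++ r → False := by
    intro l r e hw s0' s1' s2' e1 e2 e3 e4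
    have j1 := hmin s0' s1' s2' e1 e2 e3
    have j2 := ar_back M hSC (u := l) (v := r) (e := e) (by rw [← hw]; exact hcl)
    rw [e4, hw] at j1
    unfold mu at j1
    simp only [List.length_append, List.length_cons] at j1
    omega
  have b0 : ∀ t u e, s0 = t ++ e :: xinv e :: u → False := by
    intro t u e he
    have h0' := h0
    rw [he] at h0'
    exact back t (u ++ s1 ++ s2) e (by rw [he]; simp) _ _ _ h0'.back h1 h2 (by simp)
  have b1 : ∀ t u e, s1 = t ++ e :: xinv e :: u → False := by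
    intro t u e he
    have h1' := h1
    rw [he] at h1'
    exact back (s0 ++ t) (u ++ s2) e (by rw [he]; simp) _ _ _ h0 h1'.back h2 (by simp)
  have b2 : ∀ t u e, s2 = t ++ e :: xinv e :: u → False := by
    intro t u e he
    have h2' := h2
    rw [he] at h2'
    exact back (s0 ++ s1 ++ t) u e (by rw [he]; simp) _ _ _ h0 h1 h2'.back (by simp)
  -- boundary data
  obtain ⟨a, W, I, hB⟩ := bdyA M hSC (s0 ++ s1 ++ s2) hcl hPF hwne (by
    intro e he
    have := congrArg List.length he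
    simp only [List.length_append, List.length_cons, List.length_nil] at this
    omega)
  obtain ⟨n0, l0⟩ : ∃ n, s0.length = n + 1 := ⟨s0.length - 1, by omega⟩
  obtain ⟨n1, l1⟩ : ∃ n, s1.length = n + 1 := ⟨s1.length - 1, by omega⟩
  obtain ⟨n2, l2⟩ : ∃ n, s2.length = n + 1 := ⟨s2.length - 1, by omega⟩
  have g0 := seg_of hB (l := []) (s := s0) (r := s1 ++ s2) (by simp) h0.2 b0 z0
  have g1 := seg_of hB (l := s0) (s := s1) (r := s2) (by simp) h1.2 b1 z1
  have g2 := seg_of hB (l := s0 ++ s1) (s := s2) (r := []) (by simp) h2.2 b2 z2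
  rw [l0, List.length_nil, Nat.add_sub_cancel] at g0
  rw [l0, l1, Nat.add_sub_cancel] at g1
  rw [List.length_append, l0, l1, l2, Nat.add_sub_cancel] at g2
  have htot := total_shift hA hB
  rw [List.length_append, List.length_append, l0, l1, l2] at htot
  have hsplit : ∑ i ∈ Finset.range (n0 + 1 + (n1 + 1) + (n2 + 1)), F W (i + 1) =
      (∑ i ∈ Finset.Ico 0 n0, F W (i + 1) + F W (n0 + 1)) +
      (∑ i ∈ Finset.Ico (n0 + 1) (n0 + 1 + n1), F W (i + 1) + F W (n0 + 1 + n1 + 1)) +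
      (∑ i ∈ Finset.Ico (n0 + 1 + (n1 + 1)) (n0 + 1 + (n1 + 1) + n2), F W (i + 1) +
      F W (n0 + 1 + (n1 + 1) + n2 + 1)) := by
    rw [Finset.range_eq_Ico,
      ← Finset.sum_Ico_consecutive _ (Nat.zero_le (n0 + 1 + (n1 + 1))) (by omega),
      ← Finset.sum_Ico_consecutive _ (Nat.zero_le (n0 + 1)) (by omega : n0 + 1 ≤ n0 + 1 + (n1 + 1)),
      Finset.sum_Ico_succ_top (Nat.zero_le n0), ← add_assoc (n0 + 1) n1 1,
      Finset.sum_Ico_succ_top (by omega), ← add_assoc (n0 + 1 + n1 + 1) n2 1,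
      Finset.sum_Ico_succ_top (by omega)]
  rw [hsplit] at htot
  exact ⟨s0, s1, s2, n0, n1, n2, a, W, I, ⟨h0, h1, h2, l0, l1, l2, hB, hLM, g0, g1, g2, htot⟩⟩

end Pool.Agent.ABA.B.H89
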