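import Pool.Agent.Helper89_ABA.Pln4

/-! # 3-gons: the conclusions (MP_d857f1_al, part B) -/

namespace Pool.Agent.ABA.B.H89

open Knd Pool.Agent.ABA Pool.Agent.ABA.B Pool.Agent.ABA.B.TG Pool.Agent.ABA.B.H17

variable {G : Type} [Group G] {A B : Subgroup G} {g : G}
variable {hg : ¬ IsABA A B g} {hgeo : Geo A B} {hι : Function.Injective (Pι A B g)}

section

variable {c0 c1 c2 : Car A B g} {v0 v1 v2 : XV A B g} {s0 s1 s2 : List (XE A B g)} {n0 n1 n2 : ℕ}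
  {a : ℕ → XE A B g} {W : ℕ → List (XE A B g)} {I : List (List (XE A B g))}

theorem Gon3.ne (h : Gon3 hg hgeo hι c0 c1 c2 v0 v1 v2 s0 s1 s2 n0 n1 n2 a W I) :
    s0 ++ s1 ++ s2 ≠ [] := by
  intro e
  have := congrArg List.length e
  simp only [List.length_append, h.l0, h.l1, h.l2, List.length_nil] at this
  omega

theorem Gon3.wrap (h : Gon3 hg hgeo hι c0 c1 c2 v0 v1 v2 s0 s1 s2 n0 n1 n2 a W I) :
    a (n0 + 1 + (n1 + 1) + n2 + 1) = a 0 ∧ W (n0 + 1 + (n1 + 1) + n2 + 1) = W 0 := by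
  have h1 := h.bd.per 0
  have h2 := h.bd.perW 0
  have e : 0 + (s0 ++ s1 ++ s2).length = n0 + 1 + (n1 + 1) + n2 + 1 := by
    simp only [List.length_append, h.l0, h.l1, h.l2]; omega
  rw [e] at h1 h2
  exact ⟨h1, h2⟩

theorem Gon3.c0' (h : Gon3 hg hgeo hι c0 c1 c2 v0 v1 v2 s0 s1 s2 n0 n1 n2 a W I) :
    car (a 0) = c0 ∧ car (a n0) = c0 ∧ car (a (n0 + 1)) = c1 ∧ car (a (n0 + 1 + n1)) = c1 ∧
    car (a (n0 + 1 + n1 + 1)) = c2 ∧ car (a (n0 + 1 + (n1 + 1) + n2)) = c2 ∧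
    car (a (n0 + 1 + (n1 + 1) + n2 + 1)) = c0 := by
  have e : n0 + 1 + n1 + 1 = n0 + 1 + (n1 + 1) := by omega
  refine ⟨h.g0.1 0 (by omega) (by omega), h.g0.1 n0 (by omega) (by omega),
    h.g1.1 _ (by omega) (by omega), h.g1.1 _ (by omega) (by omega),
    by rw [e]; exact h.g2.1 _ (by omega) (by omega), h.g2.1 _ (by omega) (by omega), ?_⟩
  rw [h.wrap.1]
  exact h.g0.1 0 (by omega) (by omega)

theorem side_turn (hA : ∀ x ∈ A, ∀ y ∈ A, x * y = y * x) {w : List (XE A B g)}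
    (h : BdA (XX hg hgeo hι) w a W I)
    (hw : w ≠ []) (hL : LM hg hgeo hι w) {q : PP A B g} {p n : ℕ} (hs : Seg (plane q) a p n)
    (hk : 22 ≤ cd (kndE (a p)) (kndE (a (p + n)))) :
    ∑ i ∈ Finset.Ico p (p + n), F W (i + 1) ≤ -1.2 := by
  have h1 := sum_plane hA h hw hL hs
  have hn : 1 ≤ n := by
    rcases Nat.eq_zero_or_pos n with rfl | hn
    · rw [Nat.add_zero, cd_self] at hk; omega
    · exact hn
  have h2 : ((-(2 * (n : ℤ) + cd (kndE (a p)) (kndE (a (p + n)))) : ℤ) : ℝ) ≤ ((-24 : ℤ) : ℝ) := by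
    have : (-(2 * (n : ℤ) + cd (kndE (a p)) (kndE (a (p + n)))) : ℤ) ≤ -24 := by omega
    exact_mod_cast this
  push_cast at h1 h2
  linarith

/-- no triangle of planes -/
theorem no_PPP (hA : ∀ x ∈ A, ∀ y ∈ A, x * y = y * x) {q0 q1 q2 : PP A B g}
    (h : Gon3 hg hgeo hι (plane q0) (plane q1) (plane q2) v0 v1 v2 s0 s1 s2 n0 n1 n2 a W I) :
    False := by
  obtain ⟨k0, k1, k2, k3, k4, k5, k6⟩ := h.c0'
  have f0 := F_PP h.bd h.ne h.lm n0 k1 k2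
  have f1 := F_PP h.bd h.ne h.lm (n0 + 1 + n1) k3 k4
  have f2 := F_PP h.bd h.ne h.lm (n0 + 1 + (n1 + 1) + n2) k5 k6
  have g0 := sum_side hA h.bd h.ne h.lm h.g0
  have g1 := sum_side hA h.bd h.ne h.lm h.g1
  have g2 := sum_side hA h.bd h.ne h.lm h.g2
  have b0 := F_le h.bd (n0 + 1)
  have b1 := F_le h.bd (n0 + 1 + n1 + 1)
  have b2 := F_le h.bd (n0 + 1 + (n1 + 1) + n2 + 1)
  have ht := h.tot
  have p0 : (0 : ℝ) ≤ (n0 : ℝ) := Nat.cast_nonneg _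
  have p1 : (0 : ℝ) ≤ (n1 : ℝ) := Nat.cast_nonneg _
  have p2 : (0 : ℝ) ≤ (n2 : ℝ) := Nat.cast_nonneg _
  rw [Nat.zero_add] at g0
  rcases f0 with ⟨-, f0, -⟩ | f0
  swap
  · linarith
  rcases f1 with ⟨-, f1, -⟩ | f1
  swap
  · linarith
  rcases f2 with ⟨-, f2, -⟩ | f2
  swap
  · linarith
  have e : n0 + 1 + n1 + 1 = n0 + 1 + (n1 + 1) := by omega
  rw [e] at f1
  rw [h.wrap.1] at f2
  have hh : ∀ x y x' y' : Knd, (x' = um ∧ x = vm ∨ x' = vp ∧ x = up) →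
      (y = um ∧ y' = vm ∨ y = vp ∧ y' = up) → 22 ≤ cd x y := by
    rintro x y x' y' (⟨-, rfl⟩ | ⟨-, rfl⟩) (⟨rfl, -⟩ | ⟨rfl, -⟩) <;> decide
  have t0 := side_turn hA h.bd h.ne h.lm h.g0 (by
    rw [Nat.zero_add]; exact hh _ _ _ _ f2 f0)
  have t1 := side_turn hA h.bd h.ne h.lm h.g1 (hh _ _ _ _ f0 f1)
  have t2 := side_turn hA h.bd h.ne h.lm h.g2 (hh _ _ _ _ f1 f2)
  rw [Nat.zero_add] at t0
  linarith

/-- no triangle with two lines -/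
theorem no_LLX (hA : ∀ x ∈ A, ∀ y ∈ A, x * y = y * x) {q0 q1 : PP A B g}
    (h : Gon3 hg hgeo hι (line q0) (line q1) c2 v0 v1 v2 s0 s1 s2 n0 n1 n2 a W I) :
    False := by
  obtain ⟨k0, k1, k2, k3, k4, k5, k6⟩ := h.c0'
  have f0 := F_LL h.bd h.ne h.lm n0 k1 k2
  have g0 := sum_side hA h.bd h.ne h.lm h.g0
  have g1 := sum_side hA h.bd h.ne h.lm h.g1
  have g2 := sum_side hA h.bd h.ne h.lm h.g2
  have b1 := F_le h.bd (n0 + 1 + n1 + 1)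
  have b2 := F_le h.bd (n0 + 1 + (n1 + 1) + n2 + 1)
  have ht := h.tot
  have p0 : (0 : ℝ) ≤ (n0 : ℝ) := Nat.cast_nonneg _
  have p1 : (0 : ℝ) ≤ (n1 : ℝ) := Nat.cast_nonneg _
  have p2 : (0 : ℝ) ≤ (n2 : ℝ) := Nat.cast_nonneg _
  rw [Nat.zero_add] at g0
  linarith

/-- plane, plane, line: the T-triangle -/
theorem PPL_tri (hA : ∀ x ∈ A, ∀ y ∈ A, x * y = y * x) {q0 q1 q2 : PP A B g}
    (h : Gon3 hg hgeo hι (plane q0) (plane q1) (line q2) v0 v1 v2 s0 s1 s2 n0 n1 n2 a W I) :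
    ∃ e0 e1 e2, SideP hg hgeo hι (plane q0) v2 v0 [e0] ∧ SideP hg hgeo hι (plane q1) v0 v1 [e1] ∧
      SideP hg hgeo hι (line q2) v1 v2 [e2] ∧ (XX hg hgeo hι).Tri e0 (xinv e2) (xinv e1) ∧
      ((kndE e0 = um ∧ kndE e1 = vm) ∨ (kndE e0 = vp ∧ kndE e1 = up)) := by
  obtain ⟨k0, k1, k2, k3, k4, k5, k6⟩ := h.c0'
  have f0 := F_PP h.bd h.ne h.lm n0 k1 k2
  have f1 := F_PL h.bd h.ne h.lm (n0 + 1 + n1) k3 k4
  have f2 := F_LP h.bd h.ne h.lm (n0 + 1 + (n1 + 1) + n2) k5 k6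
  have g0 := sum_side hA h.bd h.ne h.lm h.g0
  have g1 := sum_side hA h.bd h.ne h.lm h.g1
  have g2 := sum_side hA h.bd h.ne h.lm h.g2
  have b0 := F_le h.bd (n0 + 1)
  have b1 := F_le h.bd (n0 + 1 + n1 + 1)
  have b2 := F_le h.bd (n0 + 1 + (n1 + 1) + n2 + 1)
  have ht := h.tot
  have p0 : (0 : ℝ) ≤ (n0 : ℝ) := Nat.cast_nonneg _
  have p1 : (0 : ℝ) ≤ (n1 : ℝ) := Nat.cast_nonneg _
  have p2 : (0 : ℝ) ≤ (n2 : ℝ) := Nat.cast_nonneg _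
  rw [Nat.zero_add] at g0
  have hcor1 : F W (n0 + 1 + n1 + 1) ≤ 1.95 := by rcases f1 with ⟨-, -, f1⟩ | f1 <;> linarith
  have hcor2 : F W (n0 + 1 + (n1 + 1) + n2 + 1) ≤ 1.95 := by
    rcases f2 with ⟨-, -, f2⟩ | f2 <;> linarith
  rcases f0 with ⟨w0, f0, x0⟩ | f0
  swap
  · exfalso; linarith
  rcases f1 with ⟨w1, f1, x1⟩ | f1
  swap
  · exfalso; linarith
  rcases f2 with ⟨w2, f2, x2⟩ | f2
  swap
  · exfalso; linarith
  have hn : (n0 : ℝ) + n1 + n2 ≤ 0 := by linarith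
  have hn' : n0 + n1 + n2 = 0 := by
    have : ((n0 + n1 + n2 : ℕ) : ℝ) ≤ ((0 : ℕ) : ℝ) := by push_cast; linarith
    have := Nat.cast_le.1 this
    omega
  obtain rfl : n0 = 0 := by omega
  obtain rfl : n1 = 0 := by omega
  obtain rfl : n2 = 0 := by omega
  obtain ⟨e0, rfl⟩ := List.length_eq_one_iff.1 h.l0
  obtain ⟨e1, rfl⟩ := List.length_eq_one_iff.1 h.l1
  obtain ⟨e2, rfl⟩ := List.length_eq_one_iff.1 h.l2
  have a0 : a 0 = e0 := h.bd.get 0 (by simp)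
  have a1 : a 1 = e1 := h.bd.get 1 (by simp)
  have a2 : a 2 = e2 := h.bd.get 2 (by simp)
  refine ⟨e0, e1, e2, h.h0, h.h1, h.h2, ?_, ?_⟩
  · obtain ⟨f1, f2, l, r, hT, hW1, hW2, -⟩ := edgA h.bd h.ne h.lm 0
    have hw0 : W 0 = [xinv (a 2), a 3] := by
      rw [← h.wrap.2]
      exact w2
    have hw3 : a 3 = a 0 := h.wrap.1
    have hw1 : W 1 = [xinv (a 0), a 1] := w0
    rw [hw3] at hw0
    rw [hw1] at hW2
    simp only [List.cons.injEq] at hW2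
    obtain ⟨-, hW2, -⟩ := hW2
    rw [hw0] at hW1
    have hf1 : f1 = xinv (a 2) := by
      rcases l with _ | ⟨x, l⟩
      · simp only [List.nil_append, List.cons.injEq, and_true] at hW1
        exact hW1.symm
      · exfalso
        have := congrArg List.length hW1
        simp at this
    rw [hf1] at hT
    have hf2 : f2 = xinv (a 1) := by
      rw [hW2]
      exact ((XX hg hgeo hι).inv_inv f2).symm
    rw [hf2, a0, a1, a2] at hT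
    exact hT
  · rw [← a0, ← a1]
    exact f0

end

end Pool.Agent.ABA.B.H89
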