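import Pool.Agent.Helper89_ABA.Pln5

/-! # 4-gons (MP_d857f1_al, part B) -/

namespace Pool.Agent.ABA.B.H89

open Knd Pool.Agent.ABA Pool.Agent.ABA.B Pool.Agent.ABA.B.TG Pool.Agent.ABA.B.H17

variable {G : Type} [Group G] {A B : Subgroup G} {g : G}
variable {hg : ¬ IsABA A B g} {hgeo : Geo A B} {hι : Function.Injective (Pι A B g)}

/-- the data of a minimal 4-gon -/
structure Gon4 (hg : ¬ IsABA A B g) (hgeo : Geo A B) (hι : Function.Injective (Pι A B g))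
    (c0 c1 c2 c3 : Car A B g) (v0 v1 v2 v3 : XV A B g) (s0 s1 s2 s3 : List (XE A B g))
    (n0 n1 n2 n3 : ℕ)
    (a : ℕ → XE A B g) (W : ℕ → List (XE A B g)) (I : List (List (XE A B g))) : Prop where
  h0 : SideP hg hgeo hι c0 v3 v0 s0
  h1 : SideP hg hgeo hι c1 v0 v1 s1
  h2 : SideP hg hgeo hι c2 v1 v2 s2
  h3 : SideP hg hgeo hι c3 v2 v3 s3
  l0 : s0.length = n0 + 1
  l1 : s1.length = n1 + 1
  l2 : s2.length = n2 + 1
  l3 : s3.length = n3 + 1
  bd : BdA (XX hg hgeo hι) (s0 ++ s1 ++ s2 ++ s3) a W I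
  lm : LM hg hgeo hι (s0 ++ s1 ++ s2 ++ s3)
  g0 : Seg c0 a 0 n0
  g1 : Seg c1 a (n0 + 1) n1
  g2 : Seg c2 a (n0 + 1 + (n1 + 1)) n2
  g3 : Seg c3 a (n0 + 1 + (n1 + 1) + (n2 + 1)) n3
  tot : 6 ≤ (∑ i ∈ Finset.Ico 0 n0, F W (i + 1) + F W (n0 + 1)) +
    (∑ i ∈ Finset.Ico (n0 + 1) (n0 + 1 + n1), F W (i + 1) + F W (n0 + 1 + n1 + 1)) +
    (∑ i ∈ Finset.Ico (n0 + 1 + (n1 + 1)) (n0 + 1 + (n1 + 1) + n2), F W (i + 1) +
      F W (n0 + 1 + (n1 + 1) + n2 + 1)) +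
    (∑ i ∈ Finset.Ico (n0 + 1 + (n1 + 1) + (n2 + 1)) (n0 + 1 + (n1 + 1) + (n2 + 1) + n3),
      F W (i + 1) + F W (n0 + 1 + (n1 + 1) + (n2 + 1) + n3 + 1))

theorem gon4 (hA : ∀ x ∈ A, ∀ y ∈ A, x * y = y * x) (M : Mods) (hSC : (XX hg hgeo hι).SC)
    {c0 c1 c2 c3 : Car A B g} (k01 : c0 ≠ c1) (k12 : c1 ≠ c2) (k23 : c2 ≠ c3) (k30 : c3 ≠ c0)
    {v0 v1 v2 v3 : XV A B g} (o00 : On c0 v0) (o10 : On c1 v0) (o11 : On c1 v1) (o21 : On c2 v1)
    (o22 : On c2 v2) (o32 : On c3 v2) (o33 : On c3 v3) (o03 : On c0 v3)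
    (d02 : ∀ r, On c0 r → On c2 r → False) (d13 : ∀ r, On c1 r → On c3 r → False) :
    ∃ s0 s1 s2 s3 n0 n1 n2 n3 a W I,
      Gon4 hg hgeo hι c0 c1 c2 c3 v0 v1 v2 v3 s0 s1 s2 s3 n0 n1 n2 n3 a W I := by
  classical
  obtain ⟨t0, ht0⟩ := car_conn hg hgeo hι o03 o00
  obtain ⟨t1, ht1⟩ := car_conn hg hgeo hι o10 o11
  obtain ⟨t2, ht2⟩ := car_conn hg hgeo hι o21 o22
  obtain ⟨t3, ht3⟩ := car_conn hg hgeo hι o32 o33
  let Q : ℕ → Prop := fun n => ∃ s0 s1 s2 s3, SideP hg hgeo hι c0 v3 v0 s0 ∧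
    SideP hg hgeo hι c1 v0 v1 s1 ∧ SideP hg hgeo hι c2 v1 v2 s2 ∧ SideP hg hgeo hι c3 v2 v3 s3 ∧
    mu hg hgeo hι (s0 ++ s1 ++ s2 ++ s3) = n
  have hQ : ∃ n, Q n := ⟨_, t0, t1, t2, t3, ht0, ht1, ht2, ht3, rfl⟩
  obtain ⟨s0, s1, s2, s3, h0, h1, h2, h3, hn⟩ := Nat.find_spec hQ
  have hmin : ∀ s0' s1' s2' s3', SideP hg hgeo hι c0 v3 v0 s0' → SideP hg hgeo hι c1 v0 v1 s1' →
      SideP hg hgeo hι c2 v1 v2 s2' → SideP hg hgeo hι c3 v2 v3 s3' →
      mu hg hgeo hι (s0 ++ s1 ++ s2 ++ s3) ≤ mu hg hgeo hι (s0' ++ s1' ++ s2' ++ s3') := by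
    intro s0' s1' s2' s3' e1 e2 e3 e4
    rw [hn]
    exact Nat.find_min' hQ ⟨s0', s1', s2', s3', e1, e2, e3, e4, rfl⟩
  have hcl : (XX hg hgeo hι).Cl (s0 ++ s1 ++ s2 ++ s3) :=
    ⟨v3, isP_append.2 ⟨v2, isP_append.2 ⟨v1, isP_append.2 ⟨v0, h0.1, h1.1⟩, h2.1⟩, h3.1⟩⟩
  have z0 : s0 ≠ [] := by rintro rfl; rw [h0.nil_eq] at o33; exact d13 _ o10 o33
  have z1 : s1 ≠ [] := by rintro rfl; rw [← h1.nil_eq] at o21; exact d02 _ o00 o21
  have z2 : s2 ≠ [] := by rintro rfl; rw [← h2.nil_eq] at o32; exact d13 _ o11 o32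
  have z3 : s3 ≠ [] := by rintro rfl; rw [← h3.nil_eq] at o03; exact d02 _ o03 o22
  have m0 : 1 ≤ s0.length := List.length_pos_iff.2 z0
  have m1 : 1 ≤ s1.length := List.length_pos_iff.2 z1
  have m2 : 1 ≤ s2.length := List.length_pos_iff.2 z2
  have m3 : 1 ≤ s3.length := List.length_pos_iff.2 z3
  have hwne : s0 ++ s1 ++ s2 ++ s3 ≠ [] := by simp [z0]
  have u01 : ∀ r, On c0 r → On c1 r → r = v0 := fun r e1 e2 => two_gon hA M hSC k01 e1 o00 e2 o10
  have u12 : ∀ r, On c1 r → On c2 r → r = v1 := fun r e1 e2 => two_gon hA M hSC k12 e1 o11 e2 o21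
  have u23 : ∀ r, On c2 r → On c3 r → r = v2 := fun r e1 e2 => two_gon hA M hSC k23 e1 o22 e2 o32
  have u30 : ∀ r, On c3 r → On c0 r → r = v3 := fun r e1 e2 => two_gon hA M hSC k30 e1 o33 e2 o03
  -- PF
  have hPF : (XX hg hgeo hι).PF (s0 ++ s1 ++ s2 ++ s3) := by
    intro p₁ p p₂ hw hp hpp hclp
    by_contra hcon
    rw [not_lt] at hcon
    have hlp : 1 ≤ p.length := List.length_pos_iff.2 hp
    have hlpp : 1 ≤ (p₁ ++ p₂).length := List.length_pos_iff.2 hpp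
    have hlw : (s0 ++ s1 ++ s2 ++ s3).length = p.length + (p₁ ++ p₂).length := by
      rw [hw]; simp only [List.length_append]; omega
    -- the two ways to win
    have win1 : ∀ s0' s1' s2' s3', SideP hg hgeo hι c0 v3 v0 s0' → SideP hg hgeo hι c1 v0 v1 s1' →
        SideP hg hgeo hι c2 v1 v2 s2' → SideP hg hgeo hι c3 v2 v3 s3' →
        s0' ++ s1' ++ s2' ++ s3' = p₁ ++ p₂ → False := by
      intro s0' s1' s2' s3' e1 e2 e3 e4 e5
      have := hmin s0' s1' s2' s3' e1 e2 e3 e4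
      rw [e5] at this
      unfold mu at this
      omega
    have win2 : ∀ s0' s1' s2' s3', SideP hg hgeo hι c0 v3 v0 s0' → SideP hg hgeo hι c1 v0 v1 s1' →
        SideP hg hgeo hι c2 v1 v2 s2' → SideP hg hgeo hι c3 v2 v3 s3' →
        s0' ++ s1' ++ s2' ++ s3' = p → False := by
      intro s0' s1' s2' s3' e1 e2 e3 e4 e5
      have := hmin s0' s1' s2' s3' e1 e2 e3 e4
      rw [e5] at this
      unfold mu at this
      omega
    have hw' : s0 ++ (s1 ++ (s2 ++ s3)) = p₁ ++ (p ++ p₂) := by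
      simpa only [List.append_assoc] using hw
    rcases cut2 hw' with ⟨q, e1, e2⟩ | ⟨q, e1, e2⟩
    · -- p starts in s0
      rcases cut2 e2.symm with ⟨q', e3, e4⟩ | ⟨q', e3, e4⟩
      · -- inside s0
        rw [e1, e3, ← List.append_assoc] at h0
        exact win1 _ _ _ _ (h0.cut hp hclp) h1 h2 h3 (by simp [e4])
      · rcases cut2 e3 with ⟨q'', e5, e6⟩ | ⟨q'', e5, e6⟩
        · -- ends in s1
          rw [e1] at h0
          rw [e5] at h1
          rw [e4] at hp hclp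
          obtain ⟨r, j1, j2, j3, j4⟩ := SideP.block2 h0 h1 hp hclp
          have hr : r = v0 := u01 r (j1.on o03) (j3.on o10)
          subst hr
          exact win1 _ _ _ _ j1 j4 h2 h3 (by simp [e6])
        · rcases cut2 e5 with ⟨q3, e7, e8⟩ | ⟨q3, e7, e8⟩
          · -- ends in s2: opposite
            rw [e1] at h0
            rw [e7] at h2
            have e9 : p = q ++ s1 ++ q'' := by simp [e4, e6]
            rw [e9] at hp hclp
            obtain ⟨r, j1, j2, j3, j4⟩ := block3 h0 h1.1 h2 hp hclp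
            exact d02 r (j1.on o03) (j3.on o21)
          · -- ends in s3: complement
            rw [e1] at h0
            rw [e7] at h3
            have e9 : p = q ++ (s1 ++ s2) ++ q3 := by simp [e4, e6, e8]
            rw [e9] at hp hclp
            obtain ⟨r, j1, j2, j3, j4⟩ := block3 h0 (isP_append.2 ⟨v1, h1.1, h2.1⟩) h3 hp hclp
            have hr : r = v3 := u30 r (j3.on o32) (j1.on o03)
            subst hr
            exact win2 _ _ _ _ j2 h1 h2 j3 (by simp [e9])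
    · rcases cut2 e1 with ⟨q', e3, e4⟩ | ⟨q', e3, e4⟩
      · -- p starts in s1
        rcases cut2 e4.symm with ⟨q'', e5, e6⟩ | ⟨q'', e5, e6⟩
        · -- inside s1
          rw [e3, e5, ← List.append_assoc] at h1
          exact win1 _ _ _ _ h0 (h1.cut hp hclp) h2 h3 (by simp [e2, e6])
        · rcases cut2 e5 with ⟨q3, e7, e8⟩ | ⟨q3, e7, e8⟩
          · -- ends in s2
            rw [e3] at h1
            rw [e7] at h2
            rw [e6] at hp hclp
            obtain ⟨r, j1, j2, j3, j4⟩ := SideP.block2 h1 h2 hp hclp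
            have hr : r = v1 := u12 r (j1.on o10) (j3.on o21)
            subst hr
            exact win1 _ _ _ _ h0 j1 j4 h3 (by simp [e2, e8])
          · -- ends in s3: opposite
            rw [e3] at h1
            rw [e7] at h3
            have e9 : p = q' ++ s2 ++ q3 := by simp [e6, e8]
            rw [e9] at hp hclp
            obtain ⟨r, j1, j2, j3, j4⟩ := block3 h1 h2.1 h3 hp hclp
            exact d13 r (j1.on o10) (j3.on o32)
      · rcases cut2 e3 with ⟨q'', e5, e6⟩ | ⟨q'', e5, e6⟩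
        · -- p starts in s2
          rcases cut2 e6.symm with ⟨q3, e7, e8⟩ | ⟨q3, e7, e8⟩
          · -- inside s2
            rw [e5, e7, ← List.append_assoc] at h2
            exact win1 _ _ _ _ h0 h1 (h2.cut hp hclp) h3 (by simp [e2, e4, e8])
          · -- ends in s3
            rw [e5] at h2
            rw [e7] at h3
            rw [e8] at hp hclp
            obtain ⟨r, j1, j2, j3, j4⟩ := SideP.block2 h2 h3 hp hclp
            have hr : r = v2 := u23 r (j1.on o21) (j3.on o32)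
            subst hr
            exact win1 _ _ _ _ h0 h1 j1 j4 (by simp [e2, e4])
        · -- inside s3
          rw [e5, ← List.append_assoc] at h3
          exact win1 _ _ _ _ h0 h1 h2 (h3.cut hp hclp) (by simp [e2, e4, e6])
  -- local minimality
  have hLM : LM hg hgeo hι (s0 ++ s1 ++ s2 ++ s3) := by
    intro l r e f1 f2 hw ht hf1 hf2
    have hl : (l ++ f1 :: f2 :: r).length = (s0 ++ s1 ++ s2 ++ s3).length + 1 := by
      rw [hw]; simp only [List.length_append, List.length_cons]; omega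
    have win : ∀ s0' s1' s2' s3', SideP hg hgeo hι c0 v3 v0 s0' → SideP hg hgeo hι c1 v0 v1 s1' →
        SideP hg hgeo hι c2 v1 v2 s2' → SideP hg hgeo hι c3 v2 v3 s3' →
        s0' ++ s1' ++ s2' ++ s3' = l ++ f1 :: f2 :: r →
        (XX hg hgeo hι).ar (s0 ++ s1 ++ s2 ++ s3) ≤ (XX hg hgeo hι).ar (l ++ f1 :: f2 :: r) := by
      intro s0' s1' s2' s3' e1 e2 e3 e4 e5
      have := hmin s0' s1' s2' s3' e1 e2 e3 e4
      rw [e5] at this
      unfold mu at this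
      omega
    rcases loc2 hw with ⟨q, e1, e2⟩ | ⟨p, e1, e2⟩
    · rcases loc2 e1 with ⟨q', e3, e4⟩ | ⟨p', e3, e4⟩
      · rcases loc2 e3 with ⟨q'', e5, e6⟩ | ⟨p'', e5, e6⟩
        · rw [e5] at h0
          exact win _ _ _ _ (h0.push ht hf1 hf2) h1 h2 h3 (by simp [e2, e4, e6])
        · rw [e5] at h1
          exact win _ _ _ _ h0 (h1.push ht hf1 hf2) h2 h3 (by simp [e2, e4, e6])
      · rw [e3] at h2
        exact win _ _ _ _ h0 h1 (h2.push ht hf1 hf2) h3 (by simp [e2, e4])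
    · rw [e1] at h3
      exact win _ _ _ _ h0 h1 h2 (h3.push ht hf1 hf2) (by simp [e2])
  -- no backtracks
  have back : ∀ l r e, s0 ++ s1 ++ s2 ++ s3 = l ++ e :: xinv e :: r → ∀ s0' s1' s2' s3',
      SideP hg hgeo hι c0 v3 v0 s0' → SideP hg hgeo hι c1 v0 v1 s1' →
      SideP hg hgeo hι c2 v1 v2 s2' → SideP hg hgeo hι c3 v2 v3 s3' →
      s0' ++ s1' ++ s2' ++ s3' = l ++ r → False := by
    intro l r e hw s0' s1' s2' s3' e1 e2 e3 e4 e5
    have j1 := hmin s0' s1' s2' s3' e1 e2 e3 e4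
    have j2 := ar_back M hSC (u := l) (v := r) (e := e) (by rw [← hw]; exact hcl)
    rw [e5, hw] at j1
    unfold mu at j1
    simp only [List.length_append, List.length_cons] at j1
    omega
  have b0 : ∀ t u e, s0 = t ++ e :: xinv e :: u → False := by
    intro t u e he
    have h0' := h0
    rw [he] at h0'
    exact back t (u ++ s1 ++ s2 ++ s3) e (by simp [he]) _ _ _ _ h0'.back h1 h2 h3 (by simp)
  have b1 : ∀ t u e, s1 = t ++ e :: xinv e :: u → False := by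
    intro t u e he
    have h1' := h1
    rw [he] at h1'
    exact back (s0 ++ t) (u ++ s2 ++ s3) e (by simp [he]) _ _ _ _ h0 h1'.back h2 h3 (by simp)
  have b2 : ∀ t u e, s2 = t ++ e :: xinv e :: u → False := by
    intro t u e he
    have h2' := h2
    rw [he] at h2'
    exact back (s0 ++ s1 ++ t) (u ++ s3) e (by simp [he]) _ _ _ _ h0 h1 h2'.back h3 (by simp)
  have b3 : ∀ t u e, s3 = t ++ e :: xinv e :: u → False := by
    intro t u e he
    have h3' := h3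
    rw [he] at h3'
    exact back (s0 ++ s1 ++ s2 ++ t) u e (by simp [he]) _ _ _ _ h0 h1 h2 h3'.back (by simp)
  -- boundary data
  obtain ⟨a, W, I, hB⟩ := bdyA M hSC (s0 ++ s1 ++ s2 ++ s3) hcl hPF hwne (by
    intro e he
    have := congrArg List.length he
    simp only [List.length_append, List.length_cons, List.length_nil] at this
    omega)
  obtain ⟨n0, l0⟩ : ∃ n, s0.length = n + 1 := ⟨s0.length - 1, by omega⟩
  obtain ⟨n1, l1⟩ : ∃ n, s1.length = n + 1 := ⟨s1.length - 1, by omega⟩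
  obtain ⟨n2, l2⟩ : ∃ n, s2.length = n + 1 := ⟨s2.length - 1, by omega⟩
  obtain ⟨n3, l3⟩ : ∃ n, s3.length = n + 1 := ⟨s3.length - 1, by omega⟩
  have g0 := seg_of hB (l := []) (s := s0) (r := s1 ++ s2 ++ s3) (by simp) h0.2 b0 z0
  have g1 := seg_of hB (l := s0) (s := s1) (r := s2 ++ s3) (by simp) h1.2 b1 z1
  have g2 := seg_of hB (l := s0 ++ s1) (s := s2) (r := s3) (by simp) h2.2 b2 z2
  have g3 := seg_of hB (l := s0 ++ s1 ++ s2) (s := s3) (r := []) (by simp) h3.2 b3 z3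
  rw [l0, List.length_nil, Nat.add_sub_cancel] at g0
  rw [l0, l1, Nat.add_sub_cancel] at g1
  rw [List.length_append, l0, l1, l2, Nat.add_sub_cancel] at g2
  rw [List.length_append, List.length_append, l0, l1, l2, l3, Nat.add_sub_cancel] at g3
  have htot := total_shift hA hB
  rw [List.length_append, List.length_append, List.length_append, l0, l1, l2, l3] at htot
  have hsplit : ∑ i ∈ Finset.range (n0 + 1 + (n1 + 1) + (n2 + 1) + (n3 + 1)), F W (i + 1) =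
      (∑ i ∈ Finset.Ico 0 n0, F W (i + 1) + F W (n0 + 1)) +
      (∑ i ∈ Finset.Ico (n0 + 1) (n0 + 1 + n1), F W (i + 1) + F W (n0 + 1 + n1 + 1)) +
      (∑ i ∈ Finset.Ico (n0 + 1 + (n1 + 1)) (n0 + 1 + (n1 + 1) + n2), F W (i + 1) +
      F W (n0 + 1 + (n1 + 1) + n2 + 1)) +
      (∑ i ∈ Finset.Ico (n0 + 1 + (n1 + 1) + (n2 + 1)) (n0 + 1 + (n1 + 1) + (n2 + 1) + n3),
      F W (i + 1) + F W (n0 + 1 + (n1 + 1) + (n2 + 1) + n3 + 1)) := by
    rw [Finset.range_eq_Ico,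
      ← Finset.sum_Ico_consecutive _ (Nat.zero_le (n0 + 1 + (n1 + 1) + (n2 + 1)))
        (by omega : n0 + 1 + (n1 + 1) + (n2 + 1) ≤ n0 + 1 + (n1 + 1) + (n2 + 1) + (n3 + 1)),
      ← Finset.sum_Ico_consecutive _ (Nat.zero_le (n0 + 1 + (n1 + 1)))
        (by omega : n0 + 1 + (n1 + 1) ≤ n0 + 1 + (n1 + 1) + (n2 + 1)),
      ← Finset.sum_Ico_consecutive _ (Nat.zero_le (n0 + 1)) (by omega : n0 + 1 ≤ n0 + 1 + (n1 + 1)),
      Finset.sum_Ico_succ_top (Nat.zero_le n0), ← add_assoc (n0 + 1) n1 1,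
      Finset.sum_Ico_succ_top (by omega), ← add_assoc (n0 + 1 + n1 + 1) n2 1,
      Finset.sum_Ico_succ_top (by omega), ← add_assoc (n0 + 1 + n1 + 1 + n2 + 1) n3 1,
      Finset.sum_Ico_succ_top (by omega)]
  rw [hsplit] at htot
  exact ⟨s0, s1, s2, s3, n0, n1, n2, n3, a, W, I,
    ⟨h0, h1, h2, h3, l0, l1, l2, l3, hB, hLM, g0, g1, g2, g3, htot⟩⟩

/-- no 4-gon plane, line, plane, line -/
theorem no_PLPL (hA : ∀ x ∈ A, ∀ y ∈ A, x * y = y * x) {q0 q1 q2 q3 : PP A B g}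
    {v0 v1 v2 v3 : XV A B g} {s0 s1 s2 s3 : List (XE A B g)} {n0 n1 n2 n3 : ℕ}
    {a : ℕ → XE A B g} {W : ℕ → List (XE A B g)} {I : List (List (XE A B g))}
    (h : Gon4 hg hgeo hι (plane q0) (line q1) (plane q2) (line q3) v0 v1 v2 v3 s0 s1 s2 s3
      n0 n1 n2 n3 a W I) : False := by
  have hne : s0 ++ s1 ++ s2 ++ s3 ≠ [] := by
    intro e
    have := congrArg List.length e
    simp only [List.length_append, h.l0, h.l1, h.l2, List.length_nil] at this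
    omega
  have e1 : n0 + 1 + n1 + 1 = n0 + 1 + (n1 + 1) := by omega
  have e2 : n0 + 1 + (n1 + 1) + n2 + 1 = n0 + 1 + (n1 + 1) + (n2 + 1) := by omega
  have hwrap : a (n0 + 1 + (n1 + 1) + (n2 + 1) + n3 + 1) = a 0 := by
    have h1 := h.bd.per 0
    have e : 0 + (s0 ++ s1 ++ s2 ++ s3).length = n0 + 1 + (n1 + 1) + (n2 + 1) + n3 + 1 := by
      simp only [List.length_append, h.l0, h.l1, h.l2, h.l3]; omega
    rw [e] at h1
    exact h1
  have k1 := h.g0.1 n0 (by omega) (by omega)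
  have k2 := h.g1.1 (n0 + 1) (by omega) (by omega)
  have k3 := h.g1.1 (n0 + 1 + n1) (by omega) (by omega)
  have k4 : car (a (n0 + 1 + n1 + 1)) = plane q2 := by
    rw [e1]; exact h.g2.1 _ (by omega) (by omega)
  have k5 := h.g2.1 (n0 + 1 + (n1 + 1) + n2) (by omega) (by omega)
  have k6 : car (a (n0 + 1 + (n1 + 1) + n2 + 1)) = line q3 := by
    rw [e2]; exact h.g3.1 _ (by omega) (by omega)
  have k7 := h.g3.1 (n0 + 1 + (n1 + 1) + (n2 + 1) + n3) (by omega) (by omega)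
  have k8 : car (a (n0 + 1 + (n1 + 1) + (n2 + 1) + n3 + 1)) = plane q0 := by
    rw [hwrap]; exact h.g0.1 0 (by omega) (by omega)
  have f0 := F_PL h.bd hne h.lm n0 k1 k2
  have f1 := F_LP h.bd hne h.lm (n0 + 1 + n1) k3 k4
  have f2 := F_PL h.bd hne h.lm (n0 + 1 + (n1 + 1) + n2) k5 k6
  have f3 := F_LP h.bd hne h.lm (n0 + 1 + (n1 + 1) + (n2 + 1) + n3) k7 k8
  have g0 := sum_side hA h.bd hne h.lm h.g0
  have g1 := sum_side hA h.bd hne h.lm h.g1
  have g2 := sum_side hA h.bd hne h.lm h.g2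
  have g3 := sum_side hA h.bd hne h.lm h.g3
  have p0 : (0 : ℝ) ≤ (n0 : ℝ) := Nat.cast_nonneg _
  have p1 : (0 : ℝ) ≤ (n1 : ℝ) := Nat.cast_nonneg _
  have p2 : (0 : ℝ) ≤ (n2 : ℝ) := Nat.cast_nonneg _
  have p3 : (0 : ℝ) ≤ (n3 : ℝ) := Nat.cast_nonneg _
  rw [Nat.zero_add] at g0
  have ht := h.tot
  have c0 : F W (n0 + 1) ≤ 1.95 := by rcases f0 with ⟨-, -, f⟩ | f <;> linarith
  have c1 : F W (n0 + 1 + n1 + 1) ≤ 1.95 := by rcases f1 with ⟨-, -, f⟩ | f <;> linarith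
  have c2 : F W (n0 + 1 + (n1 + 1) + n2 + 1) ≤ 1.95 := by rcases f2 with ⟨-, -, f⟩ | f <;> linarith
  have c3 : F W (n0 + 1 + (n1 + 1) + (n2 + 1) + n3 + 1) ≤ 1.95 := by
    rcases f3 with ⟨-, -, f⟩ | f <;> linarith
  rcases f0 with ⟨-, f0, -⟩ | f0
  swap
  · linarith
  rcases f1 with ⟨-, f1, -⟩ | f1
  swap
  · linarith
  rcases f2 with ⟨-, f2, -⟩ | f2
  swap
  · linarith
  rcases f3 with ⟨-, f3, -⟩ | f3
  swap
  · linarith
  rw [e1] at f1
  rw [hwrap] at f3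
  have hh : ∀ x y : Knd, (x = um ∨ x = vp) → (y = up ∨ y = vm) → 22 ≤ cd x y := by
    rintro x y (rfl | rfl) (rfl | rfl) <;> decide
  have t0 := side_turn hA h.bd hne h.lm h.g0 (by rw [Nat.zero_add]; exact hh _ _ f3 f0)
  have t2 := side_turn hA h.bd hne h.lm h.g2 (hh _ _ f1 f2)
  rw [Nat.zero_add] at t0
  linarith

end Pool.Agent.ABA.B.H89
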