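import Pool.Agent.Helper83_ABA.Geo3

/-!
# STRIP (MP_d857f1_al, part B, module GEO)
-/

set_option autoImplicit false

namespace Pool.Agent.ABA.B.H89

open Knd Pool.Agent.ABA Pool.Agent.ABA.B Pool.Agent.ABA.B.TG Pool.Agent.ABA.B.H17
  Pool.Agent.ABA.B.H83

variable {G : Type} [Group G] {A B : Subgroup G} {g : G}
variable {hg : ¬ IsABA A B g} {hgeo : Geo A B} {hι : Function.Injective (Pι A B g)}
variable {T : XV A B g → Prop}

theorem isP_getLast {V E : Type} {S : TG V E} {x y : V} {w : List E} (h : S.IsP x w y)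
    (hw : w ≠ []) : S.src (S.inv (w.getLast hw)) = y := by
  induction w generalizing x with
  | nil => exact absurd rfl hw
  | cons e w ih =>
    cases w with
    | nil => exact h.2
    | cons f w =>
      rw [List.getLast_cons (List.cons_ne_nil f w)]
      exact ih h.2 _

theorem strip_ (M : Mods) (hSC : (XX hg hgeo hι).SC) (hA : ∀ x ∈ A, ∀ y ∈ A, x * y = y * x) :
    StripStmt hg hgeo hι := by
  intro T hT x y e e' δ hp hd he' hne hno
  induction δ generalizing x e e' with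
  | nil =>
    have h1 : xsrc e = x := hp.1
    have h2 : (XX hg hgeo hι).tgt e = y := hp.2
    have hPe : Proj hg hgeo hι T x e := by
      refine ⟨h1, ?_⟩
      rw [h2]
      simpa using hd
    obtain ⟨c, hc⟩ := (proj_ M hSC hA T hT x e e' hPe he').resolve_left (Ne.symm hne)
    have t1 := (XX hg hgeo hι).tri_rot ((XX hg hgeo hι).tri_swap hc)
    refine ⟨(XX hg hgeo hι).inv c, ⟨_, t1⟩, ?_⟩
    rw [tgt_inv]
    have e1 := Tri.mid' hc
    rw [e1]
    have h5 := he'.2
    simp only [List.length_nil] at hd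
    omega
  | cons f δ ih =>
    have h1 : xsrc e = x := hp.1
    have h2 : (XX hg hgeo hι).IsP ((XX hg hgeo hι).tgt e) (f :: δ) y := hp.2
    have h3 := dT_path hT h2
    have h4 := (dT_step (hg := hg) (hgeo := hgeo) (hι := hι) hT e).1
    rw [h1] at h4
    simp only [List.length_cons] at h3 hd
    have hPe : Proj hg hgeo hι T x e := ⟨h1, by omega⟩
    obtain ⟨c, hc⟩ := (proj_ M hSC hA T hT x e e' hPe he').resolve_left (Ne.symm hne)
    have t1 := (XX hg hgeo hι).tri_rot ((XX hg hgeo hι).tri_swap hc)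
    have e1 := Tri.mid' hc
    have e2 := Tri.tgt' hc
    have s1 : xsrc ((XX hg hgeo hι).inv c) = (XX hg hgeo hι).tgt e := e2
    have s2 : (XX hg hgeo hι).tgt ((XX hg hgeo hι).inv c) = (XX hg hgeo hι).tgt e' := by
      rw [tgt_inv]; exact e1
    have h5 := he'.2
    have h6 := hPe.2
    obtain ⟨f0, f0', hT0, hP0, -, -⟩ := edge_ M hSC hA T hT ((XX hg hgeo hι).inv c)
      (by rw [s1, s2]; omega) (by rw [s1]; omega)
    rw [s1] at hP0
    by_cases hf : f0 = f
    · exfalso
      subst hf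
      exact hno [] e f0 δ _ rfl ⟨⟨_, t1⟩, ⟨_, hT0⟩⟩
    · obtain ⟨h, hh1, hh2⟩ := ih ((XX hg hgeo hι).tgt e) f f0 h2 (by omega) hP0 hf (by
        intro l a b r n hl hcor
        exact hno (e :: l) a b r n (by rw [hl]; rfl) hcor)
      refine ⟨h, ?_, hh2⟩
      rw [List.getLast_cons (List.cons_ne_nil f δ)]
      exact hh1

theorem stripPl_ (M : Mods) (hSC : (XX hg hgeo hι).SC)
    (hA : ∀ x ∈ A, ∀ y ∈ A, x * y = y * x) : StripPlStmt hg hgeo hι := by
  intro c hc x y e e' δ hp hy hl he' hne hno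
  have h0 : dT hg hgeo hι (On c) y = 0 := dT_self hy
  obtain ⟨h, hh1, hh2⟩ := strip_ M hSC hA (On c) (Tgt.pl c hc) x y e e' δ hp
    (by rw [h0, Nat.zero_add]; exact hl) he' hne hno
  refine ⟨h, hh1, ?_⟩
  have h3 : On c ((XX hg hgeo hι).tgt h) := dT_zero (Tgt.pl c hc) (by rw [hh2, h0])
  have h4 : xsrc h = y := by
    obtain ⟨k, hk⟩ := hh1
    have h5 : xsrc h = xsrc (xinv ((e :: δ).getLast (List.cons_ne_nil e δ))) := Tri.src' hk
    rw [h5]
    exact (isP_getLast hp (List.cons_ne_nil e δ))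
  exact (adj_ M hSC hA).2 c h (by rw [h4]; exact hy) h3

theorem flip_ (M : Mods) (hSC : (XX hg hgeo hι).SC)
    (hA : ∀ x ∈ A, ∀ y ∈ A, x * y = y * x) : FlipStmt hg hgeo hι := by
  intro x y e e' δ hp hl hs' hd' hne
  by_contra hcon
  push Not at hcon
  have h0 : dT hg hgeo hι (fun z => z = y) y = 0 := dT_self rfl
  obtain ⟨h, hh1, hh2⟩ := strip_ M hSC hA (fun z => z = y) (Tgt.vtx y) x y e e' δ hp
    (by rw [h0, Nat.zero_add, dT_vtx]; exact hl)
    ⟨hs', by rw [dT_vtx, dT_vtx]; exact hd'⟩ hne (by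
      intro l a b r n h1 h2
      exact hcon l a b r n h1 h2.1 h2.2)
  have h3 : (XX hg hgeo hι).tgt h = y := dT_zero (T := fun z => z = y) (Tgt.vtx y)
    (by rw [hh2, h0])
  have h4 : xsrc h = y := by
    obtain ⟨k, hk⟩ := hh1
    have h5 : xsrc h = xsrc (xinv ((e :: δ).getLast (List.cons_ne_nil e δ))) := Tri.src' hk
    rw [h5]
    exact (isP_getLast hp (List.cons_ne_nil e δ))
  exact no_loop hSC h (show xsrc h = _ by rw [h4, h3])

end Pool.Agent.ABA.B.H89
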